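import Mathlib

set_option autoImplicit false

open Set Topology

namespace Pool.Agent.Helper166.Continua

variable {X : Type*} [TopologicalSpace X]


/-- The intersection of a directed family of compact connected sets is connected. -/
theorem iInter_directed_isPreconnected [CompactSpace X] [T2Space X] {ι : Type*} [Nonempty ι]
    (K : ι → Set X) (hdir : Directed (· ⊇ ·) K) (hc : ∀ i, IsClosed (K i))
    (hconn : ∀ i, IsPreconnected (K i)) : IsPreconnected (⋂ i, K i) := by
  have hcl : IsClosed (⋂ i, K i) := isClosed_iInter hc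
  rw [isPreconnected_iff_subset_of_fully_disjoint_closed hcl]
  intro a b ha hb hab habd
  rcases normal_separation ha hb habd with ⟨u, v, hu, hv, hau, hbv, huv⟩
  -- some K i is inside u ∪ v
  obtain ⟨i, hi⟩ : ∃ i, K i ⊆ u ∪ v := by
    by_contra hcon
    push Not at hcon
    have hne : ∀ i, (K i ∩ (u ∪ v)ᶜ).Nonempty := by
      intro i
      obtain ⟨x, hx, hx'⟩ := Set.not_subset.1 (hcon i)
      exact ⟨x, hx, hx'⟩
    have := IsCompact.nonempty_iInter_of_directed_nonempty_isCompact_isClosed
      (fun i => K i ∩ (u ∪ v)ᶜ)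
      (fun i j => by
        obtain ⟨k, hk1, hk2⟩ := hdir i j
        exact ⟨k, Set.inter_subset_inter_left _ hk1, Set.inter_subset_inter_left _ hk2⟩)
      hne
      (fun i => ((hc i).inter (hu.union hv).isClosed_compl).isCompact)
      (fun i => (hc i).inter (hu.union hv).isClosed_compl)
    obtain ⟨x, hx⟩ := this
    have hx1 : x ∈ ⋂ i, K i := Set.mem_iInter.2 fun i => (Set.mem_iInter.1 hx i).1
    have hx2 : x ∉ u ∪ v := (Set.mem_iInter.1 hx (Classical.arbitrary ι)).2
    exact hx2 ((hab.trans (Set.union_subset_union hau hbv)) hx1)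
  rcases (hconn i).subset_or_subset hu hv huv hi with h | h
  · left
    intro x hx
    rcases hab hx with h1 | h1
    · exact h1
    · exact absurd (hbv h1) (fun h2 => Set.disjoint_left.1 huv (h (Set.mem_iInter.1 hx i)) h2)
  · right
    intro x hx
    rcases hab hx with h1 | h1
    · exact absurd (hau h1) (fun h2 => Set.disjoint_left.1 huv h2 (h (Set.mem_iInter.1 hx i)))
    · exact h1

theorem iInter_antitone_isPreconnected [CompactSpace X] [T2Space X]
    (K : ℕ → Set X) (hanti : Antitone K) (hc : ∀ i, IsClosed (K i))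
    (hconn : ∀ i, IsPreconnected (K i)) : IsPreconnected (⋂ i, K i) :=
  iInter_directed_isPreconnected K
    (fun i j => ⟨max i j, hanti (le_max_left _ _), hanti (le_max_right _ _)⟩) hc hconn

/-- A component of a compact set missing a closed set `C` is separated from `C`. -/
theorem exists_separation [T2Space X] [CompactSpace X] {K C : Set X} (hK : IsClosed K)
    (hC : IsClosed C) {x : X} (hx : x ∈ K)
    (h : ∀ z ∈ connectedComponentIn K x, z ∉ C) :
    ∃ N M : Set X, IsClosed N ∧ IsClosed M ∧ N ∪ M = K ∧ Disjoint N M ∧ x ∈ N ∧ Disjoint N C := by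
  have : CompactSpace K := isCompact_iff_compactSpace.1 hK.isCompact
  set x' : K := ⟨x, hx⟩ with hx'
  have hcomp := connectedComponent_eq_iInter_isClopen x'
  have hin := connectedComponentIn_eq_image (F := K) hx
  -- find a clopen set missing C
  obtain ⟨Z, hZ1, hZ2, hZ3⟩ : ∃ Z : Set K, IsClopen Z ∧ x' ∈ Z ∧ Z ∩ ((↑) ⁻¹' C) = ∅ := by
    by_contra hcon
    push Not at hcon
    have : Nonempty { s : Set K // IsClopen s ∧ x' ∈ s } := ⟨⟨univ, isClopen_univ, mem_univ _⟩⟩
    have hCc : IsClosed ((↑) ⁻¹' C : Set K) := hC.preimage continuous_subtype_val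
    have := IsCompact.nonempty_iInter_of_directed_nonempty_isCompact_isClosed
      (fun s : { s : Set K // IsClopen s ∧ x' ∈ s } => (s : Set K) ∩ ((↑) ⁻¹' C))
      (fun s t => ⟨⟨s.1 ∩ t.1, s.2.1.inter t.2.1, s.2.2, t.2.2⟩,
        Set.inter_subset_inter_left _ Set.inter_subset_left,
        Set.inter_subset_inter_left _ Set.inter_subset_right⟩)
      (fun s => by
        have := hcon s.1 s.2.1 s.2.2
        exact this)
      (fun s => (s.2.1.1.inter hCc).isCompact)
      (fun s => s.2.1.1.inter hCc)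
    obtain ⟨z, hz⟩ := this
    have hz1 : z ∈ connectedComponent x' := by
      rw [hcomp]
      exact Set.mem_iInter.2 fun s => (Set.mem_iInter.1 hz s).1
    have hz2 : (z : X) ∈ C := (Set.mem_iInter.1 hz (Classical.arbitrary _)).2
    refine h z ?_ hz2
    rw [hin]
    exact ⟨z, hz1, rfl⟩
  refine ⟨(↑) '' Z, (↑) '' Zᶜ, ?_, ?_, ?_, ?_, ⟨x', hZ2, rfl⟩, ?_⟩
  · exact hK.isClosedMap_subtype_val _ hZ1.1
  · exact hK.isClosedMap_subtype_val _ hZ1.2.isClosed_compl
  · rw [← Set.image_union, Set.union_compl_self, Set.image_univ, Subtype.range_coe]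
  · rw [Set.disjoint_image_iff Subtype.val_injective]
    exact disjoint_compl_right
  · rw [Set.disjoint_left]
    rintro _ ⟨z, hz, rfl⟩ hzC
    have : z ∈ Z ∩ ((↑) ⁻¹' C) := ⟨hz, hzC⟩
    rw [hZ3] at this
    exact this

/-- Connected union through the closure. -/
theorem isPreconnected_union_of_closure {A R : Set X} (hA : IsPreconnected A)
    (hR : IsPreconnected R) (h : (closure A ∩ R).Nonempty) : IsPreconnected (A ∪ R) := by
  obtain ⟨z, hz1, hz2⟩ := h
  have h1 : IsPreconnected (insert z A) :=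
    hA.subset_closure (Set.subset_insert _ _) (Set.insert_subset hz1 subset_closure)
  have h2 : IsPreconnected (insert z A ∪ R) := h1.union z (Set.mem_insert _ _) hz2 hR
  have : insert z A ∪ R = A ∪ R := by
    ext y
    simp only [Set.mem_union, Set.mem_insert_iff]
    constructor
    · rintro ((rfl | h) | h)
      · exact Or.inr hz2
      · exact Or.inl h
      · exact Or.inr h
    · rintro (h | h)
      · exact Or.inl (Or.inr h)
      · exact Or.inr h
  rwa [this] at h2

/-- A preconnected set covered by two disjoint closed sets. -/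
theorem isPreconnected_closed_cases {A P Q : Set X} (hA : IsPreconnected A) (hP : IsClosed P)
    (hQ : IsClosed Q) (hAPQ : A ⊆ P ∪ Q) (hd : Disjoint P Q) : A ⊆ P ∨ A ⊆ Q :=
  (isPreconnected_iff_subset_of_disjoint_closed.1 hA) P Q hP hQ hAPQ (by
    rw [hd.inter_eq, Set.inter_empty])

/-- Boundary bumping. -/
theorem touch [T2Space X] [CompactSpace X] {A V : Set X} (hA : IsClosed A)
    (hAc : IsPreconnected A) (hV : IsOpen V) {x : X} (hx : x ∈ A) (hxV : x ∉ V)
    (hAV : (A ∩ V).Nonempty) :
    (connectedComponentIn (A \ V) x ∩ closure V).Nonempty := by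
  by_contra hcon
  have hcl : IsClosed (A \ V) := hA.sdiff hV
  obtain ⟨N, M, hN, hM, hNM, hd, hxN, hNC⟩ := exists_separation hcl isClosed_closure
    (⟨hx, hxV⟩ : x ∈ A \ V) (C := closure V) (fun z hz hz' => hcon ⟨z, hz, hz'⟩)
  have hcov : A ⊆ N ∪ (M ∪ closure V) := by
    intro y hy
    by_cases hyV : y ∈ V
    · exact Or.inr (Or.inr (subset_closure hyV))
    · have : y ∈ N ∪ M := by rw [hNM]; exact ⟨hy, hyV⟩
      rcases this with h | h
      · exact Or.inl h
      · exact Or.inr (Or.inl h)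
  have hdis : Disjoint N (M ∪ closure V) := Set.disjoint_union_right.2 ⟨hd, hNC⟩
  rcases isPreconnected_closed_cases hAc hN (hM.union isClosed_closure) hcov hdis with h | h
  · obtain ⟨y, hy, hyV⟩ := hAV
    exact Set.disjoint_left.1 hNC (h hy) (subset_closure hyV)
  · exact Set.disjoint_left.1 hdis hxN (h hx)

theorem isClosed_connectedComponentIn' {F : Set X} (hF : IsClosed F) (x : X) :
    IsClosed (connectedComponentIn F x) := by
  by_cases hx : x ∈ F
  · have h1 : closure (connectedComponentIn F x) ⊆ connectedComponentIn F x := by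
      apply IsPreconnected.subset_connectedComponentIn
      · exact isPreconnected_connectedComponentIn.closure
      · exact subset_closure (mem_connectedComponentIn hx)
      · exact closure_minimal (connectedComponentIn_subset _ _) hF
    exact isClosed_of_closure_subset h1
  · rw [connectedComponentIn_eq_empty hx]
    exact isClosed_empty


/-- A *member*: a nonempty open set whose complement is a subcontinuum. -/
structure Mem (W : Set X) : Prop where
  op : IsOpen W
  ne : W.Nonempty
  co : IsConnected Wᶜ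

theorem Mem.ne_univ {W : Set X} (h : Mem W) : W ≠ univ := by
  intro hW
  have := h.co.nonempty
  rw [hW, Set.compl_univ] at this
  exact this.ne_empty rfl

variable (X) in
/-- The space is exhausted by an increasing sequence of proper subcontinua. -/
def Exh : Prop :=
  ∃ K : ℕ → Set X, Monotone K ∧ (∀ n, IsClosed (K n)) ∧ (∀ n, IsConnected (K n)) ∧
    (∀ n, K n ≠ univ) ∧ ⋃ n, K n = univ

theorem Mem.inter {V V' : Set X} (h : Mem V) (h' : Mem V') (hne : (V ∩ V').Nonempty)
    (hun : (Vᶜ ∩ V'ᶜ).Nonempty) : Mem (V ∩ V') := by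
  refine ⟨h.op.inter h'.op, hne, ?_⟩
  rw [Set.compl_inter]
  exact IsConnected.union hun h.co h'.co

/-- Splitting a member. -/
theorem Mem.split [ConnectedSpace X] {W A B : Set X} (h : Mem W)
    (hA : IsOpen A) (hB : IsOpen B) (hAne : A.Nonempty) (hAB : Disjoint A B)
    (hW : A ∪ B = W) : Mem A := by
  refine ⟨hA, hAne, ?_⟩
  have hAc : Aᶜ = Wᶜ ∪ B := by
    rw [← hW]
    ext x
    simp only [Set.mem_compl_iff, Set.mem_union, not_or]
    constructor
    · intro hx
      by_cases hxB : x ∈ B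
      · exact Or.inr hxB
      · exact Or.inl ⟨hx, hxB⟩
    · rintro (⟨h1, _⟩ | h1)
      · exact h1
      · exact fun h2 => Set.disjoint_left.1 hAB h2 h1
  refine ⟨?_, ?_⟩
  · obtain ⟨x, hx⟩ := h.co.nonempty
    exact ⟨x, by rw [hAc]; exact Or.inl hx⟩
  rw [isPreconnected_iff_subset_of_fully_disjoint_closed hA.isClosed_compl]
  -- key: if Wᶜ ⊆ P then Aᶜ ⊆ P
  have key : ∀ P Q : Set X, IsClosed P → IsClosed Q → Aᶜ ⊆ P ∪ Q → Disjoint P Q → Wᶜ ⊆ P →
      Aᶜ ⊆ P := by
    intro P Q hP hQ hPQ hd hWP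
    by_contra hcon
    obtain ⟨z, hz, hzP⟩ := Set.not_subset.1 hcon
    have heq : Q ∩ Aᶜ = B ∩ Pᶜ := by
      ext x
      constructor
      · rintro ⟨h1, h2⟩
        have hxP : x ∉ P := fun h3 => Set.disjoint_left.1 hd h3 h1
        refine ⟨?_, hxP⟩
        rw [hAc] at h2
        rcases h2 with h2 | h2
        · exact absurd (hWP h2) hxP
        · exact h2
      · rintro ⟨h1, h2⟩
        have h3 : x ∈ Aᶜ := by rw [hAc]; exact Or.inr h1
        exact ⟨(hPQ h3).resolve_left h2, h3⟩
    have hclopen : IsClopen (Q ∩ Aᶜ) :=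
      ⟨hQ.inter hA.isClosed_compl, by rw [heq]; exact hB.inter hP.isOpen_compl⟩
    rcases isClopen_iff.1 hclopen with h1 | h1
    · have : z ∈ Q ∩ Aᶜ := ⟨(hPQ hz).resolve_left hzP, hz⟩
      rw [h1] at this
      exact this
    · obtain ⟨a, ha⟩ := hAne
      have : a ∈ Q ∩ Aᶜ := by rw [h1]; exact mem_univ _
      exact this.2 ha
  intro P Q hP hQ hPQ hd
  have hWsub : Wᶜ ⊆ P ∪ Q := fun x hx => hPQ (by rw [hAc]; exact Or.inl hx)
  rcases isPreconnected_closed_cases h.co.isPreconnected hP hQ hWsub hd with h1 | h1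
  · exact Or.inl (key P Q hP hQ hPQ hd h1)
  · exact Or.inr (key Q P hQ hP (by rwa [Set.union_comm]) hd.symm h1)

/-- An infinite splitting chain gives an exhaustion. -/
theorem exh_of_chain [CompactSpace X] [T2Space X] [ConnectedSpace X] (B : ℕ → Set X)
    (hB : ∀ n, Mem (B n)) (hsub : ∀ n, B (n + 1) ⊆ B n)
    (hop : ∀ n, IsOpen (B n \ B (n + 1))) (hne : ∀ n, (B n \ B (n + 1)).Nonempty) : Exh X := by
  have hanti : Antitone B := antitone_nat_of_succ_le hsub
  have hopen : ∀ n k, IsOpen (B n \ B (n + k)) := by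
    intro n k
    induction k with
    | zero => simp
    | succ k ih =>
      have : B n \ B (n + (k + 1)) = (B n \ B (n + k)) ∪ (B (n + k) \ B (n + k + 1)) := by
        ext x
        simp only [Set.mem_sdiff, Set.mem_union]
        constructor
        · rintro ⟨h1, h2⟩
          by_cases h3 : x ∈ B (n + k)
          · exact Or.inr ⟨h3, h2⟩
          · exact Or.inl ⟨h1, h3⟩
        · rintro (⟨h1, h2⟩ | ⟨h1, h2⟩)
          · exact ⟨h1, fun h3 => h2 (hanti (by omega) h3)⟩
          · exact ⟨hanti (by omega) h1, h2⟩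
      rw [this]
      exact ih.union (hop _)
  have hconn : ∀ n k, IsConnected ((B n)ᶜ ∪ B (n + (k + 1))) := by
    intro n k
    have hm : Mem (B n \ B (n + (k + 1))) := by
      refine (hB n).split (hopen n (k + 1)) (hB (n + (k + 1))).op ?_ Set.disjoint_sdiff_left
        (Set.sdiff_union_of_subset (hanti (by omega)))
      obtain ⟨x, hx1, hx2⟩ := hne n
      exact ⟨x, hx1, fun h3 => hx2 (hanti (by omega) h3)⟩
    have := hm.co
    rwa [Set.sdiff_eq, Set.compl_inter, compl_compl] at this
  have hcl : ∀ n k, IsClosed ((B n)ᶜ ∪ B (n + (k + 1))) := by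
    intro n k
    have : (B n)ᶜ ∪ B (n + (k + 1)) = (B n \ B (n + (k + 1)))ᶜ := by
      rw [Set.sdiff_eq, Set.compl_inter, compl_compl]
    rw [this]
    exact (hopen n (k + 1)).isClosed_compl
  have hK : ∀ n, (B n)ᶜ ∪ ⋂ m, B m = ⋂ k, ((B n)ᶜ ∪ B (n + (k + 1))) := by
    intro n
    rw [← Set.union_iInter]
    congr 1
    ext x
    simp only [Set.mem_iInter]
    exact ⟨fun h k => h _, fun h m => hanti (by omega : m ≤ n + (m + 1)) (h m)⟩
  refine ⟨fun n => (B n)ᶜ ∪ ⋂ m, B m, ?_, ?_, ?_, ?_, ?_⟩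
  · intro m n hmn
    exact Set.union_subset_union_left _ (Set.compl_subset_compl.2 (hanti hmn))
  · intro n
    simp only [hK]
    exact isClosed_iInter (hcl n)
  · intro n
    refine ⟨?_, ?_⟩
    · obtain ⟨x, hx⟩ := (hB n).co.nonempty
      exact ⟨x, Or.inl hx⟩
    simp only [hK]
    refine iInter_antitone_isPreconnected _ ?_ (hcl n) (fun k => (hconn n k).isPreconnected)
    intro k l hkl
    exact Set.union_subset_union_right _ (hanti (by omega))
  · intro n hn
    obtain ⟨x, hx1, hx2⟩ := hne n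
    have : x ∈ (B n)ᶜ ∪ ⋂ m, B m := by
      have := mem_univ x
      rwa [← hn] at this
    rcases this with h | h
    · exact h hx1
    · exact hx2 (Set.mem_iInter.1 h _)
  · ext x
    simp only [Set.mem_iUnion, Set.mem_univ, iff_true]
    by_cases hx : ∀ m, x ∈ B m
    · exact ⟨0, Or.inr (Set.mem_iInter.2 hx)⟩
    · push Not at hx
      obtain ⟨m, hm⟩ := hx
      exact ⟨m, Or.inl hm⟩

/-- Without an exhaustion, every member contains a preconnected member. -/
theorem exists_preconnected_mem [CompactSpace X] [T2Space X] [ConnectedSpace X]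
    (hex : ¬ Exh X) {W : Set X} (hW : Mem W) :
    ∃ V, Mem V ∧ V ⊆ W ∧ IsPreconnected V := by
  by_contra hcon
  push Not at hcon
  -- splitting step
  have step : ∀ U : Set X, Mem U ∧ U ⊆ W → ∃ U' : Set X, (Mem U' ∧ U' ⊆ W) ∧ U' ⊆ U ∧
      IsOpen (U \ U') ∧ (U \ U').Nonempty := by
    rintro U ⟨hU, hUW⟩
    have hnp := hcon U hU hUW
    unfold IsPreconnected at hnp
    push Not at hnp
    obtain ⟨P, Q, hP, hQ, hPQ, hUP, hUQ, hUPQ⟩ := hnp
    have h1 : U \ (U ∩ Q) = U ∩ P := by
      ext x
      constructor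
      · rintro ⟨h1, h2⟩
        exact ⟨h1, (hPQ h1).resolve_right fun h3 => h2 ⟨h1, h3⟩⟩
      · rintro ⟨h1, h2⟩
        refine ⟨h1, fun h3 => ?_⟩
        have : x ∈ U ∩ (P ∩ Q) := ⟨h1, h2, h3.2⟩
        rw [hUPQ] at this
        exact this
    refine ⟨U ∩ Q, ⟨?_, Set.inter_subset_left.trans hUW⟩, Set.inter_subset_left, ?_, ?_⟩
    · refine hU.split (A := U ∩ Q) (B := U ∩ P) (hU.op.inter hQ) (hU.op.inter hP) hUQ ?_ ?_
      · rw [← h1]
        exact Set.disjoint_sdiff_right
      · rw [← h1]
        exact Set.union_sdiff_cancel Set.inter_subset_left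
    · rw [h1]
      exact hU.op.inter hP
    · rw [h1]
      exact hUP
  choose! f hf1 hf2 hf3 hf4 using step
  let B : ℕ → Set X := fun n => f^[n] W
  have hB0 : ∀ n, Mem (B n) ∧ B n ⊆ W := by
    intro n
    induction n with
    | zero => exact ⟨hW, subset_rfl⟩
    | succ n ih =>
      have : B (n + 1) = f (B n) := Function.iterate_succ_apply' f n W
      rw [this]
      exact hf1 _ ih
  have hBs : ∀ n, B (n + 1) = f (B n) := fun n => Function.iterate_succ_apply' f n W
  refine hex (exh_of_chain B (fun n => (hB0 n).1) ?_ ?_ ?_)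
  · intro n
    rw [hBs]
    exact hf2 _ (hB0 n)
  · intro n
    rw [hBs]
    exact hf3 _ (hB0 n)
  · intro n
    rw [hBs]
    exact hf4 _ (hB0 n)


/-- An atomic member: any two members inside it intersect. -/
def Atomic (W : Set X) : Prop :=
  Mem W ∧ ∀ U U' : Set X, Mem U → Mem U' → U ⊆ W → U' ⊆ W → (U ∩ U').Nonempty

/-- Either there is an infinite sequence of pairwise disjoint members, or finitely many disjoint
atomic members are met by all members. -/
theorem dichotomy :
    (∃ V : ℕ → Set X, (∀ n, Mem (V n)) ∧ ∀ m n, m ≠ n → Disjoint (V m) (V n)) ∨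
    (∃ T : Set (Set X), T.Finite ∧ (∀ W ∈ T, Atomic W) ∧
      (∀ W ∈ T, ∀ W' ∈ T, W ≠ W' → Disjoint W W') ∧
      ∀ V, Mem V → ∃ W ∈ T, (V ∩ W).Nonempty) := by
  by_cases hat : ∀ W : Set X, Mem W → ∃ U, Atomic U ∧ U ⊆ W
  · -- maximal family of disjoint atomic members
    obtain ⟨T, hTmax⟩ : ∃ T, Maximal (fun T : Set (Set X) => (∀ W ∈ T, Atomic W) ∧
        (∀ W ∈ T, ∀ W' ∈ T, W ≠ W' → Disjoint W W')) T := by
      refine zorn_subset {T : Set (Set X) | (∀ W ∈ T, Atomic W) ∧
        (∀ W ∈ T, ∀ W' ∈ T, W ≠ W' → Disjoint W W')} ?_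
      intro c hc hchain
      refine ⟨⋃₀ c, ⟨?_, ?_⟩, fun s hs => Set.subset_sUnion_of_mem hs⟩
      · rintro W ⟨t, ht, hWt⟩
        exact (hc ht).1 W hWt
      · rintro W ⟨t, ht, hWt⟩ W' ⟨t', ht', hWt'⟩ hne
        rcases hchain.total ht ht' with h | h
        · exact (hc ht').2 W (h hWt) W' hWt' hne
        · exact (hc ht).2 W hWt W' (h hWt') hne
    obtain ⟨⟨hT1, hT2⟩, hTm⟩ := hTmax
    by_cases hfin : T.Finite
    · right
      refine ⟨T, hfin, hT1, hT2, ?_⟩
      intro V hV
      by_contra hcon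
      push Not at hcon
      obtain ⟨U, hU, hUV⟩ := hat V hV
      have hdis : ∀ W ∈ T, Disjoint U W := by
        intro W hW
        have := hcon W hW
        rw [Set.disjoint_iff_inter_eq_empty]
        exact Set.subset_eq_empty (Set.inter_subset_inter_left _ hUV) this
      have hmem : U ∈ T := by
        refine hTm (y := insert U T) ⟨?_, ?_⟩ (Set.subset_insert _ _) (Set.mem_insert _ _)
        · intro W hW
          rcases hW with rfl | hW
          · exact hU
          · exact hT1 W hW
        · intro W hW W' hW' hne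
          rcases hW with rfl | hW <;> rcases hW' with rfl | hW'
          · exact absurd rfl hne
          · exact hdis W' hW'
          · exact (hdis W hW).symm
          · exact hT2 W hW W' hW' hne
      have h1 := hdis U hmem
      rw [disjoint_self] at h1
      exact hU.1.ne.ne_empty h1
    · left
      have hinf : T.Infinite := hfin
      let e := hinf.natEmbedding T
      refine ⟨fun n => (e n : Set X), fun n => (hT1 _ (e n).2).1, ?_⟩
      intro m n hmn
      refine hT2 _ (e m).2 _ (e n).2 ?_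
      intro h
      exact hmn (e.injective (Subtype.ext h))
  · push Not at hat
    obtain ⟨W, hW, hno⟩ := hat
    left
    have step : ∀ U : Set X, Mem U ∧ U ⊆ W → ∃ U' U'' : Set X, (Mem U' ∧ U' ⊆ W) ∧
        (Mem U'' ∧ U'' ⊆ W) ∧ U' ⊆ U ∧ U'' ⊆ U ∧ Disjoint U' U'' := by
      rintro U ⟨hU, hUW⟩
      have hna : ¬ Atomic U := fun h => hno U h hUW
      unfold Atomic at hna
      push Not at hna
      obtain ⟨P, Q, hP, hQ, hPU, hQU, hPQ⟩ := hna hU
      exact ⟨P, Q, ⟨hP, hPU.trans hUW⟩, ⟨hQ, hQU.trans hUW⟩, hPU, hQU,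
        Set.disjoint_iff_inter_eq_empty.2 hPQ⟩
    choose! f g hf hg hfU hgU hfg using step
    let B : ℕ → Set X := fun n => f^[n] W
    have hBs : ∀ n, B (n + 1) = f (B n) := fun n => Function.iterate_succ_apply' f n W
    have hB0 : ∀ n, Mem (B n) ∧ B n ⊆ W := by
      intro n
      induction n with
      | zero => exact ⟨hW, subset_rfl⟩
      | succ n ih =>
        rw [hBs]
        exact hf _ ih
    have hanti : Antitone B := by
      refine antitone_nat_of_succ_le fun n => ?_
      rw [hBs]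
      exact hfU _ (hB0 n)
    have key : ∀ m n, m < n → Disjoint (g (B m)) (g (B n)) := by
      intro m n hmn
      have h1 : g (B n) ⊆ f (B m) := by
        rw [← hBs]
        exact (hgU _ (hB0 n)).trans (hanti (by omega))
      exact (hfg _ (hB0 m)).symm.mono_right h1
    refine ⟨fun n => g (B n), fun n => (hg _ (hB0 n)).1, ?_⟩
    intro m n hmn
    rcases lt_or_gt_of_ne hmn with h | h
    · exact key m n h
    · exact (key n m h).symm

/-- A sequence of members inside an atomic member with empty intersection yields an exhaustion. -/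
theorem exh_of_atomic {W : Set X} (hW : Atomic W) (v : ℕ → Set X) (hv : ∀ n, Mem (v n))
    (hvW : ∀ n, v n ⊆ W) (hemp : ⋂ n, v n = ∅) : Exh X := by
  let O : ℕ → Set X := fun n => Nat.rec (v 0) (fun n s => s ∩ v (n + 1)) n
  have hOs : ∀ n, O (n + 1) = O n ∩ v (n + 1) := fun n => rfl
  have hO : ∀ n, Mem (O n) ∧ O n ⊆ W := by
    intro n
    induction n with
    | zero => exact ⟨hv 0, hvW 0⟩
    | succ n ih =>
      rw [hOs]
      refine ⟨ih.1.inter (hv _) (hW.2 _ _ ih.1 (hv _) ih.2 (hvW _)) ?_,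
        Set.inter_subset_left.trans ih.2⟩
      obtain ⟨x, hx⟩ := hW.1.co.nonempty
      exact ⟨x, fun h => hx (ih.2 h), fun h => hx (hvW _ h)⟩
  have hOv : ∀ n, O n ⊆ v n := by
    intro n
    cases n with
    | zero => exact subset_rfl
    | succ n => rw [hOs]; exact Set.inter_subset_right
  refine ⟨fun n => (O n)ᶜ, ?_, ?_, ?_, ?_, ?_⟩
  · refine monotone_nat_of_le_succ fun n => ?_
    rw [hOs]
    exact Set.compl_subset_compl.2 Set.inter_subset_left
  · exact fun n => (hO n).1.op.isClosed_compl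
  · exact fun n => (hO n).1.co
  · intro n hn
    have := (hO n).1.ne
    rw [Set.compl_univ_iff] at hn
    exact this.ne_empty hn
  · rw [← Set.compl_iInter, Set.compl_univ_iff]
    exact Set.subset_eq_empty (Set.iInter_mono hOv) hemp

/-- The finite case. -/
theorem finite_case [CompactSpace X] [T2Space X] [SecondCountableTopology X] [ConnectedSpace X]
    (hex : ¬ Exh X) (T : Set (Set X)) (hTf : T.Finite) (hTa : ∀ W ∈ T, Atomic W)
    (hTd : ∀ W ∈ T, ∀ W' ∈ T, W ≠ W' → Disjoint W W')
    (hTm : ∀ V, Mem V → ∃ W ∈ T, (V ∩ W).Nonempty) :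
    ∃ F : Set X, F.Finite ∧ ∀ K : Set X, IsClosed K → IsConnected K → F ⊆ K → K = Set.univ := by
  -- a common point of all members inside an atomic member
  have hpt : ∀ W ∈ T, ∃ x : X, x ∈ W ∧ ∀ V, Mem V → V ⊆ W → x ∈ V := by
    intro W hW
    by_contra hcon
    push Not at hcon
    apply hex
    obtain ⟨w0, hw0⟩ := (hTa W hW).1.co.nonempty
    -- the members V_U
    let c : Set X → Set X := fun U => (connectedComponentIn Uᶜ w0)ᶜ
    have hc1 : ∀ U : Set X, IsOpen U → U.Nonempty → U ⊆ W → Mem (c U) ∧ c U ⊆ W := by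
      intro U hU hUne hUW
      have hwU : w0 ∈ Uᶜ := fun h => hw0 (hUW h)
      have hsubU : U ⊆ c U := by
        intro x hx hx'
        exact connectedComponentIn_subset _ _ hx' hx
      have hWc : Wᶜ ⊆ connectedComponentIn Uᶜ w0 :=
        (hTa W hW).1.co.isPreconnected.subset_connectedComponentIn hw0
          (Set.compl_subset_compl.2 hUW)
      refine ⟨⟨?_, hUne.mono hsubU, ?_⟩, ?_⟩
      · exact (isClosed_connectedComponentIn' hU.isClosed_compl w0).isOpen_compl
      · simp only [c, compl_compl]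
        exact ⟨⟨w0, mem_connectedComponentIn hwU⟩, isPreconnected_connectedComponentIn⟩
      · intro x hx
        by_contra hxW
        exact hx (hWc hxW)
    have hc2 : ∀ U V : Set X, U ⊆ V → Mem V → V ⊆ W → c U ⊆ V := by
      intro U V hUV hV hVW x hx
      by_contra hxV
      have : Vᶜ ⊆ connectedComponentIn Uᶜ w0 :=
        hV.co.isPreconnected.subset_connectedComponentIn (fun h => hw0 (hVW h))
          (Set.compl_subset_compl.2 hUV)
      exact hx (this hxV)
    let S : Set (Set X) := {U | U ∈ TopologicalSpace.countableBasis X ∧ U.Nonempty ∧ U ⊆ W}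
    have hScount : S.Countable :=
      (TopologicalSpace.countable_countableBasis X).mono fun U hU => hU.1
    have hSop : ∀ U ∈ S, IsOpen U := fun U hU =>
      (TopologicalSpace.isBasis_countableBasis X).isOpen hU.1
    -- given a nonempty open set in W find a basis set
    have hSb : ∀ V : Set X, IsOpen V → V.Nonempty → V ⊆ W → ∃ U ∈ S, U ⊆ V := by
      rintro V hV ⟨x, hx⟩ hVW
      obtain ⟨U, hU1, hU2, hU3⟩ :=
        (TopologicalSpace.isBasis_countableBasis X).exists_subset_of_mem_open hx hV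
      exact ⟨U, ⟨hU1, ⟨x, hU2⟩, hU3.trans hVW⟩, hU3⟩
    have hSne : S.Nonempty := by
      obtain ⟨U, hU, _⟩ := hSb W (hTa W hW).1.op (hTa W hW).1.ne subset_rfl
      exact ⟨U, hU⟩
    obtain ⟨u, hu⟩ := hScount.exists_eq_range hSne
    have huS : ∀ n, u n ∈ S := fun n => by rw [hu]; exact Set.mem_range_self n
    refine exh_of_atomic (hTa W hW) (fun n => c (u n))
      (fun n => (hc1 _ (hSop _ (huS n)) (huS n).2.1 (huS n).2.2).1)
      (fun n => (hc1 _ (hSop _ (huS n)) (huS n).2.1 (huS n).2.2).2) ?_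
    rw [Set.eq_empty_iff_forall_notMem]
    intro x hx
    have hxW : x ∈ W :=
      (hc1 _ (hSop _ (huS 0)) (huS 0).2.1 (huS 0).2.2).2 (Set.mem_iInter.1 hx 0)
    obtain ⟨V, hV, hVW, hxV⟩ := hcon x hxW
    obtain ⟨U, hU, hUV⟩ := hSb V hV.op hV.ne hVW
    rw [hu] at hU
    obtain ⟨n, rfl⟩ := hU
    exact hxV (hc2 _ _ hUV hV hVW (Set.mem_iInter.1 hx n))
  choose! p hpW hp using hpt
  -- a subcontinuum containing F that is proper is the complement of a member
  by_cases hTe : T.Nonempty
  · obtain ⟨W1, hW1⟩ := hTe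
    obtain ⟨y, hy⟩ := (hTa W1 hW1).1.co.nonempty
    refine ⟨insert y (p '' T), (hTf.image p).insert y, ?_⟩
    intro K hK hKc hFK
    by_contra hKne
    have hV : Mem Kᶜ := by
      refine ⟨hK.isOpen_compl, ?_, by rwa [compl_compl]⟩
      rw [Set.nonempty_compl]
      exact hKne
    obtain ⟨W, hW, hVW⟩ := hTm _ hV
    have hout : (Kᶜᶜ ∩ Wᶜ).Nonempty := by
      rw [compl_compl]
      by_cases hWW : W = W1
      · refine ⟨y, hFK (Set.mem_insert _ _), ?_⟩
        rw [hWW]
        exact hy
      · refine ⟨p W1, hFK (Or.inr ⟨W1, hW1, rfl⟩), fun h => ?_⟩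
        exact Set.disjoint_left.1 (hTd W hW W1 hW1 hWW) h (hpW W1 hW1)
    have hmem : Mem (Kᶜ ∩ W) := hV.inter (hTa W hW).1 hVW hout
    have := hp W hW _ hmem Set.inter_subset_right
    exact this.1 (hFK (Or.inr ⟨W, hW, rfl⟩))
  · -- no members at all
    have hno : ∀ V : Set X, ¬ Mem V := by
      intro V hV
      obtain ⟨W, hW, _⟩ := hTm V hV
      exact hTe ⟨W, hW⟩
    refine ⟨∅, Set.finite_empty, ?_⟩
    intro K hK hKc _
    by_contra hKne
    refine hno Kᶜ ⟨hK.isOpen_compl, ?_, by rwa [compl_compl]⟩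
    rw [Set.nonempty_compl]
    exact hKne


/-- A sequence of pairwise disjoint preconnected members. -/
structure Cells (V : ℕ → Set X) : Prop where
  mem : ∀ n, Mem (V n)
  conn : ∀ n, IsPreconnected (V n)
  disj : ∀ m n, m ≠ n → Disjoint (V m) (V n)

theorem Cells.closure_disj {V : ℕ → Set X} (h : Cells V) {m n : ℕ} (hmn : m ≠ n) :
    Disjoint (closure (V m)) (V n) :=
  (h.disj m n hmn).closure_left (h.mem n).op

theorem Cells.closure_subset {V : ℕ → Set X} (h : Cells V) (m : ℕ) :
    closure (V m) ⊆ V m ∪ (⋃ n, V n)ᶜ := by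
  intro x hx
  by_cases hxm : x ∈ V m
  · exact Or.inl hxm
  · right
    intro hx'
    obtain ⟨n, hn⟩ := Set.mem_iUnion.1 hx'
    have hmn : m ≠ n := by rintro rfl; exact hxm hn
    exact Set.disjoint_left.1 (h.closure_disj hmn) hx hn

theorem Cells.closure_meets [ConnectedSpace X] {V : ℕ → Set X} (h : Cells V) (m : ℕ) :
    (closure (V m) ∩ (⋃ n, V n)ᶜ).Nonempty := by
  by_contra hcon
  have hcl : closure (V m) ⊆ V m := by
    intro x hx
    rcases h.closure_subset m hx with h1 | h1
    · exact h1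
    · exact absurd ⟨x, hx, h1⟩ hcon
  have hclopen : IsClopen (V m) := ⟨isClosed_of_closure_subset hcl, (h.mem m).op⟩
  rcases isClopen_iff.1 hclopen with h1 | h1
  · exact (h.mem m).ne.ne_empty h1
  · exact (h.mem m).ne_univ h1

/-- The structure of the minimal continuum around the complement of the cells. -/
theorem exists_core [CompactSpace X] [T2Space X] [ConnectedSpace X] (hex : ¬ Exh X)
    {V : ℕ → Set X} (h : Cells V) :
    ∃ (R : Set X) (F : Set ℕ), IsClosed R ∧ IsConnected R ∧ (⋃ n, V n)ᶜ ⊆ R ∧ F.Finite ∧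
      F.Nonempty ∧ (∀ j, j ∉ F → V j ⊆ R) ∧ (∀ j, j ∉ F → ¬ IsPreconnected (R \ V j)) := by
  set G : Set X := (⋃ n, V n)ᶜ with hG
  have hGne : G.Nonempty := (h.closure_meets 0).mono Set.inter_subset_right
  -- minimal continuum
  obtain ⟨R, hR⟩ : ∃ R, Minimal (fun S : Set X => IsClosed S ∧ IsConnected S ∧ G ⊆ S) R := by
    refine zorn_superset {S : Set X | IsClosed S ∧ IsConnected S ∧ G ⊆ S} ?_
    intro c hc hchain
    by_cases hcne : c.Nonempty
    · have : Nonempty c := hcne.to_subtype
      have hGsub : G ⊆ ⋂₀ c := Set.subset_sInter fun s hs => (hc hs).2.2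
      refine ⟨⋂₀ c, ⟨isClosed_sInter fun s hs => (hc hs).1, ⟨hGne.mono hGsub, ?_⟩, hGsub⟩,
        fun s hs => Set.sInter_subset_of_mem hs⟩
      rw [Set.sInter_eq_iInter]
      refine iInter_directed_isPreconnected (fun s : c => (s : Set X)) ?_
        (fun s => (hc s.2).1) (fun s => (hc s.2).2.1.isPreconnected)
      intro s t
      rcases hchain.total s.2 t.2 with h1 | h1
      · exact ⟨s, subset_rfl, h1⟩
      · exact ⟨t, h1, subset_rfl⟩
    · refine ⟨univ, ⟨isClosed_univ, isConnected_univ, Set.subset_univ _⟩, fun s hs => ?_⟩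
      exact absurd ⟨s, hs⟩ hcne
  obtain ⟨⟨hRcl, hRc, hGR⟩, hRmin⟩ := hR
  set F : Set ℕ := {j | ¬ V j ⊆ R} with hF
  have hFmem : ∀ j, j ∉ F → V j ⊆ R := by
    intro j hj
    by_contra hcon
    exact hj hcon
  refine ⟨R, F, hRcl, hRc, hGR, ?_, ?_, hFmem, ?_⟩
  · -- F finite
    by_contra hinf
    have hinf : F.Infinite := hinf
    apply hex
    refine ⟨fun n => R ∪ ⋃ j ∈ Finset.range n, V j, ?_, ?_, ?_, ?_, ?_⟩
    · intro m n hmn
      refine Set.union_subset_union_right _ ?_
      refine Set.biUnion_subset_biUnion_left ?_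
      intro j hj
      have h1 : j < m := by simpa using hj
      have h2 : j < n := by omega
      simpa using h2
    · intro n
      have : R ∪ ⋃ j ∈ Finset.range n, V j = R ∪ ⋃ j ∈ Finset.range n, closure (V j) := by
        apply Set.Subset.antisymm
        · exact Set.union_subset_union_right _ (Set.iUnion₂_mono fun j _ => subset_closure)
        · intro x hx
          rcases hx with hx | hx
          · exact Or.inl hx
          · obtain ⟨j, hj, hxj⟩ := Set.mem_iUnion₂.1 hx
            rcases h.closure_subset j hxj with h1 | h1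
            · exact Or.inr (Set.mem_iUnion₂.2 ⟨j, hj, h1⟩)
            · exact Or.inl (hGR h1)
      simp only [this]
      exact hRcl.union (isClosed_biUnion_finset fun j _ => isClosed_closure)
    · intro n
      refine ⟨hRc.nonempty.mono Set.subset_union_left, ?_⟩
      induction n with
      | zero => simpa using hRc.isPreconnected
      | succ n ih =>
        have : R ∪ ⋃ j ∈ Finset.range (n + 1), V j =
            V n ∪ (R ∪ ⋃ j ∈ Finset.range n, V j) := by
          rw [Finset.range_add_one, Finset.set_biUnion_insert]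
          ext x
          simp only [Set.mem_union]
          tauto
        simp only [this]
        refine isPreconnected_union_of_closure (h.conn n) ih ?_
        obtain ⟨z, hz1, hz2⟩ := h.closure_meets n
        exact ⟨z, hz1, Or.inl (hGR hz2)⟩
    · intro n hn
      obtain ⟨j, hjF, hjn⟩ := hinf.exists_gt n
      obtain ⟨x, hx, hxR⟩ := Set.not_subset.1 hjF
      have hxu : x ∈ R ∪ ⋃ j ∈ Finset.range n, V j := by
        have := mem_univ x
        rwa [← hn] at this
      rcases hxu with h1 | h1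
      · exact hxR h1
      · obtain ⟨i, hi, hxi⟩ := Set.mem_iUnion₂.1 h1
        have hij : i ≠ j := by
          have : i < n := by simpa using hi
          omega
        exact Set.disjoint_left.1 (h.disj i j hij) hxi hx
    · ext x
      simp only [Set.mem_univ, iff_true]
      by_cases hxG : x ∈ G
      · exact Set.mem_iUnion.2 ⟨0, Or.inl (hGR hxG)⟩
      · have : x ∈ ⋃ n, V n := by
          by_contra h1
          exact hxG h1
        obtain ⟨j, hj⟩ := Set.mem_iUnion.1 this
        exact Set.mem_iUnion.2 ⟨j + 1, Or.inr (Set.mem_iUnion₂.2 ⟨j, by simp, hj⟩)⟩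
  · -- F nonempty
    by_contra hemp
    rw [Set.not_nonempty_iff_eq_empty] at hemp
    have hall : ∀ j, V j ⊆ R := fun j => hFmem j (by rw [hemp]; exact fun h => h)
    have hRu : R = univ := by
      rw [Set.eq_univ_iff_forall]
      intro x
      by_cases hxG : x ∈ G
      · exact hGR hxG
      · have : x ∈ ⋃ n, V n := by
          by_contra h1
          exact hxG h1
        obtain ⟨j, hj⟩ := Set.mem_iUnion.1 this
        exact hall j hj
    have h1 : (V 0)ᶜ ⊆ R := by rw [hRu]; exact Set.subset_univ _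
    have h2 := hRmin (y := (V 0)ᶜ) ⟨(h.mem 0).op.isClosed_compl, (h.mem 0).co, ?_⟩ h1
    · obtain ⟨x, hx⟩ := (h.mem 0).ne
      exact h2 (hall 0 hx) hx
    · exact Set.compl_subset_compl.2 (Set.subset_iUnion V 0)
  · intro j hj hpre
    have h1 : G ⊆ R \ V j := by
      intro x hx
      exact ⟨hGR hx, fun h2 => hx (Set.mem_iUnion.2 ⟨j, h2⟩)⟩
    have h2 := hRmin (y := R \ V j)
      ⟨hRcl.sdiff (h.mem j).op, ⟨hGne.mono h1, hpre⟩, h1⟩ Set.sdiff_subset
    obtain ⟨x, hx⟩ := (h.mem j).ne
    exact (h2 (hFmem j hj hx)).2 hx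

/-- Components of `R \ V j` reach the closures of the exceptional cells. -/
theorem component_meets [CompactSpace X] [T2Space X] {V : ℕ → Set X} (h : Cells V)
    {R : Set X} {F : Set ℕ} (hRcl : IsClosed R) (hGR : (⋃ n, V n)ᶜ ⊆ R) (hFf : F.Finite)
    (hFne : F.Nonempty) (hFR : ∀ j, j ∉ F → V j ⊆ R) {j : ℕ} (hj : j ∉ F) {x : X}
    (hx : x ∈ R \ V j) :
    (connectedComponentIn (R \ V j) x ∩ ⋃ f ∈ F, closure (V f)).Nonempty := by
  by_contra hcon
  set Θ : Set X := ⋃ f ∈ F, closure (V f) with hΘ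
  have hΘcl : IsClosed Θ := hFf.isClosed_biUnion fun f _ => isClosed_closure
  obtain ⟨N, M, hN, hM, hNM, hd, hxN, hNΘ⟩ := exists_separation (hRcl.sdiff (h.mem j).op) hΘcl hx
    (fun z hz hz' => hcon ⟨z, hz, hz'⟩)
  have hcov : (V j)ᶜ ⊆ N ∪ (M ∪ Θ) := by
    intro y hy
    by_cases hyR : y ∈ R
    · have : y ∈ N ∪ M := by rw [hNM]; exact ⟨hyR, hy⟩
      rcases this with h1 | h1
      · exact Or.inl h1
      · exact Or.inr (Or.inl h1)
    · have : y ∈ ⋃ n, V n := by
        by_contra h1
        exact hyR (hGR h1)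
      obtain ⟨i, hi⟩ := Set.mem_iUnion.1 this
      have hiF : i ∈ F := by
        by_contra h1
        exact hyR (hFR i h1 hi)
      exact Or.inr (Or.inr (Set.mem_biUnion hiF (subset_closure hi)))
  have hdis : Disjoint N (M ∪ Θ) := Set.disjoint_union_right.2 ⟨hd, hNΘ⟩
  rcases isPreconnected_closed_cases (h.mem j).co.isPreconnected hN (hM.union hΘcl) hcov hdis
    with h1 | h1
  · obtain ⟨f, hf⟩ := hFne
    obtain ⟨z, hz⟩ := (h.mem f).ne
    have hzj : z ∈ (V j)ᶜ := by
      intro h2
      have hfj : f ≠ j := by rintro rfl; exact hj hf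
      exact Set.disjoint_left.1 (h.disj f j hfj) hz h2
    exact Set.disjoint_left.1 hNΘ (h1 hzj) (Set.mem_biUnion hf (subset_closure hz))
  · exact Set.disjoint_left.1 hdis hxN (h1 hx.2)


/-- The data used in the escape lemma. -/
structure Esc (R Θ : Set X) (b : X) (U : ℕ → Set X) : Prop where
  Rcl : IsClosed R
  Rc : IsPreconnected R
  Θcl : IsClosed Θ
  bR : b ∈ R
  bΘ : b ∈ Θ
  op : ∀ n, IsOpen (U n)
  ne : ∀ n, (U n).Nonempty
  sub : ∀ n, U n ⊆ R
  conn : ∀ n, IsPreconnected (U n)
  disj : ∀ m n, m ≠ n → Disjoint (U m) (U n)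
  disjΘ : ∀ n, Disjoint Θ (U n)
  meets : ∀ n, ∀ x ∈ R \ U n, (connectedComponentIn (R \ U n) x ∩ Θ).Nonempty
  npre : ∀ n, ¬ IsPreconnected (R \ U n)

theorem Esc.comp {R Θ : Set X} {b : X} {U : ℕ → Set X} (h : Esc R Θ b U) (g : ℕ → ℕ)
    (hg : Function.Injective g) : Esc R Θ b (fun n => U (g n)) where
  Rcl := h.Rcl
  Rc := h.Rc
  Θcl := h.Θcl
  bR := h.bR
  bΘ := h.bΘ
  op := fun n => h.op _
  ne := fun n => h.ne _
  sub := fun n => h.sub _
  conn := fun n => h.conn _
  disj := fun m n hmn => h.disj _ _ fun h' => hmn (hg h')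
  disjΘ := fun n => h.disjΘ _
  meets := fun n => h.meets _
  npre := fun n => h.npre _

/-- `x` can be joined to `Θ` inside `R` missing almost all `U m`. -/
def Good (R Θ : Set X) (U : ℕ → Set X) (x : X) : Prop :=
  ∃ n, ∃ S : Set X, IsPreconnected S ∧ x ∈ S ∧ S ⊆ R ∧ (∀ m, n ≤ m → Disjoint S (U m)) ∧
    (S ∩ Θ).Nonempty

section
variable {R Θ : Set X} {b : X} {U : ℕ → Set X}

theorem Esc.b_mem (h : Esc R Θ b U) (n : ℕ) : b ∈ R \ U n :=
  ⟨h.bR, fun hb => Set.disjoint_left.1 (h.disjΘ n) h.bΘ hb⟩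

theorem Esc.e1 (h : Esc R Θ b U) {i j : ℕ}
    (hij : Disjoint (connectedComponentIn (R \ U i) b) (U j)) :
    connectedComponentIn (R \ U i) b ⊆ connectedComponentIn (R \ U j) b := by
  refine isPreconnected_connectedComponentIn.subset_connectedComponentIn
    (mem_connectedComponentIn (h.b_mem i)) ?_
  intro z hz
  exact ⟨(connectedComponentIn_subset _ _ hz).1, fun hz' => Set.disjoint_left.1 hij hz hz'⟩

theorem Esc.e2 [CompactSpace X] [T2Space X] (h : Esc R Θ b U) {i j : ℕ} (hne : i ≠ j)
    (hij : Disjoint (connectedComponentIn (R \ U i) b) (U j)) :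
    U i ⊆ connectedComponentIn (R \ U j) b := by
  have ht := touch h.Rcl h.Rc (h.op i) h.bR (h.b_mem i).2 (by
    obtain ⟨z, hz⟩ := h.ne i
    exact ⟨z, h.sub i hz, hz⟩)
  have h1 : IsPreconnected (U i ∪ connectedComponentIn (R \ U i) b) :=
    isPreconnected_union_of_closure (h.conn i) isPreconnected_connectedComponentIn
      (by rwa [Set.inter_comm])
  have h2 : U i ∪ connectedComponentIn (R \ U i) b ⊆ connectedComponentIn (R \ U j) b := by
    refine h1.subset_connectedComponentIn (Or.inr (mem_connectedComponentIn (h.b_mem i))) ?_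
    rintro z (hz | hz)
    · exact ⟨h.sub i hz, fun hz' => Set.disjoint_left.1 (h.disj i j hne) hz hz'⟩
    · exact ⟨(connectedComponentIn_subset _ _ hz).1, fun hz' => Set.disjoint_left.1 hij hz hz'⟩
  exact Set.subset_union_left.trans h2

theorem Esc.e3 (h : Esc R Θ b U) {i j : ℕ} (hne : i ≠ j)
    (hij : ¬ Disjoint (connectedComponentIn (R \ U i) b) (U j)) :
    U j ⊆ connectedComponentIn (R \ U i) b := by
  obtain ⟨z, hz1, hz2⟩ := Set.not_disjoint_iff.1 hij
  rw [connectedComponentIn_eq hz1]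
  refine (h.conn j).subset_connectedComponentIn hz2 ?_
  intro w hw
  exact ⟨h.sub j hw, fun hw' => Set.disjoint_left.1 (h.disj i j hne) hw' hw⟩

/-- Disjointness of different components. -/
theorem comp_disj {K : Set X} {b x : X} (hx : x ∉ connectedComponentIn K b) :
    Disjoint (connectedComponentIn K x) (connectedComponentIn K b) := by
  by_cases hxK : x ∈ K
  · rw [Set.disjoint_left]
    intro z hz hz'
    apply hx
    rw [connectedComponentIn_eq hz', ← connectedComponentIn_eq hz]
    exact mem_connectedComponentIn hxK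
  · rw [connectedComponentIn_eq_empty hxK]
    exact Set.empty_disjoint _

/-- Increasing case. -/
theorem Esc.caseB [CompactSpace X] [T2Space X] (h : Esc R Θ b U)
    (hB : ∀ m n, m < n → Disjoint (connectedComponentIn (R \ U m) b) (U n)) {x : X}
    (hx : x ∈ R) : Good R Θ U x := by
  by_cases hxm : ∃ m, x ∈ connectedComponentIn (R \ U m) b
  · obtain ⟨m, hm⟩ := hxm
    refine ⟨m, connectedComponentIn (R \ U m) b, isPreconnected_connectedComponentIn, hm,
      (connectedComponentIn_subset _ _).trans Set.sdiff_subset, ?_,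
      ⟨b, mem_connectedComponentIn (h.b_mem m), h.bΘ⟩⟩
    intro m' hm'
    rcases Nat.eq_or_lt_of_le hm' with rfl | hlt
    · rw [Set.disjoint_left]
      intro z hz hz'
      exact (connectedComponentIn_subset _ _ hz).2 hz'
    · exact hB m m' hlt
  · push Not at hxm
    have hxU : ∀ m, x ∉ U m := by
      intro m hxU
      exact hxm (m + 1) (h.e2 (by omega) (hB m (m + 1) (by omega)) hxU)
    have hxK : ∀ m, x ∈ R \ U m := fun m => ⟨hx, hxU m⟩
    have hdis : ∀ m, Disjoint (connectedComponentIn (R \ U m) x)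
        (connectedComponentIn (R \ U m) b) := fun m => comp_disj (hxm m)
    have hdisU : ∀ m n, m < n → Disjoint (connectedComponentIn (R \ U n) x) (U m) := by
      intro m n hmn
      exact (hdis n).mono_right (h.e2 (by omega) (hB m n hmn))
    have hanti : Antitone fun m => connectedComponentIn (R \ U m) x := by
      refine antitone_nat_of_succ_le fun m => ?_
      refine isPreconnected_connectedComponentIn.subset_connectedComponentIn
        (mem_connectedComponentIn (hxK _)) ?_
      intro z hz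
      exact ⟨(connectedComponentIn_subset _ _ hz).1,
        fun hz' => Set.disjoint_left.1 (hdisU m (m + 1) (by omega)) hz hz'⟩
    have hcl : ∀ m, IsClosed (connectedComponentIn (R \ U m) x) := fun m =>
      isClosed_connectedComponentIn' (h.Rcl.sdiff (h.op m)) x
    refine ⟨0, ⋂ m, connectedComponentIn (R \ U m) x,
      iInter_antitone_isPreconnected _ hanti hcl (fun m => isPreconnected_connectedComponentIn),
      Set.mem_iInter.2 fun m => mem_connectedComponentIn (hxK m), ?_, ?_, ?_⟩
    · intro z hz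
      exact (connectedComponentIn_subset _ _ (Set.mem_iInter.1 hz 0)).1
    · intro m _
      rw [Set.disjoint_left]
      intro z hz hz'
      exact (connectedComponentIn_subset _ _ (Set.mem_iInter.1 hz m)).2 hz'
    · have := IsCompact.nonempty_iInter_of_directed_nonempty_isCompact_isClosed
        (fun m => connectedComponentIn (R \ U m) x ∩ Θ)
        (fun i j => ⟨max i j, Set.inter_subset_inter_left _ (hanti (le_max_left _ _)),
          Set.inter_subset_inter_left _ (hanti (le_max_right _ _))⟩)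
        (fun m => h.meets m x (hxK m))
        (fun m => ((hcl m).inter h.Θcl).isCompact)
        (fun m => (hcl m).inter h.Θcl)
      obtain ⟨z, hz⟩ := this
      exact ⟨z, Set.mem_iInter.2 fun m => (Set.mem_iInter.1 hz m).1, (Set.mem_iInter.1 hz 0).2⟩

/-- Decreasing case. -/
theorem Esc.caseC [CompactSpace X] [T2Space X] (h : Esc R Θ b U)
    (hC : ∀ m n, m < n → Disjoint (connectedComponentIn (R \ U n) b) (U m))
    (hC' : ∀ m n, m < n → U n ⊆ connectedComponentIn (R \ U m) b) {x : X}
    (hx : x ∈ R) : Good R Θ U x := by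
  have hanti : Antitone fun m => connectedComponentIn (R \ U m) b := by
    refine antitone_nat_of_succ_le fun m => ?_
    exact h.e1 (hC m (m + 1) (by omega))
  have hcl : ∀ m, IsClosed (connectedComponentIn (R \ U m) b) := fun m =>
    isClosed_connectedComponentIn' (h.Rcl.sdiff (h.op m)) b
  by_cases hxm : ∀ m, x ∈ connectedComponentIn (R \ U m) b
  · refine ⟨0, ⋂ m, connectedComponentIn (R \ U m) b,
      iInter_antitone_isPreconnected _ hanti hcl (fun m => isPreconnected_connectedComponentIn),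
      Set.mem_iInter.2 hxm, ?_, ?_,
      ⟨b, Set.mem_iInter.2 fun m => mem_connectedComponentIn (h.b_mem m), h.bΘ⟩⟩
    · intro z hz
      exact (connectedComponentIn_subset _ _ (Set.mem_iInter.1 hz 0)).1
    · intro m _
      rw [Set.disjoint_left]
      intro z hz hz'
      exact (connectedComponentIn_subset _ _ (Set.mem_iInter.1 hz m)).2 hz'
  · push Not at hxm
    obtain ⟨n0, hn0⟩ := hxm
    have hxn : x ∉ connectedComponentIn (R \ U (n0 + 1)) b := fun h' =>
      hn0 (hanti (Nat.le_succ n0) h')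
    have hxU : x ∉ U (n0 + 1) := fun h' => hn0 (hC' n0 (n0 + 1) (by omega) h')
    refine ⟨n0 + 1, connectedComponentIn (R \ U (n0 + 1)) x, isPreconnected_connectedComponentIn,
      mem_connectedComponentIn ⟨hx, hxU⟩,
      (connectedComponentIn_subset _ _).trans Set.sdiff_subset, ?_, h.meets _ x ⟨hx, hxU⟩⟩
    intro m hm
    rcases Nat.eq_or_lt_of_le hm with rfl | hlt
    · rw [Set.disjoint_left]
      intro z hz hz'
      exact (connectedComponentIn_subset _ _ hz).2 hz'
    · exact (comp_disj hxn).mono_right (hC' _ m hlt)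

/-- In the antichain case a clopen piece of a finite complement which misses `Θ` contains no
other cell. -/
theorem Esc.caseA_aux [CompactSpace X] [T2Space X] (h : Esc R Θ b U)
    (hA : ∀ i j, i ≠ j → U i ⊆ connectedComponentIn (R \ U j) b) {E : Set ℕ} {N M : Set X}
    (hN : IsClosed N) (hM : IsClosed M) (hNM : N ∪ M = R \ ⋃ i ∈ E, U i) (hd : Disjoint N M)
    (hNΘ : Disjoint N Θ) {j : ℕ} (hj : j ∉ E) : U j ⊆ M := by
  have hUj : U j ⊆ N ∪ M := by
    rw [hNM]
    intro z hz
    refine ⟨h.sub j hz, fun hz' => ?_⟩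
    obtain ⟨i, hi, hzi⟩ := Set.mem_iUnion₂.1 hz'
    have hij : i ≠ j := by rintro rfl; exact hj hi
    exact Set.disjoint_left.1 (h.disj i j hij) hzi hz
  rcases isPreconnected_closed_cases (h.conn j) hN hM hUj hd with h1 | h1
  · exfalso
    -- a component of R \ U j different from the one of b
    obtain ⟨y, hy, hyb⟩ : ∃ y ∈ R \ U j, y ∉ connectedComponentIn (R \ U j) b := by
      by_contra hcon
      push Not at hcon
      have : connectedComponentIn (R \ U j) b = R \ U j :=
        Set.Subset.antisymm (connectedComponentIn_subset _ _) hcon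
      apply h.npre j
      rw [← this]
      exact isPreconnected_connectedComponentIn
    have hdis := comp_disj hyb
    have ht := touch h.Rcl h.Rc (h.op j) hy.1 hy.2 (by
      obtain ⟨z, hz⟩ := h.ne j
      exact ⟨z, h.sub j hz, hz⟩)
    have h2 : IsPreconnected (U j ∪ connectedComponentIn (R \ U j) y) :=
      isPreconnected_union_of_closure (h.conn j) isPreconnected_connectedComponentIn
        (by rwa [Set.inter_comm])
    have h3 : U j ∪ connectedComponentIn (R \ U j) y ⊆ N ∪ M := by
      rintro z (hz | hz)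
      · exact hUj hz
      · rw [hNM]
        refine ⟨(connectedComponentIn_subset _ _ hz).1, fun hz' => ?_⟩
        obtain ⟨i, hi, hzi⟩ := Set.mem_iUnion₂.1 hz'
        have hij : i ≠ j := by rintro rfl; exact hj hi
        exact Set.disjoint_left.1 hdis hz (hA i j hij hzi)
    obtain ⟨z, hz1, hz2⟩ := h.meets j y hy
    rcases isPreconnected_closed_cases h2 hN hM h3 hd with h4 | h4
    · exact Set.disjoint_left.1 hNΘ (h4 (Or.inr hz1)) hz2
    · obtain ⟨w, hw⟩ := h.ne j
      exact Set.disjoint_left.1 hd (h1 hw) (h4 (Or.inl hw))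
  · exact h1

/-- Antichain case. -/
theorem Esc.caseA [CompactSpace X] [T2Space X] (h : Esc R Θ b U)
    (hA : ∀ i j, i ≠ j → U i ⊆ connectedComponentIn (R \ U j) b) {x : X}
    (hx : x ∈ R) : Good R Θ U x := by
  by_contra hng
  -- from some index on, x is outside of the cells
  obtain ⟨n0, hn0⟩ : ∃ n0, ∀ m, n0 ≤ m → x ∉ U m := by
    by_cases hxU : ∃ m, x ∈ U m
    · obtain ⟨m, hm⟩ := hxU
      refine ⟨m + 1, fun k hk hk' => ?_⟩
      exact Set.disjoint_left.1 (h.disj m k (by omega)) hm hk'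
    · push Not at hxU
      exact ⟨0, fun m _ => hxU m⟩
  -- finite sets E
  have key : ∀ n, n0 ≤ n → ∃ m, ∃ N M : Set X, IsClosed N ∧ IsClosed M ∧
      N ∪ M = R \ (⋃ i ∈ {i : ℕ | n ≤ i ∧ i < m}, U i) ∧ Disjoint N M ∧ x ∈ N ∧
      Disjoint N Θ := by
    intro n hn
    let Km : ℕ → Set X := fun m => R \ (⋃ i ∈ {i : ℕ | n ≤ i ∧ i < m}, U i)
    have hKcl : ∀ m, IsClosed (Km m) := fun m =>
      h.Rcl.sdiff (isOpen_biUnion fun i _ => h.op i)
    have hKanti : Antitone Km := by
      intro m m' hmm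
      refine Set.sdiff_subset_sdiff_right ?_
      refine Set.biUnion_subset_biUnion_left ?_
      rintro i ⟨hi1, hi2⟩
      exact ⟨hi1, by omega⟩
    have hxK : ∀ m, x ∈ Km m := by
      intro m
      refine ⟨hx, fun hx' => ?_⟩
      obtain ⟨i, hi, hxi⟩ := Set.mem_iUnion₂.1 hx'
      exact hn0 i (hn.trans hi.1) hxi
    have hDanti : Antitone fun m => connectedComponentIn (Km m) x := fun m m' hmm =>
      connectedComponentIn_mono x (hKanti hmm)
    have hDcl : ∀ m, IsClosed (connectedComponentIn (Km m) x) := fun m =>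
      isClosed_connectedComponentIn' (hKcl m) x
    obtain ⟨m, hm⟩ : ∃ m, ∀ z ∈ connectedComponentIn (Km m) x, z ∉ Θ := by
      by_contra hcon
      push Not at hcon
      have := IsCompact.nonempty_iInter_of_directed_nonempty_isCompact_isClosed
        (fun m => connectedComponentIn (Km m) x ∩ Θ)
        (fun i j => ⟨max i j, Set.inter_subset_inter_left _ (hDanti (le_max_left _ _)),
          Set.inter_subset_inter_left _ (hDanti (le_max_right _ _))⟩)
        (fun m => by
          obtain ⟨z, hz1, hz2⟩ := hcon m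
          exact ⟨z, hz1, hz2⟩)
        (fun m => ((hDcl m).inter h.Θcl).isCompact)
        (fun m => (hDcl m).inter h.Θcl)
      obtain ⟨z, hz⟩ := this
      apply hng
      refine ⟨n, ⋂ m, connectedComponentIn (Km m) x,
        iInter_antitone_isPreconnected _ hDanti hDcl (fun m => isPreconnected_connectedComponentIn),
        Set.mem_iInter.2 fun m => mem_connectedComponentIn (hxK m), ?_, ?_,
        ⟨z, Set.mem_iInter.2 fun m => (Set.mem_iInter.1 hz m).1, (Set.mem_iInter.1 hz 0).2⟩⟩
      · intro w hw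
        exact (connectedComponentIn_subset _ _ (Set.mem_iInter.1 hw 0)).1
      · intro k hk
        rw [Set.disjoint_left]
        intro w hw hw'
        have := (connectedComponentIn_subset _ _ (Set.mem_iInter.1 hw (k + 1))).2
        exact this (Set.mem_iUnion₂.2 ⟨k, ⟨hk, Nat.lt_succ_self k⟩, hw'⟩)
    obtain ⟨N, M, h1, h2, h3, h4, h5, h6⟩ := exists_separation (hKcl m) h.Θcl (hxK m) hm
    exact ⟨m, N, M, h1, h2, h3, h4, h5, h6⟩
  obtain ⟨m, N, M, hN, hM, hNM, hd, hxN, hNΘ⟩ := key n0 le_rfl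
  obtain ⟨m', N', M', hN', hM', hNM', hd', hxN', hNΘ'⟩ := key (max n0 m) (le_max_left _ _)
  -- cells of E' lie in M, cells of E lie in M'
  have hM1 : ∀ j, j ∉ {i : ℕ | n0 ≤ i ∧ i < m} → U j ⊆ M := fun j hj =>
    h.caseA_aux hA hN hM hNM hd hNΘ hj
  have hM2 : ∀ j, j ∉ {i : ℕ | max n0 m ≤ i ∧ i < m'} → U j ⊆ M' := fun j hj =>
    h.caseA_aux hA hN' hM' hNM' hd' hNΘ' hj
  have hcov : R ⊆ (N ∩ N') ∪ (M ∪ M') := by
    intro z hz
    by_cases hz1 : z ∈ ⋃ i ∈ {i : ℕ | n0 ≤ i ∧ i < m}, U i
    · obtain ⟨i, hi, hzi⟩ := Set.mem_iUnion₂.1 hz1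
      refine Or.inr (Or.inr (hM2 i ?_ hzi))
      rintro ⟨h1, _⟩
      have := hi.2
      have := le_max_right n0 m
      omega
    · have hz1' : z ∈ N ∪ M := by rw [hNM]; exact ⟨hz, hz1⟩
      rcases hz1' with hzN | hzM
      · by_cases hz2 : z ∈ ⋃ i ∈ {i : ℕ | max n0 m ≤ i ∧ i < m'}, U i
        · obtain ⟨i, hi, hzi⟩ := Set.mem_iUnion₂.1 hz2
          refine Or.inr (Or.inl (hM1 i ?_ hzi))
          rintro ⟨_, h1⟩
          have := hi.1
          have := le_max_right n0 m
          omega
        · have hz2' : z ∈ N' ∪ M' := by rw [hNM']; exact ⟨hz, hz2⟩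
          rcases hz2' with h1 | h1
          · exact Or.inl ⟨hzN, h1⟩
          · exact Or.inr (Or.inr h1)
      · exact Or.inr (Or.inl hzM)
  have hdis : Disjoint (N ∩ N') (M ∪ M') := by
    rw [Set.disjoint_left]
    rintro z ⟨hz1, hz2⟩ (hz | hz)
    · exact Set.disjoint_left.1 hd hz1 hz
    · exact Set.disjoint_left.1 hd' hz2 hz
  rcases isPreconnected_closed_cases h.Rc (hN.inter hN') (hM.union hM') hcov hdis with h1 | h1
  · exact Set.disjoint_left.1 hNΘ (h1 h.bR).1 h.bΘ
  · exact Set.disjoint_left.1 hdis ⟨hxN, hxN'⟩ (h1 hx)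

/-- The escape lemma: along a subsequence every point of `R` is good. -/
theorem Esc.escape [CompactSpace X] [T2Space X] (h : Esc R Θ b U) :
    ∃ g : ℕ → ℕ, StrictMono g ∧ ∀ x ∈ R, Good R Θ (fun n => U (g n)) x := by
  -- first Ramsey
  let r : ℕ → ℕ → Prop := fun i j => Disjoint (connectedComponentIn (R \ U i) b) (U j)
  have hr : IsTrans ℕ r := ⟨fun i j k hij hjk => (show r i k from hjk.mono_left (h.e1 hij))⟩
  obtain ⟨g, hg⟩ := exists_increasing_or_nonincreasing_subseq r (id : ℕ → ℕ)
  rcases hg with hg | hg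
  · refine ⟨g, g.strictMono, fun x hx => ?_⟩
    exact (h.comp g g.injective).caseB (fun m n hmn => hg m n hmn) hx
  · have h' := h.comp g g.injective
    let U' : ℕ → Set X := fun n => U (g n)
    let r' : ℕ → ℕ → Prop := fun j i => Disjoint (connectedComponentIn (R \ U' i) b) (U' j)
    have hr' : IsTrans ℕ r' := ⟨fun i j k hij hjk =>
      (show r' i k from hij.mono_left (h'.e1 hjk))⟩
    obtain ⟨g', hg'⟩ := exists_increasing_or_nonincreasing_subseq r' (id : ℕ → ℕ)
    have h'' := h'.comp g' g'.injective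
    have hlow : ∀ m n, m < n → U (g (g' n)) ⊆ connectedComponentIn (R \ U (g (g' m))) b := by
      intro m n hmn
      have hlt : g' m < g' n := g'.strictMono hmn
      exact h'.e3 (by omega) (hg _ _ hlt)
    rcases hg' with hg' | hg'
    · refine ⟨fun n => g (g' n), fun m n hmn => g.strictMono (g'.strictMono hmn), fun x hx => ?_⟩
      exact h''.caseC (fun m n hmn => hg' m n hmn) hlow hx
    · refine ⟨fun n => g (g' n), fun m n hmn => g.strictMono (g'.strictMono hmn), fun x hx => ?_⟩
      refine h''.caseA (fun i j hij => ?_) hx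
      rcases lt_or_gt_of_ne hij with hlt | hlt
      · -- i < j : U i ⊆ X_j
        have hne : g' j ≠ g' i := fun h3 => hij (g'.injective h3).symm
        exact h'.e3 hne (hg' i j hlt)
      · exact hlow j i hlt

end


/-- The complement of the cells with index in `E`. -/
def Off (V : ℕ → Set X) (E : Set ℕ) : Set X := (⋃ i ∈ E, V i)ᶜ

omit [TopologicalSpace X] in
theorem mem_Off {V : ℕ → Set X} {E : Set ℕ} {z : X} : z ∈ Off V E ↔ ∀ i ∈ E, z ∉ V i := by
  simp [Off]

omit [TopologicalSpace X] in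
theorem Off_anti {V : ℕ → Set X} {E E' : Set ℕ} (h : E ⊆ E') : Off V E' ⊆ Off V E := by
  intro z hz
  rw [mem_Off] at hz ⊢
  exact fun i hi => hz i (h hi)

theorem Cells.isClosed_Off {V : ℕ → Set X} (h : Cells V) (E : Set ℕ) : IsClosed (Off V E) :=
  (isOpen_biUnion fun i _ => (h.mem i).op).isClosed_compl

/-- The component of `x` off the cells with index in `E`. -/
def Cp (V : ℕ → Set X) (E : Set ℕ) (x : X) : Set X := connectedComponentIn (Off V E) x

theorem Cp_anti {V : ℕ → Set X} {E E' : Set ℕ} (x : X) (h : E ⊆ E') : Cp V E' x ⊆ Cp V E x :=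
  connectedComponentIn_mono x (Off_anti h)

theorem Cells.isClosed_Cp {V : ℕ → Set X} (h : Cells V) (E : Set ℕ) (x : X) :
    IsClosed (Cp V E x) := isClosed_connectedComponentIn' (h.isClosed_Off E) x

theorem Cp_subset {V : ℕ → Set X} {E : Set ℕ} (x : X) : Cp V E x ⊆ Off V E :=
  connectedComponentIn_subset _ _

theorem Cp_conn {V : ℕ → Set X} {E : Set ℕ} (x : X) : IsPreconnected (Cp V E x) :=
  isPreconnected_connectedComponentIn

theorem self_mem_Cp {V : ℕ → Set X} {E : Set ℕ} {x : X} (hx : x ∈ Off V E) : x ∈ Cp V E x :=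
  mem_connectedComponentIn hx

theorem subset_Cp {V : ℕ → Set X} {E : Set ℕ} {x : X} {S : Set X} (hS : IsPreconnected S)
    (hx : x ∈ S) (hSE : S ⊆ Off V E) : S ⊆ Cp V E x :=
  hS.subset_connectedComponentIn hx hSE

theorem mem_Cp_symm {V : ℕ → Set X} {E : Set ℕ} {x y : X} (h : y ∈ Cp V E x) : x ∈ Cp V E y := by
  have hx : x ∈ Off V E := by
    by_contra hx
    unfold Cp at h
    rw [connectedComponentIn_eq_empty hx] at h
    exact h
  exact subset_Cp (Cp_conn x) h (Cp_subset x) (self_mem_Cp hx)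

/-- Lemma L. -/
theorem Cells.lemmaL [CompactSpace X] [T2Space X] {V : ℕ → Set X} (h : Cells V) {x y : X}
    {F' E : Set ℕ} {f : ℕ} (hE : E.Finite) (hEne : E.Nonempty) (hfE : f ∉ E)
    (hfF : f ∉ F') (hEF : ∀ j ∈ E, j ∉ F')
    (hx : ∀ n, x ∉ V n) (hy : ∀ n, y ∉ V n)
    (hcf : y ∈ Cp V (insert f F') x)
    (hcj : ∀ j ∈ E, y ∈ Cp V (insert j F') x)
    (hcfj : ∀ j ∈ E, y ∉ Cp V (insert j (insert f F')) x) :
    y ∈ Cp V (F' ∪ E) x := by
  have hxO : ∀ A : Set ℕ, x ∈ Off V A := fun A => mem_Off.2 fun i _ => hx i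
  have hyO : ∀ A : Set ℕ, y ∈ Off V A := fun A => mem_Off.2 fun i _ => hy i
  -- a connected set off `insert f F'` with no point in `V j`
  have hoff : ∀ (S : Set X) (A : Set ℕ) (j : ℕ), S ⊆ Off V A → Disjoint S (V j) →
      S ⊆ Off V (insert j A) := by
    intro S A j hS hd z hz
    rw [mem_Off]
    rintro i (rfl | hi)
    · exact fun hz' => Set.disjoint_left.1 hd hz hz'
    · exact mem_Off.1 (hS hz) i hi
  have hVoff : ∀ (A : Set ℕ) (j : ℕ), j ∉ A → V j ⊆ Off V A := by
    intro A j hj z hz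
    rw [mem_Off]
    intro i hi hz'
    have hij : i ≠ j := by rintro rfl; exact hj hi
    exact Set.disjoint_left.1 (h.disj i j hij) hz' hz
  -- for `w` equal to `x` or `y`: touching closure of V j
  have htouch : ∀ (w : X) (A : Set ℕ) (j : ℕ), (∀ n, w ∉ V n) →
      (Cp V A w ∩ V j).Nonempty → (Cp V (insert j A) w ∩ closure (V j)).Nonempty := by
    intro w A j hw hmeet
    have ht := touch (h.isClosed_Cp A w) (Cp_conn w) (h.mem j).op
      (self_mem_Cp (mem_Off.2 fun i _ => hw i)) (hw j) hmeet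
    refine ht.mono (Set.inter_subset_inter_left _ ?_)
    refine subset_Cp isPreconnected_connectedComponentIn
      (mem_connectedComponentIn ⟨self_mem_Cp (mem_Off.2 fun i _ => hw i), hw j⟩) ?_
    refine hoff _ _ _ ((connectedComponentIn_subset _ _).trans
      (Set.sdiff_subset.trans (Cp_subset w))) ?_
    rw [Set.disjoint_left]
    intro z hz hz'
    exact (connectedComponentIn_subset _ _ hz).2 hz'
  -- the component C contains V j
  have hmeetj : ∀ j ∈ E, (Cp V (insert f F') x ∩ V j).Nonempty := by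
    intro j hj
    by_contra hcon
    apply hcfj j hj
    have : Cp V (insert f F') x ⊆ Off V (insert j (insert f F')) := by
      refine hoff _ _ _ (Cp_subset x) ?_
      rw [Set.disjoint_iff_inter_eq_empty, ← Set.not_nonempty_iff_eq_empty]
      exact hcon
    exact subset_Cp (Cp_conn x) (self_mem_Cp (hxO _)) this hcf
  have hCxy : Cp V (insert f F') y = Cp V (insert f F') x := (connectedComponentIn_eq hcf).symm
  have hmeetj' : ∀ j ∈ E, (Cp V (insert f F') y ∩ V j).Nonempty := by
    intro j hj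
    rw [hCxy]
    exact hmeetj j hj
  have hXt : ∀ j ∈ E, (Cp V (insert j (insert f F')) x ∩ closure (V j)).Nonempty :=
    fun j hj => htouch x _ j hx (hmeetj j hj)
  have hYt : ∀ j ∈ E, (Cp V (insert j (insert f F')) y ∩ closure (V j)).Nonempty :=
    fun j hj => htouch y _ j hy (hmeetj' j hj)
  have hjf : ∀ j ∈ E, j ∉ insert f F' := by
    rintro j hj (rfl | h1)
    · exact hfE hj
    · exact hEF j hj h1
  -- V i inside X_j or disjoint
  have hdich : ∀ (w : X) (i : ℕ), i ∈ E → ∀ j ∈ E, i ≠ j →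
      ¬ Disjoint (Cp V (insert j (insert f F')) w) (V i) →
      V i ⊆ Cp V (insert j (insert f F')) w := by
    intro w i hi j hj hij hnd
    obtain ⟨z, hz1, hz2⟩ := Set.not_disjoint_iff.1 hnd
    have h1 : Cp V (insert j (insert f F')) w = Cp V (insert j (insert f F')) z :=
      connectedComponentIn_eq hz1
    rw [h1]
    refine subset_Cp (h.conn i) hz2 (hVoff _ _ ?_)
    rintro (h2 | h2)
    · exact hij h2
    · exact hjf i hi h2
  -- separation of the components of x and y
  have hsep : ∀ j ∈ E, Disjoint (Cp V (insert j (insert f F')) y)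
      (Cp V (insert j (insert f F')) x) := fun j hj => comp_disj (hcfj j hj)
  have hsep' : ∀ j ∈ E, Disjoint (Cp V (insert j (insert f F')) x)
      (Cp V (insert j (insert f F')) y) := fun j hj => (hsep j hj).symm
  -- general comparability, for (x,y) and (y,x)
  have hcomp : ∀ (x y : X), (∀ n, x ∉ V n) → (∀ n, y ∉ V n) →
      (∀ j ∈ E, (Cp V (insert j (insert f F')) x ∩ closure (V j)).Nonempty) →
      (∀ j ∈ E, (Cp V (insert j (insert f F')) y ∩ closure (V j)).Nonempty) →
      (∀ j ∈ E, Disjoint (Cp V (insert j (insert f F')) y)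
      (Cp V (insert j (insert f F')) x)) → ∀ i ∈ E, ∀ j ∈ E, i ≠ j →
      Disjoint (Cp V (insert j (insert f F')) x) (V i) ∨
      Disjoint (Cp V (insert i (insert f F')) x) (V j) := by
    intro x y hx hy hXt hYt hsep i hi j hj hij
    by_contra hcon
    push Not at hcon
    have h1 := hdich x i hi j hj hij hcon.1
    have h2 := hdich x j hj i hi hij.symm hcon.2
    -- Y_i ∪ V_i connected and disjoint from V_j
    have h3 : Disjoint (Cp V (insert i (insert f F')) y) (V j) := (hsep i hi).mono_right h2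
    have h4 : IsPreconnected (V i ∪ Cp V (insert i (insert f F')) y) :=
      isPreconnected_union_of_closure (h.conn i) (Cp_conn y)
        (by rw [Set.inter_comm]; exact hYt i hi)
    have h5 : V i ∪ Cp V (insert i (insert f F')) y ⊆ Cp V (insert j (insert f F')) y := by
      refine subset_Cp h4 (Or.inr (self_mem_Cp (mem_Off.2 fun n _ => hy n))) ?_
      rintro z (hz | hz)
      · refine hVoff _ _ ?_ hz
        rintro (h6 | h6)
        · exact hij h6
        · exact hjf i hi h6
      · exact hoff _ _ _ ((Cp_subset y).trans (Off_anti (Set.subset_insert _ _))) h3 hz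
    obtain ⟨z, hz⟩ := (h.mem i).ne
    exact Set.disjoint_left.1 (hsep j hj) (h5 (Or.inl hz)) (h1 hz)
  -- minimal component argument, for w = x or y
  have hmain : ∀ (w : X), (∀ n, w ∉ V n) →
      (∀ i ∈ E, ∀ j ∈ E, i ≠ j → Disjoint (Cp V (insert j (insert f F')) w) (V i) ∨
        Disjoint (Cp V (insert i (insert f F')) w) (V j)) →
      (∀ j ∈ E, (Cp V (insert j F') w ∩ V f).Nonempty) →
      V f ⊆ Cp V (F' ∪ E) w := by
    intro w hw hcmp hmeetf
    have hwO : ∀ A : Set ℕ, w ∈ Off V A := fun A => mem_Off.2 fun i _ => hw i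
    -- comparability
    have hle : ∀ i ∈ E, ∀ j ∈ E, Cp V (insert i (insert f F')) w ⊆ Cp V (insert j (insert f F')) w ∨
        Cp V (insert j (insert f F')) w ⊆ Cp V (insert i (insert f F')) w := by
      intro i hi j hj
      by_cases hij : i = j
      · subst hij
        exact Or.inl subset_rfl
      rcases hcmp i hi j hj hij with h1 | h1
      · right
        refine subset_Cp (Cp_conn w) (self_mem_Cp (hwO _)) ?_
        exact hoff _ _ _ ((Cp_subset w).trans (Off_anti (Set.subset_insert _ _))) h1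
      · left
        refine subset_Cp (Cp_conn w) (self_mem_Cp (hwO _)) ?_
        exact hoff _ _ _ ((Cp_subset w).trans (Off_anti (Set.subset_insert _ _))) h1
    obtain ⟨j0, hj0, hmin⟩ := hE.exists_minimalFor (fun j => Cp V (insert j (insert f F')) w) E hEne
    have hmin' : ∀ i ∈ E, Cp V (insert j0 (insert f F')) w ⊆ Cp V (insert i (insert f F')) w := by
      intro i hi
      rcases hle i hi j0 hj0 with h1 | h1
      · exact hmin hi h1
      · exact h1
    -- the minimal component misses all cells of E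
    have hmiss : Cp V (insert j0 (insert f F')) w ⊆ Off V (F' ∪ E) := by
      intro z hz
      rw [mem_Off]
      rintro i (hi | hi)
      · exact mem_Off.1 (Cp_subset w hz) i (Or.inr (Or.inr hi))
      · exact mem_Off.1 (Cp_subset w (hmin' i hi hz)) i (Or.inl rfl)
    -- it touches V f
    have htf : (Cp V (insert j0 (insert f F')) w ∩ closure (V f)).Nonempty := by
      have := htouch w (insert j0 F') f hw (hmeetf j0 hj0)
      rwa [Set.insert_comm] at this
    have h1 : IsPreconnected (V f ∪ Cp V (insert j0 (insert f F')) w) :=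
      isPreconnected_union_of_closure (h.conn f) (Cp_conn w)
        (by rw [Set.inter_comm]; exact htf)
    have h2 : V f ∪ Cp V (insert j0 (insert f F')) w ⊆ Cp V (F' ∪ E) w := by
      refine subset_Cp h1 (Or.inr (self_mem_Cp (hwO _))) (Set.union_subset ?_ hmiss)
      refine hVoff _ _ ?_
      rintro (h3 | h3)
      · exact hfF h3
      · exact hfE h3
    exact Set.subset_union_left.trans h2
  -- meeting V f
  have hmf : ∀ j ∈ E, (Cp V (insert j F') x ∩ V f).Nonempty := by
    intro j hj
    by_contra hcon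
    apply hcfj j hj
    have h1 : Cp V (insert j F') x ⊆ Off V (insert f (insert j F')) := by
      refine hoff _ _ _ (Cp_subset x) ?_
      rw [Set.disjoint_iff_inter_eq_empty, ← Set.not_nonempty_iff_eq_empty]
      exact hcon
    have h2 := subset_Cp (Cp_conn x) (self_mem_Cp (hxO _)) h1 (hcj j hj)
    rwa [Set.insert_comm] at h2
  have hmf' : ∀ j ∈ E, (Cp V (insert j F') y ∩ V f).Nonempty := by
    intro j hj
    have : Cp V (insert j F') y = Cp V (insert j F') x := (connectedComponentIn_eq (hcj j hj)).symm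
    rw [this]
    exact hmf j hj
  have hfx := hmain x hx (hcomp x y hx hy hXt hYt hsep) hmf
  have hfy := hmain y hy (hcomp y x hy hx hYt hXt hsep') hmf'
  obtain ⟨z, hz⟩ := (h.mem f).ne
  have h1 : Cp V (F' ∪ E) x = Cp V (F' ∪ E) z := connectedComponentIn_eq (hfx hz)
  have h2 : Cp V (F' ∪ E) y = Cp V (F' ∪ E) z := connectedComponentIn_eq (hfy hz)
  rw [h1, ← h2]
  exact self_mem_Cp (hyO _)


/-- Compactness of connection off cells. -/
theorem Cells.cpt [CompactSpace X] [T2Space X] {V : ℕ → Set X} (h : Cells V) {x y : X}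
    {J : Set ℕ} (hx : ∀ n, x ∉ V n)
    (hfin : ∀ E : Set ℕ, E ⊆ J → E.Finite → y ∈ Cp V E x) : y ∈ Cp V J x := by
  let A : ℕ → Set ℕ := fun n => {i | i ∈ J ∧ i < n}
  have hAfin : ∀ n, (A n).Finite := fun n => (Set.finite_Iio n).subset fun i hi => hi.2
  have hAmono : ∀ m n, m ≤ n → A m ⊆ A n := fun m n hmn i hi => ⟨hi.1, lt_of_lt_of_le hi.2 hmn⟩
  have hxO : ∀ B : Set ℕ, x ∈ Off V B := fun B => mem_Off.2 fun i _ => hx i
  have hanti : Antitone fun n => Cp V (A n) x := fun m n hmn => Cp_anti x (hAmono m n hmn)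
  have hpre : IsPreconnected (⋂ n, Cp V (A n) x) :=
    iInter_antitone_isPreconnected _ hanti (fun n => h.isClosed_Cp _ _) fun n => Cp_conn x
  have hsub : (⋂ n, Cp V (A n) x) ⊆ Off V J := by
    intro z hz
    rw [mem_Off]
    intro i hi
    have := Cp_subset x (Set.mem_iInter.1 hz (i + 1))
    exact mem_Off.1 this i ⟨hi, Nat.lt_succ_self i⟩
  refine subset_Cp hpre (Set.mem_iInter.2 fun n => self_mem_Cp (hxO _)) hsub ?_
  exact Set.mem_iInter.2 fun n => hfin (A n) (fun i hi => hi.1) (hAfin n)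

/-- Induction for Lemma Y. -/
theorem Cells.lemmaY_aux [CompactSpace X] [T2Space X] {V : ℕ → Set X} (h : Cells V) {x y : X}
    (hx : ∀ n, x ∉ V n) (hy : ∀ n, y ∉ V n) (F : Finset ℕ) :
    ∀ J : Set ℕ, J.Infinite → y ∈ Cp V (F : Set ℕ) x →
      (∀ j ∈ J, j ∉ F ∧ y ∉ Cp V (insert j (F : Set ℕ)) x) →
      ∃ J' ⊆ J, J'.Infinite ∧ y ∈ Cp V J' x := by
  have hxO : ∀ B : Set ℕ, x ∈ Off V B := fun B => mem_Off.2 fun i _ => hx i
  have hyO : ∀ B : Set ℕ, y ∈ Off V B := fun B => mem_Off.2 fun i _ => hy i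
  induction F using Finset.induction_on with
  | empty =>
    intro J hJ _ hJb
    exfalso
    obtain ⟨j, hj⟩ := hJ.nonempty
    apply (hJb j hj).2
    have h1 : Off V (insert j ((∅ : Finset ℕ) : Set ℕ)) = (V j)ᶜ := by
      ext z
      rw [mem_Off]
      simp
    have h2 : (V j)ᶜ ⊆ Cp V (insert j ((∅ : Finset ℕ) : Set ℕ)) x :=
      subset_Cp (h.mem j).co.isPreconnected (hx j) h1.ge
    exact h2 (hy j)
  | insert f F' hf ih =>
    intro J hJ hc hJb
    rw [Finset.coe_insert] at hc hJb
    set J2 : Set ℕ := {j | j ∈ J ∧ y ∈ Cp V (insert j (F' : Set ℕ)) x} with hJ2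
    by_cases hinf : J2.Infinite
    · refine ⟨J2, fun j hj => hj.1, hinf, h.cpt hx ?_⟩
      intro E hE hEf
      by_cases hEne : E.Nonempty
      · have hmem : ∀ j ∈ E, j ∉ insert f F' := fun j hj => (hJb j (hE hj).1).1
        have := h.lemmaL (x := x) (y := y) (F' := (F' : Set ℕ)) (E := E) (f := f) hEf hEne
          (fun hfE => hmem f hfE (Finset.mem_insert_self _ _))
          (by simpa using hf)
          (fun j hj => by
            have := hmem j hj
            rw [Finset.mem_insert, not_or] at this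
            simpa using this.2)
          hx hy hc (fun j hj => (hE hj).2) (fun j hj => (hJb j (hE hj).1).2)
        exact Cp_anti x Set.subset_union_right this
      · rw [Set.not_nonempty_iff_eq_empty] at hEne
        rw [hEne]
        exact Cp_anti x (Set.empty_subset _) hc
    · have hfin : J2.Finite := Set.not_infinite.1 hinf
      have hinf' : (J \ J2).Infinite := hJ.sdiff hfin
      obtain ⟨J', hJ', h1, h2⟩ := ih (J \ J2) hinf' (Cp_anti x (Set.subset_insert _ _) hc) (by
        rintro j ⟨hj, hj2⟩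
        refine ⟨fun hjF => (hJb j hj).1 (Finset.mem_insert_of_mem hjF), fun hcon => ?_⟩
        exact hj2 ⟨hj, hcon⟩)
      exact ⟨J', hJ'.trans Set.sdiff_subset, h1, h2⟩

/-- Lemma Y: two points outside of the cells can be joined off infinitely many cells. -/
theorem Cells.lemmaY [CompactSpace X] [T2Space X] [ConnectedSpace X] {V : ℕ → Set X}
    (h : Cells V) {x y : X} (hx : ∀ n, x ∉ V n) (hy : ∀ n, y ∉ V n) {J : Set ℕ}
    (hJ : J.Infinite) : ∃ J' ⊆ J, J'.Infinite ∧ y ∈ Cp V J' x := by
  have hxO : ∀ B : Set ℕ, x ∈ Off V B := fun B => mem_Off.2 fun i _ => hx i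
  have hempty : y ∈ Cp V ∅ x := by
    refine subset_Cp isPreconnected_univ (mem_univ x) ?_ (mem_univ y)
    intro z _
    rw [mem_Off]
    intro i hi
    exact absurd hi (Set.notMem_empty i)
  obtain ⟨J', hmax⟩ : ∃ J', Maximal (fun A : Set ℕ => A ⊆ J ∧ y ∈ Cp V A x) J' := by
    refine zorn_subset {A : Set ℕ | A ⊆ J ∧ y ∈ Cp V A x} ?_
    intro c hc hchain
    by_cases hcne : c.Nonempty
    · have : Nonempty c := hcne.to_subtype
      refine ⟨⋃₀ c, ⟨Set.sUnion_subset fun s hs => (hc hs).1, ?_⟩,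
        fun s hs => Set.subset_sUnion_of_mem hs⟩
      have hpre : IsPreconnected (⋂ A : c, Cp V (A : Set ℕ) x) := by
        refine iInter_directed_isPreconnected _ ?_ (fun A => h.isClosed_Cp _ _)
          (fun A => Cp_conn x)
        intro s t
        rcases hchain.total s.2 t.2 with h1 | h1
        · exact ⟨t, Cp_anti x h1, subset_rfl⟩
        · exact ⟨s, subset_rfl, Cp_anti x h1⟩
      refine subset_Cp hpre (Set.mem_iInter.2 fun A => self_mem_Cp (hxO _)) ?_
        (Set.mem_iInter.2 fun A => (hc A.2).2)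
      intro z hz
      rw [mem_Off]
      rintro i ⟨A, hA, hi⟩
      exact mem_Off.1 (Cp_subset x (Set.mem_iInter.1 hz ⟨A, hA⟩)) i hi
    · refine ⟨∅, ⟨Set.empty_subset _, hempty⟩, fun s hs => ?_⟩
      exact absurd ⟨s, hs⟩ hcne
  obtain ⟨⟨hJ'J, hJ'c⟩, hJ'm⟩ := hmax
  by_cases hfin : J'.Finite
  · have hinf' : (J \ J').Infinite := hJ.sdiff hfin
    obtain ⟨J'', h1, h2, h3⟩ := h.lemmaY_aux hx hy hfin.toFinset (J \ J') hinf' (by
      rwa [Set.Finite.coe_toFinset]) (by
      rintro j ⟨hj, hj'⟩
      refine ⟨by rwa [Set.Finite.mem_toFinset], ?_⟩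
      rw [Set.Finite.coe_toFinset]
      intro hcon
      exact hj' (hJ'm (y := insert j J') ⟨Set.insert_subset hj hJ'J, hcon⟩
        (Set.subset_insert _ _) (Set.mem_insert _ _)))
    exact ⟨J'', h1.trans Set.sdiff_subset, h2, h3⟩
  · exact ⟨J', hJ'J, hfin, hJ'c⟩

/-- Merging finitely many points. -/
theorem Cells.merge [CompactSpace X] [T2Space X] [ConnectedSpace X] {V : ℕ → Set X}
    (h : Cells V) {p0 : X} (hp0 : ∀ n, p0 ∉ V n) {P : Set X} (hP : P.Finite)
    (hPV : ∀ p ∈ P, ∀ n, p ∉ V n) : ∃ J : Set ℕ, J.Infinite ∧ ∀ p ∈ P, p ∈ Cp V J p0 := by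
  induction P, hP using Set.Finite.induction_on with
  | empty => exact ⟨univ, Set.infinite_univ, fun p hp => absurd hp (Set.notMem_empty p)⟩
  | @insert q P' _ _ ih =>
    obtain ⟨J, hJ, hJP⟩ := ih fun p hp => hPV p (Or.inr hp)
    obtain ⟨J', hJ', hJinf, hq⟩ := h.lemmaY hp0 (hPV q (Or.inl rfl)) hJ
    refine ⟨J', hJinf, ?_⟩
    rintro p (rfl | hp)
    · exact hq
    · exact Cp_anti p0 hJ' (hJP p hp)

/-- The infinite case is impossible without an exhaustion. -/
theorem exh_of_cells [CompactSpace X] [T2Space X] [ConnectedSpace X] {V : ℕ → Set X}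
    (h : Cells V) : Exh X := by
  by_contra hex
  obtain ⟨R, F, hRcl, hRc, hGR, hFf, hFne, hFR, hnp⟩ := exists_core hex h
  set Θ : Set X := ⋃ f ∈ F, closure (V f) with hΘ
  -- a sequence of indices outside F
  have hFc : (Fᶜ).Infinite := hFf.infinite_compl
  let e := hFc.natEmbedding
  have heF : ∀ n, (e n : ℕ) ∉ F := fun n => (e n).2
  have heinj : Function.Injective fun n => (e n : ℕ) := fun a b hab =>
    e.injective (Subtype.ext hab)
  obtain ⟨f0, hf0⟩ := hFne
  obtain ⟨b, hb1, hb2⟩ := h.closure_meets f0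
  have hesc : Esc R Θ b (fun n => V (e n)) :=
    { Rcl := hRcl
      Rc := hRc.isPreconnected
      Θcl := hFf.isClosed_biUnion fun f _ => isClosed_closure
      bR := hGR hb2
      bΘ := Set.mem_biUnion hf0 hb1
      op := fun n => (h.mem _).op
      ne := fun n => (h.mem _).ne
      sub := fun n => hFR _ (heF n)
      conn := fun n => h.conn _
      disj := fun m n hmn => h.disj _ _ fun h' => hmn (heinj h')
      disjΘ := fun n => by
        rw [Set.disjoint_left]
        intro z hz hz'
        obtain ⟨f, hf, hzf⟩ := Set.mem_iUnion₂.1 hz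
        have hne : f ≠ e n := fun h' => heF n (h' ▸ hf)
        exact Set.disjoint_left.1 (h.closure_disj hne) hzf hz'
      meets := fun n x hx => component_meets h hRcl hGR hFf ⟨f0, hf0⟩ hFR (heF n) hx
      npre := fun n => hnp _ (heF n) }
  obtain ⟨g, hg, hgood⟩ := hesc.escape
  -- the cells W
  let W : ℕ → Set X := fun n => V (e (g n))
  have hW : Cells W :=
    { mem := fun n => h.mem _
      conn := fun n => h.conn _
      disj := fun m n hmn => h.disj _ _ fun h' => hmn (hg.injective (heinj h')) }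
  choose p hp using fun f => (h.mem f).ne
  have hVW : ∀ f ∈ F, ∀ n, Disjoint (V f) (W n) := by
    intro f hf n
    refine h.disj _ _ fun h' => heF (g n) (h' ▸ hf)
  have hpW : ∀ f ∈ F, ∀ n, p f ∉ W n := fun f hf n h' =>
    Set.disjoint_left.1 (hVW f hf n) (hp f) h'
  obtain ⟨J, hJ, hJp⟩ := hW.merge (hpW f0 hf0) (hFf.image p) (by
    rintro _ ⟨f, hf, rfl⟩
    exact hpW f hf)
  let A : ℕ → Set ℕ := fun n => {i | i ∈ J ∧ n ≤ i}
  have hAJ : ∀ n, A n ⊆ J := fun n i hi => hi.1
  -- a connected set meeting the component of V f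
  have hjoin : ∀ (n : ℕ) (S : Set X) (f : ℕ), f ∈ F → IsPreconnected S →
      (∀ m, n ≤ m → Disjoint S (W m)) → (S ∩ closure (V f)).Nonempty → S ⊆ Cp W (A n) (p f0) := by
    intro n S f hf hS hSW hSf
    have h1 : IsPreconnected (V f ∪ S) :=
      isPreconnected_union_of_closure (h.conn f) hS (by rwa [Set.inter_comm])
    have h2 : V f ∪ S ⊆ Cp W (A n) (p f) := by
      refine subset_Cp h1 (Or.inl (hp f)) ?_
      rintro z (hz | hz)
      · exact mem_Off.2 fun i _ hz' => Set.disjoint_left.1 (hVW f hf i) hz hz'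
      · exact mem_Off.2 fun i hi hz' => Set.disjoint_left.1 (hSW i hi.2) hz hz'
    have h3 : p f ∈ Cp W (A n) (p f0) := Cp_anti _ (hAJ n) (hJp (p f) ⟨f, hf, rfl⟩)
    have h4 : Cp W (A n) (p f0) = Cp W (A n) (p f) := connectedComponentIn_eq h3
    rw [h4]
    exact Set.subset_union_right.trans h2
  apply hex
  refine ⟨fun n => Cp W (A n) (p f0), ?_, fun n => hW.isClosed_Cp _ _, ?_, ?_, ?_⟩
  · intro m n hmn
    refine Cp_anti _ ?_
    intro i hi
    exact ⟨hi.1, hmn.trans hi.2⟩
  · intro n
    exact ⟨⟨p f0, self_mem_Cp (mem_Off.2 fun i _ => hpW f0 hf0 i)⟩, Cp_conn _⟩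
  · intro n hn
    obtain ⟨j, hjJ, hjn⟩ := hJ.exists_gt n
    obtain ⟨z, hz⟩ := (hW.mem j).ne
    have : z ∈ Cp W (A n) (p f0) := by
      have := mem_univ z
      rwa [← hn] at this
    exact mem_Off.1 (Cp_subset _ this) j ⟨hjJ, hjn.le⟩ hz
  · ext x
    simp only [Set.mem_univ, iff_true]
    by_cases hxR : x ∈ R
    · obtain ⟨n, S, hS, hxS, hSR, hSW, z, hzS, hzΘ⟩ := hgood x hxR
      obtain ⟨f, hf, hzf⟩ := Set.mem_iUnion₂.1 hzΘ
      exact Set.mem_iUnion.2 ⟨n, hjoin n S f hf hS hSW ⟨z, hzS, hzf⟩ hxS⟩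
    · have hxV : x ∈ ⋃ n, V n := by
        by_contra h1
        exact hxR (hGR h1)
      obtain ⟨j, hj⟩ := Set.mem_iUnion.1 hxV
      have hjF : j ∈ F := by
        by_contra h1
        exact hxR (hFR j h1 hj)
      refine Set.mem_iUnion.2 ⟨0, hjoin 0 (V j) j hjF (h.conn j) (fun m _ => hVW j hjF m) ?_ hj⟩
      exact ⟨x, hj, subset_closure hj⟩

/-- Main theorem. -/
theorem main [CompactSpace X] [T2Space X] [SecondCountableTopology X] [ConnectedSpace X]
    (hex : ¬ Exh X) :
    ∃ F : Set X, F.Finite ∧ ∀ K : Set X, IsClosed K → IsConnected K → F ⊆ K → K = Set.univ := by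
  rcases dichotomy (X := X) with ⟨V, hV, hVd⟩ | ⟨T, hTf, hTa, hTd, hTm⟩
  · exfalso
    choose U hU hUV hUc using fun n => exists_preconnected_mem hex (hV n)
    refine hex (exh_of_cells (V := U) ⟨hU, hUc, fun m n hmn => ?_⟩)
    exact (hVd m n hmn).mono (hUV m) (hUV n)
  · exact finite_case hex T hTf hTa hTd hTm

/-- An exhausting sequence is a countable chain of proper subcontinua. -/
theorem Exh.chain (h : Exh X) : ∃ C : Set (Set X), C.Countable ∧ IsChain (· ⊆ ·) C ∧
    (∀ K ∈ C, IsClosed K ∧ IsConnected K ∧ K ≠ Set.univ) ∧ ⋃₀ C = Set.univ := by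
  obtain ⟨K, hmono, hcl, hco, hne, hun⟩ := h
  refine ⟨Set.range K, Set.countable_range K, hmono.isChain_range, ?_, ?_⟩
  · rintro _ ⟨n, rfl⟩
    exact ⟨hcl n, hco n, hne n⟩
  · rw [Set.sUnion_range]
    exact hun

end Pool.Agent.Helper166.Continua
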