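import Mathlib

set_option autoImplicit false

open Set Topology Filter unitInterval

namespace Pool.Agent.Helper166.Resolution

/-- The square. -/
abbrev Sq : Type := I × I

noncomputable def sg (b : ℝ) : ℝ := |b * Real.sin b⁻¹|

noncomputable def s (a b : ℝ) : ℝ := 2 * a + 2 * sg b

noncomputable def g (a b : ℝ) : ℝ := min b |b - 2 * s a b| / max a b

theorem sg_continuous : Continuous sg := by
  unfold sg
  refine continuous_abs.comp ?_
  rw [continuous_iff_continuousAt]
  intro b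
  by_cases hb : b = 0
  · subst hb
    unfold ContinuousAt
    simp only [zero_mul]
    refine squeeze_zero_norm (a := fun b : ℝ => |b|) (fun b => ?_) ?_
    · rw [Real.norm_eq_abs, abs_mul]
      have := Real.abs_sin_le_one b⁻¹
      nlinarith [abs_nonneg b]
    · have : Tendsto (fun b : ℝ => |b|) (𝓝 0) (𝓝 |0|) := continuous_abs.continuousAt
      simpa using this
  · exact continuousAt_id.mul (Real.continuous_sin.continuousAt.comp (continuousAt_inv₀ hb))

theorem sg_nonneg (b : ℝ) : 0 ≤ sg b := abs_nonneg _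

theorem g_nonneg {a b : ℝ} (hb : 0 ≤ b) : 0 ≤ g a b :=
  div_nonneg (le_min hb (abs_nonneg _)) (hb.trans (le_max_right _ _))

theorem g_le_one {a b : ℝ} (hb : 0 ≤ b) : g a b ≤ 1 :=
  div_le_one_of_le₀ ((min_le_left _ _).trans (le_max_right _ _)) (hb.trans (le_max_right _ _))

/-- horizontal and vertical distance. -/
noncomputable def da (x z : Sq) : ℝ := |(z.1 : ℝ) - x.1|
noncomputable def db (x z : Sq) : ℝ := |(z.2 : ℝ) - x.2|

theorem da_nonneg (x z : Sq) : 0 ≤ da x z := abs_nonneg _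
theorem db_nonneg (x z : Sq) : 0 ≤ db x z := abs_nonneg _

theorem da_continuous (x : Sq) : Continuous (da x) := by
  unfold da
  fun_prop

theorem db_continuous (x : Sq) : Continuous (db x) := by
  unfold db
  fun_prop

theorem max_pos {x z : Sq} (h : z ≠ x) : 0 < max (da x z) (db x z) := by
  by_contra hcon
  push Not at hcon
  have h1 : da x z ≤ 0 := (le_max_left _ _).trans hcon
  have h2 : db x z ≤ 0 := (le_max_right _ _).trans hcon
  apply h
  have h3 : (z.1 : ℝ) - x.1 = 0 := abs_nonpos_iff.1 h1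
  have h4 : (z.2 : ℝ) - x.2 = 0 := abs_nonpos_iff.1 h2
  exact Prod.ext (Subtype.ext (by linarith)) (Subtype.ext (by linarith))

/-- The map of the square minus `x` to the interval. -/
noncomputable def h (x z : Sq) : I :=
  ⟨g (da x z) (db x z), g_nonneg (db_nonneg x z), g_le_one (db_nonneg x z)⟩

theorem h_continuousAt {x z : Sq} (hz : z ≠ x) : ContinuousAt (h x) z := by
  refine tendsto_subtype_rng.2 ?_
  have h1 : Continuous fun w : Sq => min (db x w) |db x w - 2 * s (da x w) (db x w)| := by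
    unfold s
    have := da_continuous x
    have := db_continuous x
    have := sg_continuous
    fun_prop
  have h2 : Continuous fun w : Sq => max (da x w) (db x w) :=
    (da_continuous x).max (db_continuous x)
  exact h1.continuousAt.div h2.continuousAt (max_pos hz).ne'

/-- The resolution of the square at all points. -/
def R : Set (Sq × (Sq → I)) := {p | ∀ c, c ≠ p.1 → p.2 c = h c p.1}

theorem isClosed_R : IsClosed R := by
  have : R = ⋂ c, {p : Sq × (Sq → I) | c ≠ p.1 → p.2 c = h c p.1} := by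
    ext p
    simp [R]
  rw [this]
  refine isClosed_iInter fun c => ?_
  rw [← isOpen_compl_iff, isOpen_iff_mem_nhds]
  intro p hp
  have hp' : c ≠ p.1 ∧ p.2 c ≠ h c p.1 := by
    by_contra hcon
    apply hp
    intro h1
    by_contra h2
    exact hcon ⟨h1, h2⟩
  have e1 : ∀ᶠ q : Sq × (Sq → I) in 𝓝 p, q.1 ≠ c :=
    (continuous_fst.continuousAt (x := p)).eventually_ne hp'.1.symm
  have t1 : Tendsto (fun q : Sq × (Sq → I) => q.2 c) (𝓝 p) (𝓝 (p.2 c)) :=
    ((continuous_apply c).comp continuous_snd).continuousAt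
  have t2 : Tendsto (fun q : Sq × (Sq → I) => h c q.1) (𝓝 p) (𝓝 (h c p.1)) :=
    (h_continuousAt hp'.1.symm).tendsto.comp continuous_fst.continuousAt
  have e2 : ∀ᶠ q : Sq × (Sq → I) in 𝓝 p, (q.2 c, h c q.1) ∈ (diagonal I)ᶜ :=
    (t1.prodMk_nhds t2).eventually_mem (isClosed_diagonal.isOpen_compl.mem_nhds hp'.2)
  filter_upwards [e1, e2] with q h1 h2 h3
  exact h2 (h3 h1.symm)

/-- The space. -/
abbrev M : Type := R

instance : CompactSpace M := isCompact_iff_compactSpace.1 isClosed_R.isCompact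

open Classical in
noncomputable def pt (x : Sq) (j : I) : M :=
  ⟨(x, Function.update (fun c => h c x) x j), by
    intro c hc
    change Function.update (fun c => h c x) x j c = h c x
    exact Function.update_of_ne hc _ _⟩

def pr (m : M) : Sq := m.1.1

theorem pr_continuous : Continuous pr := continuous_fst.comp continuous_subtype_val

@[simp] theorem pr_pt (x : Sq) (j : I) : pr (pt x j) = x := rfl

theorem pt_apply_self (x : Sq) (j : I) : (pt x j).1.2 x = j := by
  simp [pt]

theorem eq_pt (m : M) : m = pt (pr m) (m.1.2 (pr m)) := by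
  apply Subtype.ext
  refine Prod.ext rfl ?_
  funext c
  by_cases hc : c = pr m
  · subst hc
    rw [pt_apply_self]
  · rw [m.2 c hc]
    exact ((pt (pr m) (m.1.2 (pr m))).2 c hc).symm

theorem pt_injective (x : Sq) : Function.Injective (pt x) := by
  intro j j' hj
  have := congrArg (fun m : M => m.1.2 x) hj
  simpa [pt_apply_self] using this

theorem pt_continuous (x : Sq) : Continuous (pt x) := by
  refine Continuous.subtype_mk ?_ _
  refine continuous_const.prodMk ?_
  rw [continuous_pi_iff]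
  intro c
  by_cases hc : c = x
  · subst hc
    simp only [Function.update_self]
    exact continuous_id
  · simp only [Function.update_of_ne hc]
    exact continuous_const

theorem pr_surjective : Function.Surjective pr := fun x => ⟨pt x 0, rfl⟩

theorem fiber_eq (x : Sq) : pr ⁻¹' {x} = range (pt x) := by
  ext m
  constructor
  · intro hm
    have hm' : pr m = x := hm
    refine ⟨m.1.2 x, ?_⟩
    conv_rhs => rw [eq_pt m]
    rw [hm']
  · rintro ⟨j, rfl⟩
    rfl

theorem fiber_preconnected (x : Sq) : IsPreconnected (pr ⁻¹' {x}) := by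
  rw [fiber_eq]
  exact isPreconnected_range (pt_continuous x)

/-- Preimages of connected sets under closed maps with connected fibres. -/
theorem preimage_preconnected {α β : Type*} [TopologicalSpace α] [TopologicalSpace β] {f : α → β}
    (hcl : IsClosedMap f) (hs : Function.Surjective f)
    (hfib : ∀ b, IsPreconnected (f ⁻¹' {b})) {C : Set β} (hC : IsPreconnected C) :
    IsPreconnected (f ⁻¹' C) := by
  intro U V hU hV hUV ⟨a, haC, haU⟩ ⟨b, hbC, hbV⟩
  by_contra hne
  have hdis : ∀ m, f m ∈ C → m ∈ U → m ∈ V → False := fun m h1 h2 h3 => hne ⟨m, h1, h2, h3⟩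
  have hU' : IsOpen (f '' Uᶜ)ᶜ := (hcl _ hU.isClosed_compl).isOpen_compl
  have hV' : IsOpen (f '' Vᶜ)ᶜ := (hcl _ hV.isClosed_compl).isOpen_compl
  have hfc : ∀ c ∈ C, ∀ m, f m = c → m ∈ U → c ∈ (f '' Uᶜ)ᶜ := by
    rintro c hc m hm hmU ⟨m', hm'U, hm'⟩
    have hsub : f ⁻¹' {c} ⊆ U ∪ V := by
      intro z hz
      have : f z = c := hz
      exact hUV (by rw [Set.mem_preimage, this]; exact hc)
    have hm'V : m' ∈ V := (hsub (show f m' = c from hm')).resolve_left hm'U
    obtain ⟨z, hz, hzU, hzV⟩ := hfib c U V hU hV hsub ⟨m, hm, hmU⟩ ⟨m', hm', hm'V⟩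
    have hz' : f z = c := hz
    exact hdis z (by rw [hz']; exact hc) hzU hzV
  have hfc' : ∀ c ∈ C, ∀ m, f m = c → m ∈ V → c ∈ (f '' Vᶜ)ᶜ := by
    rintro c hc m hm hmV ⟨m', hm'V, hm'⟩
    have hsub : f ⁻¹' {c} ⊆ U ∪ V := by
      intro z hz
      have : f z = c := hz
      exact hUV (by rw [Set.mem_preimage, this]; exact hc)
    have hm'U : m' ∈ U := (hsub (show f m' = c from hm')).resolve_right hm'V
    obtain ⟨z, hz, hzU, hzV⟩ := hfib c U V hU hV hsub ⟨m', hm', hm'U⟩ ⟨m, hm, hmV⟩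
    have hz' : f z = c := hz
    exact hdis z (by rw [hz']; exact hc) hzU hzV
  have hcov : C ⊆ (f '' Uᶜ)ᶜ ∪ (f '' Vᶜ)ᶜ := by
    intro c hc
    obtain ⟨m, hm⟩ := hs c
    rcases hUV (show f m ∈ C by rw [hm]; exact hc) with h1 | h1
    · exact Or.inl (hfc c hc m hm h1)
    · exact Or.inr (hfc' c hc m hm h1)
  obtain ⟨c, hc, hcU, hcV⟩ := hC _ _ hU' hV' hcov ⟨f a, haC, hfc _ haC a rfl haU⟩
    ⟨f b, hbC, hfc' _ hbC b rfl hbV⟩
  obtain ⟨m, hm⟩ := hs c
  refine hdis m (by rw [hm]; exact hc) ?_ ?_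
  · by_contra h1
    exact hcU ⟨m, h1, hm⟩
  · by_contra h1
    exact hcV ⟨m, h1, hm⟩

theorem pr_preimage {C : Set Sq} (hC : IsPreconnected C) : IsPreconnected (pr ⁻¹' C) :=
  preimage_preconnected pr_continuous.isClosedMap pr_surjective fiber_preconnected hC

instance : ConnectedSpace M := by
  rw [connectedSpace_iff_univ]
  refine ⟨⟨pt 0 0, mem_univ _⟩, ?_⟩
  have := pr_preimage (C := univ) isPreconnected_univ
  simpa using this

/-- Convergence in the resolution. -/
theorem tendsto_pt {m : ℕ → M} {x : Sq} {j : I}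
    (hx : Tendsto (fun n => pr (m n)) atTop (𝓝 x)) (hne : ∀ n, pr (m n) ≠ x)
    (hj : Tendsto (fun n => h x (pr (m n))) atTop (𝓝 j)) : Tendsto m atTop (𝓝 (pt x j)) := by
  rw [tendsto_subtype_rng]
  have key : Tendsto (fun n => (m n).1.2) atTop (𝓝 (pt x j).1.2) := ?_
  · exact hx.prodMk_nhds key
  rw [tendsto_pi_nhds]
  intro c
  by_cases hc : c = x
  · subst hc
    rw [pt_apply_self] 
    refine hj.congr fun n => ?_
    exact ((m n).2 c (hne n).symm).symm
  · have h1 : (pt x j).1.2 c = h c x := (pt x j).2 c hc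
    rw [h1]
    have h2 : ∀ᶠ n in atTop, pr (m n) ≠ c := hx.eventually_ne (Ne.symm hc)
    have h3 : Tendsto (fun n => h c (pr (m n))) atTop (𝓝 (h c x)) :=
      (h_continuousAt (Ne.symm hc)).tendsto.comp hx
    refine h3.congr' ?_
    filter_upwards [h2] with n hn
    exact ((m n).2 c hn.symm).symm

/-! ### The bubbles -/

noncomputable def lo (n : ℕ) : ℝ := (n * Real.pi + Real.pi + Real.pi / 2)⁻¹
noncomputable def mid (n : ℕ) : ℝ := (n * Real.pi + Real.pi)⁻¹
noncomputable def hi (n : ℕ) : ℝ := (n * Real.pi + Real.pi / 2)⁻¹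

theorem base_pos (n : ℕ) : 0 ≤ (n : ℝ) * Real.pi := by positivity

theorem lo_pos (n : ℕ) : 0 < lo n := by
  unfold lo
  have := Real.pi_pos
  positivity

theorem mid_pos (n : ℕ) : 0 < mid n := by
  unfold mid
  have := Real.pi_pos
  positivity

theorem lo_lt_mid (n : ℕ) : lo n < mid n := by
  unfold lo mid
  have := Real.pi_pos
  exact inv_strictAnti₀ (by positivity) (by linarith)

theorem mid_lt_hi (n : ℕ) : mid n < hi n := by
  unfold hi mid
  have := Real.pi_pos
  exact inv_strictAnti₀ (by positivity) (by linarith)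

theorem mid_le_half (n : ℕ) : mid n ≤ 1 / 2 := by
  unfold mid
  rw [one_div]
  have := Real.pi_gt_three
  have := base_pos n
  exact inv_anti₀ (by norm_num) (by linarith)

theorem sin_base (n : ℕ) : Real.sin (n * Real.pi) = 0 := Real.sin_nat_mul_pi n

theorem abs_cos_base (n : ℕ) : |Real.cos (n * Real.pi)| = 1 := by
  have := Real.abs_cos_int_mul_pi n
  simpa using this

theorem sg_lo (n : ℕ) : sg (lo n) = lo n := by
  unfold sg
  rw [abs_mul, abs_of_pos (lo_pos n)]
  have : |Real.sin (lo n)⁻¹| = 1 := by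
    unfold lo
    rw [inv_inv, Real.sin_add_pi_div_two, Real.cos_add_pi, abs_neg]
    exact abs_cos_base n
  rw [this, mul_one]

theorem sg_hi (n : ℕ) : sg (hi n) = hi n := by
  have hpos : 0 < hi n := (mid_pos n).trans (mid_lt_hi n)
  unfold sg
  rw [abs_mul, abs_of_pos hpos]
  have : |Real.sin (hi n)⁻¹| = 1 := by
    unfold hi
    rw [inv_inv, Real.sin_add_pi_div_two]
    exact abs_cos_base n
  rw [this, mul_one]

theorem sg_mid (n : ℕ) : sg (mid n) = 0 := by
  unfold sg mid
  rw [inv_inv, Real.sin_add_pi, sin_base]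
  simp

theorem hi_tendsto : Tendsto hi atTop (𝓝 0) := by
  have h1 : Tendsto (fun n : ℕ => (n : ℝ) * Real.pi + Real.pi / 2) atTop atTop := by
    refine tendsto_atTop_add_const_right _ _ ?_
    exact tendsto_natCast_atTop_atTop.atTop_mul_const Real.pi_pos
  exact tendsto_inv_atTop_zero.comp h1

theorem mid_tendsto : Tendsto mid atTop (𝓝 0) :=
  squeeze_zero (fun n => (mid_pos n).le) (fun n => (mid_lt_hi n).le) hi_tendsto

/-- Value of `g` inside a bubble. -/
theorem g_bubble {a b v : ℝ} (_ : 0 ≤ a) (hb : 0 < b) (hv0 : 0 ≤ v) (hv1 : v ≤ 1)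
    (hs : s a b = v * b) : g a b = |1 - 2 * v| := by
  have hab : a ≤ b := by
    have h1 : 2 * a ≤ s a b := by
      unfold s
      linarith [sg_nonneg b]
    nlinarith
  unfold g
  rw [hs, max_eq_right hab]
  have h1 : b - 2 * (v * b) = b * (1 - 2 * v) := by ring
  rw [h1, abs_mul, abs_of_pos hb]
  have h2 : |1 - 2 * v| ≤ 1 := by
    rw [abs_le]
    constructor <;> linarith
  rw [min_eq_right (by nlinarith)]
  field_simp

/-- A connected set joining a point of a bubble to the centre of the resolution crosses the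
bubble. -/
theorem cross {C : Set Sq} (hC : IsPreconnected C) {x c : Sq} (hx : x ∈ C) (hc : c ∈ C) {n : ℕ}
    {v : ℝ} (hv1 : v ≤ 1) (h1 : lo n < db x c) (h2 : db x c < hi n)
    (h3 : s (da x c) (db x c) < v * db x c) :
    ∃ z ∈ C, lo n ≤ db x z ∧ db x z ≤ hi n ∧ s (da x z) (db x z) = v * db x z := by
  by_contra hcon
  push Not at hcon
  have cs : Continuous fun z : Sq => s (da x z) (db x z) := by
    unfold s
    have := da_continuous x
    have := db_continuous x
    have := sg_continuous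
    fun_prop
  have cv : Continuous fun z : Sq => v * db x z := continuous_const.mul (db_continuous x)
  let U : Set Sq := {z | lo n < db x z} ∩ {z | db x z < hi n} ∩
    {z | s (da x z) (db x z) < v * db x z}
  let K : Set Sq := {z | lo n ≤ db x z} ∩ {z | db x z ≤ hi n} ∩
    {z | s (da x z) (db x z) ≤ v * db x z}
  have hU : IsOpen U := ((isOpen_lt continuous_const (db_continuous x)).inter
    (isOpen_lt (db_continuous x) continuous_const)).inter (isOpen_lt cs cv)
  have hK : IsClosed K := ((isClosed_le continuous_const (db_continuous x)).inter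
    (isClosed_le (db_continuous x) continuous_const)).inter (isClosed_le cs cv)
  have hKU : ∀ z ∈ C, z ∈ K → z ∈ U := by
    rintro z hz ⟨⟨k1, k2⟩, k3⟩
    have k1' : lo n ≤ db x z := k1
    have k2' : db x z ≤ hi n := k2
    have k3' : s (da x z) (db x z) ≤ v * db x z := k3
    have hpos : 0 < db x z := (lo_pos n).trans_le k1'
    have hne := hcon z hz k1' k2'
    have hlt : s (da x z) (db x z) < v * db x z := lt_of_le_of_ne k3' hne
    have hsg : 2 * sg (db x z) ≤ v * db x z := by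
      have : s (da x z) (db x z) = 2 * da x z + 2 * sg (db x z) := rfl
      have := da_nonneg x z
      linarith
    have hsg' : 2 * sg (db x z) ≤ db x z := hsg.trans (by nlinarith)
    refine ⟨⟨lt_of_le_of_ne k1' ?_, lt_of_le_of_ne k2' ?_⟩, hlt⟩
    · intro he
      rw [← he, sg_lo] at hsg'
      linarith [lo_pos n]
    · intro he
      rw [he, sg_hi] at hsg'
      linarith [lo_pos n, lo_lt_mid n, mid_lt_hi n]
  have hcov : C ⊆ U ∪ Kᶜ := by
    intro z hz
    by_cases hzK : z ∈ K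
    · exact Or.inl (hKU z hz hzK)
    · exact Or.inr hzK
  have hxK : x ∈ Kᶜ := by
    rintro ⟨⟨k1, _⟩, _⟩
    have k1' : lo n ≤ db x x := k1
    have : db x x = 0 := by simp [db]
    linarith [lo_pos n]
  obtain ⟨z, _, hzU, hzK⟩ := hC U Kᶜ hU hK.isOpen_compl hcov ⟨c, hc, ⟨h1, h2⟩, h3⟩ ⟨x, hx, hxK⟩
  have k1 : lo n < db x z := hzU.1.1
  have k2 : db x z < hi n := hzU.1.2
  have k3 : s (da x z) (db x z) < v * db x z := hzU.2
  exact hzK ⟨⟨k1.le, k2.le⟩, k3.le⟩

/-- A point at prescribed small distance. -/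
theorem exists_shift (t : I) {d : ℝ} (hd0 : 0 ≤ d) (hd : d ≤ 1 / 2) :
    ∃ u : I, |(u : ℝ) - t| = d := by
  by_cases ht : (t : ℝ) ≤ 1 / 2
  · refine ⟨⟨t + d, add_nonneg t.2.1 hd0, by linarith⟩, ?_⟩
    simp [abs_of_nonneg hd0]
  · push Not at ht
    refine ⟨⟨t - d, by linarith, by linarith [t.2.2]⟩, ?_⟩
    simp [abs_of_nonneg hd0]

theorem tendsto_of_dist {z : ℕ → Sq} {x : Sq} {r : ℕ → ℝ} (hr : Tendsto r atTop (𝓝 0))
    (ha : ∀ n, da x (z n) ≤ r n) (hb : ∀ n, db x (z n) ≤ r n) : Tendsto z atTop (𝓝 x) := by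
  have h1 : Tendsto (fun n => (z n).1) atTop (𝓝 x.1) := by
    rw [tendsto_iff_dist_tendsto_zero]
    refine squeeze_zero (fun n => dist_nonneg) (fun n => ?_) hr
    exact ha n
  have h2 : Tendsto (fun n => (z n).2) atTop (𝓝 x.2) := by
    rw [tendsto_iff_dist_tendsto_zero]
    refine squeeze_zero (fun n => dist_nonneg) (fun n => ?_) hr
    exact hb n
  exact h1.prodMk_nhds h2

/-- Non-aposyndesis, parametrised form. -/
theorem nonapo_aux {x : Sq} {v0 v : ℝ} (hv0 : 0 ≤ v0) (hv : v0 < v) (hv1 : v ≤ 1) {j0 j : I}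
    (hj0 : (j0 : ℝ) = |1 - 2 * v0|) (hj : (j : ℝ) = |1 - 2 * v|) {H : Set M}
    (hH : IsClosed H) (hHc : IsPreconnected H) (hHn : H ∈ 𝓝 (pt x j0)) : pt x j ∈ H := by
  -- points of the bubbles
  have hex : ∀ n : ℕ, ∃ c : Sq, da x c = v0 * mid n / 2 ∧ db x c = mid n := by
    intro n
    have hm := mid_pos n
    have hm' := mid_le_half n
    obtain ⟨u1, hu1⟩ := exists_shift x.1 (d := v0 * mid n / 2) (by positivity) (by nlinarith)
    obtain ⟨u2, hu2⟩ := exists_shift x.2 (d := mid n) hm.le hm'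
    exact ⟨(u1, u2), hu1, hu2⟩
  choose c hca hcb using hex
  have hsc : ∀ n, s (da x (c n)) (db x (c n)) = v0 * db x (c n) := by
    intro n
    rw [hca, hcb]
    unfold s
    rw [sg_mid]
    ring
  have hne : ∀ z : Sq, 0 < db x z → z ≠ x := by
    rintro z hz rfl
    simp [db] at hz
  have hcpos : ∀ n, 0 < db x (c n) := fun n => by rw [hcb]; exact mid_pos n
  have hcx : Tendsto c atTop (𝓝 x) := by
    refine tendsto_of_dist mid_tendsto (fun n => ?_) (fun n => (hcb n).le)
    rw [hca]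
    have := mid_pos n
    nlinarith
  have hm : Tendsto (fun n => pt (c n) 0) atTop (𝓝 (pt x j0)) := by
    refine tendsto_pt hcx (fun n => hne _ (hcpos n)) ?_
    have : ∀ n, h x (pr (pt (c n) 0)) = j0 := by
      intro n
      apply Subtype.ext
      rw [hj0]
      exact g_bubble (da_nonneg _ _) (hcpos n) hv0 (hv.le.trans hv1) (hsc n)
    simp only [this]
    exact tendsto_const_nhds
  obtain ⟨n0, hn0⟩ := eventually_atTop.1 (hm.eventually_mem hHn)
  have hCc : IsPreconnected (pr '' H) := hHc.image pr pr_continuous.continuousOn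
  have hxC : x ∈ pr '' H := ⟨pt x j0, mem_of_mem_nhds hHn, rfl⟩
  have hz : ∀ n : ℕ, ∃ m : M, m ∈ H ∧ lo (n + n0) ≤ db x (pr m) ∧ db x (pr m) ≤ hi (n + n0) ∧
      s (da x (pr m)) (db x (pr m)) = v * db x (pr m) := by
    intro n
    have hcC : c (n + n0) ∈ pr '' H := ⟨_, hn0 (n + n0) (by omega), rfl⟩
    obtain ⟨z, ⟨m, hm, rfl⟩, h1, h2, h3⟩ := cross hCc hxC hcC (n := n + n0) hv1
      (by rw [hcb]; exact lo_lt_mid _) (by rw [hcb]; exact mid_lt_hi _)
      (by rw [hsc]; exact mul_lt_mul_of_pos_right hv (hcpos _))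
    exact ⟨m, hm, h1, h2, h3⟩
  choose m hmH hm1 hm2 hm3 using hz
  have hmpos : ∀ n, 0 < db x (pr (m n)) := fun n => (lo_pos _).trans_le (hm1 n)
  have hmx : Tendsto (fun n => pr (m n)) atTop (𝓝 x) := by
    refine tendsto_of_dist (hi_tendsto.comp (tendsto_add_atTop_nat n0)) (fun n => ?_) hm2
    have h1 := hm3 n
    unfold s at h1
    have h2 := sg_nonneg (db x (pr (m n)))
    have h3 := hm2 n
    have h4 := hmpos n
    have h5 := da_nonneg x (pr (m n))
    have h6 : v * db x (pr (m n)) ≤ db x (pr (m n)) := by nlinarith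
    simp only [Function.comp]
    linarith
  have hlim : Tendsto m atTop (𝓝 (pt x j)) := by
    refine tendsto_pt hmx (fun n => hne _ (hmpos n)) ?_
    have : ∀ n, h x (pr (m n)) = j := by
      intro n
      apply Subtype.ext
      rw [hj]
      exact g_bubble (da_nonneg _ _) (hmpos n) (hv0.trans hv.le) hv1 (hm3 n)
    simp only [this]
    exact tendsto_const_nhds
  exact hH.mem_of_tendsto hlim (Eventually.of_forall hmH)

/-- Every point of the space is in all continuum neighbourhoods of some other point. -/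
theorem nonapo (w : M) : ∃ y : M, y ≠ w ∧ ∀ H : Set M, IsClosed H → IsPreconnected H →
    H ∈ 𝓝 y → w ∈ H := by
  set x := pr w with hx
  set j := w.1.2 (pr w) with hj
  have hw : w = pt x j := eq_pt w
  by_cases hj1 : j = 1
  · refine ⟨pt x 0, ?_, ?_⟩
    · rw [hw, hj1]
      intro he
      exact zero_ne_one (pt_injective x he)
    · intro H hH hHc hHn
      rw [hw, hj1]
      refine nonapo_aux (v0 := 1 / 2) (v := 1) (by norm_num) (by norm_num) le_rfl ?_ ?_ hH hHc hHn
      · norm_num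
      · norm_num
  · refine ⟨pt x 1, ?_, ?_⟩
    · rw [hw]
      intro he
      exact hj1 (pt_injective x he).symm
    · intro H hH hHc hHn
      rw [hw]
      have hjlt : (j : ℝ) < 1 := lt_of_le_of_ne j.2.2 fun he => hj1 (Subtype.ext he)
      have hj0 : (0 : ℝ) ≤ j := j.2.1
      refine nonapo_aux (v0 := 0) (v := (1 - j) / 2) le_rfl (by linarith) (by linarith) ?_ ?_
        hH hHc hHn
      · norm_num
      · have : 1 - 2 * ((1 - (j : ℝ)) / 2) = j := by ring
        rw [this, abs_of_nonneg hj0]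

/-- Nowhere semi-locally connected. -/
theorem not_slc (p : M) : ¬ ∀ U : Set M, IsOpen U → p ∈ U →
    ∃ V : Set M, IsOpen V ∧ p ∈ V ∧ V ⊆ U ∧
      {C : Set M | ∃ x ∈ Vᶜ, C = connectedComponentIn Vᶜ x}.Finite := by
  intro hslc
  obtain ⟨y, hyp, hy⟩ := nonapo p
  obtain ⟨U, U', hU, hU', hpU, hyU', hUU'⟩ := t2_separation hyp.symm
  obtain ⟨V, hV, hpV, hVU, hfin⟩ := hslc U hU hpU
  have hyV : y ∈ Vᶜ := fun h => Set.disjoint_left.1 hUU' (hVU h) hyU'
  have hcl : ∀ z, IsClosed (connectedComponentIn Vᶜ z) := by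
    intro z
    by_cases hz : z ∈ Vᶜ
    · refine isClosed_of_closure_subset ?_
      exact isPreconnected_connectedComponentIn.closure.subset_connectedComponentIn
        (subset_closure (mem_connectedComponentIn hz))
        (closure_minimal (connectedComponentIn_subset _ _) hV.isClosed_compl)
    · rw [connectedComponentIn_eq_empty hz]
      exact isClosed_empty
  -- the union of the other components
  let 𝒞 : Set (Set M) := {C : Set M | (∃ x ∈ Vᶜ, C = connectedComponentIn Vᶜ x) ∧ y ∉ C}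
  have h𝒞 : 𝒞.Finite := hfin.subset fun C hC => hC.1
  have h𝒞cl : IsClosed (⋃₀ 𝒞) := by
    rw [Set.sUnion_eq_biUnion]
    refine h𝒞.isClosed_biUnion fun C hC => ?_
    obtain ⟨⟨z, _, rfl⟩, _⟩ := hC
    exact hcl z
  have hmem : connectedComponentIn Vᶜ y ∈ 𝓝 y := by
    refine mem_of_superset ((hU'.inter h𝒞cl.isOpen_compl).mem_nhds ⟨hyU', ?_⟩) ?_
    · rintro ⟨C, hC, hyC⟩
      exact hC.2 hyC
    · rintro z ⟨hzU', hz⟩
      have hzV : z ∈ Vᶜ := fun h => Set.disjoint_left.1 hUU' (hVU h) hzU'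
      by_contra hcon
      apply hz
      refine ⟨connectedComponentIn Vᶜ z, ⟨⟨z, hzV, rfl⟩, fun hyz => ?_⟩,
        mem_connectedComponentIn hzV⟩
      rw [← connectedComponentIn_eq hyz] at hcon
      exact hcon (mem_connectedComponentIn hzV)
  have := hy _ (hcl y) isPreconnected_connectedComponentIn hmem
  exact connectedComponentIn_subset _ _ this hpV

/-! ### No weak cut points -/

/-- The value of `g` along a ray. -/
theorem g_ray {t i : ℝ} (ht : 0 < t) (hi0 : 0 ≤ i) (hi1 : i ≤ 1) : g t (i * t) = i := by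
  have hit : i * t ≤ t := by nlinarith
  have hit0 : 0 ≤ i * t := by positivity
  have h1 : i * t ≤ |i * t - 2 * s t (i * t)| := by
    have h2 : 2 * t ≤ s t (i * t) := by
      unfold s
      linarith [sg_nonneg (i * t)]
    rw [abs_of_nonpos (by linarith)]
    linarith
  unfold g
  rw [min_eq_left h1, max_eq_left hit]
  field_simp

theorem exists_dir (t : I) : ∃ e : ℝ, |e| = 1 ∧ ∀ d : ℝ, 0 ≤ d → d ≤ 1 / 2 →
    (t : ℝ) + e * d ∈ I := by
  by_cases ht : (t : ℝ) ≤ 1 / 2
  · refine ⟨1, by norm_num, fun d hd0 hd => ⟨?_, ?_⟩⟩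
    · linarith [t.2.1]
    · linarith
  · push Not at ht
    refine ⟨-1, by norm_num, fun d hd0 hd => ⟨?_, ?_⟩⟩
    · linarith
    · linarith [t.2.2]

/-- Leaving the fibre over `x` from the point `pt x i`. -/
theorem leave (x : Sq) (i : I) : ∃ (K : Set M) (z : Sq), IsClosed K ∧ IsPreconnected K ∧ z ≠ x ∧
    pt x i ∈ K ∧ pr ⁻¹' {z} ⊆ K ∧ ∀ j, j ≠ i → pt x j ∉ K := by
  obtain ⟨e1, he1, h1⟩ := exists_dir x.1
  obtain ⟨e2, he2, h2⟩ := exists_dir x.2
  have hi0 : (0 : ℝ) ≤ i := i.2.1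
  have hi1 : (i : ℝ) ≤ 1 := i.2.2
  -- the ray, parametrised by [0, 1/2]
  let ζ : Icc (0 : ℝ) (1 / 2) → Sq := fun t =>
    (⟨x.1 + e1 * t, h1 t t.2.1 t.2.2⟩, ⟨x.2 + e2 * (i * t), h2 (i * t) (mul_nonneg hi0 t.2.1)
      (by nlinarith [t.2.1, t.2.2])⟩)
  have hζ : Continuous ζ := by
    refine Continuous.prodMk (Continuous.subtype_mk (by fun_prop) _)
      (Continuous.subtype_mk (by fun_prop) _)
  have hda : ∀ t : Icc (0 : ℝ) (1 / 2), da x (ζ t) = t := by
    intro t
    simp only [da, ζ]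
    rw [add_sub_cancel_left, abs_mul, he1, one_mul, abs_of_nonneg t.2.1]
  have hdb : ∀ t : Icc (0 : ℝ) (1 / 2), db x (ζ t) = i * t := by
    intro t
    simp only [db, ζ]
    rw [add_sub_cancel_left, abs_mul, he2, one_mul, abs_of_nonneg (mul_nonneg hi0 t.2.1)]
  have hne : ∀ t : Icc (0 : ℝ) (1 / 2), 0 < (t : ℝ) → ζ t ≠ x := by
    intro t ht he
    have := hda t
    rw [he] at this
    simp [da] at this
    linarith
  have hh : ∀ t : Icc (0 : ℝ) (1 / 2), 0 < (t : ℝ) → h x (ζ t) = i := by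
    intro t ht
    apply Subtype.ext
    change g (da x (ζ t)) (db x (ζ t)) = i
    rw [hda, hdb]
    exact g_ray ht hi0 hi1
  -- the connected set of parameters
  have hpos : IsPreconnected {t : Icc (0 : ℝ) (1 / 2) | 0 < (t : ℝ)} := by
    rw [← Topology.IsInducing.subtypeVal.isPreconnected_image]
    have : (Subtype.val '' {t : Icc (0 : ℝ) (1 / 2) | 0 < (t : ℝ)}) = Ioc (0 : ℝ) (1 / 2) := by
      ext t
      constructor
      · rintro ⟨t, ht, rfl⟩
        exact ⟨ht, t.2.2⟩
      · intro ht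
        exact ⟨⟨t, ht.1.le, ht.2⟩, ht.1, rfl⟩
    rw [this]
    exact isPreconnected_Ioc
  let A : Set Sq := ζ '' {t | 0 < (t : ℝ)}
  have hA : IsPreconnected A := hpos.image ζ hζ.continuousOn
  let R' : Set Sq := range ζ
  have hR' : IsClosed R' := (isCompact_range hζ).isClosed
  have hAR : ∀ z ∈ R', z ≠ x → z ∈ A := by
    rintro _ ⟨t, rfl⟩ hz
    refine ⟨t, ?_, rfl⟩
    by_contra ht
    have ht0 : (t : ℝ) = 0 := le_antisymm (not_lt.1 ht) t.2.1
    apply hz
    refine Prod.ext (Subtype.ext ?_) (Subtype.ext ?_)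
    · simp [ζ, ht0]
    · simp [ζ, ht0]
  let zz : Sq := ζ ⟨1 / 2, by norm_num, le_rfl⟩
  have hzz : zz ∈ A := ⟨⟨1 / 2, by norm_num, le_rfl⟩, by norm_num, rfl⟩
  let L : Set M := pr ⁻¹' A
  have hL : IsPreconnected L := pr_preimage hA
  -- sequence of points converging to pt x i
  have hcl : pt x i ∈ closure L := by
    let t : ℕ → Icc (0 : ℝ) (1 / 2) := fun n => ⟨(1 / 2) * (1 / (n + 1)), by positivity, by
      have : (1 : ℝ) / (n + 1) ≤ 1 := by
        rw [div_le_one (by positivity)]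
        linarith [(Nat.cast_nonneg n : (0 : ℝ) ≤ n)]
      linarith⟩
    have htpos : ∀ n, 0 < ((t n : Icc (0 : ℝ) (1 / 2)) : ℝ) := fun n => by
      simp only [t]
      positivity
    have ht0 : Tendsto (fun n => ((t n : Icc (0 : ℝ) (1 / 2)) : ℝ)) atTop (𝓝 0) := by
      have := (tendsto_one_div_add_atTop_nhds_zero_nat (𝕜 := ℝ)).const_mul (1 / 2)
      simpa [t] using this
    have hlim : Tendsto (fun n => pt (ζ (t n)) 0) atTop (𝓝 (pt x i)) := by
      refine tendsto_pt ?_ (fun n => hne _ (htpos n)) ?_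
      · refine tendsto_of_dist ht0 (fun n => (hda _).le) (fun n => ?_)
        simp only [pr_pt]
        rw [hdb]
        nlinarith [htpos n]
      · have : ∀ n, h x (pr (pt (ζ (t n)) 0)) = i := fun n => hh _ (htpos n)
        simp only [this]
        exact tendsto_const_nhds
    refine mem_closure_of_tendsto hlim (Eventually.of_forall fun n => ?_)
    exact ⟨t n, htpos n, rfl⟩
  refine ⟨closure L, zz, isClosed_closure, hL.closure, hne _ (by norm_num), hcl, ?_, ?_⟩
  · refine Subset.trans ?_ subset_closure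
    intro m hm
    have : pr m = zz := hm
    change pr m ∈ A
    rw [this]
    exact hzz
  · -- the closure contains no other point of the fibre
    intro j hj hmem
    have hsub : L ⊆ {m : M | m.1.2 x = i} := by
      rintro m ⟨t, ht, hm⟩
      have hm' : pr m = ζ t := hm.symm
      have hx : x ≠ m.1.1 := by
        intro he
        apply hne t ht
        rw [← hm']
        exact he.symm
      have h5 := m.2 x hx
      change m.1.2 x = i
      rw [h5]
      change h x (pr m) = i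
      rw [hm']
      exact hh t ht
    have hclosed : IsClosed {m : M | m.1.2 x = i} :=
      isClosed_eq ((continuous_apply x).comp (continuous_snd.comp continuous_subtype_val))
        continuous_const
    have := closure_minimal hsub hclosed hmem
    rw [Set.mem_ofPred_eq, pt_apply_self] at this
    exact hj this

/-- Joining points of the square off a given point. -/
theorem join_square {x z z' : Sq} (hz : z ≠ x) (hz' : z' ≠ x) : ∃ C : Set Sq, IsClosed C ∧
    IsPreconnected C ∧ z ∈ C ∧ z' ∈ C ∧ x ∉ C := by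
  obtain ⟨a0, ha0⟩ : ∃ a : I, a ≠ x.1 := exists_ne _
  obtain ⟨c0, hc0⟩ : ∃ c : I, c ≠ x.2 := exists_ne _
  let Vt : I → Set Sq := fun a => {a} ×ˢ univ
  let Hz : I → Set Sq := fun c => univ ×ˢ {c}
  have hV : ∀ a, IsPreconnected (Vt a) := fun a => isPreconnected_singleton.prod isPreconnected_univ
  have hH : ∀ a, IsPreconnected (Hz a) := fun a => isPreconnected_univ.prod isPreconnected_singleton
  have hVc : ∀ a, IsClosed (Vt a) := fun a => isClosed_singleton.prod isClosed_univ
  have hHc : ∀ a, IsClosed (Hz a) := fun a => isClosed_univ.prod isClosed_singleton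
  have hcross : IsPreconnected (Vt a0 ∪ Hz c0) :=
    (hV a0).union (a0, c0) ⟨rfl, trivial⟩ ⟨trivial, rfl⟩ (hH c0)
  have key : ∀ z : Sq, z ≠ x → ∃ L : Set Sq, IsClosed L ∧ IsPreconnected L ∧ z ∈ L ∧ x ∉ L ∧
      (L ∩ (Vt a0 ∪ Hz c0)).Nonempty := by
    intro z hz
    by_cases h1 : z.1 = x.1
    · have h2 : z.2 ≠ x.2 := fun h2 => hz (Prod.ext h1 h2)
      refine ⟨Hz z.2, hHc _, hH _, ⟨trivial, rfl⟩, fun h3 => h2 h3.2.symm, ?_⟩
      exact ⟨(a0, z.2), ⟨trivial, rfl⟩, Or.inl ⟨rfl, trivial⟩⟩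
    · refine ⟨Vt z.1, hVc _, hV _, ⟨rfl, trivial⟩, fun h3 => h1 h3.1.symm, ?_⟩
      exact ⟨(z.1, c0), ⟨rfl, trivial⟩, Or.inr ⟨trivial, rfl⟩⟩
  obtain ⟨L, hL1, hL2, hL3, hL4, hL5⟩ := key z hz
  obtain ⟨L', hL1', hL2', hL3', hL4', hL5'⟩ := key z' hz'
  refine ⟨L ∪ (Vt a0 ∪ Hz c0) ∪ L', (hL1.union ((hVc _).union (hHc _))).union hL1', ?_,
    Or.inl (Or.inl hL3), Or.inr hL3', ?_⟩
  · refine IsPreconnected.union' ?_ (IsPreconnected.union' hL5 hL2 hcross) hL2'
    obtain ⟨q, hq1, hq2⟩ := hL5'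
    exact ⟨q, Or.inr hq2, hq1⟩
  · rintro ((h1 | h1 | h1) | h1)
    · exact hL4 h1
    · exact ha0 h1.1.symm
    · exact hc0 h1.2.symm
    · exact hL4' h1

/-- No weak cut points. -/
theorem no_weak_cut (w p q : M) (hp : p ≠ w) (hq : q ≠ w) : ∃ K : Set M, IsClosed K ∧
    IsConnected K ∧ p ∈ K ∧ q ∈ K ∧ w ∉ K := by
  have key : ∀ p : M, p ≠ w → ∃ (K : Set M) (z : Sq), IsClosed K ∧ IsPreconnected K ∧
      z ≠ pr w ∧ p ∈ K ∧ pr ⁻¹' {z} ⊆ K ∧ w ∉ K := by
    intro p hp
    by_cases hpw : pr p = pr w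
    · obtain ⟨K, z, h1, h2, h3, h4, h5, h6⟩ := leave (pr w) (p.1.2 (pr w))
      refine ⟨K, z, h1, h2, h3, ?_, h5, ?_⟩
      · rw [eq_pt p, hpw]
        exact h4
      · rw [eq_pt w]
        refine h6 _ fun he => hp ?_
        rw [eq_pt p, eq_pt w, hpw, he]
    · refine ⟨pr ⁻¹' {pr p}, pr p, isClosed_singleton.preimage pr_continuous,
        fiber_preconnected _, hpw, rfl, subset_rfl, ?_⟩
      intro h1
      exact hpw (show pr w = pr p from h1).symm
  obtain ⟨K, z, h1, h2, h3, h4, h5, h6⟩ := key p hp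
  obtain ⟨K', z', h1', h2', h3', h4', h5', h6'⟩ := key q hq
  obtain ⟨C, hC1, hC2, hC3, hC4, hC5⟩ := join_square h3 h3'
  refine ⟨K ∪ pr ⁻¹' C ∪ K', (h1.union (hC1.preimage pr_continuous)).union h1', ⟨⟨p, ?_⟩, ?_⟩,
    Or.inl (Or.inl h4), Or.inr h4', ?_⟩
  · exact Or.inl (Or.inl h4)
  · refine IsPreconnected.union' ?_ (IsPreconnected.union' ?_ h2 (pr_preimage hC2)) h2'
    · exact ⟨pt z' 0, Or.inr hC4, h5' rfl⟩
    · exact ⟨pt z 0, h5 rfl, hC3⟩
  · rintro ((h7 | h7) | h7)
    · exact h6 h7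
    · exact hC5 h7
    · exact h6' h7

theorem main : ¬ (∀ (X : Type) [TopologicalSpace X] [CompactSpace X] [T2Space X] [ConnectedSpace X],
      (∀ p : X, ¬ ∀ U : Set X, IsOpen U → p ∈ U →
          ∃ V : Set X, IsOpen V ∧ p ∈ V ∧ V ⊆ U ∧
            {C : Set X | ∃ x ∈ Vᶜ, C = connectedComponentIn Vᶜ x}.Finite) →
      ∃ x y z : X, y ≠ x ∧ z ≠ x ∧
        ∀ K : Set X, IsClosed K → IsConnected K → y ∈ K → z ∈ K → x ∈ K) := by
  intro hall
  obtain ⟨x, y, z, hy, hz, hK⟩ := hall M not_slc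
  obtain ⟨K, h1, h2, h3, h4, h5⟩ := no_weak_cut x y z hy hz
  exact h5 (hK K h1 h2 h3 h4)

end Pool.Agent.Helper166.Resolution
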