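import Mathlib

set_option autoImplicit false

open Finset

namespace Pool.Agent.Helper166.Tuza

/-! ### The Motzkin-Straus argument -/

/-- The clique case. -/
theorem clique_bound {V : Type*} [DecidableEq V] (a : V → V → ℝ) (hsymm : ∀ i j, a i j = a j i)
    (hdiag : ∀ i, a i i = 0) (hle : ∀ i j, a i j ≤ 1) {r : ℕ} (hr : 2 ≤ r) {θ : ℝ}
    (hθ : θ = ((r : ℝ) - 2) / (r - 1)) (Q : Finset V) (x : V → ℝ) (hx0 : ∀ i ∈ Q, 0 ≤ x i)
    (hx1 : ∑ i ∈ Q, x i = 1) {lam : ℝ} (hlam : ∀ i ∈ Q, ∑ j ∈ Q, a i j * x j = lam)
    (hS : ∀ S ⊆ Q, S.card = r → ∑ i ∈ S, ∑ j ∈ S, a i j ≤ r * (r - 2)) : lam ≤ θ := by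
  have hr' : (2 : ℝ) ≤ r := by exact_mod_cast hr
  have hr1 : (0 : ℝ) < r - 1 := by linarith
  have hθ0 : 0 ≤ θ := by rw [hθ]; exact div_nonneg (by linarith) hr1.le
  have hθr : θ * (r - 1) = r - 2 := by rw [hθ]; field_simp
  have hQne : Q.Nonempty := by
    rw [Finset.nonempty_iff_ne_empty]
    rintro rfl
    simp at hx1
  -- λ ≤ 1 - x i
  have hl1 : ∀ i ∈ Q, lam ≤ 1 - x i := by
    intro i hi
    rw [← hlam i hi, ← hx1, ← Finset.add_sum_erase Q x hi,
      ← Finset.add_sum_erase Q (fun j => a i j * x j) hi, hdiag]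
    have : ∑ j ∈ Q.erase i, a i j * x j ≤ ∑ j ∈ Q.erase i, x j := by
      refine Finset.sum_le_sum fun j hj => ?_
      have := hx0 j (Finset.mem_of_mem_erase hj)
      have := hle i j
      nlinarith
    linarith
  by_cases hcard : Q.card < r
  · -- small support
    obtain ⟨i, hi, hxi⟩ : ∃ i ∈ Q, 1 / (Q.card : ℝ) ≤ x i := by
      by_contra hcon
      push Not at hcon
      have : ∑ i ∈ Q, x i < ∑ i ∈ Q, 1 / (Q.card : ℝ) := Finset.sum_lt_sum_of_nonempty hQne hcon
      rw [Finset.sum_const, nsmul_eq_mul, hx1] at this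
      have hc : (0 : ℝ) < Q.card := by exact_mod_cast hQne.card_pos
      rw [mul_one_div_cancel hc.ne'] at this
      exact lt_irrefl _ this
    have h1 := hl1 i hi
    have hc : (0 : ℝ) < Q.card := by exact_mod_cast hQne.card_pos
    have hc1 : (Q.card : ℝ) ≤ r - 1 := by
      have : Q.card + 1 ≤ r := hcard
      have : ((Q.card + 1 : ℕ) : ℝ) ≤ r := by exact_mod_cast this
      push_cast at this
      linarith
    have h2 : 1 / ((r : ℝ) - 1) ≤ 1 / (Q.card : ℝ) := one_div_le_one_div_of_le hc hc1
    have h3 : θ = 1 - 1 / ((r : ℝ) - 1) := by rw [hθ]; field_simp; ring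
    linarith
  · push Not at hcard
    have key : ∀ t : ℕ, 1 ≤ t → t + 1 ≤ r →
        (∀ T ⊆ Q, T.card = t + 1 → ∑ i ∈ T, ∑ j ∈ T, a i j ≤ ((t : ℝ) + 1) * t * θ) →
        lam ≤ θ := by
      intro t ht
      induction t, ht using Nat.le_induction with
      | base =>
        intro _ hP
        obtain ⟨i, hi⟩ := hQne
        have hpair : ∀ j ∈ Q.erase i, a i j ≤ θ := by
          intro j hj
          have hij : j ≠ i := Finset.ne_of_mem_erase hj
          have := hP {i, j} (by
            intro z hz
            rw [Finset.mem_insert, Finset.mem_singleton] at hz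
            rcases hz with rfl | rfl
            · exact hi
            · exact Finset.mem_of_mem_erase hj) (Finset.card_pair hij.symm)
          rw [Finset.sum_pair hij.symm, Finset.sum_pair hij.symm, Finset.sum_pair hij.symm,
            hdiag, hdiag, hsymm j i] at this
          push_cast at this
          linarith
        rw [← hlam i hi, ← Finset.add_sum_erase Q (fun j => a i j * x j) hi, hdiag]
        have h1 : ∑ j ∈ Q.erase i, a i j * x j ≤ ∑ j ∈ Q.erase i, θ * x j := by
          refine Finset.sum_le_sum fun j hj => ?_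
          exact mul_le_mul_of_nonneg_right (hpair j hj) (hx0 j (Finset.mem_of_mem_erase hj))
        rw [← Finset.mul_sum] at h1
        have h2 : ∑ j ∈ Q.erase i, x j ≤ 1 := by
          rw [← hx1, ← Finset.add_sum_erase Q x hi]
          have := hx0 i hi
          linarith
        nlinarith
      | succ t ht ih =>
        intro htr hP
        by_cases hPt : ∀ T ⊆ Q, T.card = t + 1 → ∑ i ∈ T, ∑ j ∈ T, a i j ≤ ((t : ℝ) + 1) * t * θ
        · exact ih (by omega) hPt
        · push Not at hPt
          obtain ⟨T, hTQ, hTc, hT⟩ := hPt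
          set s : ℝ := ∑ i ∈ T, x i with hs
          set A : ℝ := ∑ i ∈ T, ∑ j ∈ T, a i j with hA
          have hTt : ((t : ℝ) + 1) = (T.card : ℝ) := by rw [hTc]; push_cast; ring
          have hout : ∑ l ∈ Q \ T, x l = 1 - s := by
            have := Finset.sum_sdiff (f := x) hTQ
            linarith
          have hs1 : 0 ≤ 1 - s := by
            rw [← hout]
            exact Finset.sum_nonneg fun l hl => hx0 l (Finset.mem_sdiff.1 hl).1
          have hs0 : 0 ≤ s := Finset.sum_nonneg fun l hl => hx0 l (hTQ hl)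
          -- inequality for each outside vertex
          have hl : ∀ l ∈ Q \ T, x l * (A + 2 * ∑ i ∈ T, a i l) ≤
              x l * (((t : ℝ) + 1 + 1) * (t + 1) * θ) := by
            intro l hl
            obtain ⟨hlQ, hlT⟩ := Finset.mem_sdiff.1 hl
            refine mul_le_mul_of_nonneg_left ?_ (hx0 l hlQ)
            have h1 := hP (insert l T) (Finset.insert_subset hlQ hTQ) (by
              rw [Finset.card_insert_of_notMem hlT, hTc])
            rw [Finset.sum_insert hlT, Finset.sum_insert hlT, hdiag] at h1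
            have h2 : ∑ i ∈ T, ∑ j ∈ insert l T, a i j = ∑ i ∈ T, a i l + A := by
              rw [hA, ← Finset.sum_add_distrib]
              refine Finset.sum_congr rfl fun i _ => ?_
              rw [Finset.sum_insert hlT]
            have h3 : ∑ j ∈ T, a l j = ∑ i ∈ T, a i l := Finset.sum_congr rfl fun i _ => hsymm l i
            rw [h2, h3] at h1
            push_cast at h1
            linarith
          have hsum := Finset.sum_le_sum hl
          have e1 : ∑ l ∈ Q \ T, x l * (A + 2 * ∑ i ∈ T, a i l) =
              A * (1 - s) + 2 * ∑ i ∈ T, ∑ l ∈ Q \ T, a i l * x l := by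
            rw [Finset.sum_comm, ← hout, Finset.mul_sum, Finset.mul_sum, ← Finset.sum_add_distrib]
            refine Finset.sum_congr rfl fun l _ => ?_
            rw [← Finset.sum_mul]
            ring
          have e2 : ∀ i ∈ T, ∑ l ∈ Q \ T, a i l * x l = lam - ∑ j ∈ T, a i j * x j := by
            intro i hi
            rw [← hlam i (hTQ hi), ← Finset.sum_sdiff hTQ]
            ring
          have e3 : ∑ i ∈ T, ∑ l ∈ Q \ T, a i l * x l =
              ((t : ℝ) + 1) * lam - ∑ i ∈ T, ∑ j ∈ T, a i j * x j := by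
            rw [Finset.sum_congr rfl e2, Finset.sum_sub_distrib, Finset.sum_const, nsmul_eq_mul,
              ← hTt]
          have e4 : ∑ i ∈ T, ∑ j ∈ T, a i j * x j ≤ t * s := by
            rw [Finset.sum_comm, hs, Finset.mul_sum]
            refine Finset.sum_le_sum fun j hj => ?_
            rw [← Finset.sum_mul]
            refine mul_le_mul_of_nonneg_right ?_ (hx0 j (hTQ hj))
            rw [← Finset.add_sum_erase T (fun i => a i j) hj, hdiag]
            have : ∑ i ∈ T.erase j, a i j ≤ ∑ i ∈ T.erase j, (1 : ℝ) :=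
              Finset.sum_le_sum fun i _ => hle i j
            rw [Finset.sum_const, Finset.card_erase_of_mem hj, hTc] at this
            simpa using this
          have e5 : ∑ l ∈ Q \ T, x l * (((t : ℝ) + 1 + 1) * (t + 1) * θ) =
              ((t : ℝ) + 1 + 1) * (t + 1) * θ * (1 - s) := by
            rw [← Finset.sum_mul, hout]
            ring
          rw [e1, e3, e5] at hsum
          have hA' : ((t : ℝ) + 1) * t * θ * (1 - s) ≤ A * (1 - s) :=
            mul_le_mul_of_nonneg_right hT.le hs1
          have htθ : (t : ℝ) ≤ (t + 1) * θ := by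
            have h1 : ((t : ℝ) + 2) ≤ r := by
              have : t + 1 + 1 ≤ r := htr
              exact_mod_cast this
            have h2 : (t : ℝ) * (r - 1) ≤ ((t + 1) * θ) * (r - 1) := by
              have : ((t : ℝ) + 1) * θ * (r - 1) = (t + 1) * (r - 2) := by rw [mul_assoc, hθr]
              rw [this]
              nlinarith
            exact le_of_mul_le_mul_right h2 hr1
          have htθ' : (t : ℝ) * s ≤ (t + 1) * θ * s := mul_le_mul_of_nonneg_right htθ hs0
          have ht0 : (0 : ℝ) ≤ t := Nat.cast_nonneg t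
          have hfin : ((t : ℝ) + 1) * lam ≤ (t + 1) * θ := by nlinarith
          exact le_of_mul_le_mul_left hfin (by positivity)
    obtain ⟨t, rfl⟩ : ∃ t, r = t + 1 := ⟨r - 1, by omega⟩
    refine key t (by omega) le_rfl ?_
    intro T hTQ hTc
    refine (hS T hTQ hTc).trans (le_of_eq ?_)
    have := hθr
    push_cast at this ⊢
    have h2 : θ * t = t - 1 := by linarith
    have : ((t : ℝ) + 1) * t * θ = (t + 1) * (θ * t) := by ring
    rw [this, h2]
    ring

end Pool.Agent.Helper166.Tuza
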