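import Pool.Agent.Helper166.TuzaA

set_option autoImplicit false

open Finset

namespace Pool.Agent.Helper166.Tuza

/-- The quadratic form. -/
noncomputable def quad {V : Type*} [Fintype V] (a : V → V → ℝ) (x : V → ℝ) : ℝ :=
  ∑ i, ∑ j, a i j * x i * x j

theorem quad_continuous {V : Type*} [Fintype V] (a : V → V → ℝ) : Continuous (quad a) := by
  unfold quad
  fun_prop

/-- Effect of moving mass from `j` to `i`. -/
theorem quad_move {V : Type*} [Fintype V] [DecidableEq V] (a : V → V → ℝ)
    (hsymm : ∀ i j, a i j = a j i) (hdiag : ∀ i, a i i = 0) (x : V → ℝ) {i j : V} (hij : i ≠ j)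
    (t : ℝ) : quad a (fun l => x l + t * (if l = i then 1 else 0) - t * (if l = j then 1 else 0)) =
      quad a x + 2 * t * (∑ l, a i l * x l - ∑ l, a j l * x l) - 2 * t ^ 2 * a i j := by
  unfold quad
  set δi : V → ℝ := fun l => if l = i then 1 else 0 with hδi
  set δj : V → ℝ := fun l => if l = j then 1 else 0 with hδj
  have expand : ∀ p q : V, a p q * (x p + t * δi p - t * δj p) * (x q + t * δi q - t * δj q) =
      a p q * x p * x q + t * (δi p * (a p q * x q)) - t * (δj p * (a p q * x q)) +
      t * (δi q * (a p q * x p)) - t * (δj q * (a p q * x p)) +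
      t ^ 2 * (δi p * (δi q * a p q)) + t ^ 2 * (δj p * (δj q * a p q)) -
      t ^ 2 * (δi p * (δj q * a p q)) - t ^ 2 * (δj p * (δi q * a p q)) := by
    intro p q
    ring
  have hsum : ∀ (f : V → ℝ) (u : V), ∑ l, (if l = u then (1 : ℝ) else 0) * f l = f u := by
    intro f u
    simp
  have h1 : ∑ p, ∑ q, t * (δi p * (a p q * x q)) = t * ∑ q, a i q * x q := by
    rw [Finset.mul_sum]
    have : ∀ p, ∑ q, t * (δi p * (a p q * x q)) = δi p * (t * ∑ q, a p q * x q) := by
      intro p
      rw [Finset.mul_sum, Finset.mul_sum]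
      exact Finset.sum_congr rfl fun q _ => by ring
    rw [Finset.sum_congr rfl fun p _ => this p, hsum, Finset.mul_sum]
  have h2 : ∑ p, ∑ q, t * (δj p * (a p q * x q)) = t * ∑ q, a j q * x q := by
    rw [Finset.mul_sum]
    have : ∀ p, ∑ q, t * (δj p * (a p q * x q)) = δj p * (t * ∑ q, a p q * x q) := by
      intro p
      rw [Finset.mul_sum, Finset.mul_sum]
      exact Finset.sum_congr rfl fun q _ => by ring
    rw [Finset.sum_congr rfl fun p _ => this p, hsum, Finset.mul_sum]
  have h3 : ∑ p, ∑ q, t * (δi q * (a p q * x p)) = t * ∑ q, a i q * x q := by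
    rw [Finset.sum_comm, ← h1]
    exact Finset.sum_congr rfl fun p _ => Finset.sum_congr rfl fun q _ => by rw [hsymm q p]
  have h4 : ∑ p, ∑ q, t * (δj q * (a p q * x p)) = t * ∑ q, a j q * x q := by
    rw [Finset.sum_comm, ← h2]
    exact Finset.sum_congr rfl fun p _ => Finset.sum_congr rfl fun q _ => by rw [hsymm q p]
  have hdd : ∀ (u v : V), ∑ p, ∑ q, t ^ 2 * ((if p = u then (1 : ℝ) else 0) *
      ((if q = v then (1 : ℝ) else 0) * a p q)) = t ^ 2 * a u v := by
    intro u v
    have : ∀ p, ∑ q, t ^ 2 * ((if p = u then (1 : ℝ) else 0) *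
        ((if q = v then (1 : ℝ) else 0) * a p q)) =
        (if p = u then (1 : ℝ) else 0) * (t ^ 2 * a p v) := by
      intro p
      rw [← hsum (fun q => a p q) v, Finset.mul_sum, Finset.mul_sum]
      exact Finset.sum_congr rfl fun q _ => by ring
    rw [Finset.sum_congr rfl fun p _ => this p, hsum]
  have e0 : (∑ p, ∑ q, a p q * (x p + t * (if p = i then 1 else 0) - t * (if p = j then 1 else 0)) *
      (x q + t * (if q = i then 1 else 0) - t * (if q = j then 1 else 0))) =
      ∑ p, ∑ q, (a p q * x p * x q + t * (δi p * (a p q * x q)) - t * (δj p * (a p q * x q)) +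
      t * (δi q * (a p q * x p)) - t * (δj q * (a p q * x p)) +
      t ^ 2 * (δi p * (δi q * a p q)) + t ^ 2 * (δj p * (δj q * a p q)) -
      t ^ 2 * (δi p * (δj q * a p q)) - t ^ 2 * (δj p * (δi q * a p q))) :=
    Finset.sum_congr rfl fun p _ => Finset.sum_congr rfl fun q _ => expand p q
  rw [e0]
  simp only [Finset.sum_add_distrib, Finset.sum_sub_distrib]
  rw [h1, h2, h3, h4]
  have d1 := hdd i i
  have d2 := hdd j j
  have d3 := hdd i j
  have d4 := hdd j i
  simp only [hδi, hδj]
  rw [d1, d2, d3, d4, hdiag, hdiag, hsymm j i]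
  ring

/-- Motzkin-Straus type bound. -/
theorem quad_le {V : Type*} [Fintype V] [DecidableEq V] (Adj : V → V → Prop)
    (a : V → V → ℝ) (hsymm : ∀ i j, a i j = a j i)
    (hdiag : ∀ i, a i i = 0) (hle : ∀ i j, a i j ≤ 1) (hnon : ∀ i j, ¬ Adj i j → a i j = 0)
    {r : ℕ} (hr : 2 ≤ r) {θ : ℝ} (hθ : θ = ((r : ℝ) - 2) / (r - 1))
    (hS : ∀ S : Finset V, S.card = r → (∀ i ∈ S, ∀ j ∈ S, i ≠ j → Adj i j) →
      ∑ i ∈ S, ∑ j ∈ S, a i j ≤ r * (r - 2))
    (x : V → ℝ) (hx : x ∈ stdSimplex ℝ V) : quad a x ≤ θ := by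
  classical
  have hcomp : IsCompact (stdSimplex ℝ V) := isCompact_stdSimplex ℝ V
  obtain ⟨y0, hy0, hymax0⟩ := hcomp.exists_isMaxOn ⟨x, hx⟩ (quad_continuous a).continuousOn
  -- choose a maximiser with minimal support
  let M : Set (V → ℝ) := {y | y ∈ stdSimplex ℝ V ∧ ∀ z ∈ stdSimplex ℝ V, quad a z ≤ quad a y}
  have hM : M.Nonempty := ⟨y0, hy0, fun z hz => hymax0 hz⟩
  let supp : (V → ℝ) → Finset V := fun y => Finset.univ.filter fun i => y i ≠ 0
  obtain ⟨y, ⟨hy, hymax⟩, hymin⟩ := WellFounded.has_min
    (measure fun y : V → ℝ => (supp y).card).wf M hM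
  have hymin' : ∀ z ∈ M, (supp y).card ≤ (supp z).card := fun z hz => not_lt.1 (hymin z hz)
  refine (hymax x hx).trans ?_
  set D : V → ℝ := fun i => ∑ l, a i l * y l with hD
  -- moving
  have hmove : ∀ i j : V, i ≠ j → ∀ t : ℝ, 0 ≤ t → t ≤ y j →
      (fun l => y l + t * (if l = i then 1 else 0) - t * (if l = j then 1 else 0)) ∈
        stdSimplex ℝ V := by
    intro i j hij t ht0 htj
    refine ⟨fun l => ?_, ?_⟩
    · have h1 := hy.1 l
      by_cases hli : l = i
      · subst hli
        simp only [if_true, if_neg hij]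
        linarith
      · by_cases hlj : l = j
        · subst hlj
          simp only [if_true, if_neg hli]
          linarith
        · simp only [if_neg hli, if_neg hlj]
          linarith
    · rw [Finset.sum_sub_distrib, Finset.sum_add_distrib, ← Finset.mul_sum, ← Finset.mul_sum]
      simp [hy.2]
  have hDle : ∀ i j : V, i ≠ j → y j ≠ 0 → D i ≤ D j := by
    intro i j hij hj
    have hjpos : 0 < y j := lt_of_le_of_ne (hy.1 j) (Ne.symm hj)
    by_contra hcon
    push Not at hcon
    -- choose small t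
    have hbound : ∀ t : ℝ, 0 < t → t ≤ y j → D i - D j ≤ t * a i j := by
      intro t ht0 htj
      have h1 := hymax _ (hmove i j hij t ht0.le htj)
      rw [quad_move a hsymm hdiag y hij t] at h1
      have h2 : 2 * t * (D i - D j) ≤ 2 * t * (t * a i j) := by
        have : 2 * t * (t * a i j) = 2 * t ^ 2 * a i j := by ring
        rw [this]
        change quad a y + 2 * t * (D i - D j) - 2 * t ^ 2 * a i j ≤ quad a y at h1
        linarith
      exact le_of_mul_le_mul_left h2 (by positivity)
    have hDpos : 0 < D i - D j := by linarith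
    have h3 := hbound (min (y j) ((D i - D j) / 2)) (by positivity) (min_le_left _ _)
    have h4 : min (y j) ((D i - D j) / 2) * a i j ≤ (D i - D j) / 2 := by
      have h5 : 0 < min (y j) ((D i - D j) / 2) := by positivity
      have h6 := hle i j
      have h7 := min_le_right (y j) ((D i - D j) / 2)
      nlinarith
    linarith
  have hDeq : ∀ i j : V, y i ≠ 0 → y j ≠ 0 → D i = D j := by
    intro i j hi hj
    by_cases hij : i = j
    · rw [hij]
    · exact le_antisymm (hDle i j hij hj) (hDle j i (Ne.symm hij) hi)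
  -- support is a clique
  have hclique : ∀ i ∈ supp y, ∀ j ∈ supp y, i ≠ j → Adj i j := by
    intro i hi j hj hij
    have hi' : y i ≠ 0 := (Finset.mem_filter.1 hi).2
    have hj' : y j ≠ 0 := (Finset.mem_filter.1 hj).2
    by_contra hadj
    have ha := hnon i j hadj
    have hjpos : 0 < y j := lt_of_le_of_ne (hy.1 j) (Ne.symm hj')
    set z : V → ℝ := fun l => y l + y j * (if l = i then 1 else 0) -
      y j * (if l = j then 1 else 0) with hz
    have hzs : z ∈ stdSimplex ℝ V := hmove i j hij (y j) hjpos.le le_rfl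
    have hzq : quad a z = quad a y := by
      rw [hz, quad_move a hsymm hdiag y hij (y j), ha]
      have : (∑ l, a i l * y l) - ∑ l, a j l * y l = 0 := by
        have := hDeq i j hi' hj'
        simp only [hD] at this
        linarith
      rw [this]
      ring
    have hzM : z ∈ M := ⟨hzs, fun w hw => by rw [hzq]; exact hymax w hw⟩
    have hlt : (supp z).card < (supp y).card := by
      refine Finset.card_lt_card ?_
      rw [Finset.ssubset_iff_of_subset]
      · refine ⟨j, hj, ?_⟩
        simp only [supp, Finset.mem_filter, Finset.mem_univ, true_and, not_not, hz, if_true,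
          if_neg (Ne.symm hij)]
        ring
      · intro l hl
        have hl' : z l ≠ 0 := (Finset.mem_filter.1 hl).2
        refine Finset.mem_filter.2 ⟨Finset.mem_univ _, fun h0 => hl' ?_⟩
        have hli : l ≠ i := by rintro rfl; exact hi' h0
        have hlj : l ≠ j := by rintro rfl; exact hj' h0
        simp [hz, hli, hlj, h0]
    exact absurd (hymin' z hzM) (not_le.2 hlt)
  -- pick lam
  have hsum1 : ∑ i ∈ supp y, y i = 1 := by
    rw [← hy.2]
    refine Finset.sum_subset (Finset.subset_univ _) fun l _ hl => ?_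
    by_contra h0
    exact hl (Finset.mem_filter.2 ⟨Finset.mem_univ _, h0⟩)
  obtain ⟨i0, hi0⟩ : (supp y).Nonempty := by
    rw [Finset.nonempty_iff_ne_empty]
    intro h0
    rw [h0] at hsum1
    simp at hsum1
  have hi0' : y i0 ≠ 0 := (Finset.mem_filter.1 hi0).2
  have hq : quad a y = D i0 := by
    unfold quad
    have : ∀ i, ∑ j, a i j * y i * y j = y i * D i0 := by
      intro i
      by_cases hi : y i = 0
      · simp [hi]
      · rw [← hDeq i i0 hi hi0', hD, Finset.mul_sum]
        exact Finset.sum_congr rfl fun j _ => by ring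
    rw [Finset.sum_congr rfl fun i _ => this i, ← Finset.sum_mul, hy.2, one_mul]
  rw [hq]
  refine clique_bound a hsymm hdiag hle hr hθ (supp y) y (fun i _ => hy.1 i) hsum1 ?_ ?_
  · intro i hi
    rw [← hDeq i i0 (Finset.mem_filter.1 hi).2 hi0', hD]
    refine Finset.sum_subset (Finset.subset_univ _) fun l _ hl => ?_
    have : y l = 0 := by
      by_contra h0
      exact hl (Finset.mem_filter.2 ⟨Finset.mem_univ _, h0⟩)
    rw [this, mul_zero]
  · intro S hSs hSc
    exact hS S hSc fun i hi j hj hij => hclique i (hSs hi) j (hSs hj) hij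

/-- The dual form of the fractional theorem. -/
theorem fractional_dual {k : ℕ} (hk : 0 < k) {r : ℕ} (hr : 2 ≤ r) {θ : ℝ}
    (hθ : θ = ((r : ℝ) - 2) / (r - 1)) (d w : Fin k → Fin k → ℝ)
    (hd0 : ∀ i j, 0 ≤ d i j) (hd1 : ∀ i j, d i j ≤ 1)
    (hws : ∀ i j, w i j = w j i) (hw0 : ∀ i j, 0 ≤ w i j)
    (hw : ∀ S : Finset (Fin k), S.card = r → 2 ≤ ∑ i ∈ S, ∑ j ∈ S.erase i, w i j) :
    ∑ i, ∑ j ∈ univ.erase i, d i j - θ * k ^ 2 ≤
      (r / 2) * ∑ i, ∑ j ∈ univ.erase i, w i j * d i j := by
  classical
  have hr' : (2 : ℝ) ≤ r := by exact_mod_cast hr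
  let a : Fin k → Fin k → ℝ := fun i j => if i = j then 0 else max 0 (1 - (r / 2) * w i j)
  let Adj : Fin k → Fin k → Prop := fun i j => i ≠ j ∧ 0 < 1 - ((r : ℝ) / 2) * w i j
  have ha1 : ∀ i j, a i j ≤ 1 := by
    intro i j
    simp only [a]
    split_ifs
    · norm_num
    · refine max_le (by norm_num) ?_
      have := hw0 i j
      have : 0 ≤ ((r : ℝ) / 2) * w i j := by positivity
      linarith
  have hmain := quad_le Adj a (fun i j => by
      simp only [a]
      by_cases hij : i = j
      · simp [hij]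
      · rw [if_neg hij, if_neg (Ne.symm hij), hws]) (fun i => by simp [a]) ha1
      (fun i j hadj => by
        simp only [a]
        by_cases hij : i = j
        · simp [hij]
        · rw [if_neg hij]
          refine max_eq_left ?_
          by_contra h1
          exact hadj ⟨hij, not_le.1 h1⟩) hr hθ
      (fun S hSc hSadj => by
        have h1 : ∀ i ∈ S, ∑ j ∈ S, a i j = ∑ j ∈ S.erase i, (1 - (r / 2) * w i j) := by
          intro i hi
          rw [← Finset.add_sum_erase S (fun j => a i j) hi]
          simp only [a, if_true, zero_add]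
          refine Finset.sum_congr rfl fun j hj => ?_
          have hij : i ≠ j := (Finset.ne_of_mem_erase hj).symm
          rw [if_neg hij]
          exact max_eq_right (hSadj i hi j (Finset.mem_of_mem_erase hj) hij).2.le
        rw [Finset.sum_congr rfl h1]
        have h2 : ∀ i ∈ S, ∑ j ∈ S.erase i, (1 - ((r : ℝ) / 2) * w i j) =
            ((r : ℝ) - 1) - (r / 2) * ∑ j ∈ S.erase i, w i j := by
          intro i hi
          rw [Finset.sum_sub_distrib, ← Finset.mul_sum, Finset.sum_const, nsmul_eq_mul, mul_one,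
            Finset.card_erase_of_mem hi, hSc, Nat.cast_sub (by omega)]
          simp
        rw [Finset.sum_congr rfl h2, Finset.sum_sub_distrib, ← Finset.mul_sum, Finset.sum_const,
          nsmul_eq_mul, hSc]
        have h3 := hw S hSc
        have h4 : ((r : ℝ) / 2) * 2 ≤ (r / 2) * ∑ i ∈ S, ∑ j ∈ S.erase i, w i j :=
          mul_le_mul_of_nonneg_left h3 (by positivity)
        linarith)
      (fun _ => (1 : ℝ) / k) (by
        refine ⟨fun i => by positivity, ?_⟩
        rw [Finset.sum_const, Finset.card_univ, Fintype.card_fin, nsmul_eq_mul]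
        field_simp)
  have hk' : (0 : ℝ) < k := by exact_mod_cast hk
  have hq : quad a (fun _ => (1 : ℝ) / k) = (∑ i, ∑ j, a i j) / k ^ 2 := by
    unfold quad
    rw [Finset.sum_div]
    refine Finset.sum_congr rfl fun i _ => ?_
    rw [Finset.sum_div]
    refine Finset.sum_congr rfl fun j _ => ?_
    field_simp
  rw [hq, div_le_iff₀ (by positivity)] at hmain
  have hle : ∑ i, ∑ j ∈ univ.erase i, (d i j - (r / 2) * (w i j * d i j)) ≤ ∑ i, ∑ j, a i j := by
    refine Finset.sum_le_sum fun i _ => ?_
    rw [← Finset.add_sum_erase univ (fun j => a i j) (Finset.mem_univ i)]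
    have h0 : a i i = 0 := by simp [a]
    rw [h0, zero_add]
    refine Finset.sum_le_sum fun j hj => ?_
    have hij : i ≠ j := (Finset.ne_of_mem_erase hj).symm
    simp only [a, if_neg hij]
    have h1 := hd0 i j
    have h2 := hd1 i j
    rcases le_total 0 (1 - (r / 2) * w i j) with h3 | h3
    · rw [max_eq_right h3]
      nlinarith
    · rw [max_eq_left h3]
      nlinarith
  have hexp : ∑ i, ∑ j ∈ univ.erase i, (d i j - ((r : ℝ) / 2) * (w i j * d i j)) =
      ∑ i, ∑ j ∈ univ.erase i, d i j - (r / 2) * ∑ i, ∑ j ∈ univ.erase i, w i j * d i j := by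
    rw [Finset.mul_sum, ← Finset.sum_sub_distrib]
    refine Finset.sum_congr rfl fun i _ => ?_
    rw [Finset.mul_sum, ← Finset.sum_sub_distrib]
  rw [hexp] at hle
  linarith

end Pool.Agent.Helper166.Tuza
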