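import Pool.Agent.Helper166.TuzaB

set_option autoImplicit false

open Finset

namespace Pool.Agent.Helper166.Tuza

/-- Approximate strong duality for packing linear programs. -/
theorem lp_approx {P T : Type} [Fintype P] [Fintype T] (A : P → T → ℝ) (hA : ∀ p s, 0 ≤ A p s)
    (d : P → ℝ) (hd : ∀ p, 0 ≤ d p) (v : ℝ)
    (hv : ∀ w : P → ℝ, (∀ p, 0 ≤ w p) → (∀ s, 1 ≤ ∑ p, A p s * w p) → v ≤ ∑ p, w p * d p)
    {ε : ℝ} (hε : 0 < ε) :
    ∃ z : T → ℝ, (∀ s, 0 ≤ z s) ∧ (∀ p, ∑ s, A p s * z s < d p + ε) ∧ v - ε < ∑ s, z s := by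
  classical
  by_contra hcon
  push Not at hcon
  let O : Set ((P → ℝ) × ℝ) := {q | (∀ p, q.1 p < d p + ε) ∧ v - ε < q.2}
  let K : Set ((P → ℝ) × ℝ) := {q | ∃ z : T → ℝ, (∀ s, 0 ≤ z s) ∧ q.1 = (fun p => ∑ s, A p s * z s) ∧
    q.2 = ∑ s, z s}
  have hO : IsOpen O := by
    have : O = (⋂ p, {q : (P → ℝ) × ℝ | q.1 p < d p + ε}) ∩ {q | v - ε < q.2} := by
      ext q
      simp [O]
    rw [this]
    refine IsOpen.inter (isOpen_iInter_of_finite fun p => ?_) ?_
    · exact isOpen_lt (by fun_prop) continuous_const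
    · exact isOpen_lt continuous_const (by fun_prop)
  have hOc : Convex ℝ O := by
    intro x hx y hy a b ha hb hab
    refine ⟨fun p => ?_, ?_⟩
    · have h1 := hx.1 p
      have h2 := hy.1 p
      simp only [Prod.fst_add, Prod.smul_fst, Pi.add_apply, Pi.smul_apply, smul_eq_mul]
      rcases ha.eq_or_lt with rfl | ha'
      · have : b = 1 := by linarith
        subst this
        simpa using h2
      · have h3 : a * x.1 p < a * (d p + ε) := mul_lt_mul_of_pos_left h1 ha'
        have h4 : b * y.1 p ≤ b * (d p + ε) := mul_le_mul_of_nonneg_left h2.le hb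
        have h5 : a * (d p + ε) + b * (d p + ε) = d p + ε := by rw [← add_mul, hab, one_mul]
        linarith
    · have h1 := hx.2
      have h2 := hy.2
      simp only [Prod.snd_add, Prod.smul_snd, smul_eq_mul]
      rcases ha.eq_or_lt with rfl | ha'
      · have : b = 1 := by linarith
        subst this
        simpa using h2
      · have h3 : a * (v - ε) < a * x.2 := mul_lt_mul_of_pos_left h1 ha'
        have h4 : b * (v - ε) ≤ b * y.2 := mul_le_mul_of_nonneg_left h2.le hb
        have h5 : a * (v - ε) + b * (v - ε) = v - ε := by rw [← add_mul, hab, one_mul]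
        linarith
  have hKc : Convex ℝ K := by
    rintro x ⟨z, hz, hx1, hx2⟩ y ⟨z', hz', hy1, hy2⟩ a b ha hb hab
    refine ⟨fun s => a * z s + b * z' s, fun s => ?_, ?_, ?_⟩
    · have := hz s
      have := hz' s
      positivity
    · funext p
      simp only [Prod.fst_add, Prod.smul_fst, Pi.add_apply, Pi.smul_apply, smul_eq_mul, hx1, hy1,
        Finset.mul_sum, ← Finset.sum_add_distrib]
      exact Finset.sum_congr rfl fun s _ => by ring
    · simp only [Prod.snd_add, Prod.smul_snd, smul_eq_mul, hx2, hy2, Finset.mul_sum,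
        ← Finset.sum_add_distrib]
  have hdisj : Disjoint O K := by
    rw [Set.disjoint_left]
    rintro q ⟨h1, h2⟩ ⟨z, hz, hq1, hq2⟩
    rw [hq1] at h1
    rw [hq2] at h2
    exact absurd (hcon z hz h1) (not_le.2 h2)
  obtain ⟨f, u, hfO, hfK⟩ := geometric_hahn_banach_open hOc hO hKc hdisj
  -- coordinates of f
  let w : P → ℝ := fun p => f (Pi.single p 1, 0)
  let β : ℝ := -f (0, 1)
  have hf : ∀ q : (P → ℝ) × ℝ, f q = ∑ p, w p * q.1 p - β * q.2 := by
    intro q
    have h1 : q = (q.1, 0) + (0, q.2) := by ext <;> simp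
    have h2 : f (0, q.2) = q.2 * f (0, 1) := by
      have : ((0 : P → ℝ), q.2) = q.2 • ((0 : P → ℝ), (1 : ℝ)) := by ext <;> simp
      rw [this, map_smul, smul_eq_mul]
    have h3 : f (q.1, 0) = ∑ p, w p * q.1 p := by
      have : ((q.1, 0) : (P → ℝ) × ℝ) = ∑ p, q.1 p • ((Pi.single p 1 : P → ℝ), (0 : ℝ)) := by
        refine Prod.ext ?_ ?_
        · rw [Prod.fst_sum]
          simp only [Prod.smul_fst]
          funext p'
          rw [Finset.sum_apply]
          simp [Pi.single_apply]
        · rw [Prod.snd_sum]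
          simp
      rw [this, map_sum]
      refine Finset.sum_congr rfl fun p _ => ?_
      rw [map_smul, smul_eq_mul]
      ring
    conv_lhs => rw [h1, map_add, h3, h2]
    simp only [β]
    ring
  have h0K : ((fun _ => 0, 0) : (P → ℝ) × ℝ) ∈ K :=
    ⟨fun _ => 0, fun _ => le_rfl, by funext p; simp, by simp⟩
  have hu0 : u ≤ 0 := by
    have := hfK _ h0K
    rw [hf] at this
    simpa using this
  -- f is nonnegative on K
  have hfK0 : ∀ q ∈ K, 0 ≤ f q := by
    rintro q ⟨z, hz, hq1, hq2⟩
    by_contra hneg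
    push Not at hneg
    obtain ⟨t, ht⟩ : ∃ t : ℝ, 0 ≤ t ∧ t * f q < u := by
      refine ⟨(u - 1) / f q, div_nonneg_of_nonpos (by linarith) hneg.le, ?_⟩
      rw [div_mul_cancel₀ _ hneg.ne]
      linarith
    have htq : t • q ∈ K := by
      refine ⟨fun s => t * z s, fun s => mul_nonneg ht.1 (hz s), ?_, ?_⟩
      · funext p
        simp only [Prod.smul_fst, Pi.smul_apply, smul_eq_mul, hq1, Finset.mul_sum]
        exact Finset.sum_congr rfl fun s _ => by ring
      · simp only [Prod.smul_snd, smul_eq_mul, hq2, Finset.mul_sum]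
    have := hfK _ htq
    rw [map_smul, smul_eq_mul] at this
    linarith
  -- signs
  have hbase : ((d, v) : (P → ℝ) × ℝ) ∈ O := ⟨fun p => by simp only; linarith, by simp only; linarith⟩
  have hw0 : ∀ p, 0 ≤ w p := by
    intro p
    by_contra hneg
    push Not at hneg
    obtain ⟨t, ht0, ht⟩ : ∃ t : ℝ, 0 ≤ t ∧ u < f (d, v) - t * w p := by
      have h0 := hfO _ hbase
      refine ⟨(f (d, v) - u - 1) / w p, div_nonneg_of_nonpos (by linarith) hneg.le, ?_⟩
      rw [div_mul_cancel₀ _ hneg.ne]
      linarith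
    have hmem : ((fun p' => d p' - t * (Pi.single p 1 : P → ℝ) p', v) : (P → ℝ) × ℝ) ∈ O := by
      refine ⟨fun p' => ?_, by simp only; linarith⟩
      simp only
      have : 0 ≤ t * (Pi.single p 1 : P → ℝ) p' := by
        refine mul_nonneg ht0 ?_
        by_cases h : p' = p
        · subst h; simp
        · simp [h]
      linarith
    have h1 := hfO _ hmem
    rw [hf] at h1 ht
    simp only [mul_sub, Finset.sum_sub_distrib] at h1
    have h2 : ∑ x, w x * (t * (Pi.single p 1 : P → ℝ) x) = t * w p := by
      simp [Pi.single_apply]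
      ring
    rw [h2] at h1
    linarith
  have hβ0 : 0 ≤ β := by
    by_contra hneg
    push Not at hneg
    obtain ⟨t, ht0, ht⟩ : ∃ t : ℝ, 0 ≤ t ∧ u < f (d, v) - t * β := by
      have h0 := hfO _ hbase
      refine ⟨(f (d, v) - u - 1) / β, div_nonneg_of_nonpos (by linarith) hneg.le, ?_⟩
      rw [div_mul_cancel₀ _ hneg.ne]
      linarith
    have hmem : ((d, v + t) : (P → ℝ) × ℝ) ∈ O := by
      refine ⟨fun p' => by simp only; linarith, by simp only; linarith⟩
    have h1 := hfO _ hmem
    rw [hf] at h1 ht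
    simp only at h1 ht
    linarith
  have hcol : ∀ s, β ≤ ∑ p, A p s * w p := by
    intro s
    have hmem : ((fun p => A p s, 1) : (P → ℝ) × ℝ) ∈ K := by
      refine ⟨fun s' => if s' = s then 1 else 0, fun s' => by dsimp only; split_ifs <;> norm_num,
        ?_, ?_⟩
      · funext p
        simp
      · simp
    have h1 := hfK0 _ hmem
    rw [hf] at h1
    simp only [mul_one] at h1
    have : ∑ p, w p * A p s = ∑ p, A p s * w p := Finset.sum_congr rfl fun p _ => mul_comm _ _
    linarith
  have hlt : ∑ p, w p * d p < β * v := by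
    have h0 := (hfO _ hbase).trans_le hu0
    rw [hf] at h0
    simp only at h0
    linarith
  have hnn : 0 ≤ ∑ p, w p * d p := Finset.sum_nonneg fun p _ => mul_nonneg (hw0 p) (hd p)
  have hβpos : 0 < β := by
    rcases hβ0.eq_or_lt with h | h
    · rw [← h] at hlt
      linarith
    · exact h
  have h1 := hv (fun p => w p / β) (fun p => div_nonneg (hw0 p) hβpos.le) (fun s => by
    have : ∑ p, A p s * (w p / β) = (∑ p, A p s * w p) / β := by
      rw [Finset.sum_div]
      exact Finset.sum_congr rfl fun p _ => by ring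
    rw [this, le_div_iff₀ hβpos, one_mul]
    exact hcol s)
  have h2 : ∑ p, w p / β * d p = (∑ p, w p * d p) / β := by
    rw [Finset.sum_div]
    exact Finset.sum_congr rfl fun p _ => by ring
  rw [h2, le_div_iff₀ hβpos] at h1
  linarith

/-- Reduction of the support of a packing. -/
theorem small_support {P T : Type} [Fintype P] [Fintype T] (A : P → T → ℝ)
    (z : T → ℝ) (hz : ∀ s, 0 ≤ z s) :
    ∃ z' : T → ℝ, (∀ s, 0 ≤ z' s) ∧ (∀ p, ∑ s, A p s * z' s = ∑ s, A p s * z s) ∧
      ∑ s, z' s = ∑ s, z s ∧
      (∃ F : Finset T, F.card ≤ Fintype.card P + 1 ∧ ∀ s, s ∉ F → z' s = 0) := by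
  classical
  set σ : ℝ := ∑ s, z s with hσ
  have hσ0 : 0 ≤ σ := Finset.sum_nonneg fun s _ => hz s
  rcases hσ0.eq_or_lt with h0 | hpos
  · refine ⟨z, hz, fun p => rfl, rfl, ∅, by simp, fun s _ => ?_⟩
    exact (Finset.sum_eq_zero_iff_of_nonneg fun s _ => hz s).1 (hσ ▸ h0.symm) s (Finset.mem_univ s)
  · let a : T → (P → ℝ) := fun s p => A p s
    have hmem : (∑ s, (z s / σ) • a s) ∈ convexHull ℝ (Set.range a) := by
      refine (convex_convexHull ℝ _).sum_mem (fun s _ => div_nonneg (hz s) hσ0) ?_
        (fun s _ => subset_convexHull ℝ _ ⟨s, rfl⟩)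
      rw [← Finset.sum_div, ← hσ, div_self hpos.ne']
    obtain ⟨ι, hι, y, w, hy, haff, hw0, hw1, hwy⟩ := eq_pos_convex_span_of_mem_convexHull hmem
    choose g hg using fun i => hy (Set.mem_range_self i)
    have hginj : Function.Injective g := by
      intro i j hij
      apply haff.injective
      rw [← hg i, ← hg j, hij]
    have hcard : Fintype.card ι ≤ Fintype.card P + 1 := by
      have h1 := haff.card_le_finrank_succ
      have h2 : Module.finrank ℝ (vectorSpan ℝ (Set.range y)) ≤ Module.finrank ℝ (P → ℝ) :=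
        Submodule.finrank_le _
      rw [Module.finrank_fintype_fun_eq_card] at h2
      omega
    have hsum : ∀ F : T → ℝ, ∑ s, (∑ i, if g i = s then σ * w i else 0) * F s =
        ∑ i, σ * w i * F (g i) := by
      intro F
      have : ∀ s, (∑ i, if g i = s then σ * w i else 0) * F s =
          ∑ i, if g i = s then σ * w i * F (g i) else 0 := by
        intro s
        rw [Finset.sum_mul]
        refine Finset.sum_congr rfl fun i _ => ?_
        split_ifs with h
        · rw [h]
        · ring
      rw [Finset.sum_congr rfl fun s _ => this s, Finset.sum_comm]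
      refine Finset.sum_congr rfl fun i _ => ?_
      simp
    refine ⟨fun s => ∑ i, if g i = s then σ * w i else 0, fun s => ?_, fun p => ?_, ?_,
      Finset.univ.image g, (Finset.card_image_le).trans (by simpa using hcard), fun s hs => ?_⟩
    · refine Finset.sum_nonneg fun i _ => ?_
      split_ifs
      · exact mul_nonneg hσ0 (hw0 i).le
      · exact le_rfl
    · have h1 := congrFun hwy p
      rw [Finset.sum_apply, Finset.sum_apply] at h1
      simp only [Pi.smul_apply, smul_eq_mul] at h1
      have h2 : ∑ s, A p s * (∑ i, if g i = s then σ * w i else 0) =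
          ∑ i, σ * w i * A p (g i) := by
        rw [← hsum fun s => A p s]
        exact Finset.sum_congr rfl fun s _ => mul_comm _ _
      rw [h2]
      have h3 : ∀ i, σ * w i * A p (g i) = σ * (w i * y i p) := by
        intro i
        have : y i p = A p (g i) := by rw [← hg i]
        rw [this]
        ring
      rw [Finset.sum_congr rfl fun i _ => h3 i, ← Finset.mul_sum, h1, Finset.mul_sum]
      refine Finset.sum_congr rfl fun s _ => ?_
      simp only [a]
      field_simp
    · have := hsum fun _ => 1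
      simp only [mul_one] at this
      rw [this, ← Finset.mul_sum, hw1, mul_one]
    · refine Finset.sum_eq_zero fun i _ => ?_
      rw [if_neg]
      rintro rfl
      exact hs (Finset.mem_image_of_mem g (Finset.mem_univ i))

end Pool.Agent.Helper166.Tuza
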