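import Pool.Agent.Helper166.TuzaC

set_option autoImplicit false

open Finset

namespace Pool.Agent.Helper166.Tuza

/-- Greedy colouring. -/
theorem greedy {α : Type} [DecidableEq α] (conf : α → α → Prop) [∀ a b, Decidable (conf a b)]
    (hsymm : ∀ a b, conf a b → conf b a) (D : ℕ) (F : Finset α)
    (hdeg : ∀ S ∈ F, (F.filter fun S' => S' ≠ S ∧ conf S S').card < D) :
    ∃ col : α → ℕ, (∀ S ∈ F, col S < D) ∧ ∀ S ∈ F, ∀ S' ∈ F, S ≠ S' → conf S S' →
      col S ≠ col S' := by
  induction F using Finset.induction_on with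
  | empty => exact ⟨fun _ => 0, by simp, by simp⟩
  | insert S F hS ih =>
    obtain ⟨col, h1, h2⟩ := ih (by
      intro S' hS'
      refine lt_of_le_of_lt (Finset.card_le_card ?_) (hdeg S' (Finset.mem_insert_of_mem hS'))
      exact Finset.filter_subset_filter _ (Finset.subset_insert _ _))
    -- forbidden colours
    have hlt : ((F.filter fun S' => conf S S').image col).card < (Finset.range D).card := by
      rw [Finset.card_range]
      refine lt_of_le_of_lt Finset.card_image_le (lt_of_le_of_lt (Finset.card_le_card ?_)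
        (hdeg S (Finset.mem_insert_self _ _)))
      intro S' hS'
      rw [Finset.mem_filter] at hS' ⊢
      exact ⟨Finset.mem_insert_of_mem hS'.1, fun h => hS (h ▸ hS'.1), hS'.2⟩
    obtain ⟨c, hc, hcn⟩ := Finset.exists_mem_notMem_of_card_lt_card hlt
    refine ⟨fun S' => if S' = S then c else col S', ?_, ?_⟩
    · intro S' hS'
      by_cases h : S' = S
      · simp only [h, if_true]
        exact Finset.mem_range.1 hc
      · simp only [if_neg h]
        exact h1 S' ((Finset.mem_insert.1 hS').resolve_left h)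
    · intro A hA B hB hAB hconf
      by_cases hAS : A = S
      · have hBS : B ≠ S := fun h => hAB (hAS.trans h.symm)
        have hBF : B ∈ F := (Finset.mem_insert.1 hB).resolve_left hBS
        simp only [if_pos hAS, if_neg hBS]
        intro h
        apply hcn
        rw [h]
        refine Finset.mem_image_of_mem _ (Finset.mem_filter.2 ⟨hBF, ?_⟩)
        rw [← hAS]
        exact hconf
      · have hAF : A ∈ F := (Finset.mem_insert.1 hA).resolve_left hAS
        by_cases hBS : B = S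
        · simp only [if_neg hAS, if_pos hBS]
          intro h
          apply hcn
          rw [← h]
          refine Finset.mem_image_of_mem _ (Finset.mem_filter.2 ⟨hAF, ?_⟩)
          rw [← hBS]
          exact hsymm _ _ hconf
        · have hBF : B ∈ F := (Finset.mem_insert.1 hB).resolve_left hBS
          simp only [if_neg hAS, if_neg hBS]
          exact h2 A hAF B hBF hAB hconf

/-- The packing plan on the reduced graph. -/
theorem plan {r : ℕ} (hr : 2 ≤ r) {θ : ℝ} (hθ : θ = ((r : ℝ) - 2) / (r - 1)) {η : ℝ} (hη : 0 < η)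
    (hη1 : η ≤ 1) :
    ∃ D : ℕ, ∀ (k : ℕ), 0 < k → ∀ d : Fin k → Fin k → ℝ, (∀ i j, 0 ≤ d i j) →
      (∀ i j, d i j ≤ 1) → (∀ i j, d i j = d j i) →
      ∃ (F : Finset (Finset (Fin k))) (z : Finset (Fin k) → ℝ) (col : Finset (Fin k) → ℕ),
        (∀ S ∈ F, S.card = r) ∧ (∀ S ∈ F, 0 ≤ z S) ∧ (∀ S ∈ F, col S < D) ∧
        (∀ S ∈ F, ∀ S' ∈ F, S ≠ S' → col S = col S' → (S ∩ S').card ≤ 1) ∧
        (∀ i j, i ≠ j → ∑ S ∈ F.filter (fun S => i ∈ S ∧ j ∈ S), z S ≤ d i j) ∧
        ((∑ i, ∑ j ∈ univ.erase i, d i j) - θ * k ^ 2) / r - η * k ^ 2 ≤ ∑ S ∈ F, z S ∧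
        F.card ≤ k ^ 2 + 1 := by
  classical
  have hr' : (2 : ℝ) ≤ r := by exact_mod_cast hr
  set δ : ℝ := η / 4 with hδ
  have hδpos : 0 < δ := by positivity
  set ε : ℝ := δ / 2 with hε
  have hεpos : 0 < ε := by positivity
  set B : ℕ := ⌈2 / δ⌉₊ with hB
  have hBle : 2 / δ ≤ B := Nat.le_ceil _
  refine ⟨r * r * B + 1, fun k hk d hd0 hd1 hds => ?_⟩
  let T : Type := {S : Finset (Fin k) // S.card = r}
  let A : Fin k × Fin k → T → ℝ := fun p S => if p.1 ≠ p.2 ∧ p.1 ∈ S.1 ∧ p.2 ∈ S.1 then 1 else 0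
  let d' : Fin k × Fin k → ℝ := fun p => if p.1 = p.2 then 0 else d p.1 p.2
  have hA0 : ∀ p S, 0 ≤ A p S := fun p S => by simp only [A]; split_ifs <;> norm_num
  have hd'0 : ∀ p, 0 ≤ d' p := fun p => by
    simp only [d']
    split_ifs
    · exact le_rfl
    · exact hd0 _ _
  set v : ℝ := ((∑ i, ∑ j ∈ univ.erase i, d i j) - θ * k ^ 2) / r with hv
  -- double sums
  have hdouble : ∀ f : Fin k → Fin k → ℝ, (∀ i, f i i = 0) →
      ∑ p : Fin k × Fin k, f p.1 p.2 = ∑ i, ∑ j ∈ univ.erase i, f i j := by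
    intro f hf
    rw [← Finset.univ_product_univ, Finset.sum_product]
    refine Finset.sum_congr rfl fun i _ => ?_
    rw [← Finset.add_sum_erase univ (fun j => f i j) (Finset.mem_univ i), hf, zero_add]
  have hdual : ∀ w : Fin k × Fin k → ℝ, (∀ p, 0 ≤ w p) → (∀ s, 1 ≤ ∑ p, A p s * w p) →
      v ≤ ∑ p, w p * d' p := by
    intro w hw0 hw1
    have h1 := fractional_dual hk hr hθ d (fun i j => w (i, j) + w (j, i)) hd0 hd1
      (fun i j => add_comm _ _) (fun i j => add_nonneg (hw0 _) (hw0 _)) (by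
        intro S hS
        have h2 := hw1 ⟨S, hS⟩
        have h3 : ∑ p, A p ⟨S, hS⟩ * w p = ∑ i ∈ S, ∑ j ∈ S.erase i, w (i, j) := by
          rw [← Finset.univ_product_univ, Finset.sum_product]
          have : ∀ i : Fin k, ∑ j, A (i, j) ⟨S, hS⟩ * w (i, j) =
              if i ∈ S then ∑ j ∈ S.erase i, w (i, j) else 0 := by
            intro i
            by_cases hi : i ∈ S
            · rw [if_pos hi, ← Finset.sum_subset (Finset.subset_univ (S.erase i))]
              · refine Finset.sum_congr rfl fun j hj => ?_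
                simp only [A]
                rw [if_pos ⟨(Finset.ne_of_mem_erase hj).symm, hi, Finset.mem_of_mem_erase hj⟩,
                  one_mul]
              · intro j _ hj
                simp only [A]
                rw [if_neg, zero_mul]
                rintro ⟨h4, _, h5⟩
                exact hj (Finset.mem_erase.2 ⟨h4.symm, h5⟩)
            · rw [if_neg hi]
              refine Finset.sum_eq_zero fun j _ => ?_
              simp only [A]
              rw [if_neg (fun h => hi h.2.1), zero_mul]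
          rw [Finset.sum_congr rfl fun i _ => this i, Finset.sum_ite_mem, Finset.univ_inter]
        rw [h3] at h2
        have h4 : ∑ i ∈ S, ∑ j ∈ S.erase i, (w (i, j) + w (j, i)) =
            ∑ i ∈ S, ∑ j ∈ S.erase i, w (i, j) + ∑ i ∈ S, ∑ j ∈ S.erase i, w (j, i) := by
          rw [← Finset.sum_add_distrib]
          exact Finset.sum_congr rfl fun i _ => Finset.sum_add_distrib
        have h5 : ∑ i ∈ S, ∑ j ∈ S.erase i, w (j, i) = ∑ i ∈ S, ∑ j ∈ S.erase i, w (i, j) := by
          rw [Finset.sum_sigma', Finset.sum_sigma']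
          refine Finset.sum_nbij' (fun p => ⟨p.2, p.1⟩) (fun p => ⟨p.2, p.1⟩) ?_ ?_ ?_ ?_ ?_
          · rintro ⟨i, j⟩ hp
            simp only [Finset.mem_sigma, Finset.mem_erase] at hp ⊢
            exact ⟨hp.2.2, Ne.symm hp.2.1, hp.1⟩
          · rintro ⟨i, j⟩ hp
            simp only [Finset.mem_sigma, Finset.mem_erase] at hp ⊢
            exact ⟨hp.2.2, Ne.symm hp.2.1, hp.1⟩
          · rintro ⟨i, j⟩ _; rfl
          · rintro ⟨i, j⟩ _; rfl
          · rintro ⟨i, j⟩ _; rfl
        rw [h4, h5]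
        linarith)
    have h6 : ∑ i, ∑ j ∈ univ.erase i, w (j, i) * d i j =
        ∑ i, ∑ j ∈ univ.erase i, w (i, j) * d i j := by
      rw [Finset.sum_sigma', Finset.sum_sigma']
      refine Finset.sum_nbij' (fun p => ⟨p.2, p.1⟩) (fun p => ⟨p.2, p.1⟩) ?_ ?_ ?_ ?_ ?_
      · rintro ⟨i, j⟩ hp
        simp only [Finset.mem_sigma, Finset.mem_erase, Finset.mem_univ, and_true, true_and]
          at hp ⊢
        exact Ne.symm hp
      · rintro ⟨i, j⟩ hp
        simp only [Finset.mem_sigma, Finset.mem_erase, Finset.mem_univ, and_true, true_and]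
          at hp ⊢
        exact Ne.symm hp
      · rintro ⟨i, j⟩ _; rfl
      · rintro ⟨i, j⟩ _; rfl
      · rintro ⟨i, j⟩ _
        dsimp only
        rw [hds]
    have h7 : ∑ i, ∑ j ∈ univ.erase i, (w (i, j) + w (j, i)) * d i j =
        2 * ∑ i, ∑ j ∈ univ.erase i, w (i, j) * d i j := by
      have h9 : ∑ i, ∑ j ∈ univ.erase i, (w (i, j) + w (j, i)) * d i j =
          ∑ i, ∑ j ∈ univ.erase i, w (i, j) * d i j + ∑ i, ∑ j ∈ univ.erase i, w (j, i) * d i j := by
        rw [← Finset.sum_add_distrib]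
        refine Finset.sum_congr rfl fun i _ => ?_
        rw [← Finset.sum_add_distrib]
        exact Finset.sum_congr rfl fun j _ => by ring
      rw [h9, h6]
      ring
    have h8 : ∑ p, w p * d' p = ∑ i, ∑ j ∈ univ.erase i, w (i, j) * d i j := by
      have := hdouble (fun i j => w (i, j) * d' (i, j)) (fun i => by simp [d'])
      rw [this]
      refine Finset.sum_congr rfl fun i _ => Finset.sum_congr rfl fun j hj => ?_
      simp only [d']
      rw [if_neg (Finset.ne_of_mem_erase hj).symm]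
    rw [h8, hv, div_le_iff₀ (by linarith)]
    rw [h7] at h1
    linarith
  obtain ⟨z₀, hz₀0, hz₀load, hz₀sum⟩ := lp_approx A hA0 d' hd'0 v hdual hεpos
  obtain ⟨z, hz0, hzload, hzsum, F₀, hF₀card, hF₀⟩ := small_support A z₀ hz₀0
  have hload : ∀ i j, i ≠ j → ∑ s, A (i, j) s * z s ≤ d i j + ε := by
    intro i j hij
    rw [hzload]
    have := hz₀load (i, j)
    simp only [d'] at this
    rw [if_neg hij] at this
    exact this.le
  -- the kept sets
  let F₁ : Finset T := F₀.filter fun s => δ ≤ z s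
  let F : Finset (Finset (Fin k)) := F₁.map ⟨Subtype.val, Subtype.val_injective⟩
  let z' : Finset (Fin k) → ℝ := fun S => if h : S.card = r then z ⟨S, h⟩ - ε else 0
  have hz' : ∀ s : T, z' s.1 = z s - ε := by
    intro s
    simp only [z']
    rw [dif_pos s.2]
  have hmemF : ∀ S ∈ F, ∃ s : T, s.1 = S ∧ s ∈ F₀ ∧ δ ≤ z s := by
    intro S hS
    simp only [F, F₁, Finset.mem_map, Finset.mem_filter, Function.Embedding.coeFn_mk] at hS
    obtain ⟨s, h1, h2⟩ := hS
    exact ⟨s, h2, h1⟩
  have hpair : ∀ i j, i ≠ j → ∑ s ∈ F₁.filter (fun s => i ∈ s.1 ∧ j ∈ s.1), z s ≤ d i j + ε := by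
    intro i j hij
    refine le_trans ?_ (hload i j hij)
    have : ∑ s, A (i, j) s * z s = ∑ s ∈ univ.filter (fun s : T => i ∈ s.1 ∧ j ∈ s.1), z s := by
      rw [Finset.sum_filter]
      refine Finset.sum_congr rfl fun s _ => ?_
      simp only [A]
      by_cases h : i ∈ s.1 ∧ j ∈ s.1
      · rw [if_pos ⟨hij, h⟩, if_pos h, one_mul]
      · rw [if_neg (fun h' => h h'.2), if_neg h, zero_mul]
    rw [this]
    refine Finset.sum_le_sum_of_subset_of_nonneg ?_ fun s _ _ => hz0 s
    exact Finset.filter_subset_filter _ (Finset.subset_univ _)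
  have hcount : ∀ i j, i ≠ j → (F₁.filter (fun s => i ∈ s.1 ∧ j ∈ s.1)).card ≤ B := by
    intro i j hij
    have h1 : ((F₁.filter (fun s => i ∈ s.1 ∧ j ∈ s.1)).card : ℝ) * δ ≤
        ∑ s ∈ F₁.filter (fun s => i ∈ s.1 ∧ j ∈ s.1), z s := by
      rw [← nsmul_eq_mul]
      refine Finset.card_nsmul_le_sum _ _ _ fun s hs => ?_
      simp only [F₁, Finset.mem_filter] at hs
      exact hs.1.2
    have h2 := (h1.trans (hpair i j hij)).trans (add_le_add (hd1 i j) (show ε ≤ 1 by
      rw [hε, hδ]; linarith))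
    have h3 : ((F₁.filter (fun s => i ∈ s.1 ∧ j ∈ s.1)).card : ℝ) ≤ 2 / δ := by
      rw [le_div_iff₀ hδpos]
      linarith
    exact_mod_cast h3.trans hBle
  have hcardeq : ∀ i j, (F.filter (fun S => i ∈ S ∧ j ∈ S)).card =
      (F₁.filter (fun s => i ∈ s.1 ∧ j ∈ s.1)).card := by
    intro i j
    simp only [F]
    rw [Finset.filter_map, Finset.card_map]
    rfl
  obtain ⟨col, hcol1, hcol2⟩ := greedy (fun S S' : Finset (Fin k) => 2 ≤ (S ∩ S').card)
    (fun S S' h => by rwa [Finset.inter_comm] at h) (r * r * B + 1) F (by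
      intro S hS
      obtain ⟨s, rfl, -, -⟩ := hmemF S hS
      have hsub : (F.filter fun S' => S' ≠ s.1 ∧ 2 ≤ (s.1 ∩ S').card) ⊆
          ((s.1 ×ˢ s.1).filter fun p => p.1 ≠ p.2).biUnion
            fun p => F.filter (fun S' => p.1 ∈ S' ∧ p.2 ∈ S') := by
        intro S' hS'
        rw [Finset.mem_filter] at hS'
        obtain ⟨i, hi, j, hj, hij⟩ := Finset.one_lt_card.1 (show 1 < (s.1 ∩ S').card by omega)
        rw [Finset.mem_inter] at hi hj
        rw [Finset.mem_biUnion]
        refine ⟨(i, j), Finset.mem_filter.2 ⟨Finset.mem_product.2 ⟨hi.1, hj.1⟩, hij⟩, ?_⟩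
        exact Finset.mem_filter.2 ⟨hS'.1, hi.2, hj.2⟩
      refine lt_of_le_of_lt (Finset.card_le_card hsub) (Nat.lt_succ_of_le ?_)
      refine Finset.card_biUnion_le.trans ?_
      refine (Finset.sum_le_card_nsmul _ _ B ?_).trans ?_
      · rintro ⟨i, j⟩ hp
        rw [Finset.mem_filter] at hp
        rw [hcardeq]
        exact hcount i j hp.2
      · rw [smul_eq_mul]
        refine Nat.mul_le_mul_right _ ((Finset.card_filter_le _ _).trans ?_)
        rw [Finset.card_product, s.2])
  refine ⟨F, z', col, ?_, ?_, hcol1, ?_, ?_, ?_, ?_⟩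
  · intro S hS
    obtain ⟨s, rfl, -, -⟩ := hmemF S hS
    exact s.2
  · intro S hS
    obtain ⟨s, rfl, -, h⟩ := hmemF S hS
    rw [hz']
    have : ε ≤ δ := by rw [hε]; linarith
    linarith
  · intro S hS S' hS' hne hc
    by_contra hcon
    exact hcol2 S hS S' hS' hne (by omega) hc
  · intro i j hij
    have h0 : ∑ S ∈ F.filter (fun S => i ∈ S ∧ j ∈ S), z' S =
        ∑ s ∈ F₁.filter (fun s => i ∈ s.1 ∧ j ∈ s.1), (z s - ε) := by
      simp only [F]
      rw [Finset.filter_map, Finset.sum_map]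
      simp only [Function.Embedding.coeFn_mk, hz']
      rfl
    rw [h0, Finset.sum_sub_distrib]
    rcases (F₁.filter (fun s => i ∈ s.1 ∧ j ∈ s.1)).eq_empty_or_nonempty with h | h
    · rw [h]
      simpa using hd0 i j
    · have h1 := hpair i j hij
      have h2 : (1 : ℝ) ≤ ((F₁.filter (fun s => i ∈ s.1 ∧ j ∈ s.1)).card : ℝ) := by
        exact_mod_cast Finset.card_pos.2 h
      rw [Finset.sum_const, nsmul_eq_mul]
      nlinarith
  · simp only [F]
    rw [Finset.sum_map]
    simp only [Function.Embedding.coeFn_mk, hz']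
    have h1 : ∑ s, z s = ∑ s ∈ F₀, z s :=
      (Finset.sum_subset (Finset.subset_univ _) fun s _ hs => hF₀ s hs).symm
    have h2 : ∑ s ∈ F₀, z s = ∑ s ∈ F₁, z s + ∑ s ∈ F₀.filter (fun s => ¬ δ ≤ z s), z s :=
      (Finset.sum_filter_add_sum_filter_not _ _ _).symm
    have h3 : ∑ s ∈ F₀.filter (fun s => ¬ δ ≤ z s), z s ≤ (F₀.card : ℝ) * δ := by
      refine (Finset.sum_le_card_nsmul _ _ δ fun s hs => ?_).trans ?_
      · rw [Finset.mem_filter] at hs
        exact (not_le.1 hs.2).le
      · rw [nsmul_eq_mul]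
        refine mul_le_mul_of_nonneg_right ?_ hδpos.le
        exact_mod_cast Finset.card_filter_le _ _
    have h4 : (F₁.card : ℝ) ≤ F₀.card := by exact_mod_cast Finset.card_filter_le _ _
    have h5 : (F₀.card : ℝ) ≤ k ^ 2 + 1 := by
      have : F₀.card ≤ k * k + 1 := by simpa using hF₀card
      calc (F₀.card : ℝ) ≤ ((k * k + 1 : ℕ) : ℝ) := by exact_mod_cast this
        _ = (k : ℝ) ^ 2 + 1 := by push_cast; ring
    have h6 : (1 : ℝ) ≤ (k : ℝ) ^ 2 := by
      have : (1 : ℝ) ≤ k := by exact_mod_cast hk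
      nlinarith
    rw [Finset.sum_sub_distrib, Finset.sum_const, nsmul_eq_mul]
    have h7 : (F₁.card : ℝ) * ε ≤ (k ^ 2 + 1) * ε :=
      mul_le_mul_of_nonneg_right (h4.trans h5) hεpos.le
    have h8 : (F₀.card : ℝ) * δ ≤ (k ^ 2 + 1) * δ := mul_le_mul_of_nonneg_right h5 hδpos.le
    have h9 : v - ε < ∑ s ∈ F₁, z s + (k ^ 2 + 1) * δ := by
      have := hz₀sum
      rw [← hzsum, h1, h2] at this
      linarith
    have h10 : ε + (k ^ 2 + 1) * δ + (k ^ 2 + 1) * ε ≤ η * k ^ 2 := by
      rw [hε, hδ]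
      nlinarith
    linarith
  · simp only [F]
    rw [Finset.card_map]
    refine (Finset.card_filter_le _ _).trans (hF₀card.trans ?_)
    rw [Fintype.card_prod, Fintype.card_fin]
    exact (by ring_nf; exact le_rfl)

end Pool.Agent.Helper166.Tuza
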