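import Mathlib

set_option autoImplicit false

open Finset

namespace Pool.Agent.Helper166.TuzaReg

/-- Quasirandomness: the kernel `f` on `X × X` has all rank-one averages at most `ε`. -/
def QR {X : Type} [Fintype X] (f : X → X → ℝ) (ε : ℝ) : Prop :=
  ∀ a b : X → ℝ, (∀ x, |a x| ≤ 1) → (∀ y, |b y| ≤ 1) →
    |∑ x, ∑ y, f x y * a x * b y| ≤ ε * (Fintype.card X : ℝ) ^ 2

lemma QR.mono {X : Type} [Fintype X] {f : X → X → ℝ} {ε ε' : ℝ} (h : QR f ε) (hε : ε ≤ ε') :
    QR f ε' := by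
  intro a b ha hb
  exact (h a b ha hb).trans (by gcongr)

lemma QR.congr {X : Type} [Fintype X] {f g : X → X → ℝ} {ε : ℝ} (h : QR f ε)
    (hfg : ∀ x y, g x y = f x y) : QR g ε := by
  have : g = f := by funext x y; exact hfg x y
  rw [this]; exact h

lemma QR_zero {X : Type} [Fintype X] {f : X → X → ℝ} {ε : ℝ} (hε : 0 ≤ ε)
    (hf : ∀ x y, f x y = 0) : QR f ε := by
  intro a b _ _
  simp only [hf, zero_mul, sum_const_zero, abs_zero]
  positivity

lemma rank_one_aux {X : Type} [Fintype X] [DecidableEq X] (g a : X → ℝ) (ha : ∀ x, |a x| ≤ 1) :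
    |∑ x, a x * g x| ≤ |∑ x ∈ univ.filter (fun x => 0 ≤ g x), g x| +
      |∑ x ∈ (univ.filter (fun x => 0 ≤ g x))ᶜ, g x| := by
  calc |∑ x, a x * g x| ≤ ∑ x, |a x * g x| := abs_sum_le_sum_abs _ _
    _ ≤ ∑ x, |g x| := by
        apply sum_le_sum; intro x _
        rw [abs_mul]
        exact mul_le_of_le_one_left (abs_nonneg _) (ha x)
    _ = ∑ x ∈ univ.filter (fun x => 0 ≤ g x), |g x| +
        ∑ x ∈ (univ.filter (fun x => 0 ≤ g x))ᶜ, |g x| := by
        rw [sum_add_sum_compl]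
    _ ≤ _ := by
        apply add_le_add
        · rw [sum_congr rfl (fun x hx => abs_of_nonneg (by simpa using hx))]
          exact le_abs_self _
        · rw [sum_congr rfl (fun x hx => abs_of_neg (by simpa using hx)), sum_neg_distrib]
          exact neg_le_abs _

lemma QR_of_cut {X : Type} [Fintype X] (f : X → X → ℝ) (δ : ℝ)
    (h : ∀ S T : Finset X, |∑ x ∈ S, ∑ y ∈ T, f x y| ≤ δ * (Fintype.card X : ℝ) ^ 2) :
    QR f (4 * δ) := by
  classical
  intro a b ha hb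
  have h1 : ∀ S : Finset X, |∑ x ∈ S, ∑ y, f x y * b y| ≤ 2 * (δ * (Fintype.card X : ℝ) ^ 2) := by
    intro S
    have e1 : ∑ x ∈ S, ∑ y, f x y * b y = ∑ y, b y * (∑ x ∈ S, f x y) := by
      rw [sum_comm]
      refine sum_congr rfl fun y _ => ?_
      rw [mul_sum]
      exact sum_congr rfl fun x _ => mul_comm _ _
    rw [e1]
    refine (rank_one_aux (fun y => ∑ x ∈ S, f x y) b hb).trans ?_
    rw [two_mul]
    apply add_le_add
    · rw [sum_comm]; exact h _ _
    · rw [sum_comm]; exact h _ _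
  have e2 : ∑ x, ∑ y, f x y * a x * b y = ∑ x, a x * (∑ y, f x y * b y) := by
    refine sum_congr rfl fun x _ => ?_
    rw [mul_sum]
    exact sum_congr rfl fun y _ => by ring
  rw [e2]
  refine (rank_one_aux (fun x => ∑ y, f x y * b y) a ha).trans ?_
  have := h1 (univ.filter (fun x => 0 ≤ ∑ y, f x y * b y))
  have := h1 (univ.filter (fun x => 0 ≤ ∑ y, f x y * b y))ᶜ
  linarith

section
variable {V : Type} (G : SimpleGraph V) [DecidableRel G.Adj]

lemma interedges_eq_sum (A B : Finset V) :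
    (#(G.interedges A B) : ℝ) = ∑ u ∈ A, ∑ v ∈ B, if G.Adj u v then (1 : ℝ) else 0 := by
  rw [SimpleGraph.interedges_def, card_filter, sum_product]
  push_cast
  rfl

lemma edgeDensity_mul (A B : Finset V) :
    ((G.edgeDensity A B : ℚ) : ℝ) * (#A * #B) = (#(G.interedges A B) : ℝ) := by
  rw [SimpleGraph.edgeDensity_def]
  push_cast
  by_cases h : ((#A : ℝ) * #B) = 0
  · rw [h, mul_zero]
    have h1 : #(G.interedges A B) ≤ #A * #B := G.card_interedges_le_mul A B
    have h2 : #A * #B = 0 := by exact_mod_cast h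
    rw [h2] at h1
    have h3 : #(G.interedges A B) = 0 := by omega
    rw [h3]; simp
  · rw [div_mul_cancel₀ _ h]

lemma cut_bound {e : ℝ} {s t : Finset V} (h : G.IsUniform e s t) {S T : Finset V}
    (hS : S ⊆ s) (hT : T ⊆ t) :
    |(#(G.interedges S T) : ℝ) - (G.edgeDensity s t : ℝ) * (#S * #T)| ≤ e * (#s * #t) := by
  have he : 0 < e := h.pos
  have hSc : (#S : ℝ) ≤ #s := by exact_mod_cast card_le_card hS
  have hTc : (#T : ℝ) ≤ #t := by exact_mod_cast card_le_card hT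
  have hS0 : (0 : ℝ) ≤ #S := by positivity
  have hT0 : (0 : ℝ) ≤ #T := by positivity
  have hd0 : (0 : ℝ) ≤ (G.edgeDensity s t : ℝ) := by exact_mod_cast G.edgeDensity_nonneg s t
  have hd1 : (G.edgeDensity s t : ℝ) ≤ 1 := by exact_mod_cast G.edgeDensity_le_one s t
  have triv : |(#(G.interedges S T) : ℝ) - (G.edgeDensity s t : ℝ) * (#S * #T)| ≤ #S * #T := by
    have h1 : (#(G.interedges S T) : ℝ) ≤ #S * #T := by
      exact_mod_cast G.card_interedges_le_mul S T
    have h0 : (0 : ℝ) ≤ #(G.interedges S T) := by positivity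
    have h2 : (0 : ℝ) ≤ (G.edgeDensity s t : ℝ) * (#S * #T) := by positivity
    have h3 : (G.edgeDensity s t : ℝ) * (#S * #T) ≤ #S * #T :=
      mul_le_of_le_one_left (by positivity) hd1
    rw [abs_le]; constructor <;> linarith
  by_cases h1 : (#s : ℝ) * e ≤ #S
  · by_cases h2 : (#t : ℝ) * e ≤ #T
    · have h3 := h hS hT h1 h2
      rw [← edgeDensity_mul, ← sub_mul, abs_mul, abs_of_nonneg (by positivity : (0:ℝ) ≤ #S * #T)]
      exact mul_le_mul h3.le (by gcongr) (by positivity) he.le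
    · refine triv.trans ?_
      push Not at h2
      calc (#S : ℝ) * #T ≤ #s * (#t * e) := by gcongr
        _ = _ := by ring
  · refine triv.trans ?_
    push Not at h1
    calc (#S : ℝ) * #T ≤ (#s * e) * #t := by gcongr
      _ = _ := by ring

end


lemma sum_parts {n : ℕ} (P : Finpartition (univ : Finset (Fin n))) {k : ℕ}
    (e : Fin k ≃ P.parts) (F : Finset (Fin n) → ℝ) :
    ∑ i, F (e i : Finset (Fin n)) = ∑ s ∈ P.parts, F s := by
  rw [← Finset.sum_coe_sort P.parts, ← Equiv.sum_comp e]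

lemma sum_univ_parts {n : ℕ} (P : Finpartition (univ : Finset (Fin n))) {k : ℕ}
    (e : Fin k ≃ P.parts) (F : Fin n → ℝ) :
    ∑ u, F u = ∑ i, ∑ u ∈ (e i : Finset (Fin n)), F u := by
  classical
  rw [sum_parts P e (fun s => ∑ u ∈ s, F u)]
  conv_lhs => rw [← P.biUnion_parts]
  rw [Finset.sum_biUnion P.disjoint]
  rfl

lemma numeric_aux {ε k K N q n D S : ℝ} (hε : 0 < ε) (hN0 : 0 ≤ N) (hqN : q ≤ N) (hq0 : 0 ≤ q)
    (hk : 64 ≤ ε * k) (hkK : k ≤ K) (hkN : k * N ≤ n) (hkn : k ≤ n) (hk0 : 0 ≤ k) (hn : 12 * K * q ≤ ε * n)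
    (hS : S ≤ ε / 64 * (n + k) ^ 2) :
    k * (N + q) ^ 2 + D * N ^ 2 + k ^ 2 * ((N + q) ^ 2 - N ^ 2) + S ≤ D * N ^ 2 + ε * n ^ 2 := by
  have hn0 : 0 ≤ n := hk0.trans hkn
  have hK0 : 0 ≤ K := hk0.trans hkK
  have h1 : S ≤ ε / 16 * n ^ 2 := by
    refine hS.trans ?_
    calc ε / 64 * (n + k) ^ 2 ≤ ε / 64 * (n + n) ^ 2 := by gcongr
      _ = _ := by ring
  have h2 : k * (N + q) ^ 2 ≤ ε / 16 * n ^ 2 := by
    calc k * (N + q) ^ 2 ≤ k * (N + N) ^ 2 := by gcongr
      _ = 64 * (k * N ^ 2 / 16) := by ring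
      _ ≤ (ε * k) * (k * N ^ 2 / 16) := by gcongr
      _ = ε / 16 * (k * N) ^ 2 := by ring
      _ ≤ _ := by gcongr
  have h3 : k ^ 2 * ((N + q) ^ 2 - N ^ 2) ≤ ε / 4 * n ^ 2 := by
    calc k ^ 2 * ((N + q) ^ 2 - N ^ 2) = k ^ 2 * (2 * N * q + q * q) := by ring
      _ ≤ k ^ 2 * (2 * N * q + N * q) := by gcongr
      _ = 3 * k * q * (k * N) := by ring
      _ ≤ 3 * K * q * n := by gcongr
      _ = (12 * K * q) * (n / 4) := by ring
      _ ≤ (ε * n) * (n / 4) := by gcongr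
      _ = _ := by ring
  have h4 : 0 ≤ ε * n ^ 2 := by positivity
  linarith

lemma QR_pair {n N q : ℕ} (G : SimpleGraph (Fin n)) [DecidableRel G.Adj] {ε : ℝ}
    {s t : Finset (Fin n)} (hU : G.IsUniform (ε / 64) s t) (hs : #s ≤ N + q) (ht : #t ≤ N + q)
    (hqN : q ≤ N) (f g : Fin N ↪ Fin n) (hf : ∀ x, f x ∈ s) (hg : ∀ y, g y ∈ t) :
    QR (fun x y => (if G.Adj (f x) (g y) then (1 : ℝ) else 0) - ((G.edgeDensity s t : ℚ) : ℝ))
      ε := by
  have hε : 0 < ε := by have := hU.pos; linarith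
  have hcut : QR (fun x y => (if G.Adj (f x) (g y) then (1 : ℝ) else 0) -
      ((G.edgeDensity s t : ℚ) : ℝ)) (4 * (ε / 16)) := by
    apply QR_of_cut
    intro S T
    have hS : S.map f ⊆ s := by
      intro z hz
      obtain ⟨x, _, rfl⟩ := mem_map.1 hz
      exact hf x
    have hT : T.map g ⊆ t := by
      intro z hz
      obtain ⟨x, _, rfl⟩ := mem_map.1 hz
      exact hg x
    have hcb := cut_bound G hU hS hT
    rw [interedges_eq_sum, sum_map, card_map, card_map] at hcb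
    simp only [sum_map] at hcb
    have e1 : ∑ x ∈ S, ∑ y ∈ T, ((if G.Adj (f x) (g y) then (1 : ℝ) else 0) -
          ((G.edgeDensity s t : ℚ) : ℝ)) =
        ∑ x ∈ S, ∑ y ∈ T, (if G.Adj (f x) (g y) then (1 : ℝ) else 0) -
          ((G.edgeDensity s t : ℚ) : ℝ) * (#S * #T) := by
      simp only [sum_sub_distrib, sum_const, nsmul_eq_mul]
      ring
    rw [e1]
    refine hcb.trans ?_
    rw [Fintype.card_fin]
    have hqN : (q : ℝ) ≤ N := by exact_mod_cast hqN
    have a1 : (#s : ℝ) ≤ N + N := by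
      have : (#s : ℝ) ≤ N + q := by exact_mod_cast hs
      linarith
    have a2 : (#t : ℝ) ≤ N + N := by
      have : (#t : ℝ) ≤ N + q := by exact_mod_cast ht
      linarith
    calc ε / 64 * (#s * #t) ≤ ε / 64 * ((N + N) * (N + N)) := by gcongr
      _ = _ := by ring
  exact hcut.mono (by linarith)

lemma edges_eq {n k : ℕ} (G : SimpleGraph (Fin n)) [DecidableRel G.Adj] [Fintype G.edgeSet]
    (P : Finpartition (univ : Finset (Fin n))) (e : Fin k ≃ P.parts) :
    2 * (G.edgeFinset.card : ℝ) = ∑ i, ∑ j, (#(G.interedges (e i : Finset (Fin n)) (e j)) : ℝ) := by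
  have h1 : (2 * (G.edgeFinset.card : ℝ)) = (#(G.interedges univ univ) : ℝ) := by
    rw [SimpleGraph.interedges_def, univ_product_univ]
    have := G.two_mul_card_edgeFinset
    have h3 : G.edgeFinset = @SimpleGraph.edgeFinset _ G G.fintypeEdgeSet := by
      refine Finset.ext fun x => ?_
      exact (@SimpleGraph.mem_edgeFinset _ G x _).trans
        (@SimpleGraph.mem_edgeFinset _ G x G.fintypeEdgeSet).symm
    have h2 : 2 * G.edgeFinset.card = #{e : Fin n × Fin n | G.Adj e.1 e.2} := by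
      rw [h3]
      exact this
    exact_mod_cast h2
  rw [h1, interedges_eq_sum, sum_univ_parts P e]
  refine sum_congr rfl fun i _ => ?_
  simp only [interedges_eq_sum]
  rw [sum_comm, sum_univ_parts P e]
  exact sum_congr rfl fun j _ => sum_comm

open Classical in
lemma nonuniform_sum {n k : ℕ} (G : SimpleGraph (Fin n)) (hn : 0 < n) {e' : ℝ} (he' : 0 < e')
    (P : Finpartition (univ : Finset (Fin n))) (e : Fin k ≃ P.parts)
    (hP : P.IsEquipartition) (hPu : P.IsUniform G e') (hk : #P.parts = k) :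
    ∑ i, ∑ j, (if (i ≠ j ∧ ¬ G.IsUniform e' (e i : Finset (Fin n)) (e j)) then
      ((#(e i : Finset (Fin n)) : ℝ) * #(e j : Finset (Fin n))) else 0) ≤ e' * (n + k) ^ 2 := by
  have hne : (univ : Finset (Fin n)).Nonempty := ⟨⟨0, hn⟩, mem_univ _⟩
  have h := (hP.sum_nonUniforms_lt' hne he' hPu).le
  rw [card_univ, Fintype.card_fin, hk] at h
  refine le_trans (le_of_eq ?_) h
  have hij : ∀ i j : Fin k, (i ≠ j) ↔ (e i : Finset (Fin n)) ≠ (e j : Finset (Fin n)) := by
    intro i j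
    constructor
    · intro h1 h2; exact h1 (e.injective (Subtype.ext h2))
    · intro h1 h2; exact h1 (by rw [h2])
  simp only [hij]
  have e1 : ∀ i : Fin k, ∑ j, (if ((e i : Finset (Fin n)) ≠ (e j : Finset (Fin n)) ∧
      ¬ G.IsUniform e' (e i : Finset (Fin n)) (e j)) then
      ((#(e i : Finset (Fin n)) : ℝ) * #(e j : Finset (Fin n))) else 0) =
      ∑ t ∈ P.parts, (if ((e i : Finset (Fin n)) ≠ t ∧
      ¬ G.IsUniform e' (e i : Finset (Fin n)) t) then
      ((#(e i : Finset (Fin n)) : ℝ) * #t) else 0) := fun i =>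
    sum_parts P e (fun t => (if ((e i : Finset (Fin n)) ≠ t ∧
      ¬ G.IsUniform e' (e i : Finset (Fin n)) t) then
      ((#(e i : Finset (Fin n)) : ℝ) * #t) else 0))
  rw [sum_congr rfl (fun i _ => e1 i)]
  rw [sum_parts P e (fun s => ∑ t ∈ P.parts, (if (s ≠ t ∧
      ¬ G.IsUniform e' s t) then ((#s : ℝ) * #t) else 0))]
  rw [← sum_product', ← sum_filter]
  refine sum_congr ?_ fun _ _ => rfl
  ext ⟨s, t⟩
  simp only [mem_filter, mem_product, Finpartition.mk_mem_nonUniforms]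
  tauto

lemma edge_bound {n N q : ℕ} (G : SimpleGraph (Fin n)) [DecidableRel G.Adj]
    {s t : Finset (Fin n)} (hs : #s ≤ N + q) (ht : #t ≤ N + q) :
    (#(G.interedges s t) : ℝ) ≤ ((G.edgeDensity s t : ℚ) : ℝ) * N ^ 2 + ((N + q) ^ 2 - N ^ 2) := by
  have hd0 : (0 : ℝ) ≤ (G.edgeDensity s t : ℝ) := by exact_mod_cast G.edgeDensity_nonneg s t
  have hd1 : (G.edgeDensity s t : ℝ) ≤ 1 := by exact_mod_cast G.edgeDensity_le_one s t
  rw [← edgeDensity_mul]
  have h1 : (#s : ℝ) ≤ N + q := by exact_mod_cast hs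
  have h2 : (#t : ℝ) ≤ N + q := by exact_mod_cast ht
  have h3 : (0 : ℝ) ≤ (N + q) ^ 2 - N ^ 2 := by
    have : (0 : ℝ) ≤ 2 * N * q + q ^ 2 := by positivity
    nlinarith
  calc ((G.edgeDensity s t : ℚ) : ℝ) * (#s * #t)
      ≤ ((G.edgeDensity s t : ℚ) : ℝ) * ((N + q) * (N + q)) := by gcongr
    _ = ((G.edgeDensity s t : ℚ) : ℝ) * N ^ 2 +
        ((G.edgeDensity s t : ℚ) : ℝ) * ((N + q) ^ 2 - N ^ 2) := by ring
    _ ≤ _ := by
      gcongr
      exact mul_le_of_le_one_left h3 hd1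


open Classical in
/-- Szemeredi regularity, repackaged: every large graph contains, up to few edges, a family of
`k` equal parts of size `N ≡ 1 mod q` such that all pairs are quasirandom. -/
theorem regular_model (q : ℕ) (hq : 0 < q) {ε : ℝ} (hε : 0 < ε) (N₀ : ℕ) :
    ∃ K n₀ : ℕ, ∀ n, n₀ ≤ n → ∀ G : SimpleGraph (Fin n),
      ∃ k N : ℕ, 0 < k ∧ k ≤ K ∧ N₀ ≤ N ∧ N ≡ 1 [MOD q] ∧ k * N ≤ n ∧
      ∃ (φ : Fin k × Fin N ↪ Fin n) (H : SimpleGraph (Fin k × Fin N)) (d : Fin k → Fin k → ℝ),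
        (∀ u v, H.Adj u v → G.Adj (φ u) (φ v)) ∧
        (∀ i j, d i j = d j i) ∧ (∀ i j, 0 ≤ d i j) ∧ (∀ i j, d i j ≤ 1) ∧
        (∀ i j, i ≠ j → QR (fun x y => (if H.Adj (i, x) (j, y) then (1 : ℝ) else 0) - d i j) ε) ∧
        2 * (G.edgeFinset.card : ℝ) ≤
          (∑ i, ∑ j ∈ univ.erase i, d i j) * (N : ℝ) ^ 2 + ε * (n : ℝ) ^ 2 := by
  set l : ℕ := ⌈64 / ε⌉₊ + 1 with hl
  have he'0 : 0 < ε / 64 := by positivity
  set K : ℕ := SzemerediRegularity.bound (ε / 64) l with hK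
  have hlK : l ≤ K := SzemerediRegularity.le_bound _ _
  refine ⟨K, K * (N₀ + 2 * q) + ⌈12 * K * q / ε⌉₊, fun n hn G => ?_⟩
  have hK0 : 0 < K := by omega
  have hnK : K * (N₀ + 2 * q) ≤ n := by omega
  have hln : l ≤ Fintype.card (Fin n) := by
    rw [Fintype.card_fin]
    refine hlK.trans (le_trans ?_ hnK)
    exact Nat.le_mul_of_pos_right _ (by omega)
  obtain ⟨P, hPeq, hPl, hPK, hPu⟩ := szemeredi_regularity G he'0 hln
  obtain ⟨k, hk⟩ : ∃ k, #P.parts = k := ⟨_, rfl⟩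
  rw [hk] at hPl hPK
  have hk0 : 0 < k := by omega
  have hkn : k ≤ n := by
    have := P.card_parts_le_card
    rw [hk] at this
    simpa using this
  obtain ⟨m, hm⟩ : ∃ m, m = n / k := ⟨_, rfl⟩
  have hmlow : N₀ + 2 * q ≤ m := by
    rw [hm, Nat.le_div_iff_mul_le hk0]
    calc (N₀ + 2 * q) * k ≤ (N₀ + 2 * q) * K := by gcongr
      _ = K * (N₀ + 2 * q) := mul_comm _ _
      _ ≤ n := hnK
  obtain ⟨N, hN⟩ : ∃ N, N = q * ((m - 1) / q) + 1 := ⟨_, rfl⟩
  have hN1 : N ≤ m := by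
    have := Nat.mul_div_le (m - 1) q
    omega
  have hN2 : m + 1 ≤ N + q := by
    have := Nat.lt_mul_div_succ (m - 1) hq
    rw [Nat.mul_add] at this
    omega
  have hkN : k * N ≤ n := by
    calc k * N ≤ k * m := by gcongr
      _ ≤ n := by rw [hm]; exact Nat.mul_div_le _ _
  let e : Fin k ≃ P.parts := (P.parts.equivFinOfCardEq hk).symm
  obtain ⟨W, hWe⟩ : ∃ W : Fin k → Finset (Fin n), ∀ i, W i = (e i : Finset (Fin n)) :=
    ⟨_, fun _ => rfl⟩
  have hW : ∀ i, W i ∈ P.parts := fun i => by rw [hWe]; exact (e i).2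
  have hWinj : ∀ i j, W i = W j → i = j := fun i j h => by
    rw [hWe, hWe] at h
    exact e.injective (Subtype.ext h)
  have hWlow : ∀ i, N ≤ #(W i) := by
    intro i
    have := hPeq.average_le_card_part (hW i)
    rw [card_univ, Fintype.card_fin, hk, ← hm] at this
    omega
  have hWup : ∀ i, #(W i) ≤ N + q := by
    intro i
    have := hPeq.card_part_le_average_add_one (hW i)
    rw [card_univ, Fintype.card_fin, hk, ← hm] at this
    omega
  obtain ⟨ψ, hψ⟩ : ∃ ψ : Fin k → Fin N ↪ Fin n, ∀ i x, ψ i x ∈ W i :=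
    ⟨fun i => (Fin.castLEEmb (hWlow i)).trans ((W i).orderEmbOfFin rfl).toEmbedding,
      fun i x => Finset.orderEmbOfFin_mem _ rfl _⟩
  have hdisj : ∀ i j x y, ψ i x = ψ j y → i = j := by
    intro i j x y h
    apply hWinj
    exact P.eq_of_mem_parts (hW i) (hW j) (hψ i x) (h ▸ hψ j y)
  let φ : Fin k × Fin N ↪ Fin n := ⟨fun p => ψ p.1 p.2, by
    rintro ⟨i, x⟩ ⟨j, y⟩ h
    have hij : i = j := hdisj _ _ _ _ h
    subst hij
    have : x = y := (ψ i).injective h
    rw [this]⟩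
  let U : Fin k → Fin k → Prop := fun i j => i ≠ j ∧ G.IsUniform (ε / 64) (W i) (W j)
  have hUsymm : ∀ i j, U i j → U j i := fun i j h => ⟨h.1.symm, h.2.symm⟩
  let H : SimpleGraph (Fin k × Fin N) :=
    { Adj := fun u v => U u.1 v.1 ∧ G.Adj (φ u) (φ v)
      symm := ⟨fun u v h => ⟨hUsymm _ _ h.1, h.2.symm⟩⟩
      loopless := ⟨fun u h => h.1.1 rfl⟩ }
  obtain ⟨d, hd⟩ : ∃ d : Fin k → Fin k → ℝ, ∀ i j, d i j =
    if U i j then ((G.edgeDensity (W i) (W j) : ℚ) : ℝ) else 0 := ⟨_, fun _ _ => rfl⟩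
  refine ⟨k, N, hk0, hPK, by omega, ?_, hkN, φ, H, d, fun u v h => h.2, ?_, ?_, ?_, ?_, ?_⟩
  · rw [hN, Nat.ModEq, Nat.mul_add_mod]
  · intro i j
    rw [hd, hd]
    by_cases h : U i j
    · have h' := hUsymm _ _ h
      rw [if_pos h, if_pos h', G.edgeDensity_comm]
    · have h' : ¬ U j i := fun h' => h (hUsymm _ _ h')
      rw [if_neg h, if_neg h']
  · intro i j
    rw [hd]
    split_ifs
    · exact_mod_cast G.edgeDensity_nonneg _ _
    · exact le_rfl
  · intro i j
    rw [hd]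
    split_ifs
    · exact_mod_cast G.edgeDensity_le_one _ _
    · exact zero_le_one
  · intro i j hij
    rw [hd]
    by_cases h : U i j
    · rw [if_pos h]
      have h1 := QR_pair (q := q) G h.2 (hWup i) (hWup j) (by omega) (ψ i) (ψ j) (hψ i) (hψ j)
      refine h1.congr fun x y => ?_
      have : H.Adj (i, x) (j, y) ↔ G.Adj (ψ i x) (ψ j y) :=
        ⟨fun hh => hh.2, fun hh => ⟨h, hh⟩⟩
      by_cases hA : G.Adj (ψ i x) (ψ j y)
      · rw [if_pos hA, if_pos (this.2 hA)]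
      · rw [if_neg hA, if_neg (fun hh => hA (this.1 hh))]
    · rw [if_neg h]
      refine QR_zero hε.le fun x y => ?_
      have h1 : ¬ H.Adj (i, x) (j, y) := fun hh => h hh.1
      rw [if_neg h1, sub_zero]
  · -- edge count
    rw [edges_eq G P e]
    simp only [← hWe]
    have hsum := nonuniform_sum G (by omega) he'0 P e hPeq hPu hk
    simp only [← hWe] at hsum
    have hpt : ∀ i j, (#(G.interedges (W i) (W j)) : ℝ) ≤
        ((if i = j then ((N : ℝ) + q) ^ 2 else 0) + (if i = j then 0 else d i j * (N : ℝ) ^ 2)) +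
          (((N : ℝ) + q) ^ 2 - (N : ℝ) ^ 2) +
        (if (i ≠ j ∧ ¬ G.IsUniform (ε / 64) (W i) (W j)) then
          ((#(W i) : ℝ) * #(W j)) else 0) := by
      intro i j
      have h3 : (0 : ℝ) ≤ ((N : ℝ) + q) ^ 2 - (N : ℝ) ^ 2 := by
        have : (0 : ℝ) ≤ 2 * N * q + q ^ 2 := by positivity
        nlinarith
      have a1 : (#(W i) : ℝ) ≤ N + q := by exact_mod_cast hWup i
      have a2 : (#(W j) : ℝ) ≤ N + q := by exact_mod_cast hWup j
      have hle : (#(G.interedges (W i) (W j)) : ℝ) ≤ #(W i) * #(W j) := by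
        exact_mod_cast G.card_interedges_le_mul _ _
      by_cases hij : i = j
      · have h4 : ¬ (i ≠ j ∧ ¬ G.IsUniform (ε / 64) (W i) (W j)) := fun hh => hh.1 hij
        rw [if_pos hij, if_pos hij, if_neg h4]
        have : (#(W i) : ℝ) * #(W j) ≤ (N + q) ^ 2 := by
          rw [sq]; gcongr
        linarith
      · rw [if_neg hij, if_neg hij, hd]
        by_cases hu : G.IsUniform (ε / 64) (W i) (W j)
        · have h4 : ¬ (i ≠ j ∧ ¬ G.IsUniform (ε / 64) (W i) (W j)) := fun hh => hh.2 hu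
          have h5 : U i j := ⟨hij, hu⟩
          rw [if_pos h5, if_neg h4]
          have := edge_bound (q := q) G (hWup i) (hWup j)
          linarith
        · have h4 : (i ≠ j ∧ ¬ G.IsUniform (ε / 64) (W i) (W j)) := ⟨hij, hu⟩
          have h5 : ¬ U i j := fun hh => hu hh.2
          rw [if_neg h5, if_pos h4]
          linarith
    have htot : ∑ i, ∑ j, (#(G.interedges (W i) (W j)) : ℝ) ≤
        k * ((N : ℝ) + q) ^ 2 + (∑ i, ∑ j ∈ univ.erase i, d i j) * (N : ℝ) ^ 2 +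
        (k : ℝ) ^ 2 * (((N : ℝ) + q) ^ 2 - (N : ℝ) ^ 2) +
        ∑ i, ∑ j, (if (i ≠ j ∧ ¬ G.IsUniform (ε / 64) (W i) (W j)) then
          ((#(W i) : ℝ) * #(W j)) else 0) := by
      refine (sum_le_sum fun i _ => sum_le_sum fun j _ => hpt i j).trans (le_of_eq ?_)
      simp only [sum_add_distrib]
      congr 1
      congr 1
      · congr 1
        · simp
        · rw [sum_mul]
          refine sum_congr rfl fun i _ => ?_
          rw [sum_mul, ← sum_erase univ (a := i) (by simp)]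
          refine sum_congr rfl fun j hj => ?_
          rw [if_neg (fun hh => (mem_erase.1 hj).1 hh.symm)]
      · simp
        ring
    refine htot.trans ?_
    refine numeric_aux (K := K) hε (by positivity) ?_ (by positivity) ?_ ?_ ?_ ?_ (by positivity)
      ?_ hsum
    · have : q ≤ N := by omega
      exact_mod_cast this
    · have h1 : (64 / ε) ≤ k := by
        have h2 : (64 / ε) ≤ ⌈64 / ε⌉₊ := Nat.le_ceil _
        have h3 : ((⌈64 / ε⌉₊ : ℕ) : ℝ) ≤ k := by exact_mod_cast (by omega : ⌈64 / ε⌉₊ ≤ k)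
        linarith
      rw [div_le_iff₀ hε] at h1
      linarith
    · exact_mod_cast hPK
    · exact_mod_cast hkN
    · exact_mod_cast hkn
    · have h1 : (12 * K * q / ε) ≤ n := by
        have h2 : (12 * K * q / ε) ≤ ⌈12 * K * q / ε⌉₊ := Nat.le_ceil _
        have h3 : ((⌈12 * K * q / ε⌉₊ : ℕ) : ℝ) ≤ n := by
          exact_mod_cast (by omega : ⌈12 * K * q / ε⌉₊ ≤ n)
        linarith
      rw [div_le_iff₀ hε] at h1
      linarith

end Pool.Agent.Helper166.TuzaReg
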