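import Pool.Agent.Helper166.TuzaR

set_option autoImplicit false

open Finset

namespace Pool.Agent.Helper166.Tuza

theorem exists_perm {X C : Type} [Fintype X] [DecidableEq X] (ℓ ℓ' : C ↪ X) :
    ∃ π : Equiv.Perm X, ∀ c, π (ℓ c) = ℓ' c := by
  classical
  let e : {x // x ∈ Set.range ℓ} ≃ {x // x ∈ Set.range ℓ'} :=
    (Equiv.ofInjective ℓ ℓ.injective).symm.trans (Equiv.ofInjective ℓ' ℓ'.injective)
  refine ⟨e.extendSubtype, fun c => ?_⟩
  rw [Equiv.extendSubtype_apply_of_mem e _ ⟨c, rfl⟩]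
  simp only [e, Equiv.trans_apply]
  have : (Equiv.ofInjective ℓ ℓ.injective).symm ⟨ℓ c, ⟨c, rfl⟩⟩ = c :=
    (Equiv.ofInjective ℓ ℓ.injective).symm_apply_eq.2 rfl
  rw [this]
  rfl

theorem perm_sum {X C M : Type} [Fintype X] [DecidableEq X] [Fintype C] [DecidableEq C]
    [Fintype M] [DecidableEq M] (ℓ : M → (C ↪ X)) (Φ : (M → (C ↪ X)) → ℝ) :
    (Fintype.card (M → (C ↪ X)) : ℝ) *
      ∑ σ : M → Equiv.Perm X, Φ (fun m => (ℓ m).trans (σ m).toEmbedding) =
    (Fintype.card (M → Equiv.Perm X) : ℝ) * ∑ u : M → (C ↪ X), Φ u := by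
  have h1 : ∀ ℓ' : M → (C ↪ X), ∑ σ : M → Equiv.Perm X, Φ (fun m => (ℓ' m).trans (σ m).toEmbedding) =
      ∑ σ : M → Equiv.Perm X, Φ (fun m => (ℓ m).trans (σ m).toEmbedding) := by
    intro ℓ'
    choose π hπ using fun m => exists_perm (ℓ m) (ℓ' m)
    rw [← Equiv.sum_comp (Equiv.mulRight (π : M → Equiv.Perm X))
      (fun σ => Φ (fun m => (ℓ m).trans (σ m).toEmbedding))]
    refine Finset.sum_congr rfl fun σ _ => ?_
    congr 1
    funext m
    ext c
    simp only [Function.Embedding.trans_apply, Equiv.toEmbedding_apply, Equiv.coe_mulRight,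
      Pi.mul_apply, Equiv.Perm.coe_mul, Function.comp_apply]
    rw [hπ]
  have h2 : ∑ ℓ' : M → (C ↪ X), ∑ σ : M → Equiv.Perm X,
      Φ (fun m => (ℓ' m).trans (σ m).toEmbedding) =
      (Fintype.card (M → (C ↪ X)) : ℝ) *
      ∑ σ : M → Equiv.Perm X, Φ (fun m => (ℓ m).trans (σ m).toEmbedding) := by
    rw [Finset.sum_congr rfl fun ℓ' _ => h1 ℓ', Finset.sum_const, Finset.card_univ, nsmul_eq_mul]
  rw [← h2, Finset.sum_comm]
  have h3 : ∀ σ : M → Equiv.Perm X, ∑ ℓ' : M → (C ↪ X),
      Φ (fun m => (ℓ' m).trans (σ m).toEmbedding) = ∑ u : M → (C ↪ X), Φ u := by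
    intro σ
    let e : (M → (C ↪ X)) ≃ (M → (C ↪ X)) :=
      { toFun := fun u m => (u m).trans (σ m).toEmbedding
        invFun := fun u m => (u m).trans (σ m).symm.toEmbedding
        left_inv := fun u => by funext m; ext c; simp
        right_inv := fun u => by funext m; ext c; simp }
    exact Equiv.sum_comp e Φ
  rw [Finset.sum_congr rfl fun σ _ => h3 σ, Finset.sum_const, Finset.card_univ, nsmul_eq_mul]

theorem card_coll {J X : Type} [Fintype J] [DecidableEq J] [Fintype X] [DecidableEq X]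
    {j j' : J} (hj : j ≠ j') :
    (Fintype.card X : ℝ) * ((univ.filter fun u : J → X => u j = u j').card : ℝ) =
      (Fintype.card X : ℝ) ^ Fintype.card J := by
  have h1 := sum_update (X := X) j (fun u : J → X => if u j = u j' then (1 : ℝ) else 0)
  have h2 : ∀ (u : J → X), ∑ x : X, (if Function.update u j x j = Function.update u j x j'
      then (1 : ℝ) else 0) = 1 := by
    intro u
    rw [Finset.sum_eq_single (u j')]
    · rw [Function.update_self, Function.update_of_ne hj.symm, if_pos rfl]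
    · intro x _ hx
      rw [Function.update_self, Function.update_of_ne hj.symm, if_neg hx]
    · intro h
      exact absurd (Finset.mem_univ _) h
  rw [Finset.sum_congr rfl fun u _ => h2 u] at h1
  simp only [Finset.sum_const, Finset.card_univ, nsmul_eq_mul, mul_one, Fintype.card_fun] at h1
  rw [Finset.sum_boole] at h1
  rw [← h1]
  push_cast
  rfl

/-- Comparison of averages over embeddings and functions. -/
theorem emb_avg {X C M : Type} [Fintype X] [DecidableEq X] [Nonempty X] [Fintype C] [DecidableEq C]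
    [Fintype M] [DecidableEq M] (ℓ : M → (C ↪ X)) (Φ : (M × C → X) → ℝ) (hΦ : ∀ u, |Φ u| ≤ 1) :
    |(∑ u : M → (C ↪ X), Φ (fun p => u p.1 p.2)) / (Fintype.card (M → (C ↪ X)) : ℝ) -
      (∑ u : M × C → X, Φ u) / (Fintype.card X : ℝ) ^ (Fintype.card (M × C))| ≤
      2 * (Fintype.card M * Fintype.card C ^ 2) / (Fintype.card X : ℝ) := by
  set N : ℝ := (Fintype.card X : ℝ) with hN
  have hNpos : 0 < N := by rw [hN]; exact_mod_cast Fintype.card_pos
  set J : ℕ := Fintype.card (M × C) with hJ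
  -- the injective ones
  let I : Finset (M × C → X) := univ.filter fun u => ∀ m, Function.Injective fun c => u (m, c)
  have hbij : ∀ Ψ : (M × C → X) → ℝ, ∑ u : M → (C ↪ X), Ψ (fun p => u p.1 p.2) = ∑ u ∈ I, Ψ u := by
    intro Ψ
    refine Finset.sum_bij (fun u _ => fun p => u p.1 p.2) ?_ ?_ ?_ ?_
    · intro u _
      simp only [I, Finset.mem_filter, Finset.mem_univ, true_and]
      intro m c c' h
      exact (u m).injective h
    · intro u _ u' _ h
      funext m
      ext c
      exact congrFun h (m, c)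
    · intro u hu
      simp only [I, Finset.mem_filter, Finset.mem_univ, true_and] at hu
      exact ⟨fun m => ⟨fun c => u (m, c), hu m⟩, Finset.mem_univ _, rfl⟩
    · intro u _
      rfl
  have hcard : (Fintype.card (M → (C ↪ X)) : ℝ) = I.card := by
    have := hbij fun _ => 1
    simpa using this
  have hcardpos : (0 : ℝ) < Fintype.card (M → (C ↪ X)) := by
    have : Nonempty (M → (C ↪ X)) := ⟨ℓ⟩
    exact_mod_cast Fintype.card_pos
  have htot : ((univ : Finset (M × C → X)).card : ℝ) = N ^ J := by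
    rw [Finset.card_univ, Fintype.card_fun]
    push_cast
    rfl
  have hNJ : 0 < N ^ J := by positivity
  -- the complement
  have hcompl : ((univ \ I).card : ℝ) ≤ (Fintype.card M * Fintype.card C ^ 2) * (N ^ J / N) := by
    have hsub : univ \ I ⊆ (univ.filter fun q : M × C × C => q.2.1 ≠ q.2.2).biUnion
        fun q => univ.filter fun u : M × C → X => u (q.1, q.2.1) = u (q.1, q.2.2) := by
      intro u hu
      simp only [I, Finset.mem_sdiff, Finset.mem_univ, true_and, Finset.mem_filter] at hu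
      push Not at hu
      obtain ⟨m, hm⟩ := hu
      rw [Function.Injective] at hm
      push Not at hm
      obtain ⟨c, c', h1, h2⟩ := hm
      rw [Finset.mem_biUnion]
      exact ⟨(m, c, c'), by simp [h2], by simp [h1]⟩
    have h1 : ((univ \ I).card : ℝ) ≤ ∑ q ∈ univ.filter (fun q : M × C × C => q.2.1 ≠ q.2.2),
        ((univ.filter fun u : M × C → X => u (q.1, q.2.1) = u (q.1, q.2.2)).card : ℝ) := by
      exact_mod_cast (Finset.card_le_card hsub).trans Finset.card_biUnion_le
    refine h1.trans ?_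
    have h2 : ∀ q ∈ univ.filter (fun q : M × C × C => q.2.1 ≠ q.2.2),
        ((univ.filter fun u : M × C → X => u (q.1, q.2.1) = u (q.1, q.2.2)).card : ℝ) =
        N ^ J / N := by
      intro q hq
      rw [Finset.mem_filter] at hq
      have h3 := card_coll (X := X) (J := M × C) (j := (q.1, q.2.1)) (j' := (q.1, q.2.2))
        (fun h => hq.2 (congrArg Prod.snd h))
      rw [eq_div_iff hNpos.ne', mul_comm]
      exact h3
    rw [Finset.sum_congr rfl h2, Finset.sum_const, nsmul_eq_mul]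
    refine mul_le_mul_of_nonneg_right ?_ (by positivity)
    have h4 : (univ.filter (fun q : M × C × C => q.2.1 ≠ q.2.2)).card ≤
        Fintype.card M * Fintype.card C ^ 2 := by
      refine (Finset.card_filter_le _ _).trans ?_
      rw [Finset.card_univ, Fintype.card_prod, Fintype.card_prod, sq]
    exact_mod_cast h4
  rw [hbij, hcard]
  have hIpos : (0 : ℝ) < I.card := hcard ▸ hcardpos
  have hsplit : ∑ u, Φ u = ∑ u ∈ univ \ I, Φ u + ∑ u ∈ I, Φ u :=
    (Finset.sum_sdiff (Finset.subset_univ I)).symm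
  have hcs : ((univ \ I).card : ℝ) + I.card = N ^ J := by
    rw [← htot]
    exact_mod_cast Finset.card_sdiff_add_card_eq_card (Finset.subset_univ I)
  have habs : ∀ S : Finset (M × C → X), |∑ u ∈ S, Φ u| ≤ S.card := by
    intro S
    refine (Finset.abs_sum_le_sum_abs _ _).trans ?_
    refine (Finset.sum_le_card_nsmul _ _ 1 fun u _ => hΦ u).trans ?_
    simp
  have h5 : (∑ u ∈ I, Φ u) / (I.card : ℝ) - (∑ u, Φ u) / N ^ J =
      ((∑ u ∈ I, Φ u) / (I.card : ℝ)) * (((univ \ I).card : ℝ) / N ^ J) -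
        (∑ u ∈ univ \ I, Φ u) / N ^ J := by
    rw [hsplit]
    field_simp
    rw [← hcs]
    ring
  rw [h5]
  have h6 : |(∑ u ∈ I, Φ u) / (I.card : ℝ)| ≤ 1 := by
    rw [abs_div, abs_of_pos hIpos, div_le_one hIpos]
    exact habs I
  have h7 : (((univ \ I).card : ℝ) / N ^ J) ≤ (Fintype.card M * Fintype.card C ^ 2) / N := by
    rw [div_le_iff₀ hNJ]
    refine hcompl.trans (le_of_eq ?_)
    field_simp
  have h8 : |(∑ u ∈ univ \ I, Φ u) / N ^ J| ≤ ((univ \ I).card : ℝ) / N ^ J := by
    rw [abs_div, abs_of_pos hNJ]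
    exact div_le_div_of_nonneg_right (habs _) hNJ.le
  refine (abs_sub _ _).trans ?_
  rw [abs_mul, abs_of_nonneg (show (0 : ℝ) ≤ ((univ \ I).card : ℝ) / N ^ J by positivity)]
  have h9 : |(∑ u ∈ I, Φ u) / (I.card : ℝ)| * (((univ \ I).card : ℝ) / N ^ J) ≤
      1 * (((univ \ I).card : ℝ) / N ^ J) :=
    mul_le_mul_of_nonneg_right h6 (by positivity)
  calc _ ≤ 1 * (((univ \ I).card : ℝ) / N ^ J) + ((univ \ I).card : ℝ) / N ^ J :=
        add_le_add h9 h8
    _ ≤ 2 * (Fintype.card M * Fintype.card C ^ 2) / N := by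
        have : 2 * ((Fintype.card M : ℝ) * Fintype.card C ^ 2) / N =
          (Fintype.card M * Fintype.card C ^ 2) / N + (Fintype.card M * Fintype.card C ^ 2) / N := by
          ring
        rw [this]
        linarith

/-- Average over independent permutations versus average over independent functions. -/
theorem perm_avg {X C M : Type} [Fintype X] [DecidableEq X] [Nonempty X] [Fintype C]
    [DecidableEq C] [Fintype M] [DecidableEq M] (ℓ : M → C → X)
    (hℓ : ∀ m, Function.Injective (ℓ m)) (Φ : (M × C → X) → ℝ) (hΦ : ∀ u, |Φ u| ≤ 1) :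
    |(∑ σ : M → Equiv.Perm X, Φ (fun p => σ p.1 (ℓ p.1 p.2))) /
        (Fintype.card (M → Equiv.Perm X) : ℝ) -
      (∑ u : M × C → X, Φ u) / (Fintype.card X : ℝ) ^ (Fintype.card (M × C))| ≤
      2 * (Fintype.card M * Fintype.card C ^ 2) / (Fintype.card X : ℝ) := by
  have h1 := emb_avg (fun m => ⟨ℓ m, hℓ m⟩ : M → (C ↪ X)) Φ hΦ
  have h2 := perm_sum (fun m => ⟨ℓ m, hℓ m⟩ : M → (C ↪ X)) (fun u => Φ (fun p => u p.1 p.2))
  have h3 : (0 : ℝ) < Fintype.card (M → (C ↪ X)) := by
    have : Nonempty (M → (C ↪ X)) := ⟨fun m => ⟨ℓ m, hℓ m⟩⟩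
    exact_mod_cast Fintype.card_pos
  have h4 : (0 : ℝ) < Fintype.card (M → Equiv.Perm X) := by
    exact_mod_cast Fintype.card_pos
  have h5 : (∑ σ : M → Equiv.Perm X, Φ (fun p => σ p.1 (ℓ p.1 p.2))) /
        (Fintype.card (M → Equiv.Perm X) : ℝ) =
      (∑ u : M → (C ↪ X), Φ (fun p => u p.1 p.2)) / (Fintype.card (M → (C ↪ X)) : ℝ) := by
    rw [div_eq_div_iff h4.ne' h3.ne', mul_comm]
    rw [mul_comm (∑ u : M → (C ↪ X), _)]
    exact h2
  rw [h5]
  exact h1

/-- Factorisation over the corners. -/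
theorem sum_factor {X C M : Type} [Fintype X] [DecidableEq X] [Fintype C] [DecidableEq C]
    [Fintype M] [DecidableEq M] (φ : C → (M → X) → ℝ) :
    ∑ u : M × C → X, ∏ c, φ c (fun m => u (m, c)) = ∏ c, ∑ w : M → X, φ c w := by
  rw [Finset.prod_univ_sum, Fintype.piFinset_univ]
  let e : (M × C → X) ≃ (C → M → X) :=
    { toFun := fun u c m => u (m, c)
      invFun := fun v p => v p.2 p.1
      left_inv := fun u => rfl
      right_inv := fun v => rfl }
  exact Equiv.sum_comp e (fun v : C → M → X => ∏ c, φ c (v c))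

end Pool.Agent.Helper166.Tuza
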