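import Mathlib

set_option autoImplicit false

open Finset

namespace Pool.Agent.Helper166.Tuza

/-- Quasirandomness: the kernel `f` on `X × X` has all rank-one averages at most `ε`. -/
def QR {X : Type} [Fintype X] (f : X → X → ℝ) (ε : ℝ) : Prop :=
  ∀ a b : X → ℝ, (∀ x, |a x| ≤ 1) → (∀ y, |b y| ≤ 1) →
    |∑ x, ∑ y, f x y * a x * b y| ≤ ε * (Fintype.card X : ℝ) ^ 2

/-- The box (four-cycle) sum of a kernel. -/
def box4 {X : Type} [Fintype X] (f : X → X → ℝ) : ℝ :=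
  ∑ x, ∑ x', ∑ y, ∑ y', f x y * f x y' * f x' y * f x' y'

theorem pow4_le_box4 {X : Type} [Fintype X] (f : X → X → ℝ) (a b : X → ℝ)
    (ha : ∀ x, |a x| ≤ 1) (hb : ∀ y, |b y| ≤ 1) :
    (∑ x, ∑ y, f x y * a x * b y) ^ 4 ≤ (Fintype.card X : ℝ) ^ 4 * box4 f := by
  set N : ℝ := (Fintype.card X : ℝ) with hN
  have hN0 : 0 ≤ N := Nat.cast_nonneg _
  have hsq : ∀ c : X → ℝ, (∀ x, |c x| ≤ 1) → ∑ x, c x ^ 2 ≤ N := by
    intro c hc
    calc ∑ x, c x ^ 2 ≤ ∑ _x : X, (1 : ℝ) := Finset.sum_le_sum fun x _ => by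
          have := hc x
          rw [← sq_abs]
          nlinarith [abs_nonneg (c x)]
      _ = N := by simp [hN]
  have h1 : (∑ x, ∑ y, f x y * a x * b y) ^ 2 ≤ N * ∑ x, (∑ y, f x y * b y) ^ 2 := by
    have e1 : ∑ x, ∑ y, f x y * a x * b y = ∑ x, a x * ∑ y, f x y * b y := by
      refine Finset.sum_congr rfl fun x _ => ?_
      rw [Finset.mul_sum]
      exact Finset.sum_congr rfl fun y _ => by ring
    rw [e1]
    refine (Finset.sum_mul_sq_le_sq_mul_sq _ _ _).trans ?_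
    exact mul_le_mul_of_nonneg_right (hsq a ha) (Finset.sum_nonneg fun x _ => sq_nonneg _)
  have h2 : ∑ x, (∑ y, f x y * b y) ^ 2 =
      ∑ p : X × X, (b p.1 * b p.2) * ∑ x, f x p.1 * f x p.2 := by
    rw [Fintype.sum_prod_type]
    calc ∑ x, (∑ y, f x y * b y) ^ 2 = ∑ x, ∑ y, ∑ y', (f x y * b y) * (f x y' * b y') :=
          Finset.sum_congr rfl fun x _ => by rw [sq, Finset.sum_mul_sum]
      _ = ∑ y, ∑ x, ∑ y', (f x y * b y) * (f x y' * b y') := Finset.sum_comm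
      _ = ∑ y, ∑ y', ∑ x, (f x y * b y) * (f x y' * b y') :=
          Finset.sum_congr rfl fun y _ => Finset.sum_comm
      _ = ∑ y, ∑ y', (b y * b y') * ∑ x, f x y * f x y' := by
          refine Finset.sum_congr rfl fun y _ => Finset.sum_congr rfl fun y' _ => ?_
          rw [Finset.mul_sum]
          exact Finset.sum_congr rfl fun x _ => by ring
  have h3 : (∑ p : X × X, (b p.1 * b p.2) * ∑ x, f x p.1 * f x p.2) ^ 2 ≤
      N ^ 2 * ∑ p : X × X, (∑ x, f x p.1 * f x p.2) ^ 2 := by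
    refine (Finset.sum_mul_sq_le_sq_mul_sq _ _ _).trans ?_
    refine mul_le_mul_of_nonneg_right ?_ (Finset.sum_nonneg fun x _ => sq_nonneg _)
    rw [Fintype.sum_prod_type]
    simp only [mul_pow]
    rw [← Finset.sum_mul_sum, sq N]
    exact mul_le_mul (hsq b hb) (hsq b hb) (Finset.sum_nonneg fun x _ => sq_nonneg _) hN0
  have h4 : ∑ p : X × X, (∑ x, f x p.1 * f x p.2) ^ 2 = box4 f := by
    rw [Fintype.sum_prod_type]
    unfold box4
    simp only [sq, Finset.sum_mul_sum]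
    have e : ∀ g : X → X → X → X → ℝ, ∑ x, ∑ x', ∑ y, ∑ y', g x x' y y' =
        ∑ y, ∑ y', ∑ x, ∑ x', g x x' y y' := by
      intro g
      calc ∑ x, ∑ x', ∑ y, ∑ y', g x x' y y' = ∑ x, ∑ y, ∑ x', ∑ y', g x x' y y' :=
            Finset.sum_congr rfl fun x _ => Finset.sum_comm
        _ = ∑ y, ∑ x, ∑ x', ∑ y', g x x' y y' := Finset.sum_comm
        _ = ∑ y, ∑ x, ∑ y', ∑ x', g x x' y y' :=
            Finset.sum_congr rfl fun y _ => Finset.sum_congr rfl fun x _ => Finset.sum_comm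
        _ = ∑ y, ∑ y', ∑ x, ∑ x', g x x' y y' :=
            Finset.sum_congr rfl fun y _ => Finset.sum_comm
    rw [e]
    refine Finset.sum_congr rfl fun y _ => Finset.sum_congr rfl fun y' _ => ?_
    exact Finset.sum_congr rfl fun x _ => Finset.sum_congr rfl fun x' _ => by ring
  rw [h2] at h1
  set s : ℝ := ∑ p : X × X, (b p.1 * b p.2) * ∑ x, f x p.1 * f x p.2 with hs
  rw [h4] at h3
  have hs0 : 0 ≤ s := by
    rw [← h2]
    exact Finset.sum_nonneg fun x _ => sq_nonneg _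
  calc (∑ x, ∑ y, f x y * a x * b y) ^ 4 = ((∑ x, ∑ y, f x y * a x * b y) ^ 2) ^ 2 := by ring
    _ ≤ (N * s) ^ 2 := by
        refine pow_le_pow_left₀ (sq_nonneg _) h1 2
    _ = N ^ 2 * s ^ 2 := by ring
    _ ≤ N ^ 2 * (N ^ 2 * box4 f) := mul_le_mul_of_nonneg_left h3 (sq_nonneg _)
    _ = N ^ 4 * box4 f := by ring

theorem qr_of_box4 {X : Type} [Fintype X] (f : X → X → ℝ) {κ : ℝ} (hκ : 0 ≤ κ)
    (h : box4 f ≤ κ ^ 4 * (Fintype.card X : ℝ) ^ 4) : QR f κ := by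
  intro a b ha hb
  have h1 := pow4_le_box4 f a b ha hb
  set N : ℝ := (Fintype.card X : ℝ) with hN
  have hN0 : 0 ≤ N := Nat.cast_nonneg _
  have h2 : |∑ x, ∑ y, f x y * a x * b y| ^ 4 ≤ (κ * N ^ 2) ^ 4 := by
    rw [show |∑ x, ∑ y, f x y * a x * b y| ^ 4 = (∑ x, ∑ y, f x y * a x * b y) ^ 4 from
      Even.pow_abs (by decide) _]
    refine h1.trans ?_
    calc N ^ 4 * box4 f ≤ N ^ 4 * (κ ^ 4 * N ^ 4) := mul_le_mul_of_nonneg_left h (by positivity)
      _ = (κ * N ^ 2) ^ 4 := by ring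
  exact le_of_pow_le_pow_left₀ (by norm_num) (by positivity) h2

theorem box4_le_of_qr {X : Type} [Fintype X] (f : X → X → ℝ) (hf : ∀ x y, |f x y| ≤ 1) {ε : ℝ}
    (h : QR f ε) : box4 f ≤ ε * (Fintype.card X : ℝ) ^ 4 := by
  set N : ℝ := (Fintype.card X : ℝ) with hN
  have h1 : box4 f = ∑ x', ∑ y', f x' y' * ∑ x, ∑ y, f x y * f x y' * f x' y := by
    unfold box4
    rw [Finset.sum_comm]
    refine Finset.sum_congr rfl fun x' _ => ?_
    have e : ∀ g : X → X → X → ℝ, ∑ x, ∑ y, ∑ y', g x y y' = ∑ y', ∑ x, ∑ y, g x y y' := by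
      intro g
      calc ∑ x, ∑ y, ∑ y', g x y y' = ∑ x, ∑ y', ∑ y, g x y y' :=
            Finset.sum_congr rfl fun x _ => Finset.sum_comm
        _ = ∑ y', ∑ x, ∑ y, g x y y' := Finset.sum_comm
    rw [e]
    refine Finset.sum_congr rfl fun y' _ => ?_
    rw [Finset.mul_sum]
    refine Finset.sum_congr rfl fun x _ => ?_
    rw [Finset.mul_sum]
    exact Finset.sum_congr rfl fun y _ => by ring
  rw [h1]
  calc ∑ x', ∑ y', f x' y' * ∑ x, ∑ y, f x y * f x y' * f x' y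
      ≤ ∑ _x' : X, ∑ _y' : X, ε * N ^ 2 := by
        refine Finset.sum_le_sum fun x' _ => Finset.sum_le_sum fun y' _ => ?_
        have h2 := h (fun x => f x y') (fun y => f x' y) (fun x => hf _ _) (fun y => hf _ _)
        have h3 := hf x' y'
        calc f x' y' * ∑ x, ∑ y, f x y * f x y' * f x' y
            ≤ |f x' y' * ∑ x, ∑ y, f x y * f x y' * f x' y| := le_abs_self _
          _ = |f x' y'| * |∑ x, ∑ y, f x y * f x y' * f x' y| := abs_mul _ _
          _ ≤ 1 * (ε * N ^ 2) := mul_le_mul h3 h2 (abs_nonneg _) (by norm_num)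
          _ = ε * N ^ 2 := one_mul _
    _ = ε * N ^ 4 := by
        rw [Finset.sum_const, Finset.sum_const, Finset.card_univ, nsmul_eq_mul, nsmul_eq_mul]
        ring

end Pool.Agent.Helper166.Tuza
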