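import Pool.Agent.Helper166.TuzaQ

set_option autoImplicit false

open Finset

namespace Pool.Agent.Helper166.Tuza

theorem sum_update {ι X : Type} [Fintype ι] [DecidableEq ι] [Fintype X] [DecidableEq X] (i : ι)
    (f : (ι → X) → ℝ) :
    ∑ w : ι → X, ∑ x : X, f (Function.update w i x) = (Fintype.card X : ℝ) * ∑ w, f w := by
  rw [← Fintype.sum_prod_type' (f := fun (w : ι → X) (x : X) => f (Function.update w i x))]
  let e : (ι → X) × X ≃ (ι → X) × X :=
    { toFun := fun p => (Function.update p.1 i p.2, p.1 i)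
      invFun := fun p => (Function.update p.1 i p.2, p.1 i)
      left_inv := fun p => by simp
      right_inv := fun p => by simp }
  have h1 : ∑ p : (ι → X) × X, f (Function.update p.1 i p.2) = ∑ p : (ι → X) × X, f p.1 :=
    Equiv.sum_comp e (fun p => f p.1)
  rw [h1, Fintype.sum_prod_type]
  simp only [Finset.sum_const, Finset.card_univ, nsmul_eq_mul]
  rw [Finset.mul_sum]

theorem counting_step {ι X : Type} [Fintype ι] [LinearOrder ι] [Fintype X] [DecidableEq X]
    [Nonempty X] (g : ι → ι → X → X → ℝ) (h01 : ∀ i j x y, |g i j x y| ≤ 1)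
    (b : ι → X → ℝ) (hb : ∀ i x, |b i x| ≤ 1) {ε : ℝ} {i j : ι} (hij : i < j) (c : ℝ)
    (hqr : QR (fun x y => g i j x y - c) ε) (S : Finset (ι × ι)) (hS : ∀ p ∈ S, p.1 < p.2)
    (hijS : (i, j) ∉ S) :
    |∑ w : ι → X, (g i j (w i) (w j) - c) *
      ((∏ p ∈ S, g p.1 p.2 (w p.1) (w p.2)) * ∏ m, b m (w m))| ≤
      ε * (Fintype.card X : ℝ) ^ (Fintype.card ι) := by
  set N : ℝ := (Fintype.card X : ℝ) with hN
  have hNpos : 0 < N := by rw [hN]; exact_mod_cast Fintype.card_pos
  set F : (ι → X) → ℝ := fun w => (g i j (w i) (w j) - c) *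
      ((∏ p ∈ S, g p.1 p.2 (w p.1) (w p.2)) * ∏ m, b m (w m)) with hF
  have hprod : ∀ (T : Finset (ι × ι)) (w : ι → X), |∏ p ∈ T, g p.1 p.2 (w p.1) (w p.2)| ≤ 1 := by
    intro T w
    rw [Finset.abs_prod]
    exact Finset.prod_le_one (fun _ _ => abs_nonneg _) fun p _ => h01 _ _ _ _
  have hprodb : ∀ (T : Finset ι) (w : ι → X), |∏ m ∈ T, b m (w m)| ≤ 1 := by
    intro T w
    rw [Finset.abs_prod]
    exact Finset.prod_le_one (fun _ _ => abs_nonneg _) fun p _ => hb _ _
  have h1 : N ^ 2 * ∑ w, F w =
      ∑ w : ι → X, ∑ x, ∑ y, F (Function.update (Function.update w i x) j y) := by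
    have h2 := sum_update i (fun w => ∑ y, F (Function.update w j y))
    have h3 := sum_update j F
    rw [h3] at h2
    rw [h2, ← hN]
    ring
  have h2 : ∀ w : ι → X,
      |∑ x, ∑ y, F (Function.update (Function.update w i x) j y)| ≤ ε * N ^ 2 := by
    intro w
    have key : ∀ x y, F (Function.update (Function.update w i x) j y) =
        (g i j x y - c) *
        ((∏ p ∈ S.filter (fun p => p.1 = i ∨ p.2 = i),
          g p.1 p.2 (Function.update w i x p.1) (Function.update w i x p.2)) * b i x) *
        ((∏ p ∈ S.filter (fun p => ¬ (p.1 = i ∨ p.2 = i)),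
          g p.1 p.2 (Function.update w j y p.1) (Function.update w j y p.2)) *
          ∏ m ∈ univ.erase i, b m (Function.update w j y m)) := by
      intro x y
      have e1 : Function.update (Function.update w i x) j y i = x := by
        rw [Function.update_of_ne hij.ne, Function.update_self]
      have e2 : Function.update (Function.update w i x) j y j = y := Function.update_self _ _ _
      have e3 : ∀ m, m ≠ i → Function.update (Function.update w i x) j y m =
          Function.update w j y m := by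
        intro m hm
        by_cases hmj : m = j
        · subst hmj; simp
        · rw [Function.update_of_ne hmj, Function.update_of_ne hm, Function.update_of_ne hmj]
      have e4 : ∀ m, m ≠ j → Function.update (Function.update w i x) j y m =
          Function.update w i x m := fun m hm => Function.update_of_ne hm _ _
      simp only [hF]
      rw [e1, e2]
      have e5 : ∏ p ∈ S, g p.1 p.2 (Function.update (Function.update w i x) j y p.1)
          (Function.update (Function.update w i x) j y p.2) =
          (∏ p ∈ S.filter (fun p => p.1 = i ∨ p.2 = i),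
          g p.1 p.2 (Function.update w i x p.1) (Function.update w i x p.2)) *
          ∏ p ∈ S.filter (fun p => ¬ (p.1 = i ∨ p.2 = i)),
          g p.1 p.2 (Function.update w j y p.1) (Function.update w j y p.2) := by
        rw [← Finset.prod_filter_mul_prod_filter_not S (fun p => p.1 = i ∨ p.2 = i)]
        congr 1
        · refine Finset.prod_congr rfl fun p hp => ?_
          rw [Finset.mem_filter] at hp
          have hlt := hS p hp.1
          have hne : p ≠ (i, j) := fun h => hijS (h ▸ hp.1)
          rcases hp.2 with h | h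
          · have : p.2 ≠ j := fun h' => hne (Prod.ext h h')
            rw [e4 p.2 this, e4 p.1 (by rw [h]; exact hij.ne)]
          · have : p.1 ≠ j := by
              intro h'
              rw [h, h'] at hlt
              exact absurd hlt (not_lt.2 hij.le)
            rw [e4 p.1 this, e4 p.2 (by rw [h]; exact hij.ne)]
        · refine Finset.prod_congr rfl fun p hp => ?_
          rw [Finset.mem_filter] at hp
          push Not at hp
          rw [e3 p.1 hp.2.1, e3 p.2 hp.2.2]
      have e6 : ∏ m, b m (Function.update (Function.update w i x) j y m) =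
          b i x * ∏ m ∈ univ.erase i, b m (Function.update w j y m) := by
        rw [← Finset.mul_prod_erase univ _ (Finset.mem_univ i), e1]
        congr 1
        exact Finset.prod_congr rfl fun m hm => by rw [e3 m (Finset.ne_of_mem_erase hm)]
      rw [e5, e6]
      ring
    simp only [key]
    refine hqr _ _ (fun x => ?_) (fun y => ?_)
    · rw [abs_mul]
      exact mul_le_one₀ (hprod _ _) (abs_nonneg _) (hb _ _)
    · rw [abs_mul]
      exact mul_le_one₀ (hprod _ _) (abs_nonneg _) (hprodb _ _)
  have h3 : |N ^ 2 * ∑ w, F w| ≤ N ^ 2 * (ε * N ^ Fintype.card ι) := by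
    rw [h1]
    refine (Finset.abs_sum_le_sum_abs _ _).trans ?_
    calc ∑ w : ι → X, |∑ x, ∑ y, F (Function.update (Function.update w i x) j y)|
        ≤ ∑ _w : ι → X, ε * N ^ 2 := Finset.sum_le_sum fun w _ => h2 w
      _ = N ^ 2 * (ε * N ^ Fintype.card ι) := by
          rw [Finset.sum_const, Finset.card_univ, Fintype.card_fun, nsmul_eq_mul]
          push_cast
          rw [← hN]
          ring
  rw [abs_mul, abs_of_pos (by positivity)] at h3
  exact le_of_mul_le_mul_left h3 (by positivity)

/-- Counting lemma. -/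
theorem counting {ι X : Type} [Fintype ι] [LinearOrder ι] [Fintype X] [DecidableEq X]
    [Nonempty X] (g : ι → ι → X → X → ℝ) (h01 : ∀ i j x y, |g i j x y| ≤ 1)
    (d : ι → ι → ℝ) (hd : ∀ i j, |d i j| ≤ 1)
    (b : ι → X → ℝ) (hb : ∀ i x, |b i x| ≤ 1) {ε : ℝ} (E : Finset (ι × ι))
    (hE : ∀ p ∈ E, p.1 < p.2) (hqr : ∀ p ∈ E, QR (fun x y => g p.1 p.2 x y - d p.1 p.2) ε) :
    |∑ w : ι → X, (∏ p ∈ E, g p.1 p.2 (w p.1) (w p.2)) * ∏ m, b m (w m) -
      (∏ p ∈ E, d p.1 p.2) * ∑ w : ι → X, ∏ m, b m (w m)| ≤
      E.card * (ε * (Fintype.card X : ℝ) ^ (Fintype.card ι)) := by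
  induction E using Finset.induction_on with
  | empty => simp
  | insert p S hp ih =>
    obtain ⟨i, j⟩ := p
    have hS : ∀ q ∈ S, q.1 < q.2 := fun q hq => hE q (Finset.mem_insert_of_mem hq)
    have h1 := ih hS (fun q hq => hqr q (Finset.mem_insert_of_mem hq))
    have h2 := counting_step g h01 b hb (hE (i, j) (Finset.mem_insert_self _ _)) (d i j)
      (hqr (i, j) (Finset.mem_insert_self _ _)) S hS hp
    rw [Finset.card_insert_of_notMem hp, Finset.prod_insert hp]
    simp only at h2 ⊢
    have h3 : ∑ w : ι → X, (∏ p ∈ insert (i, j) S, g p.1 p.2 (w p.1) (w p.2)) * ∏ m, b m (w m) -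
        (d i j * ∏ p ∈ S, d p.1 p.2) * ∑ w : ι → X, ∏ m, b m (w m) =
        ∑ w : ι → X, (g i j (w i) (w j) - d i j) *
          ((∏ p ∈ S, g p.1 p.2 (w p.1) (w p.2)) * ∏ m, b m (w m)) +
        d i j * (∑ w : ι → X, (∏ p ∈ S, g p.1 p.2 (w p.1) (w p.2)) * ∏ m, b m (w m) -
        (∏ p ∈ S, d p.1 p.2) * ∑ w : ι → X, ∏ m, b m (w m)) := by
      have : ∑ w : ι → X, (∏ p ∈ insert (i, j) S, g p.1 p.2 (w p.1) (w p.2)) * ∏ m, b m (w m) =
          ∑ w : ι → X, ((g i j (w i) (w j) - d i j) *
          ((∏ p ∈ S, g p.1 p.2 (w p.1) (w p.2)) * ∏ m, b m (w m)) +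
          d i j * ((∏ p ∈ S, g p.1 p.2 (w p.1) (w p.2)) * ∏ m, b m (w m))) := by
        refine Finset.sum_congr rfl fun w _ => ?_
        rw [Finset.prod_insert hp]
        ring
      rw [this, Finset.sum_add_distrib, ← Finset.mul_sum]
      ring
    rw [h3]
    refine (abs_add_le _ _).trans ?_
    have h4 : |d i j * (∑ w : ι → X, (∏ p ∈ S, g p.1 p.2 (w p.1) (w p.2)) * ∏ m, b m (w m) -
        (∏ p ∈ S, d p.1 p.2) * ∑ w : ι → X, ∏ m, b m (w m))| ≤
        1 * (S.card * (ε * (Fintype.card X : ℝ) ^ (Fintype.card ι))) := by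
      rw [abs_mul]
      exact mul_le_mul (hd _ _) h1 (abs_nonneg _) (by norm_num)
    push_cast
    linarith

end Pool.Agent.Helper166.Tuza
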