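import Pool.Agent.Helper166.TuzaP

set_option autoImplicit false

open Finset

namespace Pool.Agent.Helper166.Tuza

/-- The value at `m` of the affine line through `u` at `p` and `v` at `q`. -/
noncomputable def line {ι X : Type} [CommRing X] (c : ι → X) (p q m : ι) (u v : X) : X :=
  u + (c m - c p) * Ring.inverse (c p - c q) * (u - v)

theorem line_left {ι X : Type} [CommRing X] (c : ι → X) (p q : ι) (u v : X) :
    line c p q p u v = u := by
  unfold line
  ring

theorem line_right {ι X : Type} [CommRing X] (c : ι → X) (p q : ι) (h : IsUnit (c p - c q))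
    (u v : X) : line c p q q u v = v := by
  unfold line
  have h1 := Ring.mul_inverse_cancel _ h
  linear_combination (v - u) * h1

theorem line_eq_iff {ι X : Type} [CommRing X] (c : ι → X)
    (hc : ∀ p q, p ≠ q → IsUnit (c p - c q)) {p q m : ι} (hpq : p ≠ q) (u v u' v' : X) :
    line c p q m u v = line c p q m u' v' ↔
      (c m - c q) * (u - u') = (c m - c p) * (v - v') := by
  unfold line
  have h1 := Ring.mul_inverse_cancel _ (hc p q hpq)
  constructor
  · intro h
    have h2 : (c p - c q) * (u + (c m - c p) * Ring.inverse (c p - c q) * (u - v)) =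
        (c p - c q) * (u' + (c m - c p) * Ring.inverse (c p - c q) * (u' - v')) := by rw [h]
    linear_combination h2 - (c m - c p) * (u - v) * h1 + (c m - c p) * (u' - v') * h1
  · intro h
    apply (hc p q hpq).mul_left_cancel
    linear_combination h + (c m - c p) * (u - v) * h1 - (c m - c p) * (u' - v') * h1

/-- Generic quadruples. -/
def Gen {ι X : Type} [CommRing X] (c : ι → X) (p q : ι) (u u' v v' : X) : Prop :=
  u ≠ u' ∧ v ≠ v' ∧ ∀ m, ¬ (m = p ∨ m = q) →
    line c p q m u v ≠ line c p q m u' v' ∧ line c p q m u v' ≠ line c p q m u' v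

theorem gen_inj {ι X : Type} [CommRing X] (c : ι → X)
    (hc : ∀ p q, p ≠ q → IsUnit (c p - c q)) {p q : ι} (hpq : p ≠ q) {u u' v v' : X}
    (h : Gen c p q u u' v v') (m : ι) (hm : ¬ (m = p ∨ m = q)) :
    Function.Injective fun s : Bool × Bool =>
      line c p q m (if s.1 then u' else u) (if s.2 then v' else v) := by
  obtain ⟨h1, h2, h3⟩ := h
  obtain ⟨h4, h5⟩ := h3 m hm
  push Not at hm
  have hu : ∀ a b b', line c p q m a b = line c p q m a b' → b = b' := by
    intro a b b' h
    rw [line_eq_iff c hc hpq, sub_self, mul_zero] at h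
    have := (hc m p hm.1).mul_left_cancel (h.symm.trans (mul_zero _).symm)
    exact sub_eq_zero.1 this
  have hv : ∀ a a' b, line c p q m a b = line c p q m a' b → a = a' := by
    intro a a' b h
    rw [line_eq_iff c hc hpq, sub_self, mul_zero] at h
    have := (hc m q hm.2).mul_left_cancel (h.trans (mul_zero _).symm)
    exact sub_eq_zero.1 this
  rintro ⟨_ | _, _ | _⟩ ⟨_ | _, _ | _⟩ hs <;> simp only [Bool.false_eq_true, if_true, if_false] at hs
  · rfl
  · exact absurd (hu _ _ _ hs) h2
  · exact absurd (hv _ _ _ hs) h1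
  · exact absurd hs h4
  · exact absurd (hu _ _ _ hs).symm h2
  · rfl
  · exact absurd hs h5
  · exact absurd (hv _ _ _ hs) h1
  · exact absurd (hv _ _ _ hs).symm h1
  · exact absurd hs.symm h5
  · rfl
  · exact absurd (hu _ _ _ hs) h2
  · exact absurd hs.symm h4
  · exact absurd (hv _ _ _ hs).symm h1
  · exact absurd (hu _ _ _ hs).symm h2
  · rfl

open Classical in
theorem bad_count {ι X : Type} [Fintype ι] [DecidableEq ι] [CommRing X] [Fintype X]
    (c : ι → X) (hc : ∀ p q, p ≠ q → IsUnit (c p - c q)) {p q : ι} (hpq : p ≠ q)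
    (σ τ : Equiv.Perm X) :
    ∑ x, ∑ x', ∑ y, ∑ y', (if Gen c p q (σ x) (σ x') (τ y) (τ y') then (0 : ℝ) else 1) ≤
      (2 + 2 * (Fintype.card {m : ι // ¬ (m = p ∨ m = q)} : ℝ)) * (Fintype.card X : ℝ) ^ 3 := by
  set N : ℝ := (Fintype.card X : ℝ) with hN
  have hbd : ∀ x x' y y', (if Gen c p q (σ x) (σ x') (τ y) (τ y') then (0 : ℝ) else 1) ≤
      (if x = x' then 1 else 0) + (if y = y' then 1 else 0) +
      ∑ m : {m : ι // ¬ (m = p ∨ m = q)},
        ((if line c p q m (σ x) (τ y) = line c p q m (σ x') (τ y') then 1 else 0) +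
         (if line c p q m (σ x) (τ y') = line c p q m (σ x') (τ y) then 1 else 0)) := by
    intro x x' y y'
    have h0 : ∀ P : Prop, (0 : ℝ) ≤ if P then 1 else 0 := fun P => by split_ifs <;> norm_num
    have hs : 0 ≤ ∑ m : {m : ι // ¬ (m = p ∨ m = q)},
        (((if line c p q m (σ x) (τ y) = line c p q m (σ x') (τ y') then 1 else 0) : ℝ) +
         (if line c p q m (σ x) (τ y') = line c p q m (σ x') (τ y) then 1 else 0)) :=
      Finset.sum_nonneg fun m _ => add_nonneg (h0 _) (h0 _)
    by_cases hG : Gen c p q (σ x) (σ x') (τ y) (τ y')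
    · rw [if_pos hG]
      have := h0 (x = x')
      have := h0 (y = y')
      linarith
    · rw [if_neg hG]
      by_cases h1 : x = x'
      · rw [if_pos h1]
        have := h0 (y = y')
        linarith
      by_cases h2 : y = y'
      · rw [if_pos h2]
        have := h0 (x = x')
        linarith
      have h3 : ∃ m, ¬ (m = p ∨ m = q) ∧
          (line c p q m (σ x) (τ y) = line c p q m (σ x') (τ y') ∨
            line c p q m (σ x) (τ y') = line c p q m (σ x') (τ y)) := by
        by_contra hcon
        push Not at hcon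
        exact hG ⟨fun h => h1 (σ.injective h), fun h => h2 (τ.injective h), fun m hm =>
          hcon m (by push Not at hm; exact hm)⟩
      obtain ⟨m, hm, h4⟩ := h3
      have h5 : (1 : ℝ) ≤ ∑ m : {m : ι // ¬ (m = p ∨ m = q)},
        (((if line c p q m (σ x) (τ y) = line c p q m (σ x') (τ y') then 1 else 0) : ℝ) +
         (if line c p q m (σ x) (τ y') = line c p q m (σ x') (τ y) then 1 else 0)) := by
        refine le_trans ?_ (Finset.single_le_sum (f := fun m : {m : ι // ¬ (m = p ∨ m = q)} =>
          (((if line c p q m (σ x) (τ y) = line c p q m (σ x') (τ y') then 1 else 0) : ℝ) +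
         (if line c p q m (σ x) (τ y') = line c p q m (σ x') (τ y) then 1 else 0)))
          (fun m _ => add_nonneg (h0 _) (h0 _)) (Finset.mem_univ ⟨m, hm⟩))
        rcases h4 with h4 | h4
        · simp only [h4, if_true]
          have := h0 (line c p q m (σ x) (τ y') = line c p q m (σ x') (τ y))
          linarith
        · simp only [h4, if_true]
          have := h0 (line c p q m (σ x) (τ y) = line c p q m (σ x') (τ y'))
          linarith
      have := h0 (x = x')
      have := h0 (y = y')
      linarith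
  -- single sums
  have hone : ∀ P : X → Prop, (∀ a b, P a → P b → a = b) → ∑ x, (if P x then (1 : ℝ) else 0) ≤ 1 := by
    intro P hP
    rw [Finset.sum_boole]
    have : (univ.filter P).card ≤ 1 := Finset.card_le_one.2 fun a ha b hb =>
      hP a b (Finset.mem_filter.1 ha).2 (Finset.mem_filter.1 hb).2
    exact_mod_cast this
  have hthree : ∀ h : X → X → X → ℝ, (∀ a b c, h a b c ≤ 1) →
      ∑ a, ∑ b, ∑ c, h a b c ≤ N ^ 3 := by
    intro h hh
    calc ∑ a, ∑ b, ∑ c, h a b c ≤ ∑ _a : X, ∑ _b : X, ∑ _c : X, (1 : ℝ) :=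
          Finset.sum_le_sum fun a _ => Finset.sum_le_sum fun b _ => Finset.sum_le_sum fun c _ =>
            hh a b c
      _ = N ^ 3 := by simp [hN]; ring
  have hA : ∑ x : X, ∑ x' : X, ∑ y : X, ∑ y' : X, (if x = x' then (1 : ℝ) else 0) ≤ N ^ 3 := by
    have : ∑ x : X, ∑ x' : X, ∑ y : X, ∑ y' : X, (if x = x' then (1 : ℝ) else 0) =
        ∑ x : X, ∑ y : X, ∑ y' : X, ∑ x' : X, (if x = x' then (1 : ℝ) else 0) := by
      refine Finset.sum_congr rfl fun x _ => ?_
      rw [Finset.sum_comm]
      exact Finset.sum_congr rfl fun y _ => Finset.sum_comm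
    rw [this]
    exact hthree _ fun a b c => hone _ fun s t h1 h2 => h1.symm.trans h2
  have hB : ∑ x : X, ∑ x' : X, ∑ y : X, ∑ y' : X, (if y = y' then (1 : ℝ) else 0) ≤ N ^ 3 :=
    hthree _ fun a b c => hone _ fun s t h1 h2 => h1.symm.trans h2
  have hC : ∀ m : {m : ι // ¬ (m = p ∨ m = q)}, ∑ x : X, ∑ x' : X, ∑ y : X, ∑ y' : X,
      (if line c p q m (σ x) (τ y) = line c p q m (σ x') (τ y') then (1 : ℝ) else 0) ≤ N ^ 3 := by
    intro m
    have hm := m.2
    push Not at hm
    refine hthree _ fun a b d => hone _ fun s t h1 h2 => ?_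
    have h3 := h1.symm.trans h2
    rw [line_eq_iff c hc hpq, sub_self, mul_zero] at h3
    have := (hc m p hm.1).mul_left_cancel (h3.symm.trans (mul_zero _).symm)
    exact τ.injective (sub_eq_zero.1 this)
  have hD : ∀ m : {m : ι // ¬ (m = p ∨ m = q)}, ∑ x : X, ∑ x' : X, ∑ y : X, ∑ y' : X,
      (if line c p q m (σ x) (τ y') = line c p q m (σ x') (τ y) then (1 : ℝ) else 0) ≤ N ^ 3 := by
    intro m
    have hm := m.2
    push Not at hm
    refine hthree _ fun a b d => hone _ fun s t h1 h2 => ?_
    have h3 := h1.trans h2.symm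
    rw [line_eq_iff c hc hpq, sub_self, mul_zero] at h3
    have := (hc m p hm.1).mul_left_cancel (h3.symm.trans (mul_zero _).symm)
    exact τ.injective (sub_eq_zero.1 this)
  calc ∑ x, ∑ x', ∑ y, ∑ y', (if Gen c p q (σ x) (σ x') (τ y) (τ y') then (0 : ℝ) else 1)
      ≤ ∑ x, ∑ x', ∑ y, ∑ y', ((if x = x' then (1 : ℝ) else 0) + (if y = y' then 1 else 0) +
      ∑ m : {m : ι // ¬ (m = p ∨ m = q)},
        ((if line c p q m (σ x) (τ y) = line c p q m (σ x') (τ y') then 1 else 0) +
         (if line c p q m (σ x) (τ y') = line c p q m (σ x') (τ y) then 1 else 0))) :=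
        Finset.sum_le_sum fun x _ => Finset.sum_le_sum fun x' _ => Finset.sum_le_sum fun y _ =>
          Finset.sum_le_sum fun y' _ => hbd x x' y y'
    _ = ∑ x : X, ∑ x' : X, ∑ y : X, ∑ y' : X, (if x = x' then (1 : ℝ) else 0) +
        ∑ x : X, ∑ x' : X, ∑ y : X, ∑ y' : X, (if y = y' then (1 : ℝ) else 0) +
        ∑ m : {m : ι // ¬ (m = p ∨ m = q)}, (∑ x : X, ∑ x' : X, ∑ y : X, ∑ y' : X,
          (if line c p q m (σ x) (τ y) = line c p q m (σ x') (τ y') then (1 : ℝ) else 0) +
          ∑ x : X, ∑ x' : X, ∑ y : X, ∑ y' : X,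
          (if line c p q m (σ x) (τ y') = line c p q m (σ x') (τ y) then (1 : ℝ) else 0)) := by
        simp only [Finset.sum_add_distrib]
        congr 1
        congr 1
        · have e : ∀ h : X → X → X → X → {m : ι // ¬ (m = p ∨ m = q)} → ℝ,
              ∑ x, ∑ x', ∑ y, ∑ y', ∑ m, h x x' y y' m = ∑ m, ∑ x, ∑ x', ∑ y, ∑ y', h x x' y y' m := by
            intro h
            calc ∑ x, ∑ x', ∑ y, ∑ y', ∑ m, h x x' y y' m
                = ∑ x, ∑ x', ∑ y, ∑ m, ∑ y', h x x' y y' m :=
                  Finset.sum_congr rfl fun x _ => Finset.sum_congr rfl fun x' _ =>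
                    Finset.sum_congr rfl fun y _ => Finset.sum_comm
              _ = ∑ x, ∑ x', ∑ m, ∑ y, ∑ y', h x x' y y' m :=
                  Finset.sum_congr rfl fun x _ => Finset.sum_congr rfl fun x' _ => Finset.sum_comm
              _ = ∑ x, ∑ m, ∑ x', ∑ y, ∑ y', h x x' y y' m :=
                  Finset.sum_congr rfl fun x _ => Finset.sum_comm
              _ = ∑ m, ∑ x, ∑ x', ∑ y, ∑ y', h x x' y y' m := Finset.sum_comm
          exact e _
        · have e : ∀ h : X → X → X → X → {m : ι // ¬ (m = p ∨ m = q)} → ℝ,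
              ∑ x, ∑ x', ∑ y, ∑ y', ∑ m, h x x' y y' m = ∑ m, ∑ x, ∑ x', ∑ y, ∑ y', h x x' y y' m := by
            intro h
            calc ∑ x, ∑ x', ∑ y, ∑ y', ∑ m, h x x' y y' m
                = ∑ x, ∑ x', ∑ y, ∑ m, ∑ y', h x x' y y' m :=
                  Finset.sum_congr rfl fun x _ => Finset.sum_congr rfl fun x' _ =>
                    Finset.sum_congr rfl fun y _ => Finset.sum_comm
              _ = ∑ x, ∑ x', ∑ m, ∑ y, ∑ y', h x x' y y' m :=
                  Finset.sum_congr rfl fun x _ => Finset.sum_congr rfl fun x' _ => Finset.sum_comm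
              _ = ∑ x, ∑ m, ∑ x', ∑ y, ∑ y', h x x' y y' m :=
                  Finset.sum_congr rfl fun x _ => Finset.sum_comm
              _ = ∑ m, ∑ x, ∑ x', ∑ y, ∑ y', h x x' y y' m := Finset.sum_comm
          exact e _
    _ ≤ N ^ 3 + N ^ 3 + ∑ _m : {m : ι // ¬ (m = p ∨ m = q)}, (N ^ 3 + N ^ 3) :=
        add_le_add (add_le_add hA hB) (Finset.sum_le_sum fun m _ => add_le_add (hC m) (hD m))
    _ = _ := by
        rw [Finset.sum_const, Finset.card_univ, nsmul_eq_mul]
        ring

end Pool.Agent.Helper166.Tuza
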