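import Pool.Agent.Helper166.TuzaS

set_option autoImplicit false

open Finset

namespace Pool.Agent.Helper166.Tuza

/-- Gluing two prescribed coordinates with the remaining ones. -/
def glue {ι X : Type} [DecidableEq ι] (p q : ι) (x y : X)
    (w : {m : ι // ¬ (m = p ∨ m = q)} → X) : ι → X :=
  fun m => if hp : m = p then x else if hq : m = q then y else w ⟨m, fun h => h.elim hp hq⟩

theorem glue_left {ι X : Type} [DecidableEq ι] (p q : ι) (x y : X)
    (w : {m : ι // ¬ (m = p ∨ m = q)} → X) : glue p q x y w p = x := by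
  simp [glue]

theorem glue_right {ι X : Type} [DecidableEq ι] {p q : ι} (hpq : p ≠ q) (x y : X)
    (w : {m : ι // ¬ (m = p ∨ m = q)} → X) : glue p q x y w q = y := by
  simp [glue, hpq.symm]

theorem glue_rest {ι X : Type} [DecidableEq ι] (p q : ι) (x y : X)
    (w : {m : ι // ¬ (m = p ∨ m = q)} → X) (m : {m : ι // ¬ (m = p ∨ m = q)}) :
    glue p q x y w m = w m := by
  have h := m.2
  push Not at h
  simp [glue, h.1, h.2]

/-- The sum over all vectors by gluing. -/
theorem sum_glue {ι X : Type} [Fintype ι] [DecidableEq ι] [Fintype X] {p q : ι} (hpq : p ≠ q)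
    (f : (ι → X) → ℝ) :
    ∑ x, ∑ y, ∑ w : {m : ι // ¬ (m = p ∨ m = q)} → X, f (glue p q x y w) = ∑ w, f w := by
  classical
  let e : (X × X × ({m : ι // ¬ (m = p ∨ m = q)} → X)) ≃ (ι → X) :=
    { toFun := fun t => glue p q t.1 t.2.1 t.2.2
      invFun := fun w => (w p, w q, fun m => w m)
      left_inv := fun t => by
        refine Prod.ext (glue_left _ _ _ _ _) (Prod.ext (glue_right hpq _ _ _) ?_)
        funext m
        exact glue_rest _ _ _ _ _ m
      right_inv := fun w => by
        funext m
        by_cases h1 : m = p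
        · subst h1; exact glue_left _ _ _ _ _
        · by_cases h2 : m = q
          · subst h2; exact glue_right hpq _ _ _
          · exact glue_rest p q _ _ _ ⟨m, fun h => h.elim h1 h2⟩ }
  rw [← Equiv.sum_comp e f, Fintype.sum_prod_type]
  refine Finset.sum_congr rfl fun x _ => ?_
  rw [Fintype.sum_prod_type]
  rfl

/-- Average of `Ψ` with two coordinates prescribed. -/
noncomputable def Fav {ι X : Type} [Fintype ι] [DecidableEq ι] [Fintype X] (p q : ι)
    (Ψ : (ι → X) → ℝ) (x y : X) : ℝ :=
  (∑ w : {m : ι // ¬ (m = p ∨ m = q)} → X, Ψ (glue p q x y w)) /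
    (Fintype.card X : ℝ) ^ (Fintype.card {m : ι // ¬ (m = p ∨ m = q)})

theorem prod_corner {X : Type} (h : X → X → ℝ) (x x' y y' : X) :
    ∏ s : Bool × Bool, h (if s.1 then x' else x) (if s.2 then y' else y) =
      h x y * h x y' * h x' y * h x' y' := by
  rw [Fintype.prod_prod_type]
  simp only [Fintype.prod_bool, Bool.false_eq_true, if_true, if_false]
  ring

theorem sum4_split {X : Type} [Fintype X] (K b : ℝ) (f g : X → X → X → X → ℝ) :
    ∑ x, ∑ x', ∑ y, ∑ y', K * (f x x' y y' + b + 2 * g x x' y y') =
      K * (∑ x, ∑ x', ∑ y, ∑ y', f x x' y y' + ((Fintype.card X : ℝ) ^ 4 * b) +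
        2 * ∑ x, ∑ x', ∑ y, ∑ y', g x x' y y') := by
  have h1 : ((Fintype.card X : ℝ) ^ 4 * b) = ∑ _x : X, ∑ _x' : X, ∑ _y : X, ∑ _y' : X, b := by
    simp only [Finset.sum_const, Finset.card_univ, nsmul_eq_mul]
    ring
  rw [h1]
  simp only [Finset.mul_sum, mul_add, Finset.sum_add_distrib]

theorem box4_avg {ι X : Type} [Fintype ι] [DecidableEq ι] [CommRing X] [Fintype X]
    [DecidableEq X] (c : ι → X) (hc : ∀ p q, p ≠ q → IsUnit (c p - c q)) {p q : ι} (hpq : p ≠ q)
    (Ψ : (ι → X) → ℝ) (c₀ : ℝ) (hΨ : ∀ w, |Ψ w - c₀| ≤ 1) :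
    ∑ σ : ι → Equiv.Perm X, box4 (fun x y =>
      Ψ (fun m => σ m (line c p q m ((σ p).symm x) ((σ q).symm y))) - c₀) ≤
      (Fintype.card (ι → Equiv.Perm X) : ℝ) *
        (box4 (fun x y => Fav p q Ψ x y - c₀) +
          36 * (Fintype.card ι : ℝ) * (Fintype.card X : ℝ) ^ 3) := by
  classical
  set N : ℝ := (Fintype.card X : ℝ) with hN
  have hNpos : 0 < N := by rw [hN]; exact_mod_cast Fintype.card_pos
  let M : Type := {m : ι // ¬ (m = p ∨ m = q)}
  set L : ℝ := (Fintype.card M : ℝ) with hL
  have hLι : L + 1 ≤ Fintype.card ι := by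
    have : Fintype.card M < Fintype.card ι :=
      Fintype.card_subtype_lt (x := p) (by simp)
    rw [hL]
    exact_mod_cast this
  set K : ℝ := (Fintype.card (M → Equiv.Perm X) : ℝ) with hK
  have hKpos : 0 < K := by rw [hK]; exact_mod_cast Fintype.card_pos
  let e := Equiv.piEquivPiSubtypeProd (fun m : ι => m = p ∨ m = q) (fun _ => Equiv.Perm X)
  have step : ∀ s : {m : ι // m = p ∨ m = q} → Equiv.Perm X,
      ∑ t : M → Equiv.Perm X, box4 (fun x y =>
        Ψ (fun m => e.symm (s, t) m (line c p q m ((e.symm (s, t) p).symm x)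
          ((e.symm (s, t) q).symm y))) - c₀) ≤
      K * (box4 (fun x y => Fav p q Ψ x y - c₀) + 36 * (Fintype.card ι : ℝ) * N ^ 3) := by
    intro s
    set σp : Equiv.Perm X := s ⟨p, Or.inl rfl⟩ with hσp
    set σq : Equiv.Perm X := s ⟨q, Or.inr rfl⟩ with hσq
    have hRe : ∀ (t : M → Equiv.Perm X) (x y : X),
        (fun m => e.symm (s, t) m (line c p q m ((e.symm (s, t) p).symm x)
          ((e.symm (s, t) q).symm y))) =
        glue p q x y (fun m => t m (line c p q m (σp.symm x) (σq.symm y))) := by
      intro t x y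
      have h1 : e.symm (s, t) p = σp := by
        simp [e, Equiv.piEquivPiSubtypeProd_symm_apply, hσp]
      have h2 : e.symm (s, t) q = σq := by
        simp [e, Equiv.piEquivPiSubtypeProd_symm_apply, hσq]
      funext m
      by_cases hp : m = p
      · subst hp
        rw [glue_left, h1, line_left, Equiv.apply_symm_apply]
      · by_cases hq : m = q
        · subst hq
          rw [glue_right hpq, h2, line_right c p m (hc _ _ hpq), Equiv.apply_symm_apply]
        · have h3 : ¬ (m = p ∨ m = q) := fun h => h.elim hp hq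
          have h4 := glue_rest p q x y (fun m => t m (line c p q m (σp.symm x) (σq.symm y))) ⟨m, h3⟩
          simp only at h4
          rw [h4, h1, h2]
          have h5 : e.symm (s, t) m = t ⟨m, h3⟩ := by
            simp [e, Equiv.piEquivPiSubtypeProd_symm_apply, hp, hq]
          rw [h5]
    simp only [hRe]
    -- the corner function
    let Φ : X → X → X → X → (M × (Bool × Bool) → X) → ℝ := fun x x' y y' u =>
      ∏ b : Bool × Bool, (Ψ (glue p q (if b.1 then x' else x) (if b.2 then y' else y)
        (fun m => u (m, b))) - c₀)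
    have hΦ1 : ∀ x x' y y' u, |Φ x x' y y' u| ≤ 1 := by
      intro x x' y y' u
      simp only [Φ]
      rw [Finset.abs_prod]
      exact Finset.prod_le_one (fun _ _ => abs_nonneg _) fun b _ => hΨ _
    have hbox : ∀ t : M → Equiv.Perm X, box4 (fun x y =>
        Ψ (glue p q x y (fun m => t m (line c p q m (σp.symm x) (σq.symm y)))) - c₀) =
        ∑ x, ∑ x', ∑ y, ∑ y', Φ x x' y y' (fun a => t a.1 (line c p q a.1
          (if a.2.1 then σp.symm x' else σp.symm x) (if a.2.2 then σq.symm y' else σq.symm y))) := by
      intro t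
      unfold box4
      refine Finset.sum_congr rfl fun x _ => Finset.sum_congr rfl fun x' _ =>
        Finset.sum_congr rfl fun y _ => Finset.sum_congr rfl fun y' _ => ?_
      rw [← prod_corner (fun x y =>
        Ψ (glue p q x y (fun m => t m (line c p q m (σp.symm x) (σq.symm y)))) - c₀)]
      simp only [Φ]
      refine Finset.prod_congr rfl fun b _ => ?_
      have h1 : σp.symm (if b.1 then x' else x) = if b.1 then σp.symm x' else σp.symm x := by
        split_ifs <;> rfl
      have h2 : σq.symm (if b.2 then y' else y) = if b.2 then σq.symm y' else σq.symm y := by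
        split_ifs <;> rfl
      rw [h1, h2]
    simp only [hbox]
    -- swap the sums
    have hswap : ∑ t : M → Equiv.Perm X, ∑ x, ∑ x', ∑ y, ∑ y', Φ x x' y y' (fun a => t a.1
          (line c p q a.1 (if a.2.1 then σp.symm x' else σp.symm x)
            (if a.2.2 then σq.symm y' else σq.symm y))) =
        ∑ x, ∑ x', ∑ y, ∑ y', ∑ t : M → Equiv.Perm X, Φ x x' y y' (fun a => t a.1
          (line c p q a.1 (if a.2.1 then σp.symm x' else σp.symm x)
            (if a.2.2 then σq.symm y' else σq.symm y))) := by
      rw [Finset.sum_comm]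
      refine Finset.sum_congr rfl fun x _ => ?_
      rw [Finset.sum_comm]
      refine Finset.sum_congr rfl fun x' _ => ?_
      rw [Finset.sum_comm]
      refine Finset.sum_congr rfl fun y _ => ?_
      rw [Finset.sum_comm]
    rw [hswap]
    -- value of the function average
    have hval : ∀ x x' y y', (∑ u : M × (Bool × Bool) → X, Φ x x' y y' u) /
        N ^ (Fintype.card (M × (Bool × Bool))) =
        (Fav p q Ψ x y - c₀) * (Fav p q Ψ x y' - c₀) * (Fav p q Ψ x' y - c₀) *
          (Fav p q Ψ x' y' - c₀) := by
      intro x x' y y'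
      rw [← prod_corner (fun x y => Fav p q Ψ x y - c₀)]
      have h1 := sum_factor (X := X) (C := Bool × Bool) (M := M) (fun b w =>
        Ψ (glue p q (if b.1 then x' else x) (if b.2 then y' else y) w) - c₀)
      simp only [Φ]
      rw [h1, Fintype.card_prod, pow_mul, ← Finset.card_univ (α := Bool × Bool),
        ← Finset.prod_const, ← Finset.prod_div_distrib]
      refine Finset.prod_congr rfl fun b _ => ?_
      rw [Finset.sum_sub_distrib, Finset.sum_const, Finset.card_univ, nsmul_eq_mul, sub_div]
      unfold Fav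
      congr 1
      rw [Fintype.card_fun]
      push_cast
      rw [mul_comm, mul_div_assoc, div_self (pow_ne_zero _ hNpos.ne'), mul_one]
    have hterm : ∀ x x' y y', ∑ t : M → Equiv.Perm X, Φ x x' y y' (fun a => t a.1
          (line c p q a.1 (if a.2.1 then σp.symm x' else σp.symm x)
            (if a.2.2 then σq.symm y' else σq.symm y))) ≤
        K * ((Fav p q Ψ x y - c₀) * (Fav p q Ψ x y' - c₀) * (Fav p q Ψ x' y - c₀) *
          (Fav p q Ψ x' y' - c₀) + 32 * L / N +
          2 * (if Gen c p q (σp.symm x) (σp.symm x') (σq.symm y) (σq.symm y') then 0 else 1)) := by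
      intro x x' y y'
      by_cases hG : Gen c p q (σp.symm x) (σp.symm x') (σq.symm y) (σq.symm y')
      · rw [if_pos hG]
        have h1 := perm_avg (X := X) (C := Bool × Bool) (M := M)
          (fun m b => line c p q m (if b.1 then σp.symm x' else σp.symm x)
            (if b.2 then σq.symm y' else σq.symm y))
          (fun m => gen_inj c hc hpq hG m m.2) (Φ x x' y y') (hΦ1 x x' y y')
        have h2 := (abs_le.1 h1).2
        rw [← hN] at h2
        rw [hval] at h2
        have h3 : (Fintype.card (Bool × Bool) : ℝ) = 4 := by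
          have : Fintype.card (Bool × Bool) = 4 := rfl
          rw [this]
          norm_num
        rw [h3] at h2
        rw [← hK, ← hL] at h2
        have h4 : (∑ t : M → Equiv.Perm X, Φ x x' y y' (fun a => t a.1
          (line c p q a.1 (if a.2.1 then σp.symm x' else σp.symm x)
            (if a.2.2 then σq.symm y' else σq.symm y)))) / K ≤
          (Fav p q Ψ x y - c₀) * (Fav p q Ψ x y' - c₀) * (Fav p q Ψ x' y - c₀) *
          (Fav p q Ψ x' y' - c₀) + 32 * L / N := by
          have : 2 * (L * 4 ^ 2) / N = 32 * L / N := by ring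
          rw [this] at h2
          linarith
        rw [div_le_iff₀ hKpos] at h4
        linarith
      · rw [if_neg hG]
        have h1 : ∑ t : M → Equiv.Perm X, Φ x x' y y' (fun a => t a.1
          (line c p q a.1 (if a.2.1 then σp.symm x' else σp.symm x)
            (if a.2.2 then σq.symm y' else σq.symm y))) ≤ K := by
          have h0 : ∀ G : (M → Equiv.Perm X) → ℝ, (∀ t, G t ≤ 1) → ∑ t, G t ≤ K := by
            intro G hG
            refine (Finset.sum_le_card_nsmul univ G 1 fun t _ => hG t).trans ?_
            rw [Finset.card_univ, nsmul_eq_mul, mul_one]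
          refine h0 _ fun t => ?_
          have h6 := hΦ1 x x' y y' (fun a => t a.1
            (line c p q a.1 (if a.2.1 then σp.symm x' else σp.symm x)
            (if a.2.2 then σq.symm y' else σq.symm y)))
          exact (abs_le.1 h6).2
        have h2 : -1 ≤ (Fav p q Ψ x y - c₀) * (Fav p q Ψ x y' - c₀) * (Fav p q Ψ x' y - c₀) *
          (Fav p q Ψ x' y' - c₀) := by
          rw [← hval, le_div_iff₀ (by positivity)]
          have h3 : -((Fintype.card (M × (Bool × Bool) → X) : ℝ)) ≤
              ∑ u : M × (Bool × Bool) → X, Φ x x' y y' u := by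
            have := (Finset.card_nsmul_le_sum (univ : Finset (M × (Bool × Bool) → X))
              (Φ x x' y y') (-1) fun u _ => (abs_le.1 (hΦ1 _ _ _ _ _)).1)
            simpa using this
          rw [Fintype.card_fun] at h3
          push_cast at h3
          linarith
        have h3 : 0 ≤ 32 * L / N := by positivity
        refine h1.trans (le_mul_of_one_le_right hKpos.le ?_)
        linarith
    calc ∑ x, ∑ x', ∑ y, ∑ y', ∑ t : M → Equiv.Perm X, Φ x x' y y' (fun a => t a.1
          (line c p q a.1 (if a.2.1 then σp.symm x' else σp.symm x)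
            (if a.2.2 then σq.symm y' else σq.symm y)))
        ≤ ∑ x, ∑ x', ∑ y, ∑ y', K * ((Fav p q Ψ x y - c₀) * (Fav p q Ψ x y' - c₀) *
          (Fav p q Ψ x' y - c₀) * (Fav p q Ψ x' y' - c₀) + 32 * L / N +
          2 * (if Gen c p q (σp.symm x) (σp.symm x') (σq.symm y) (σq.symm y') then 0 else 1)) :=
          Finset.sum_le_sum fun x _ => Finset.sum_le_sum fun x' _ =>
            Finset.sum_le_sum fun y _ => Finset.sum_le_sum fun y' _ => hterm x x' y y'
      _ = K * (box4 (fun x y => Fav p q Ψ x y - c₀) + (N ^ 4 * (32 * L / N)) +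
          2 * ∑ x, ∑ x', ∑ y, ∑ y',
            (if Gen c p q (σp.symm x) (σp.symm x') (σq.symm y) (σq.symm y') then 0 else 1)) := by
          exact sum4_split K (32 * L / N) _ _
      _ ≤ K * (box4 (fun x y => Fav p q Ψ x y - c₀) + 36 * (Fintype.card ι : ℝ) * N ^ 3) := by
          refine mul_le_mul_of_nonneg_left ?_ hKpos.le
          have h1 := bad_count c hc hpq σp.symm σq.symm
          rw [← hN] at h1
          have h2 : N ^ 4 * (32 * L / N) = 32 * L * N ^ 3 := by
            field_simp
          rw [h2]
          have h3 : (2 + 2 * (Fintype.card {m : ι // ¬ (m = p ∨ m = q)} : ℝ)) * N ^ 3 =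
            (2 + 2 * L) * N ^ 3 := rfl
          rw [h3] at h1
          have h5 : ∑ x, ∑ x', ∑ y, ∑ y',
            (if Gen c p q (σp.symm x) (σp.symm x') (σq.symm y) (σq.symm y') then (0 : ℝ) else 1) ≤
              (2 + 2 * L) * N ^ 3 := by
            convert h1
          have h4 : (36 * L + 4) * N ^ 3 ≤ 36 * (Fintype.card ι : ℝ) * N ^ 3 := by
            refine mul_le_mul_of_nonneg_right ?_ (by positivity)
            linarith
          linarith
  rw [← Equiv.sum_comp e.symm, Fintype.sum_prod_type]
  refine (Finset.sum_le_sum fun s _ => step s).trans ?_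
  rw [Finset.sum_const, Finset.card_univ, nsmul_eq_mul, ← mul_assoc]
  refine le_of_eq ?_
  congr 1
  rw [hK, Fintype.card_congr e, Fintype.card_prod]
  push_cast
  rfl

end Pool.Agent.Helper166.Tuza
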