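import Pool.Agent.Helper166.TuzaT

set_option autoImplicit false

open Finset

namespace Pool.Agent.Helper166.Tuza

open Classical in
/-- Indicator of a proposition as a real number. -/
noncomputable def ind (P : Prop) : ℝ := if P then 1 else 0

theorem ind_nonneg (P : Prop) : 0 ≤ ind P := by
  unfold ind; split_ifs <;> norm_num

theorem ind_le_one (P : Prop) : ind P ≤ 1 := by
  unfold ind; split_ifs <;> norm_num

theorem ind_true {P : Prop} (h : P) : ind P = 1 := if_pos h

theorem ind_false {P : Prop} (h : ¬ P) : ind P = 0 := if_neg h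

theorem ind_abs (P : Prop) : |ind P| ≤ 1 := by
  rw [abs_of_nonneg (ind_nonneg P)]; exact ind_le_one P

theorem sum_ind {X : Type} [Fintype X] (C : Finset X) : ∑ x, ind (x ∈ C) = (C.card : ℝ) := by
  rw [← Finset.sum_subset (Finset.subset_univ C) fun x _ hx => ind_false hx,
    Finset.sum_congr rfl fun x hx => ind_true hx]
  simp

/-- Sum over all vectors of a product of one-variable functions. -/
theorem sum_prod_one {ι X : Type} [Fintype ι] [DecidableEq ι] [Fintype X] (b : ι → X → ℝ) :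
    ∑ w : ι → X, ∏ m, b m (w m) = ∏ m, ∑ x, b m x := by
  classical
  rw [Finset.prod_univ_sum, Fintype.piFinset_univ]

theorem fav_qr {ι X : Type} [Fintype ι] [LinearOrder ι] [Fintype X] [DecidableEq X] [Nonempty X]
    (t : ι) (g : ι → ι → X → X → ℝ) (h01 : ∀ i j x y, |g i j x y| ≤ 1)
    (d : ι → ι → ℝ) (hd : ∀ i j, |d i j| ≤ 1) {ε : ℝ} (E : Finset (ι × ι))
    (hE : ∀ p ∈ E, p.1 < p.2) (hqr : ∀ p ∈ E, QR (fun x y => g p.1 p.2 x y - d p.1 p.2) ε)
    (C : Finset X) {p q : ι} (hpq : p ≠ q) (hp : p ≠ t) (hq : q ≠ t) :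
    QR (fun x y => Fav p q (fun w => (∏ e ∈ E, g e.1 e.2 (w e.1) (w e.2)) * ind (w t ∈ C)) x y -
      (∏ e ∈ E, d e.1 e.2) * ((C.card : ℝ) / Fintype.card X)) (E.card * ε) := by
  intro a b ha hb
  set N : ℝ := (Fintype.card X : ℝ) with hN
  have hNpos : 0 < N := by rw [hN]; exact_mod_cast Fintype.card_pos
  set Ψ : (ι → X) → ℝ := fun w => (∏ e ∈ E, g e.1 e.2 (w e.1) (w e.2)) * ind (w t ∈ C) with hΨ
  set L : ℕ := Fintype.card {m : ι // ¬ (m = p ∨ m = q)} with hL
  have hLι : Fintype.card ι = L + 2 := by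
    have h1 := Fintype.card_subtype_compl (fun m : ι => m = p ∨ m = q)
    have h2 : Fintype.card {m : ι // m = p ∨ m = q} = 2 := by
      rw [Fintype.card_subtype]
      have : (univ.filter fun m : ι => m = p ∨ m = q) = {p, q} := by
        ext m; simp
      rw [this, Finset.card_pair hpq]
    have h3 : Fintype.card {m : ι // m = p ∨ m = q} ≤ Fintype.card ι := Fintype.card_subtype_le _
    rw [hL, h1, h2]
    omega
  -- one-variable factors
  let β : ι → X → ℝ := fun m x =>
    if m = p then a x else if m = q then b x else if m = t then ind (x ∈ C) else 1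
  have hβ : ∀ m x, |β m x| ≤ 1 := by
    intro m x
    simp only [β]
    split_ifs
    · exact ha x
    · exact hb x
    · exact ind_abs _
    · norm_num
  have hprodβ : ∀ w : ι → X, ∏ m, β m (w m) = a (w p) * b (w q) * ind (w t ∈ C) := by
    intro w
    rw [← Finset.mul_prod_erase univ _ (Finset.mem_univ p),
      ← Finset.mul_prod_erase (univ.erase p) _ (Finset.mem_erase.2 ⟨hpq.symm, Finset.mem_univ q⟩),
      ← Finset.mul_prod_erase ((univ.erase p).erase q) _
        (Finset.mem_erase.2 ⟨hq.symm, Finset.mem_erase.2 ⟨hp.symm, Finset.mem_univ t⟩⟩),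
      Finset.prod_eq_one]
    · simp only [β, if_true]
      rw [if_neg hpq.symm, if_neg hp.symm, if_neg hq.symm]
      ring
    · intro m hm
      simp only [Finset.mem_erase, Finset.mem_univ, and_true] at hm
      simp only [β]
      rw [if_neg hm.2.2, if_neg hm.2.1, if_neg hm.1]
  have hsumβ : ∑ w : ι → X, ∏ m, β m (w m) = (∑ x, a x) * (∑ x, b x) * C.card * N ^ (L - 1) := by
    rw [sum_prod_one]
    rw [← Finset.mul_prod_erase univ _ (Finset.mem_univ p),
      ← Finset.mul_prod_erase (univ.erase p) _ (Finset.mem_erase.2 ⟨hpq.symm, Finset.mem_univ q⟩),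
      ← Finset.mul_prod_erase ((univ.erase p).erase q) _
        (Finset.mem_erase.2 ⟨hq.symm, Finset.mem_erase.2 ⟨hp.symm, Finset.mem_univ t⟩⟩)]
    have h1 : ∏ m ∈ ((univ.erase p).erase q).erase t, ∑ x, β m x = N ^ (L - 1) := by
      have h2 : ∀ m ∈ ((univ.erase p).erase q).erase t, ∑ x, β m x = N := by
        intro m hm
        simp only [Finset.mem_erase, Finset.mem_univ, and_true] at hm
        simp only [β, if_neg hm.2.2, if_neg hm.2.1, if_neg hm.1]
        simp [hN]
      rw [Finset.prod_congr rfl h2, Finset.prod_const]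
      congr 1
      rw [Finset.card_erase_of_mem
        (Finset.mem_erase.2 ⟨hq.symm, Finset.mem_erase.2 ⟨hp.symm, Finset.mem_univ t⟩⟩),
        Finset.card_erase_of_mem (Finset.mem_erase.2 ⟨hpq.symm, Finset.mem_univ q⟩),
        Finset.card_erase_of_mem (Finset.mem_univ p), Finset.card_univ, hLι]
      omega
    rw [h1]
    have h3 : ∑ x, β p x = ∑ x, a x := by simp [β]
    have h4 : ∑ x, β q x = ∑ x, b x := by simp [β, hpq.symm]
    have h5 : ∑ x, β t x = C.card := by
      simp only [β, if_neg hp.symm, if_neg hq.symm, if_true]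
      exact sum_ind C
    rw [h3, h4, h5]
    ring
  have hLpos : 1 ≤ L := by
    rw [hL]
    exact Fintype.card_pos_iff.2 ⟨⟨t, by push Not; exact ⟨hp.symm, hq.symm⟩⟩⟩
  -- the main sum
  have hmain : ∑ x, ∑ y, (Fav p q Ψ x y - (∏ e ∈ E, d e.1 e.2) * ((C.card : ℝ) / N)) * a x * b y =
      (∑ w : ι → X, (∏ e ∈ E, g e.1 e.2 (w e.1) (w e.2)) * ∏ m, β m (w m) -
        (∏ e ∈ E, d e.1 e.2) * ∑ w : ι → X, ∏ m, β m (w m)) / N ^ L := by
    have h1 : ∑ x, ∑ y, Fav p q Ψ x y * a x * b y =
        (∑ w : ι → X, (∏ e ∈ E, g e.1 e.2 (w e.1) (w e.2)) * ∏ m, β m (w m)) / N ^ L := by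
      rw [← sum_glue hpq, Finset.sum_div]
      refine Finset.sum_congr rfl fun x _ => ?_
      rw [Finset.sum_div]
      refine Finset.sum_congr rfl fun y _ => ?_
      have h2 : ∀ w : {m : ι // ¬ (m = p ∨ m = q)} → X,
          (∏ e ∈ E, g e.1 e.2 (glue p q x y w e.1) (glue p q x y w e.2)) *
            ∏ m, β m (glue p q x y w m) = Ψ (glue p q x y w) * (a x * b y) := by
        intro w
        rw [hprodβ, glue_left, glue_right hpq]
        simp only [hΨ]
        ring
      rw [Finset.sum_congr rfl fun w _ => h2 w, ← Finset.sum_mul]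
      unfold Fav
      rw [← hN, ← hL]
      ring
    have h3 : ∑ x, ∑ y, (Fav p q Ψ x y - (∏ e ∈ E, d e.1 e.2) * ((C.card : ℝ) / N)) * a x * b y =
        ∑ x, ∑ y, Fav p q Ψ x y * a x * b y -
        (∏ e ∈ E, d e.1 e.2) * ((C.card : ℝ) / N) * ((∑ x, a x) * (∑ y, b y)) := by
      rw [Finset.sum_mul_sum, Finset.mul_sum, ← Finset.sum_sub_distrib]
      refine Finset.sum_congr rfl fun x _ => ?_
      rw [Finset.mul_sum, ← Finset.sum_sub_distrib]
      exact Finset.sum_congr rfl fun y _ => by ring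
    rw [h3, h1, hsumβ, sub_div]
    congr 1
    obtain ⟨L', hL'⟩ : ∃ L', L = L' + 1 := ⟨L - 1, by omega⟩
    rw [hL']
    simp only [Nat.add_sub_cancel]
    field_simp
    ring
  rw [hmain, abs_div, abs_of_pos (show 0 < N ^ L by positivity), div_le_iff₀ (by positivity)]
  have h1 := counting g h01 d hd β hβ E hE hqr
  rw [← hN, hLι] at h1
  refine h1.trans (le_of_eq ?_)
  ring

end Pool.Agent.Helper166.Tuza
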