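import Pool.Agent.Helper166.TuzaU

set_option autoImplicit false

open Finset

namespace Pool.Agent.Helper166.Tuza

theorem box4_nonneg {X : Type} [Fintype X] [Nonempty X] (f : X → X → ℝ) : 0 ≤ box4 f := by
  have h := pow4_le_box4 f (fun _ => 0) (fun _ => 0) (by simp) (by simp)
  have hN : (0 : ℝ) < (Fintype.card X : ℝ) ^ 4 := by
    have : (0 : ℝ) < Fintype.card X := by exact_mod_cast Fintype.card_pos
    positivity
  by_contra hneg
  push Not at hneg
  have := mul_neg_of_pos_of_neg hN hneg
  simp only [mul_zero, Finset.sum_const_zero] at h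
  norm_num at h
  linarith

/-- The pairs `i < j` of `Fin r`. -/
def prs (r : ℕ) : Finset (Fin r × Fin r) := univ.filter fun e => e.1 < e.2

theorem card_prs (r : ℕ) : (prs r).card ≤ r ^ 2 := by
  refine (Finset.card_filter_le _ _).trans ?_
  simp [sq]

/-- The bite lemma. -/
theorem bite {r : ℕ} {X : Type} [CommRing X] [Fintype X] [DecidableEq X]
    (c : Fin (r + 1) → X) (hc : ∀ p q, p ≠ q → IsUnit (c p - c q))
    (G : Fin r → Fin r → X → X → Prop) (d : Fin r → Fin r → ℝ)
    (hd0 : ∀ i j, 0 ≤ d i j) (hd1 : ∀ i j, d i j ≤ 1) {ε : ℝ} (hε : 0 ≤ ε)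
    (hqr : ∀ i j, i < j → QR (fun x y => ind (G i j x y) - d i j) ε) (C : Finset X) {κ : ℝ}
    (hκ0 : 0 ≤ κ)
    (hκ : (r : ℝ) ^ 2 * ((r : ℝ) ^ 2 * ε + 36 * (r + 1) / Fintype.card X) ≤ κ ^ 4) :
    ∃ T : Finset (Fin r → X),
      (∀ w ∈ T, ∀ i j, i < j → G i j (w i) (w j)) ∧
      (∀ w ∈ T, ∀ w' ∈ T, ∀ i j, i ≠ j → w i = w' i → w j = w' j → w = w') ∧
      (∀ i j, i < j → QR (fun x y => ind (∃ w ∈ T, w i = x ∧ w j = y) -
        (∏ e ∈ prs r, d e.1 e.2) * ((C.card : ℝ) / Fintype.card X)) κ) := by
  classical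
  have : Nonempty X := ⟨0⟩
  set N : ℝ := (Fintype.card X : ℝ) with hN
  have hNpos : 0 < N := by rw [hN]; exact_mod_cast Fintype.card_pos
  -- kernels on `Fin (r + 1)`
  let g : Fin (r + 1) → Fin (r + 1) → X → X → ℝ := fun a b x y =>
    if h : (a : ℕ) < r ∧ (b : ℕ) < r then ind (G ⟨a, h.1⟩ ⟨b, h.2⟩ x y) else 0
  let d' : Fin (r + 1) → Fin (r + 1) → ℝ := fun a b =>
    if h : (a : ℕ) < r ∧ (b : ℕ) < r then d ⟨a, h.1⟩ ⟨b, h.2⟩ else 0
  have hg : ∀ i j : Fin r, g i.castSucc j.castSucc = fun x y => ind (G i j x y) := by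
    intro i j
    funext x y
    simp [g]
  have hd' : ∀ i j : Fin r, d' i.castSucc j.castSucc = d i j := by
    intro i j
    simp [d']
  have h01 : ∀ a b x y, |g a b x y| ≤ 1 := by
    intro a b x y
    simp only [g]
    split_ifs
    · exact ind_abs _
    · norm_num
  have hdd : ∀ a b, |d' a b| ≤ 1 := by
    intro a b
    simp only [d']
    split_ifs
    · rw [abs_of_nonneg (hd0 _ _)]; exact hd1 _ _
    · norm_num
  let emb : Fin r × Fin r ↪ Fin (r + 1) × Fin (r + 1) :=
    ⟨fun e => (e.1.castSucc, e.2.castSucc), fun e e' h => by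
      simp only [Prod.mk.injEq, Fin.castSucc_inj] at h
      exact Prod.ext h.1 h.2⟩
  have hemb : ∀ e, emb e = (e.1.castSucc, e.2.castSucc) := fun e => rfl
  let E : Finset (Fin (r + 1) × Fin (r + 1)) := (prs r).map emb
  have hE : ∀ p ∈ E, p.1 < p.2 := by
    intro p hp
    simp only [E, Finset.mem_map] at hp
    obtain ⟨e, he, rfl⟩ := hp
    simp only [prs, Finset.mem_filter] at he
    exact he.2
  have hEqr : ∀ p ∈ E, QR (fun x y => g p.1 p.2 x y - d' p.1 p.2) ε := by
    intro p hp
    simp only [E, Finset.mem_map] at hp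
    obtain ⟨e, he, rfl⟩ := hp
    simp only [prs, Finset.mem_filter] at he
    rw [hemb]
    simp only
    rw [hg, hd']
    exact hqr _ _ he.2
  set t : Fin (r + 1) := Fin.last r with ht
  set Ψ : (Fin (r + 1) → X) → ℝ := fun w => (∏ e ∈ E, g e.1 e.2 (w e.1) (w e.2)) * ind (w t ∈ C)
    with hΨ
  set c₀ : ℝ := (∏ e ∈ prs r, d e.1 e.2) * ((C.card : ℝ) / N) with hc₀
  have hc₀' : (∏ e ∈ E, d' e.1 e.2) * ((C.card : ℝ) / N) = c₀ := by
    rw [hc₀]
    congr 1
    simp only [E, Finset.prod_map]
    refine Finset.prod_congr rfl fun e _ => ?_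
    exact hd' _ _
  have hΨ' : ∀ w, Ψ w = ind ((∀ i j : Fin r, i < j → G i j (w i.castSucc) (w j.castSucc)) ∧
      w t ∈ C) := by
    intro w
    simp only [hΨ, E, Finset.prod_map]
    have h1 : ∀ e : Fin r × Fin r, g (emb e).1 (emb e).2 (w (emb e).1) (w (emb e).2) =
        ind (G e.1 e.2 (w e.1.castSucc) (w e.2.castSucc)) := fun e => by
      rw [hemb]
      simp only
      rw [hg]
    rw [Finset.prod_congr rfl fun e _ => h1 e]
    by_cases h2 : ∀ i j : Fin r, i < j → G i j (w i.castSucc) (w j.castSucc)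
    · rw [Finset.prod_eq_one, one_mul]
      · by_cases h3 : w t ∈ C
        · rw [ind_true h3, ind_true ⟨h2, h3⟩]
        · rw [ind_false h3, ind_false fun h => h3 h.2]
      · intro e he
        simp only [prs, Finset.mem_filter] at he
        exact ind_true (h2 _ _ he.2)
    · have h4 : ind ((∀ i j : Fin r, i < j → G i j (w i.castSucc) (w j.castSucc)) ∧
          w t ∈ C) = 0 := ind_false fun h => h2 h.1
      rw [h4]
      push Not at h2
      obtain ⟨i, j, hij, h3⟩ := h2
      rw [Finset.prod_eq_zero (i := (i, j)), zero_mul]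
      · simp only [prs, Finset.mem_filter, Finset.mem_univ, true_and]
        exact hij
      · exact ind_false h3
  have hc₀0 : 0 ≤ c₀ := by
    refine mul_nonneg (Finset.prod_nonneg fun e _ => hd0 _ _) (by positivity)
  have hc₀1 : c₀ ≤ 1 := by
    refine mul_le_one₀ (Finset.prod_le_one (fun e _ => hd0 _ _) fun e _ => hd1 _ _)
      (by positivity) ?_
    rw [div_le_one hNpos, hN]
    exact_mod_cast Finset.card_le_univ C
  have hΨ1 : ∀ w, |Ψ w - c₀| ≤ 1 := by
    intro w
    rw [hΨ', abs_le]
    have h1 := ind_nonneg ((∀ i j : Fin r, i < j → G i j (w i.castSucc) (w j.castSucc)) ∧ w t ∈ C)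
    have h2 := ind_le_one ((∀ i j : Fin r, i < j → G i j (w i.castSucc) (w j.castSucc)) ∧ w t ∈ C)
    constructor <;> linarith
  -- the kernels of a tuple of permutations
  let R : (Fin (r + 1) → Equiv.Perm X) → Fin r × Fin r → X → X → ℝ := fun σ e x y =>
    Ψ (fun m => σ m (line c e.1.castSucc e.2.castSucc m ((σ e.1.castSucc).symm x)
      ((σ e.2.castSucc).symm y))) - c₀
  have havg : ∀ e ∈ prs r, ∑ σ : Fin (r + 1) → Equiv.Perm X, box4 (R σ e) ≤
      (Fintype.card (Fin (r + 1) → Equiv.Perm X) : ℝ) *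
        (((r : ℝ) ^ 2 * ε + 36 * (r + 1) / N) * N ^ 4) := by
    intro e he
    simp only [prs, Finset.mem_filter] at he
    have hne : e.1.castSucc ≠ e.2.castSucc := fun h => he.2.ne (Fin.castSucc_injective _ h)
    have hqr' := fav_qr t g h01 d' hdd E hE hEqr C hne (Fin.castSucc_lt_last _).ne
      (Fin.castSucc_lt_last _).ne
    have h1 := box4_avg c hc hne Ψ c₀ hΨ1
    refine h1.trans ?_
    refine mul_le_mul_of_nonneg_left ?_ (Nat.cast_nonneg _)
    have h2 : box4 (fun x y => Fav e.1.castSucc e.2.castSucc Ψ x y - c₀) ≤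
        (E.card * ε) * N ^ 4 := by
      refine box4_le_of_qr _ ?_ ?_
      · intro x y
        unfold Fav
        have h3 : (∑ w : {m : Fin (r + 1) // ¬ (m = e.1.castSucc ∨ m = e.2.castSucc)} → X,
            Ψ (glue e.1.castSucc e.2.castSucc x y w)) /
            (Fintype.card X : ℝ) ^ (Fintype.card
              {m : Fin (r + 1) // ¬ (m = e.1.castSucc ∨ m = e.2.castSucc)}) - c₀ =
            (∑ w : {m : Fin (r + 1) // ¬ (m = e.1.castSucc ∨ m = e.2.castSucc)} → X,
            (Ψ (glue e.1.castSucc e.2.castSucc x y w) - c₀)) /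
            (Fintype.card X : ℝ) ^ (Fintype.card
              {m : Fin (r + 1) // ¬ (m = e.1.castSucc ∨ m = e.2.castSucc)}) := by
          rw [Finset.sum_sub_distrib, sub_div]
          congr 1
          rw [Finset.sum_const, Finset.card_univ, Fintype.card_fun, nsmul_eq_mul]
          push_cast
          rw [← hN, mul_comm, mul_div_assoc, div_self (pow_ne_zero _ hNpos.ne'), mul_one]
        rw [h3, abs_div, div_le_one (by rw [abs_pos]; exact pow_ne_zero _ hNpos.ne')]
        refine (Finset.abs_sum_le_sum_abs _ _).trans ?_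
        refine (Finset.sum_le_card_nsmul _ _ 1 fun w _ => hΨ1 _).trans ?_
        rw [Finset.card_univ, Fintype.card_fun, nsmul_eq_mul, mul_one,
          abs_of_nonneg (by positivity)]
        push_cast
        rfl
      · rw [← hc₀']
        exact hqr'
    have h4 : (E.card : ℝ) ≤ (r : ℝ) ^ 2 := by
      have : E.card ≤ r ^ 2 := by
        simp only [E, Finset.card_map]
        exact card_prs r
      exact_mod_cast this
    have h5 : (E.card * ε) * N ^ 4 ≤ ((r : ℝ) ^ 2 * ε) * N ^ 4 :=
      mul_le_mul_of_nonneg_right (mul_le_mul_of_nonneg_right h4 hε) (by positivity)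
    have h6 : (36 * (r + 1) / N) * N ^ 4 = 36 * ((r : ℝ) + 1) * N ^ 3 := by
      field_simp
    rw [Fintype.card_fin]
    push_cast
    rw [add_mul, h6]
    linarith
  -- choice of the permutations
  obtain ⟨σ, hσ⟩ : ∃ σ : Fin (r + 1) → Equiv.Perm X, ∀ e ∈ prs r,
      box4 (R σ e) ≤ κ ^ 4 * N ^ 4 := by
    have h1 : ∑ σ : Fin (r + 1) → Equiv.Perm X, ∑ e ∈ prs r, box4 (R σ e) ≤
        ∑ _σ : Fin (r + 1) → Equiv.Perm X, κ ^ 4 * N ^ 4 := by
      rw [Finset.sum_comm]
      refine (Finset.sum_le_sum havg).trans ?_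
      rw [Finset.sum_const, Finset.sum_const, Finset.card_univ, nsmul_eq_mul, nsmul_eq_mul]
      have h2 : ((prs r).card : ℝ) ≤ (r : ℝ) ^ 2 := by exact_mod_cast card_prs r
      have h3 : 0 ≤ (r : ℝ) ^ 2 * ε + 36 * (r + 1) / N := by positivity
      have h4 : ((prs r).card : ℝ) * ((r : ℝ) ^ 2 * ε + 36 * (r + 1) / N) ≤ κ ^ 4 :=
        (mul_le_mul_of_nonneg_right h2 h3).trans hκ
      have h5 : (0 : ℝ) ≤ (Fintype.card (Fin (r + 1) → Equiv.Perm X) : ℝ) * N ^ 4 := by positivity
      nlinarith [mul_le_mul_of_nonneg_right h4 h5]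
    obtain ⟨σ, -, hσ⟩ := Finset.exists_le_of_sum_le Finset.univ_nonempty h1
    refine ⟨σ, fun e he => le_trans ?_ hσ⟩
    exact Finset.single_le_sum (f := fun e => box4 (R σ e)) (fun e _ => box4_nonneg _) he
  -- the transversals
  let W : X × X → (Fin (r + 1) → X) := fun ab m => σ m (ab.1 + c m * ab.2)
  let T : Finset (Fin r → X) := (univ.filter fun ab : X × X => Ψ (W ab) = 1).image
    fun ab i => W ab i.castSucc
  have hT : ∀ w, w ∈ T ↔ ∃ ab : X × X, Ψ (W ab) = 1 ∧ (fun i : Fin r => W ab i.castSucc) = w := by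
    intro w
    simp only [T, Finset.mem_image, Finset.mem_filter, Finset.mem_univ, true_and]
  have hagree : ∀ (ab ab' : X × X) (i j : Fin (r + 1)), i ≠ j → W ab i = W ab' i →
      W ab j = W ab' j → ab = ab' := by
    intro ab ab' i j hij h1 h2
    have h3 := (σ i).injective h1
    have h4 := (σ j).injective h2
    have h5 : (c i - c j) * ab.2 = (c i - c j) * ab'.2 := by linear_combination h3 - h4
    have h6 := (hc i j hij).mul_left_cancel h5
    have h7 : ab.1 = ab'.1 := by
      rw [h6] at h3
      exact add_right_cancel h3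
    exact Prod.ext h7 h6
  refine ⟨T, ?_, ?_, ?_⟩
  · intro w hw i j hij
    obtain ⟨ab, h1, rfl⟩ := (hT w).1 hw
    rw [hΨ'] at h1
    by_contra hcon
    rw [ind_false fun h => hcon (h.1 i j hij)] at h1
    norm_num at h1
  · intro w hw w' hw' i j hij h1 h2
    obtain ⟨ab, -, rfl⟩ := (hT w).1 hw
    obtain ⟨ab', -, rfl⟩ := (hT w').1 hw'
    rw [hagree ab ab' i.castSucc j.castSucc (fun h => hij (Fin.castSucc_injective _ h)) h1 h2]
  · intro i j hij
    have hne : i.castSucc ≠ j.castSucc := fun h => hij.ne (Fin.castSucc_injective _ h)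
    have h1 : (fun x y => ind (∃ w ∈ T, w i = x ∧ w j = y) - c₀) = R σ (i, j) := by
      funext x y
      simp only [R]
      congr 1
      let L : Fin (r + 1) → X := fun m => σ m (line c i.castSucc j.castSucc m
        ((σ i.castSucc).symm x) ((σ j.castSucc).symm y))
      have h99 := hΨ' L
      refine Eq.trans ?_ h99.symm
      congr 1
      apply propext
      have hmem : ∀ z : X × X, (Ψ (W z) = 1) ↔
          ((∀ i j : Fin r, i < j → G i j (W z i.castSucc) (W z j.castSucc)) ∧ W z t ∈ C) := by
        intro z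
        rw [hΨ']
        constructor
        · intro h
          by_contra hcon
          rw [ind_false hcon] at h
          norm_num at h
        · intro h
          exact ind_true h
      constructor
      · rintro ⟨w, hw, h2, h3⟩
        obtain ⟨ab, h4, rfl⟩ := (hT w).1 hw
        have h5 : L = W ab := by
          funext m
          simp only [W, L]
          congr 1
          rw [← h2, ← h3]
          simp only [W, Equiv.symm_apply_apply]
          unfold line
          have h6 := Ring.mul_inverse_cancel _ (hc i.castSucc j.castSucc hne)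
          linear_combination (c m - c i.castSucc) * ab.2 * h6
        rw [h5]
        exact (hmem ab).1 h4
      · intro h2
        set u := (σ i.castSucc).symm x with hu
        set v := (σ j.castSucc).symm y with hv
        set s := Ring.inverse (c i.castSucc - c j.castSucc) with hs
        let ab : X × X := (u - c i.castSucc * (s * (u - v)), s * (u - v))
        have h5 : L = W ab := by
          funext m
          simp only [W, ab, L]
          rw [← hu, ← hv]
          congr 1
          unfold line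
          ring
        refine ⟨fun i => W ab i.castSucc, (hT _).2 ⟨ab, ?_, rfl⟩, ?_, ?_⟩
        · rw [hmem, ← h5]
          exact h2
        · change W ab i.castSucc = x
          rw [← h5]
          simp only [L]
          rw [line_left, Equiv.apply_symm_apply]
        · change W ab j.castSucc = y
          rw [← h5]
          simp only [L]
          rw [line_right c _ _ (hc _ _ hne), Equiv.apply_symm_apply]
    rw [h1]
    refine qr_of_box4 _ hκ0 (hσ (i, j) ?_)
    simp only [prs, Finset.mem_filter, Finset.mem_univ, true_and]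
    exact hij

end Pool.Agent.Helper166.Tuza
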