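import Pool.Agent.Helper166.TuzaV

set_option autoImplicit false

open Finset

namespace Pool.Agent.Helper166.Tuza

theorem QR.mono {X : Type} [Fintype X] {f : X → X → ℝ} {ε ε' : ℝ} (h : QR f ε) (hε : ε ≤ ε') :
    QR f ε' := fun a b ha hb => (h a b ha hb).trans
      (mul_le_mul_of_nonneg_right hε (sq_nonneg _))

theorem QR.sub {X : Type} [Fintype X] {f g : X → X → ℝ} {ε ε' : ℝ} (hf : QR f ε) (hg : QR g ε') :
    QR (fun x y => f x y - g x y) (ε + ε') := by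
  intro a b ha hb
  have h1 := hf a b ha hb
  have h2 := hg a b ha hb
  have h3 : ∑ x, ∑ y, (f x y - g x y) * a x * b y =
      ∑ x, ∑ y, f x y * a x * b y - ∑ x, ∑ y, g x y * a x * b y := by
    rw [← Finset.sum_sub_distrib]
    refine Finset.sum_congr rfl fun x _ => ?_
    rw [← Finset.sum_sub_distrib]
    exact Finset.sum_congr rfl fun y _ => by ring
  rw [h3, add_mul]
  exact (abs_sub _ _).trans (add_le_add h1 h2)

/-- Edges used by a family of transversals. -/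
def Used {r : ℕ} {X : Type} (T : Finset (Fin r → X)) (i j : Fin r) (x y : X) : Prop :=
  ∃ w ∈ T, w i = x ∧ w j = y

/-- A valid family of edge-disjoint transversals. -/
def Valid {r : ℕ} {X : Type} (G : Fin r → Fin r → X → X → Prop) (T : Finset (Fin r → X)) : Prop :=
  (∀ w ∈ T, ∀ i j, i < j → G i j (w i) (w j)) ∧
  (∀ w ∈ T, ∀ w' ∈ T, ∀ i j, i ≠ j → w i = w' i → w j = w' j → w = w')

theorem count_of_qr {r : ℕ} (hr : 2 ≤ r) {X : Type} [Fintype X] [DecidableEq X]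
    (T : Finset (Fin r → X)) {c κ : ℝ}
    (h : QR (fun x y => ind (Used T ⟨0, by omega⟩ ⟨1, by omega⟩ x y) - c) κ) :
    (c - κ) * (Fintype.card X : ℝ) ^ 2 ≤ T.card := by
  classical
  have h1 := h (fun _ => 1) (fun _ => 1) (by simp) (by simp)
  simp only [mul_one] at h1
  have h2 : ∑ x : X, ∑ y : X, ind (Used T ⟨0, by omega⟩ ⟨1, by omega⟩ x y) ≤ (T.card : ℝ) := by
    have h3 : ∑ x : X, ∑ y : X, ind (Used T ⟨0, by omega⟩ ⟨1, by omega⟩ x y) =
        ((T.image fun w : Fin r → X => (w ⟨0, by omega⟩, w ⟨1, by omega⟩)).card : ℝ) := by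
      rw [← Fintype.sum_prod_type' (f := fun x y =>
        ind (Used T (⟨0, by omega⟩ : Fin r) ⟨1, by omega⟩ x y)), ← sum_ind]
      refine Finset.sum_congr rfl fun p _ => ?_
      congr 1
      apply propext
      simp only [Used, Finset.mem_image, Prod.ext_iff]
    rw [h3]
    exact_mod_cast Finset.card_image_le
  have h4 : ∑ x : X, ∑ y : X, (ind (Used T ⟨0, by omega⟩ ⟨1, by omega⟩ x y) - c) =
      ∑ x : X, ∑ y : X, ind (Used T ⟨0, by omega⟩ ⟨1, by omega⟩ x y) -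
        c * (Fintype.card X : ℝ) ^ 2 := by
    simp only [Finset.sum_sub_distrib, Finset.sum_const, Finset.card_univ, nsmul_eq_mul]
    ring
  rw [h4] at h1
  have := (abs_le.1 h1).1
  linarith

/-- The iterated extraction statement. -/
def Ext (r : ℕ) (δ γ : ℝ) (n : ℕ) : Prop :=
  ∀ εo : ℝ, 0 < εo → ∃ εi : ℝ, 0 < εi ∧ εi ≤ εo ∧ ∃ N₀ : ℕ,
    ∀ (X : Type) [CommRing X] [Fintype X] [DecidableEq X] (c : Fin (r + 1) → X),
      (∀ p q, p ≠ q → IsUnit (c p - c q)) → N₀ ≤ Fintype.card X →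
      ∀ (G : Fin r → Fin r → X → X → Prop) (d : Fin r → Fin r → ℝ) (z : ℝ), 0 ≤ z →
      (∀ i j, i < j → z ≤ d i j) → (∀ i j, i < j → d i j ≤ 1) →
      (∀ i j, i < j → QR (fun x y => ind (G i j x y) - d i j) εi) →
      ∃ (T : Finset (Fin r → X)) (z' : ℝ), Valid G T ∧ 0 ≤ z' ∧ z' ≤ z ∧
        (z - δ ≤ z' ∨ n * γ ≤ z') ∧ (z' - εo) * (Fintype.card X : ℝ) ^ 2 ≤ T.card ∧
        ∀ i j, i < j → QR (fun x y => ind (G i j x y ∧ ¬ Used T i j x y) - (d i j - z')) εo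

theorem ext_zero (r : ℕ) (δ γ : ℝ) : Ext r δ γ 0 := by
  intro εo hεo
  refine ⟨εo, hεo, le_rfl, 0, ?_⟩
  intro X _ _ _ c hc hN G d z hz0 hz hd hqr
  refine ⟨∅, 0, ⟨by simp, by simp⟩, le_rfl, hz0, Or.inr (by simp), ?_, ?_⟩
  · have : (0 - εo) * (Fintype.card X : ℝ) ^ 2 ≤ 0 :=
      mul_nonpos_of_nonpos_of_nonneg (by linarith) (sq_nonneg _)
    simpa using this
  · intro i j hij
    have h1 := hqr i j hij
    have h2 : (fun x y => ind (G i j x y ∧ ¬ Used (∅ : Finset (Fin r → X)) i j x y) -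
        (d i j - 0)) = fun x y => ind (G i j x y) - d i j := by
      funext x y
      simp [Used]
    rw [h2]
    exact h1

theorem ext_succ {r : ℕ} (hr : 2 ≤ r) {δ : ℝ} (hδ : 0 < δ) (hδ1 : δ ≤ 1) (n : ℕ)
    (ih : Ext r δ (δ ^ (r ^ 2) * (δ / 2)) n) : Ext r δ (δ ^ (r ^ 2) * (δ / 2)) (n + 1) := by
  intro εo hεo
  set κ : ℝ := εo / 2 with hκ
  have hκpos : 0 < κ := by positivity
  have hr' : (2 : ℝ) ≤ r := by exact_mod_cast hr
  set εm : ℝ := min (εo / 2) (κ ^ 4 / (2 * (r : ℝ) ^ 4)) with hεm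
  have hεmpos : 0 < εm := lt_min (by positivity) (by positivity)
  obtain ⟨εi, hεi, hεim, N₀, hN₀⟩ := ih εm hεmpos
  set N₁ : ℕ := max N₀ (max ⌈2 / δ⌉₊ ⌈72 * (r : ℝ) ^ 2 * (r + 1) / κ ^ 4⌉₊) with hN₁
  have hεmo : εm ≤ εo := (min_le_left _ _).trans (by linarith)
  refine ⟨εi, hεi, hεim.trans hεmo, N₁, ?_⟩
  intro X _ _ _ c hc hN G d z hz0 hz hd hqr
  obtain ⟨T, z', hT, hz'0, hz'z, hz'or, hTcard, hTqr⟩ :=
    hN₀ X c hc ((le_max_left _ _).trans hN) G d z hz0 hz hd hqr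
  by_cases hcase : z - δ ≤ z'
  · refine ⟨T, z', hT, hz'0, hz'z, Or.inl hcase, ?_, fun i j hij => (hTqr i j hij).mono hεmo⟩
    refine le_trans ?_ hTcard
    exact mul_le_mul_of_nonneg_right (by linarith) (sq_nonneg _)
  have hz'n := hz'or.resolve_left hcase
  push Not at hcase
  set N : ℝ := (Fintype.card X : ℝ) with hNdef
  have hN1 : 2 / δ ≤ N := by
    have h1 : ⌈2 / δ⌉₊ ≤ Fintype.card X :=
      ((le_max_left _ _).trans (le_max_right _ _)).trans hN
    exact (Nat.le_ceil _).trans (Nat.cast_le.2 h1)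
  have hN2 : 72 * (r : ℝ) ^ 2 * (r + 1) / κ ^ 4 ≤ N := by
    have h1 : ⌈72 * (r : ℝ) ^ 2 * (r + 1) / κ ^ 4⌉₊ ≤ Fintype.card X :=
      ((le_max_right _ _).trans (le_max_right _ _)).trans hN
    exact (Nat.le_ceil _).trans (Nat.cast_le.2 h1)
  have hNpos : 0 < N := lt_of_lt_of_le (by positivity) hN1
  -- the thinning set
  obtain ⟨C, hC1, hC2⟩ : ∃ C : Finset X, δ / 2 ≤ (C.card : ℝ) / N ∧ (C.card : ℝ) / N ≤ δ := by
    have h1 : ⌊δ * N⌋₊ ≤ (univ : Finset X).card := by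
      rw [Finset.card_univ]
      have h2 : δ * N ≤ (Fintype.card X : ℝ) := by
        rw [← hNdef]
        nlinarith
      exact Nat.floor_le_of_le h2
    obtain ⟨C, -, hC⟩ := Finset.exists_subset_card_eq h1
    refine ⟨C, ?_, ?_⟩
    · rw [le_div_iff₀ hNpos, hC]
      have h3 := Nat.lt_floor_add_one (δ * N)
      have h4 : 1 ≤ δ / 2 * N := by
        rw [div_le_iff₀ hδ] at hN1
        linarith
      linarith
    · rw [div_le_iff₀ hNpos, hC]
      exact Nat.floor_le (by positivity)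
  -- the bite
  let G' : Fin r → Fin r → X → X → Prop := fun i j x y => G i j x y ∧ ¬ Used T i j x y
  let d' : Fin r → Fin r → ℝ := fun i j => if i < j then d i j - z' else 0
  have hd'lt : ∀ i j, i < j → d' i j = d i j - z' := fun i j hij => if_pos hij
  have hκ4 : (r : ℝ) ^ 2 * ((r : ℝ) ^ 2 * εm + 36 * (r + 1) / Fintype.card X) ≤ κ ^ 4 := by
    have h1 : (r : ℝ) ^ 4 * εm ≤ κ ^ 4 / 2 := by
      have h2 : εm ≤ κ ^ 4 / (2 * (r : ℝ) ^ 4) := min_le_right _ _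
      have h3 : (0 : ℝ) < (r : ℝ) ^ 4 := by positivity
      calc (r : ℝ) ^ 4 * εm ≤ (r : ℝ) ^ 4 * (κ ^ 4 / (2 * (r : ℝ) ^ 4)) :=
            mul_le_mul_of_nonneg_left h2 h3.le
        _ = κ ^ 4 / 2 := by field_simp
    have h4 : (r : ℝ) ^ 2 * (36 * (r + 1) / N) ≤ κ ^ 4 / 2 := by
      rw [div_le_iff₀ (by positivity)] at hN2
      have h5 : (r : ℝ) ^ 2 * (36 * (r + 1) / N) = (72 * (r : ℝ) ^ 2 * (r + 1)) / (2 * N) := by
        field_simp
        ring
      rw [h5, div_le_iff₀ (by positivity)]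
      linarith
    rw [← hNdef]
    nlinarith
  obtain ⟨T₁, hT₁a, hT₁b, hT₁qr⟩ := bite c hc G' d' (fun i j => by
      simp only [d']
      split_ifs with h
      · have := hz i j h
        linarith
      · exact le_rfl) (fun i j => by
      simp only [d']
      split_ifs with h
      · have := hd i j h
        linarith
      · norm_num) hεmpos.le (fun i j hij => by
      rw [hd'lt i j hij]
      exact hTqr i j hij) C hκpos.le hκ4
  set c₀ : ℝ := (∏ e ∈ prs r, d' e.1 e.2) * ((C.card : ℝ) / Fintype.card X) with hc₀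
  have hd'δ : ∀ e ∈ prs r, δ ≤ d' e.1 e.2 := by
    intro e he
    simp only [prs, Finset.mem_filter] at he
    rw [hd'lt _ _ he.2]
    have := hz _ _ he.2
    linarith
  have hd'1 : ∀ e ∈ prs r, d' e.1 e.2 ≤ 1 := by
    intro e he
    simp only [prs, Finset.mem_filter] at he
    rw [hd'lt _ _ he.2]
    have := hd _ _ he.2
    linarith
  have hprod1 : ∏ e ∈ prs r, d' e.1 e.2 ≤ 1 :=
    Finset.prod_le_one (fun e he => hδ.le.trans (hd'δ e he)) hd'1
  have hprod2 : δ ^ (r ^ 2) ≤ ∏ e ∈ prs r, d' e.1 e.2 := by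
    calc δ ^ (r ^ 2) ≤ δ ^ (prs r).card := pow_le_pow_of_le_one hδ.le hδ1 (card_prs r)
      _ = ∏ _e ∈ prs r, δ := by rw [Finset.prod_const]
      _ ≤ ∏ e ∈ prs r, d' e.1 e.2 := Finset.prod_le_prod (fun _ _ => hδ.le) hd'δ
  have hprod0 : 0 ≤ ∏ e ∈ prs r, d' e.1 e.2 := (pow_pos hδ _).le.trans hprod2
  have hc₀δ : c₀ ≤ δ := by
    calc c₀ ≤ 1 * δ := mul_le_mul hprod1 hC2 (by positivity) (by norm_num)
      _ = δ := one_mul _
  have hc₀γ : δ ^ (r ^ 2) * (δ / 2) ≤ c₀ := mul_le_mul hprod2 hC1 (by positivity) hprod0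
  have hc₀0 : 0 ≤ c₀ := le_trans (by positivity) hc₀γ
  have hsep : ∀ w ∈ T, ∀ w' ∈ T₁, ∀ i j, i ≠ j → w i = w' i → w j = w' j → False := by
    intro w hw w' hw' i j hij h1 h2
    rcases lt_or_gt_of_ne hij with h | h
    · exact (hT₁a w' hw' i j h).2 ⟨w, hw, h1, h2⟩
    · exact (hT₁a w' hw' j i h).2 ⟨w, hw, h2, h1⟩
  have hdisj : Disjoint T T₁ := by
    rw [Finset.disjoint_left]
    intro w hw hw'
    exact hsep w hw w hw' ⟨0, by omega⟩ ⟨1, by omega⟩ (by simp) rfl rfl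
  have hUsed : ∀ i j x y, Used (T ∪ T₁) i j x y ↔ (Used T i j x y ∨ Used T₁ i j x y) := by
    intro i j x y
    simp only [Used, Finset.mem_union]
    constructor
    · rintro ⟨w, h1 | h1, h2⟩
      · exact Or.inl ⟨w, h1, h2⟩
      · exact Or.inr ⟨w, h1, h2⟩
    · rintro (⟨w, h1, h2⟩ | ⟨w, h1, h2⟩)
      · exact ⟨w, Or.inl h1, h2⟩
      · exact ⟨w, Or.inr h1, h2⟩
  refine ⟨T ∪ T₁, z' + c₀, ⟨?_, ?_⟩, by linarith, by linarith, Or.inr ?_, ?_, ?_⟩
  · intro w hw i j hij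
    rcases Finset.mem_union.1 hw with h | h
    · exact hT.1 w h i j hij
    · exact (hT₁a w h i j hij).1
  · intro w hw w' hw' i j hij h1 h2
    rcases Finset.mem_union.1 hw with h | h <;> rcases Finset.mem_union.1 hw' with h' | h'
    · exact hT.2 w h w' h' i j hij h1 h2
    · exact (hsep w h w' h' i j hij h1 h2).elim
    · exact (hsep w' h' w h i j hij h1.symm h2.symm).elim
    · exact hT₁b w h w' h' i j hij h1 h2
  · push_cast
    linarith
  · rw [Finset.card_union_of_disjoint hdisj]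
    have h1 := count_of_qr hr T₁ (hT₁qr ⟨0, by omega⟩ ⟨1, by omega⟩ (by simp))
    rw [← hNdef] at h1
    push_cast
    have h2 : (z' + c₀ - εo) * N ^ 2 ≤ (z' - εm) * N ^ 2 + (c₀ - κ) * N ^ 2 := by
      rw [← add_mul]
      refine mul_le_mul_of_nonneg_right ?_ (sq_nonneg _)
      have : εm ≤ εo / 2 := min_le_left _ _
      linarith
    linarith
  · intro i j hij
    have h1 := (hTqr i j hij).sub (hT₁qr i j hij)
    refine (QR.mono (ε := εm + κ) ?_ (by
      have : εm ≤ εo / 2 := min_le_left _ _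
      linarith))
    convert h1 using 1
    funext x y
    have h2 : ind (G i j x y ∧ ¬ Used (T ∪ T₁) i j x y) =
        ind (G i j x y ∧ ¬ Used T i j x y) - ind (∃ w ∈ T₁, w i = x ∧ w j = y) := by
      by_cases h3 : ∃ w ∈ T₁, w i = x ∧ w j = y
      · rw [ind_true h3]
        have h4 : G i j x y ∧ ¬ Used T i j x y := by
          obtain ⟨w, hw, rfl, rfl⟩ := h3
          exact hT₁a w hw i j hij
        rw [ind_true h4, ind_false, sub_self]
        intro h5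
        exact h5.2 ((hUsed i j x y).2 (Or.inr h3))
      · rw [ind_false h3, sub_zero]
        congr 1
        apply propext
        rw [hUsed]
        constructor
        · rintro ⟨h4, h5⟩
          exact ⟨h4, fun h6 => h5 (Or.inl h6)⟩
        · rintro ⟨h4, h5⟩
          exact ⟨h4, fun h6 => h6.elim h5 h3⟩
    rw [h2]
    ring

/-- The extraction lemma. -/
theorem extraction {r : ℕ} (hr : 2 ≤ r) {δ : ℝ} (hδ : 0 < δ) (hδ1 : δ ≤ 1) :
    ∀ εo : ℝ, 0 < εo → ∃ εi : ℝ, 0 < εi ∧ εi ≤ εo ∧ ∃ N₀ : ℕ,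
    ∀ (X : Type) [CommRing X] [Fintype X] [DecidableEq X] (c : Fin (r + 1) → X),
      (∀ p q, p ≠ q → IsUnit (c p - c q)) → N₀ ≤ Fintype.card X →
      ∀ (G : Fin r → Fin r → X → X → Prop) (d : Fin r → Fin r → ℝ) (z : ℝ), 0 ≤ z →
      (∀ i j, i < j → z ≤ d i j) → (∀ i j, i < j → d i j ≤ 1) →
      (∀ i j, i < j → QR (fun x y => ind (G i j x y) - d i j) εi) →
      ∃ (T : Finset (Fin r → X)) (z' : ℝ), Valid G T ∧ 0 ≤ z' ∧ z' ≤ z ∧
        z - δ ≤ z' ∧ (z' - εo) * (Fintype.card X : ℝ) ^ 2 ≤ T.card ∧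
        ∀ i j, i < j → QR (fun x y => ind (G i j x y ∧ ¬ Used T i j x y) - (d i j - z')) εo := by
  have hall : ∀ n, Ext r δ (δ ^ (r ^ 2) * (δ / 2)) n := by
    intro n
    induction n with
    | zero => exact ext_zero _ _ _
    | succ n ih => exact ext_succ hr hδ hδ1 n ih
  have hγ : 0 < δ ^ (r ^ 2) * (δ / 2) := by positivity
  obtain ⟨n, hn⟩ := exists_nat_gt (1 / (δ ^ (r ^ 2) * (δ / 2)))
  rw [div_lt_iff₀ hγ] at hn
  intro εo hεo
  obtain ⟨εi, h1, h2, N₀, h3⟩ := hall n εo hεo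
  refine ⟨εi, h1, h2, N₀, ?_⟩
  intro X _ _ _ c hc hN G d z hz0 hz hd hqr
  obtain ⟨T, z', hT, hz'0, hz'z, hz'or, hTcard, hTqr⟩ := h3 X c hc hN G d z hz0 hz hd hqr
  refine ⟨T, z', hT, hz'0, hz'z, ?_, hTcard, hTqr⟩
  rcases hz'or with h | h
  · exact h
  · exfalso
    have h4 := hz ⟨0, by omega⟩ ⟨1, by omega⟩ (by simp)
    have h5 := hd ⟨0, by omega⟩ ⟨1, by omega⟩ (by simp)
    linarith

end Pool.Agent.Helper166.Tuza
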