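import Pool.Agent.Helper166.TuzaW

set_option autoImplicit false

open Finset

namespace Pool.Agent.Helper166.Tuza

theorem QR.swap {X : Type} [Fintype X] {f : X → X → ℝ} {ε : ℝ} (h : QR f ε) :
    QR (fun x y => f y x) ε := by
  intro a b ha hb
  have h1 := h b a hb ha
  have h2 : ∑ x, ∑ y, f y x * a x * b y = ∑ x, ∑ y, f x y * b x * a y := by
    rw [Finset.sum_comm]
    refine Finset.sum_congr rfl fun x _ => Finset.sum_congr rfl fun y _ => by ring
  rw [h2]
  exact h1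

/-- Two points lie in a common member of the family. -/
def Up {V : Type} (P : Finset (Finset V)) (u v : V) : Prop := ∃ A ∈ P, u ∈ A ∧ v ∈ A

/-- An edge-disjoint family of `r`-cliques. -/
def Fam {V : Type} [DecidableEq V] (H : V → V → Prop) (r : ℕ) (P : Finset (Finset V)) : Prop :=
  (∀ A ∈ P, A.card = r ∧ ∀ u ∈ A, ∀ v ∈ A, u ≠ v → H u v) ∧
  (∀ A ∈ P, ∀ B ∈ P, ∀ u v, u ≠ v → u ∈ A → v ∈ A → u ∈ B → v ∈ B → A = B)

/-- The extraction property for a pair of errors. -/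
def ExtProp (r : ℕ) (δ εi εo : ℝ) (N₀ : ℕ) : Prop :=
  ∀ (X : Type) [CommRing X] [Fintype X] [DecidableEq X] (c : Fin (r + 1) → X),
      (∀ p q, p ≠ q → IsUnit (c p - c q)) → N₀ ≤ Fintype.card X →
      ∀ (G : Fin r → Fin r → X → X → Prop) (d : Fin r → Fin r → ℝ) (z : ℝ), 0 ≤ z →
      (∀ i j, i < j → z ≤ d i j) → (∀ i j, i < j → d i j ≤ 1) →
      (∀ i j, i < j → QR (fun x y => ind (G i j x y) - d i j) εi) →
      ∃ (T : Finset (Fin r → X)) (z' : ℝ), Valid G T ∧ 0 ≤ z' ∧ z' ≤ z ∧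
        z - δ ≤ z' ∧ (z' - εo) * (Fintype.card X : ℝ) ^ 2 ≤ T.card ∧
        ∀ i j, i < j → QR (fun x y => ind (G i j x y ∧ ¬ Used T i j x y) - (d i j - z')) εo

/-- The state of the packing after processing the sets of `Fp`. -/
def State {k : ℕ} {X : Type} [Fintype X] [DecidableEq X] (H : Fin k × X → Fin k × X → Prop)
    (r : ℕ) (d : Fin k → Fin k → ℝ) (z : Finset (Fin k) → ℝ) (col : Finset (Fin k) → ℕ)
    (e : ℕ → ℝ) (loss : ℝ) (Fp : Finset (Finset (Fin k))) : Prop :=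
  ∃ (P : Finset (Finset (Fin k × X))) (dc : Fin k → Fin k → ℝ),
    Fam H r P ∧ (∀ i j, dc i j = dc j i) ∧
    (∀ i j, i ≠ j → d i j - ∑ S ∈ Fp.filter (fun S => i ∈ S ∧ j ∈ S), z S ≤ dc i j) ∧
    (∀ i j, i ≠ j → dc i j ≤ 1) ∧
    (∀ i j, i ≠ j → ∀ l, (∀ S ∈ Fp, i ∈ S → j ∈ S → col S < l) →
      QR (fun x y => ind (H (i, x) (j, y) ∧ ¬ Up P (i, x) (j, y)) - dc i j) (e l)) ∧
    (∑ S ∈ Fp, z S - Fp.card * loss) * (Fintype.card X : ℝ) ^ 2 ≤ P.card

theorem state_step {k : ℕ} {X : Type} [CommRing X] [Fintype X] [DecidableEq X]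
    (H : Fin k × X → Fin k × X → Prop) (hH : ∀ u v, H u v → H v u)
    {r : ℕ} (hr : 2 ≤ r) (cX : Fin (r + 1) → X)
    (hc : ∀ p q, p ≠ q → IsUnit (cX p - cX q)) (d : Fin k → Fin k → ℝ)
    (z : Finset (Fin k) → ℝ) (col : Finset (Fin k) → ℕ) (e : ℕ → ℝ) (hmono : Monotone e)
    {δ εo : ℝ} {N₀ : ℕ} (hN : N₀ ≤ Fintype.card X) (he : ∀ l, e l ≤ εo)
    (Fp : Finset (Finset (Fin k))) (S : Finset (Fin k)) (hS : S ∉ Fp) (hSr : S.card = r)
    (hz : 0 ≤ z S) (hext : ExtProp r δ (e (col S)) (e (col S + 1)) N₀)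
    (hcol : ∀ S' ∈ Fp, ∀ i j, i ≠ j → i ∈ S → j ∈ S → i ∈ S' → j ∈ S' → col S' < col S)
    (hload : ∀ i j, i ≠ j → i ∈ S → j ∈ S →
      z S + ∑ S ∈ Fp.filter (fun S => i ∈ S ∧ j ∈ S), z S ≤ d i j)
    (hst : State (X := X) H r d z col e (δ + εo) Fp) :
    State (X := X) H r d z col e (δ + εo) (insert S Fp) := by
  classical
  obtain ⟨P, dc, ⟨hP1, hP2⟩, hsymm, hdc, hdc1, hqr, hcard⟩ := hst
  -- enumeration of `S`
  let s : Fin r ↪o Fin k := S.orderEmbOfFin hSr
  have hsS : ∀ i, s i ∈ S := fun i => Finset.orderEmbOfFin_mem S hSr i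
  have hsur : ∀ i ∈ S, ∃ a, s a = i := by
    intro i hi
    have h1 : Set.range s = S := Finset.range_orderEmbOfFin S hSr
    have h2 : i ∈ Set.range s := by rw [h1]; exact hi
    exact h2
  have hsne : ∀ a b, a ≠ b → s a ≠ s b := fun a b hab h => hab (s.injective h)
  let G : Fin r → Fin r → X → X → Prop := fun a b x y =>
    H (s a, x) (s b, y) ∧ ¬ Up P (s a, x) (s b, y)
  obtain ⟨T, z', ⟨hT1, hT2⟩, hz'0, hz'z, hz'δ, hTcard, hTqr⟩ := hext X cX hc hN G
    (fun a b => dc (s a) (s b)) (z S) hz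
    (fun a b hab => by
      have h1 := hdc (s a) (s b) (hsne a b hab.ne)
      have h2 := hload (s a) (s b) (hsne a b hab.ne) (hsS a) (hsS b)
      linarith)
    (fun a b hab => hdc1 _ _ (hsne a b hab.ne))
    (fun a b hab => hqr (s a) (s b) (hsne a b hab.ne) (col S) fun S' hS' h1 h2 =>
      hcol S' hS' _ _ (hsne a b hab.ne) (hsS a) (hsS b) h1 h2)
  -- the new cliques
  let A : (Fin r → X) → Finset (Fin k × X) := fun w => univ.image fun a => (s a, w a)
  have hA : ∀ w u, u ∈ A w ↔ ∃ a, (s a, w a) = u := by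
    intro w u
    simp only [A, Finset.mem_image, Finset.mem_univ, true_and]
  have hAcard : ∀ w, (A w).card = r := by
    intro w
    simp only [A]
    rw [Finset.card_image_of_injective, Finset.card_univ, Fintype.card_fin]
    intro a b hab
    exact s.injective (Prod.ext_iff.1 hab).1
  have hpair : ∀ w u v, u ≠ v → u ∈ A w → v ∈ A w →
      ∃ a b, a ≠ b ∧ (s a, w a) = u ∧ (s b, w b) = v := by
    intro w u v huv hu hv
    obtain ⟨a, rfl⟩ := (hA w u).1 hu
    obtain ⟨b, rfl⟩ := (hA w v).1 hv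
    refine ⟨a, b, ?_, rfl, rfl⟩
    rintro rfl
    exact huv rfl
  have hUpsymm : ∀ u v, Up P u v → Up P v u := by
    rintro u v ⟨B, h1, h2, h3⟩
    exact ⟨B, h1, h3, h2⟩
  have hG : ∀ w ∈ T, ∀ a b, a ≠ b →
      H (s a, w a) (s b, w b) ∧ ¬ Up P (s a, w a) (s b, w b) := by
    intro w hw a b hab
    rcases lt_or_gt_of_ne hab with h | h
    · exact hT1 w hw a b h
    · have h1 := hT1 w hw b a h
      exact ⟨hH _ _ h1.1, fun h2 => h1.2 (hUpsymm _ _ h2)⟩
  have hnew : ∀ B ∈ P, ∀ w ∈ T, ∀ u v, u ≠ v → u ∈ A w → v ∈ A w → u ∈ B → v ∈ B → False := by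
    intro B hB w hw u v huv hu hv hu' hv'
    obtain ⟨a, b, hab, rfl, rfl⟩ := hpair w u v huv hu hv
    exact (hG w hw a b hab).2 ⟨B, hB, hu', hv'⟩
  have hAA : ∀ w ∈ T, ∀ w' ∈ T, ∀ u v, u ≠ v → u ∈ A w → v ∈ A w → u ∈ A w' → v ∈ A w' →
      w = w' := by
    intro w hw w' hw' u v huv hu hv hu' hv'
    obtain ⟨a, b, hab, rfl, rfl⟩ := hpair w u v huv hu hv
    obtain ⟨a', b', hab', h1, h2⟩ := hpair w' _ _ huv hu' hv'
    have h3 : a' = a := s.injective (Prod.ext_iff.1 h1).1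
    have h4 : b' = b := s.injective (Prod.ext_iff.1 h2).1
    subst h3
    subst h4
    exact hT2 w hw w' hw' a' b' hab' (Prod.ext_iff.1 h1).2.symm (Prod.ext_iff.1 h2).2.symm
  have htwo : ∀ w, ∃ u v, u ≠ v ∧ u ∈ A w ∧ v ∈ A w := by
    intro w
    refine ⟨(s ⟨0, by omega⟩, w ⟨0, by omega⟩), (s ⟨1, by omega⟩, w ⟨1, by omega⟩), ?_,
      (hA _ _).2 ⟨_, rfl⟩, (hA _ _).2 ⟨_, rfl⟩⟩
    intro h
    have := s.injective (Prod.ext_iff.1 h).1
    simp at this
  have hAinj : Set.InjOn A T := by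
    intro w hw w' hw' h
    obtain ⟨u, v, huv, hu, hv⟩ := htwo w
    exact hAA w hw w' hw' u v huv hu hv (h ▸ hu) (h ▸ hv)
  have hdisj : Disjoint P (T.image A) := by
    rw [Finset.disjoint_left]
    intro B hB hB'
    obtain ⟨w, hw, rfl⟩ := Finset.mem_image.1 hB'
    obtain ⟨u, v, huv, hu, hv⟩ := htwo w
    exact hnew _ hB w hw u v huv hu hv hu hv
  refine ⟨P ∪ T.image A, fun i j => if i ∈ S ∧ j ∈ S then dc i j - z' else dc i j,
    ⟨?_, ?_⟩, ?_, ?_, ?_, ?_, ?_⟩
  · intro B hB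
    rcases Finset.mem_union.1 hB with h | h
    · exact hP1 B h
    · obtain ⟨w, hw, rfl⟩ := Finset.mem_image.1 h
      refine ⟨hAcard w, fun u hu v hv huv => ?_⟩
      obtain ⟨a, b, hab, rfl, rfl⟩ := hpair w u v huv hu hv
      exact (hG w hw a b hab).1
  · intro B hB B' hB' u v huv hu hv hu' hv'
    rcases Finset.mem_union.1 hB with h | h <;> rcases Finset.mem_union.1 hB' with h' | h'
    · exact hP2 B h B' h' u v huv hu hv hu' hv'
    · obtain ⟨w, hw, rfl⟩ := Finset.mem_image.1 h'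
      exact (hnew B h w hw u v huv hu' hv' hu hv).elim
    · obtain ⟨w, hw, rfl⟩ := Finset.mem_image.1 h
      exact (hnew B' h' w hw u v huv hu hv hu' hv').elim
    · obtain ⟨w, hw, rfl⟩ := Finset.mem_image.1 h
      obtain ⟨w', hw', rfl⟩ := Finset.mem_image.1 h'
      rw [hAA w hw w' hw' u v huv hu hv hu' hv']
  · intro i j
    dsimp only
    rw [hsymm i j]
    by_cases h : i ∈ S ∧ j ∈ S
    · rw [if_pos h, if_pos h.symm]
    · rw [if_neg h, if_neg fun h' => h h'.symm]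
  · intro i j hij
    dsimp only
    have h1 := hdc i j hij
    by_cases h : i ∈ S ∧ j ∈ S
    · rw [if_pos h, Finset.filter_insert, if_pos h, Finset.sum_insert (by
        rw [Finset.mem_filter]; exact fun h' => hS h'.1)]
      linarith
    · rw [if_neg h, Finset.filter_insert, if_neg h]
      exact h1
  · intro i j hij
    dsimp only
    have h1 := hdc1 i j hij
    split_ifs
    · linarith
    · exact h1
  · intro i j hij l hl
    have hUp : ∀ u v, Up (P ∪ T.image A) u v ↔ (Up P u v ∨ ∃ w ∈ T, u ∈ A w ∧ v ∈ A w) := by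
      intro u v
      constructor
      · rintro ⟨B, hB, h2, h3⟩
        rcases Finset.mem_union.1 hB with h | h
        · exact Or.inl ⟨B, h, h2, h3⟩
        · obtain ⟨w, hw, rfl⟩ := Finset.mem_image.1 h
          exact Or.inr ⟨w, hw, h2, h3⟩
      · rintro (⟨B, hB, h2, h3⟩ | ⟨w, hw, h2, h3⟩)
        · exact ⟨B, Finset.mem_union_left _ hB, h2, h3⟩
        · exact ⟨A w, Finset.mem_union_right _ (Finset.mem_image_of_mem A hw), h2, h3⟩
    have hl' : ∀ S' ∈ Fp, i ∈ S' → j ∈ S' → col S' < l := fun S' hS' =>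
      hl S' (Finset.mem_insert_of_mem hS')
    by_cases h : i ∈ S ∧ j ∈ S
    · obtain ⟨a, rfl⟩ := hsur i h.1
      obtain ⟨b, rfl⟩ := hsur j h.2
      have hab : a ≠ b := fun h' => hij (by rw [h'])
      have hlS : col S + 1 ≤ l := hl S (Finset.mem_insert_self _ _) h.1 h.2
      have key : ∀ a b, a < b → QR (fun x y => ind (H (s a, x) (s b, y) ∧
          ¬ Up (P ∪ T.image A) (s a, x) (s b, y)) - (dc (s a) (s b) - z')) (e l) := by
        intro a b hab
        refine QR.mono ?_ (hmono hlS)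
        have h1 := hTqr a b hab
        convert h1 using 1
        funext x y
        congr 2
        apply propext
        rw [hUp]
        have h2 : (∃ w ∈ T, (s a, x) ∈ A w ∧ (s b, y) ∈ A w) ↔ Used T a b x y := by
          constructor
          · rintro ⟨w, hw, h3, h4⟩
            obtain ⟨a', h5⟩ := (hA _ _).1 h3
            obtain ⟨b', h6⟩ := (hA _ _).1 h4
            have h7 : a' = a := s.injective (Prod.ext_iff.1 h5).1
            have h8 : b' = b := s.injective (Prod.ext_iff.1 h6).1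
            subst h7
            subst h8
            exact ⟨w, hw, (Prod.ext_iff.1 h5).2, (Prod.ext_iff.1 h6).2⟩
          · rintro ⟨w, hw, rfl, rfl⟩
            exact ⟨w, hw, (hA _ _).2 ⟨a, rfl⟩, (hA _ _).2 ⟨b, rfl⟩⟩
        rw [h2]
        simp only [G]
        tauto
      simp only [if_pos h]
      rcases lt_or_gt_of_ne hab with hlt | hlt
      · exact key a b hlt
      · have h1 := (key b a hlt).swap
        convert h1 using 1
        funext x y
        rw [hsymm (s a) (s b)]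
        congr 2
        apply propext
        have h3 : Up (P ∪ T.image A) (s a, x) (s b, y) ↔
            Up (P ∪ T.image A) (s b, y) (s a, x) := by
          constructor <;> rintro ⟨B, h4, h5, h6⟩ <;> exact ⟨B, h4, h6, h5⟩
        rw [h3]
        constructor
        · rintro ⟨h4, h5⟩; exact ⟨hH _ _ h4, h5⟩
        · rintro ⟨h4, h5⟩; exact ⟨hH _ _ h4, h5⟩
    · simp only [if_neg h]
      have h1 := hqr i j hij l hl'
      convert h1 using 1
      funext x y
      congr 2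
      apply propext
      rw [hUp]
      have h2 : ¬ ∃ w ∈ T, (i, x) ∈ A w ∧ (j, y) ∈ A w := by
        rintro ⟨w, hw, h3, h4⟩
        obtain ⟨a', h5⟩ := (hA _ _).1 h3
        obtain ⟨b', h6⟩ := (hA _ _).1 h4
        have h7 : s a' = i := (Prod.ext_iff.1 h5).1
        have h8 : s b' = j := (Prod.ext_iff.1 h6).1
        exact h ⟨h7 ▸ hsS a', h8 ▸ hsS b'⟩
      constructor
      · rintro ⟨h3, h4⟩
        exact ⟨h3, fun h5 => h4 (Or.inl h5)⟩
      · rintro ⟨h3, h4⟩
        exact ⟨h3, fun h5 => h5.elim h4 h2⟩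
  · rw [Finset.card_union_of_disjoint hdisj, Finset.card_image_of_injOn hAinj,
      Finset.sum_insert hS, Finset.card_insert_of_notMem hS]
    have h1 : (z S - (δ + εo)) * (Fintype.card X : ℝ) ^ 2 ≤ T.card := by
      refine le_trans ?_ hTcard
      refine mul_le_mul_of_nonneg_right ?_ (sq_nonneg _)
      have := he (col S + 1)
      linarith
    push_cast
    have h2 : (z S + ∑ S ∈ Fp, z S - ((Fp.card : ℝ) + 1) * (δ + εo)) *
        (Fintype.card X : ℝ) ^ 2 = (∑ S ∈ Fp, z S - Fp.card * (δ + εo)) *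
        (Fintype.card X : ℝ) ^ 2 + (z S - (δ + εo)) * (Fintype.card X : ℝ) ^ 2 := by ring
    rw [h2]
    exact add_le_add hcard h1

end Pool.Agent.Helper166.Tuza
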