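import Pool.Agent.Helper166.TuzaX

set_option autoImplicit false

open Finset

namespace Pool.Agent.Helper166.Tuza

theorem ExtProp.mono {r : ℕ} {δ εi εo : ℝ} {N₀ N₁ : ℕ} (h : ExtProp r δ εi εo N₀) (hN : N₀ ≤ N₁) :
    ExtProp r δ εi εo N₁ := by
  intro X _ _ _ c hc hX
  exact h X c hc (hN.trans hX)

theorem assembly {r : ℕ} (hr : 2 ≤ r) {δ : ℝ} (hδ : 0 < δ) (hδ1 : δ ≤ 1) {εo : ℝ} (hεo : 0 < εo)
    (D : ℕ) :
    ∃ εi : ℝ, 0 < εi ∧ ∃ N₀ : ℕ, ∀ (k : ℕ) (X : Type) [CommRing X] [Fintype X] [DecidableEq X]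
      (cX : Fin (r + 1) → X), (∀ p q, p ≠ q → IsUnit (cX p - cX q)) → N₀ ≤ Fintype.card X →
      ∀ (H : Fin k × X → Fin k × X → Prop), (∀ u v, H u v → H v u) →
      ∀ d : Fin k → Fin k → ℝ, (∀ i j, d i j = d j i) → (∀ i j, d i j ≤ 1) →
      (∀ i j, i ≠ j → QR (fun x y => ind (H (i, x) (j, y)) - d i j) εi) →
      ∀ (F : Finset (Finset (Fin k))) (z : Finset (Fin k) → ℝ) (col : Finset (Fin k) → ℕ),
        (∀ S ∈ F, S.card = r) → (∀ S ∈ F, 0 ≤ z S) → (∀ S ∈ F, col S < D) →
        (∀ S ∈ F, ∀ S' ∈ F, S ≠ S' → col S = col S' → (S ∩ S').card ≤ 1) →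
        (∀ i j, i ≠ j → ∑ S ∈ F.filter (fun S => i ∈ S ∧ j ∈ S), z S ≤ d i j) →
        ∃ P : Finset (Finset (Fin k × X)), Fam H r P ∧
          (∑ S ∈ F, z S - F.card * (δ + εo)) * (Fintype.card X : ℝ) ^ 2 ≤ P.card := by
  classical
  have h0 : ∀ ε : ℝ, 0 < ε → ∃ εi : ℝ, 0 < εi ∧ εi ≤ ε ∧ ∃ N₀ : ℕ, ExtProp r δ εi ε N₀ :=
    extraction hr hδ hδ1
  choose! f hf0 hf1 hf2 using h0
  choose! g hg using hf2
  let e : ℕ → ℝ := fun l => f^[D - l] εo
  have hit : ∀ n, 0 < f^[n] εo ∧ f^[n] εo ≤ εo := by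
    intro n
    induction n with
    | zero => exact ⟨hεo, le_rfl⟩
    | succ n ih =>
      rw [Function.iterate_succ_apply']
      exact ⟨hf0 _ ih.1, (hf1 _ ih.1).trans ih.2⟩
  have he0 : ∀ l, 0 < e l := fun l => (hit _).1
  have heo : ∀ l, e l ≤ εo := fun l => (hit _).2
  have hstep : ∀ l, l < D → e l = f (e (l + 1)) := by
    intro l hl
    simp only [e]
    have : D - l = (D - (l + 1)) + 1 := by omega
    rw [this, Function.iterate_succ_apply']
  have hmono : Monotone e := by
    refine monotone_nat_of_le_succ fun l => ?_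
    by_cases hl : l < D
    · rw [hstep l hl]
      exact hf1 _ (he0 _)
    · simp only [e]
      have h1 : D - l = 0 := by omega
      have h2 : D - (l + 1) = 0 := by omega
      rw [h1, h2]
  refine ⟨e 0, he0 0, (range D).sup fun l => g (e (l + 1)), ?_⟩
  intro k X _ _ _ cX hc hN H hH d hds hd1 hqr F z col hFr hz hcolD hconf hload
  have main : ∀ Fp : Finset (Finset (Fin k)), Fp ⊆ F →
      State (X := X) H r d z col e (δ + εo) Fp := by
    intro Fp
    induction Fp using Finset.induction_on_max_value col with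
    | empty =>
      intro _
      refine ⟨∅, d, ⟨by simp, by simp⟩, hds, fun i j _ => by simp, fun i j _ => hd1 i j, ?_, by simp⟩
      intro i j hij l _
      have h1 := (hqr i j hij).mono (hmono (Nat.zero_le l))
      convert h1 using 1
      funext x y
      congr 2
      apply propext
      simp [Up]
    | insert S Fp hS hmax ih =>
      intro hsub
      have hSF : S ∈ F := hsub (Finset.mem_insert_self _ _)
      have hFp : Fp ⊆ F := fun S' h => hsub (Finset.mem_insert_of_mem h)
      have hcS := hcolD S hSF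
      refine state_step H hH hr cX hc d z col e hmono (N₀ := g (e (col S + 1))) ?_ heo Fp S hS
        (hFr S hSF) (hz S hSF) ?_ ?_ ?_ (ih hFp)
      · refine le_trans ?_ hN
        exact Finset.le_sup (f := fun l => g (e (l + 1))) (Finset.mem_range.2 hcS)
      · rw [hstep _ hcS]
        exact hg _ (he0 _)
      · intro S' hS' i j hij hi hj hi' hj'
        have h1 := hmax S' hS'
        have hne : S ≠ S' := fun h => hS (h ▸ hS')
        rcases h1.lt_or_eq with h2 | h2
        · exact h2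
        · exfalso
          have h3 := hconf S hSF S' (hFp hS') hne h2.symm
          have h4 : 1 < (S ∩ S').card := Finset.one_lt_card.2
            ⟨i, Finset.mem_inter.2 ⟨hi, hi'⟩, j, Finset.mem_inter.2 ⟨hj, hj'⟩, hij⟩
          omega
      · intro i j hij hi hj
        refine le_trans ?_ (hload i j hij)
        rw [← Finset.sum_insert (f := z) (s := Fp.filter fun S => i ∈ S ∧ j ∈ S) (a := S) (by
          rw [Finset.mem_filter]; exact fun h => hS h.1)]
        refine Finset.sum_le_sum_of_subset_of_nonneg ?_ ?_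
        · intro S' hS'
          rcases Finset.mem_insert.1 hS' with h | h
          · rw [h]
            exact Finset.mem_filter.2 ⟨hSF, hi, hj⟩
          · rw [Finset.mem_filter] at h
            exact Finset.mem_filter.2 ⟨hFp h.1, h.2⟩
        · intro S' hS' _
          exact hz S' (Finset.mem_filter.1 hS').1
  obtain ⟨P, -, hP, -, -, -, -, hcard⟩ := main F (Finset.Subset.refl _)
  exact ⟨P, hP, hcard⟩

end Pool.Agent.Helper166.Tuza
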