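import Pool.Agent.Helper166.TuzaD
import Pool.Agent.Helper166.TuzaY
import Pool.Agent.Helper166.TuzaJ

set_option autoImplicit false

open Finset

namespace Pool.Agent.Helper166.Tuza

/-- `P` is a family of pairwise edge-disjoint copies of `K_r` in `G`, each copy being given by its
vertex set (a clique with `r` vertices); edge-disjoint means that no two distinct members
contain a common pair of distinct vertices. -/
def IsEdgeDisjointFamily {n : ℕ} (G : SimpleGraph (Fin n)) (r : ℕ)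
    (P : Finset (Finset (Fin n))) : Prop :=
  (∀ A ∈ P, G.IsNClique r A) ∧
  ∀ A ∈ P, ∀ B ∈ P, A ≠ B → ∀ u v, u ≠ v → ¬ (u ∈ A ∧ v ∈ A ∧ u ∈ B ∧ v ∈ B)

theorem unit_diff {r N : ℕ} (hN : N ≡ 1 [MOD r.factorial]) (p q : Fin (r + 1)) (hpq : p ≠ q) :
    IsUnit (((p : ℕ) : ZMod N) - ((q : ℕ) : ZMod N)) := by
  have key : ∀ p q : Fin (r + 1), p < q → IsUnit (((q : ℕ) : ZMod N) - ((p : ℕ) : ZMod N)) := by
    intro p q hlt
    have h1 : ((q : ℕ) : ZMod N) - ((p : ℕ) : ZMod N) = (((q : ℕ) - (p : ℕ) : ℕ) : ZMod N) := by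
      rw [Nat.cast_sub (le_of_lt hlt)]
    rw [h1, ZMod.isUnit_iff_coprime]
    have hd : ((q : ℕ) - (p : ℕ)) ∣ r.factorial := by
      refine Nat.dvd_factorial ?_ ?_
      · have : (p : ℕ) < q := hlt
        omega
      · have := q.is_lt
        omega
    have h2 : N ≡ 1 [MOD ((q : ℕ) - (p : ℕ))] := hN.of_dvd hd
    have h3 : Nat.gcd N ((q : ℕ) - (p : ℕ)) = Nat.gcd 1 ((q : ℕ) - (p : ℕ)) := h2.gcd_eq
    rw [Nat.gcd_one_left] at h3
    exact Nat.Coprime.symm h3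
  rcases lt_or_gt_of_ne hpq with h | h
  · have h1 := key p q h
    rw [← neg_sub]
    exact h1.neg
  · exact key q p h

open Classical in
/-- Quantitative form of the main theorem. -/
theorem main_eps {r : ℕ} (hr : 2 ≤ r) {θ : ℝ} (hθ : θ = ((r : ℝ) - 2) / (r - 1)) {η : ℝ}
    (hη : 0 < η) :
    ∃ n₀ : ℕ, ∀ n, n₀ ≤ n → ∀ G : SimpleGraph (Fin n), ∃ P : Finset (Finset (Fin n)),
      IsEdgeDisjointFamily G r P ∧
      (2 * (G.edgeFinset.card : ℝ) - θ * (n : ℝ) ^ 2) / r - η * (n : ℝ) ^ 2 ≤ P.card := by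
  have hr' : (2 : ℝ) ≤ r := by exact_mod_cast hr
  set η' : ℝ := min η 1 with hη'
  have hη'pos : 0 < η' := lt_min hη one_pos
  have hη'1 : η' ≤ 1 := min_le_right _ _
  have hη'η : η' ≤ η := min_le_left _ _
  obtain ⟨D, hD⟩ := plan hr hθ (η := η' / 4) (by positivity) (by linarith)
  obtain ⟨εi, hεi, N₀, hN₀⟩ := assembly hr (δ := η' / 16) (by positivity) (by linarith)
    (εo := η' / 16) (by positivity) D
  obtain ⟨K, n₀, hreg⟩ := TuzaReg.regular_model r.factorial (Nat.factorial_pos r)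
    (ε := min εi (η' / 4)) (lt_min hεi (by positivity)) (max N₀ 1)
  refine ⟨n₀, fun n hn G => ?_⟩
  obtain ⟨k, N, hk, -, hN, hmod, hkN, φ, H, d, hHG, hds, hd0, hd1, hqr, hedge⟩ := hreg n hn G
  obtain ⟨N', rfl⟩ : ∃ N', N = N' + 1 := ⟨N - 1, by
    have : 1 ≤ N := (le_max_right _ _).trans hN
    omega⟩
  obtain ⟨F, z, col, hFr, hz, hcol, hconf, hload, hsum, hFcard⟩ := hD k hk d hd0 hd1 hds
  obtain ⟨P, hPfam, hPcard⟩ := hN₀ k (ZMod (N' + 1)) (fun m => ((m : ℕ) : ZMod (N' + 1)))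
    (fun p q hpq => unit_diff hmod p q hpq)
    (by rw [ZMod.card]; exact (le_max_left _ _).trans hN)
    (fun u v => H.Adj u v) (fun u v h => h.symm) d hds hd1
    (fun i j hij => by
      have h1 : QR (X := Fin (N' + 1)) (fun x y => ind (H.Adj (i, x) (j, y)) - d i j)
        (min εi (η' / 4)) := hqr i j hij
      exact QR.mono h1 (min_le_left _ _))
    F z col hFr hz hcol hconf hload
  -- transport
  let ψ : Fin k × ZMod (N' + 1) ↪ Fin n := φ
  have hψ : ∀ u v, H.Adj u v → G.Adj (ψ u) (ψ v) := hHG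
  refine ⟨P.image fun A => A.map ψ, ⟨?_, ?_⟩, ?_⟩
  · intro B hB
    obtain ⟨A, hA, rfl⟩ := Finset.mem_image.1 hB
    obtain ⟨h1, h2⟩ := hPfam.1 A hA
    refine ⟨?_, by rw [Finset.card_map, h1]⟩
    intro u hu v hv huv
    rw [Finset.mem_coe, Finset.mem_map] at hu hv
    obtain ⟨u, hu, rfl⟩ := hu
    obtain ⟨v, hv, rfl⟩ := hv
    exact hψ _ _ (h2 u hu v hv fun h => huv (by rw [h]))
  · intro B hB B' hB' hne u v huv ⟨h1, h2, h3, h4⟩
    obtain ⟨A, hA, rfl⟩ := Finset.mem_image.1 hB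
    obtain ⟨A', hA', rfl⟩ := Finset.mem_image.1 hB'
    rw [Finset.mem_map] at h1 h2
    obtain ⟨u, hu, rfl⟩ := h1
    obtain ⟨v, hv, rfl⟩ := h2
    rw [Finset.mem_map' ψ] at h3 h4
    refine hne ?_
    rw [hPfam.2 A hA A' hA' u v (fun h => huv (by rw [h])) hu hv h3 h4]
  · have hinj : Function.Injective fun A : Finset (Fin k × ZMod (N' + 1)) => A.map ψ :=
      Finset.map_injective ψ
    rw [Finset.card_image_of_injective _ hinj]
    rw [ZMod.card] at hPcard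
    refine le_trans ?_ hPcard
    set M : ℝ := ((N' + 1 : ℕ) : ℝ) with hM
    set s : ℝ := ∑ i, ∑ j ∈ univ.erase i, d i j with hs
    have hMk : (k : ℝ) ^ 2 * M ^ 2 ≤ (n : ℝ) ^ 2 := by
      rw [← mul_pow]
      refine pow_le_pow_left₀ (by positivity) ?_ 2
      rw [hM]
      exact_mod_cast hkN
    have hF1 : (F.card : ℝ) ≤ 2 * (k : ℝ) ^ 2 := by
      have h1 : (F.card : ℝ) ≤ (k : ℝ) ^ 2 + 1 := by exact_mod_cast hFcard
      have h2 : (1 : ℝ) ≤ (k : ℝ) ^ 2 := by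
        have : (1 : ℝ) ≤ k := by exact_mod_cast hk
        nlinarith
      linarith
    have hθ0 : 0 ≤ θ := by
      rw [hθ]
      exact div_nonneg (by linarith) (by linarith)
    have hrpos : (0 : ℝ) < r := by linarith
    have h1 : (s - θ * k ^ 2) / r - η' / 4 * k ^ 2 - F.card * (η' / 16 + η' / 16) ≤
        ∑ S ∈ F, z S - F.card * (η' / 16 + η' / 16) := by linarith
    have h2 : (F.card : ℝ) * (η' / 16 + η' / 16) ≤ η' / 4 * (k : ℝ) ^ 2 := by
      nlinarith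
    have h3 : ((s - θ * k ^ 2) / r - η' / 2 * k ^ 2) * M ^ 2 ≤
        (∑ S ∈ F, z S - F.card * (η' / 16 + η' / 16)) * M ^ 2 := by
      refine mul_le_mul_of_nonneg_right ?_ (sq_nonneg _)
      linarith
    refine le_trans ?_ h3
    have h4 : ((s - θ * k ^ 2) / r - η' / 2 * k ^ 2) * M ^ 2 =
        (s * M ^ 2 - θ * (k ^ 2 * M ^ 2)) / r - η' / 2 * (k ^ 2 * M ^ 2) := by ring
    rw [h4]
    have h5 : 2 * (G.edgeFinset.card : ℝ) ≤ s * M ^ 2 + min εi (η' / 4) * (n : ℝ) ^ 2 := hedge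
    have h6 : min εi (η' / 4) * (n : ℝ) ^ 2 ≤ η' / 4 * (n : ℝ) ^ 2 :=
      mul_le_mul_of_nonneg_right (min_le_right _ _) (sq_nonneg _)
    have h7 : θ * (k ^ 2 * M ^ 2) ≤ θ * (n : ℝ) ^ 2 := mul_le_mul_of_nonneg_left hMk hθ0
    have h8 : (2 * (G.edgeFinset.card : ℝ) - θ * (n : ℝ) ^ 2 - η' / 4 * (n : ℝ) ^ 2) / r ≤
        (s * M ^ 2 - θ * (k ^ 2 * M ^ 2)) / r := by
      refine div_le_div_of_nonneg_right ?_ hrpos.le
      linarith
    have h9 : (η' / 4 * (n : ℝ) ^ 2) / r ≤ η' / 4 * (n : ℝ) ^ 2 :=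
      div_le_self (by positivity) (by linarith)
    have h10 : η' / 2 * ((k : ℝ) ^ 2 * M ^ 2) ≤ η' / 2 * (n : ℝ) ^ 2 :=
      mul_le_mul_of_nonneg_left hMk (by positivity)
    have h11 : η' * (n : ℝ) ^ 2 ≤ η * (n : ℝ) ^ 2 :=
      mul_le_mul_of_nonneg_right hη'η (sq_nonneg _)
    have h12 : (2 * (G.edgeFinset.card : ℝ) - θ * (n : ℝ) ^ 2 - η' / 4 * (n : ℝ) ^ 2) / r =
        (2 * (G.edgeFinset.card : ℝ) - θ * (n : ℝ) ^ 2) / r - (η' / 4 * (n : ℝ) ^ 2) / r := by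
      rw [sub_div]
    have h13 : 0 ≤ η' * (n : ℝ) ^ 2 := by positivity
    rw [h12] at h8
    linarith

end Pool.Agent.Helper166.Tuza
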